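import Pool.Agent.NPC.StC

/-!
# NPC, module AFF: affine changes of the variables
-/

set_option autoImplicit false

namespace Pool.Agent.NPC

open Polynomial Pool.Agent.Helper11.SP

section AFF

variable {K : Type} [Field K]

private noncomputable def AFFT (φ ψ : K[X]) : K[X][X] →+* K[X][X] :=
  (compRingHom (ψ.map C)).comp (mapRingHom (compRingHom φ))

private theorem AFFT_eq (φ ψ : K[X]) (P : K[X][X]) : sub2 φ ψ P = AFFT φ ψ P := rfl

private theorem AFFT_C (φ ψ q : K[X]) : AFFT φ ψ (C q) = C (q.comp φ) := by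
  rw [← AFFT_eq]
  unfold sub2
  rw [map_C, C_comp]
  rfl

private theorem AFFT_X (φ ψ : K[X]) : AFFT φ ψ X = ψ.map C := by
  rw [← AFFT_eq]
  unfold sub2
  rw [map_X, X_comp]

private theorem AFFT_map (φ ψ q : K[X]) : AFFT φ ψ (q.map C) = (q.comp ψ).map C := by
  rw [← AFFT_eq]
  unfold sub2
  rw [Polynomial.map_map, Polynomial.map_comp]
  congr 1
  congr 1
  refine RingHom.ext fun a => ?_
  show (C a).comp φ = C a
  rw [C_comp]

private theorem AFFT_inv (φ ψ φ₁ ψ₁ : K[X]) (h1 : φ₁.comp φ = X) (h2 : ψ₁.comp ψ = X) :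
    (AFFT φ ψ).comp (AFFT φ₁ ψ₁) = RingHom.id _ := by
  refine Polynomial.ringHom_ext' ?_ ?_
  · refine Polynomial.ringHom_ext' ?_ ?_
    · refine RingHom.ext fun a => ?_
      show AFFT φ ψ (AFFT φ₁ ψ₁ (C (C a))) = C (C a)
      rw [AFFT_C, C_comp, AFFT_C, C_comp]
    · show AFFT φ ψ (AFFT φ₁ ψ₁ (C X)) = C X
      rw [AFFT_C, X_comp, AFFT_C, h1]
  · show AFFT φ ψ (AFFT φ₁ ψ₁ X) = X
    rw [AFFT_X, AFFT_map, h2, map_X]

private theorem AFFT_swp (φ ψ : K[X]) (P : K[X][X]) : swp (AFFT φ ψ P) = AFFT ψ φ (swp P) := by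
  have : ((Bivariate.swap (R := K) : K[X][X] ≃ₐ[K] K[X][X]) : K[X][X] →+* K[X][X]).comp
      (AFFT φ ψ) = (AFFT ψ φ).comp
      ((Bivariate.swap (R := K) : K[X][X] ≃ₐ[K] K[X][X]) : K[X][X] →+* K[X][X]) := by
    refine Polynomial.ringHom_ext' ?_ ?_
    · refine Polynomial.ringHom_ext' ?_ ?_
      · refine RingHom.ext fun a => ?_
        show Bivariate.swap (AFFT φ ψ (C (C a))) = AFFT ψ φ (Bivariate.swap (C (C a)))
        rw [AFFT_C, C_comp, Bivariate.swap_C_C, AFFT_C, C_comp]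
      · show Bivariate.swap (AFFT φ ψ (C X)) = AFFT ψ φ (Bivariate.swap (C X))
        rw [AFFT_C, X_comp, Bivariate.swap_C, Bivariate.swap_X, AFFT_X]
    · show Bivariate.swap (AFFT φ ψ X) = AFFT ψ φ (Bivariate.swap X)
      rw [AFFT_X, Bivariate.swap_map_C, Bivariate.swap_Y, AFFT_C, X_comp]
  exact RingHom.congr_fun this P

private theorem AFF_lin {u v : K} (hu : u ≠ 0) :
    (C u⁻¹ * X - C (u⁻¹ * v)).comp (C u * X + C v) = X ∧
    (C u * X + C v).comp (C u⁻¹ * X - C (u⁻¹ * v)) = X := by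
  have h1 : (C u⁻¹ : K[X]) * C u = 1 := by rw [← C_mul, inv_mul_cancel₀ hu, C_1]
  constructor
  · simp only [sub_comp, mul_comp, C_comp, X_comp]
    rw [mul_add, ← mul_assoc, h1, one_mul, C_mul]
    ring
  · simp only [add_comp, mul_comp, C_comp, X_comp]
    rw [mul_sub, ← mul_assoc, mul_comm (C u) (C u⁻¹), h1, one_mul, C_mul, ← mul_assoc,
      mul_comm (C u) (C u⁻¹), h1, one_mul]
    ring

private noncomputable def AFFE {u v u' v' : K} (hu : u ≠ 0) (hu' : u' ≠ 0) :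
    K[X][X] ≃+* K[X][X] :=
  RingEquiv.ofRingHom (AFFT (C u * X + C v) (C u' * X + C v'))
    (AFFT (C u⁻¹ * X - C (u⁻¹ * v)) (C u'⁻¹ * X - C (u'⁻¹ * v')))
    (AFFT_inv _ _ _ _ (AFF_lin hu).1 (AFF_lin hu').1)
    (AFFT_inv _ _ _ _ (AFF_lin hu).2 (AFF_lin hu').2)

private theorem AFF_deg (φ : K[X]) {u' v' : K} (hu' : u' ≠ 0) (P : K[X][X])
    (hφ : Function.Injective (compRingHom φ : K[X] →+* K[X])) :
    (sub2 φ (C u' * X + C v') P).natDegree = P.natDegree := by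
  unfold sub2
  rw [natDegree_comp, natDegree_map_eq_of_injective hφ,
    natDegree_map_eq_of_injective C_injective, natDegree_linear hu', mul_one]

private theorem AFF_inj {u v : K} (hu : u ≠ 0) :
    Function.Injective (compRingHom (C u * X + C v) : K[X] →+* K[X]) := by
  rw [injective_iff_map_eq_zero]
  intro q hq
  have hq : q.comp (C u * X + C v) = 0 := hq
  rcases comp_eq_zero_iff.1 hq with h | ⟨-, h⟩
  · exact h
  · have := natDegree_linear (a := u) (b := v) hu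
    rw [h, natDegree_C] at this
    omega

end AFF

theorem thm_AFF (hSB2 : St_SB2) : St_AFF := by
  intro K _ u v u' v' h hu hu' hirr hd1 hd2 hY hX
  have hinj : ∀ P : K[X][X], P ≠ 0 → sub2 (C u * X + C v) (C u' * X + C v') P ≠ 0 := by
    intro P hP h0
    exact hP ((map_eq_zero_iff (AFFE (v := v) (v' := v') hu hu') (RingEquiv.injective _)).1 h0)
  have hder : ∀ w v : K, derivative (C w * X + C v) = C w := by
    intro w v
    simp
  refine ⟨?_, ?_, ?_, ?_, ?_⟩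
  · exact (MulEquiv.irreducible_iff (AFFE (v := v) (v' := v') hu hu')).2 hirr
  · rw [AFF_deg _ hu' _ (AFF_inj hu)]
    exact hd1
  · rw [AFFT_eq, AFFT_swp, ← AFFT_eq, AFF_deg _ hu _ (AFF_inj hu')]
    exact hd2
  · rw [(hSB2 K K _ _ h 0 0).2.1, hder, map_C]
    exact mul_ne_zero (hinj _ hY) (by rw [Ne, C_eq_zero, C_eq_zero]; exact hu')
  · rw [(hSB2 K K _ _ h 0 0).2.2, hder]
    exact mul_ne_zero (by rw [Ne, C_eq_zero, C_eq_zero]; exact hu) (hinj _ hX)

end Pool.Agent.NPC
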