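import Pool.Agent.NPC.StA

/-!
# NPC/BAS (helper13): a basis of `K[x, y] / (δ(x))`
-/

set_option autoImplicit false

namespace Pool.Agent.NPC

open Polynomial

private lemma BAS_sum {R : Type} [CommRing R] (p : R[X]) (n : ℕ) (h : p.degree < n) :
    p = ∑ i : Fin n, C (p.coeff i) * X ^ (i : ℕ) := by
  rw [Polynomial.sum_fin (fun i c => C c * X ^ i) (by intro i; simp) h,
    Polynomial.sum_C_mul_X_pow_eq]

section

variable {K V : Type} [Field K] [Field V] [Algebra K V]

/-- evaluation as a ring homomorphism -/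
private noncomputable def BAS_ev (x y : V) : K[X][X] →+* V :=
  eval₂RingHom ((aeval x : K[X] →ₐ[K] V) : K[X] →+* V) y

private lemma BAS_ev_eq (x y : V) (P : K[X][X]) : evA x y P = BAS_ev x y P := by
  unfold evA BAS_ev
  rw [coe_eval₂RingHom, eval_map]

private lemma BAS_ev_C (x y : V) (q : K[X]) : BAS_ev x y (C q) = aeval x q := by
  unfold BAS_ev
  rw [coe_eval₂RingHom, eval₂_C]
  rfl

private lemma BAS_ev_X (x y : V) : BAS_ev (K := K) x y X = y := by
  unfold BAS_ev
  rw [coe_eval₂RingHom, eval₂_X]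

private lemma BAS_ev_mem (x y : V) (P : K[X][X]) :
    BAS_ev x y P ∈ Algebra.adjoin K ({x, y} : Set V) := by
  have hx : x ∈ Algebra.adjoin K ({x, y} : Set V) := Algebra.subset_adjoin (by simp)
  have hy : y ∈ Algebra.adjoin K ({x, y} : Set V) := Algebra.subset_adjoin (by simp)
  induction P using Polynomial.induction_on' with
  | add p q hp hq =>
    rw [map_add]
    exact Subalgebra.add_mem _ hp hq
  | monomial n a =>
    rw [← C_mul_X_pow_eq_monomial, map_mul, map_pow, BAS_ev_C, BAS_ev_X]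
    apply Subalgebra.mul_mem _ _ (Subalgebra.pow_mem _ hy n)
    have : aeval x a ∈ Algebra.adjoin K ({x} : Set V) := by
      rw [Algebra.adjoin_singleton_eq_range_aeval]
      exact ⟨a, rfl⟩
    exact Algebra.adjoin_mono (by simp) this

private lemma BAS_ev_surj (x y : V) (z : V) (hz : z ∈ Algebra.adjoin K ({x, y} : Set V)) :
    ∃ P : K[X][X], z = BAS_ev x y P := by
  induction hz using Algebra.adjoin_induction with
  | mem w hw =>
    rcases hw with rfl | hw
    · exact ⟨C X, by rw [BAS_ev_C, aeval_X]⟩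
    · rw [Set.mem_singleton_iff] at hw
      rw [hw]
      exact ⟨X, (BAS_ev_X x y).symm⟩
  | algebraMap r => exact ⟨C (C r), by rw [BAS_ev_C, aeval_C]⟩
  | add a b _ _ ha hb =>
    obtain ⟨P, rfl⟩ := ha
    obtain ⟨Q, rfl⟩ := hb
    exact ⟨P + Q, (map_add _ _ _).symm⟩
  | mul a b _ _ ha hb =>
    obtain ⟨P, rfl⟩ := ha
    obtain ⟨Q, rfl⟩ := hb
    exact ⟨P * Q, (map_mul _ _ _).symm⟩

/-- the family -/
private noncomputable def BAS_u (x y : V) (d n : ℕ) (i : Fin (d * n)) : V :=
  x ^ ((finProdFinEquiv.symm i).1 : ℕ) * y ^ ((finProdFinEquiv.symm i).2 : ℕ)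

/-- the polynomial with given coefficients -/
private noncomputable def BAS_P (d n : ℕ) (g : Fin d → Fin n → K) : K[X][X] :=
  ∑ b : Fin n, C (∑ a : Fin d, C (g a b) * X ^ (a : ℕ)) * X ^ (b : ℕ)

private lemma BAS_key (x y : V) (d n : ℕ) (g : Fin d → Fin n → K) :
    ∑ i, g (finProdFinEquiv.symm i).1 (finProdFinEquiv.symm i).2 • BAS_u x y d n i =
      BAS_ev x y (BAS_P d n g) := by
  unfold BAS_u BAS_P
  rw [Equiv.sum_comp (finProdFinEquiv (m := d) (n := n)).symm
    (fun ab : Fin d × Fin n => g ab.1 ab.2 • (x ^ (ab.1 : ℕ) * y ^ (ab.2 : ℕ)))]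
  rw [Fintype.sum_prod_type_right, map_sum]
  apply Finset.sum_congr rfl
  intro b _
  rw [map_mul, map_pow, BAS_ev_C, BAS_ev_X, map_sum, Finset.sum_mul]
  apply Finset.sum_congr rfl
  intro a _
  rw [map_mul, aeval_C, map_pow, aeval_X, Algebra.smul_def, mul_assoc]

end

theorem thm_BAS : St_BAS := by
  intro K V _ _ _ x y F δ _ hrel hF hδ hco
  obtain ⟨d, hd⟩ : ∃ d, d = δ.natDegree := ⟨_, rfl⟩
  obtain ⟨n, hn⟩ : ∃ n, n = F.natDegree := ⟨_, rfl⟩
  rw [← hd, ← hn]
  have hker : ∀ P : K[X][X], BAS_ev x y P = 0 ↔ F ∣ P := by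
    intro P
    rw [← BAS_ev_eq]
    exact hrel P
  obtain ⟨a, b, hab⟩ := hco
  -- a monic polynomial
  obtain ⟨G, hG⟩ : ∃ G : K[X][X], G = C b * F + C (a * δ) * X ^ n := ⟨_, rfl⟩
  have hFn : F.coeff n = F.leadingCoeff := by rw [hn]; rfl
  have hGdeg : G.natDegree ≤ n := by
    rw [hG]
    apply (natDegree_add_le _ _).trans
    apply max_le
    · exact (natDegree_C_mul_le _ _).trans hn.symm.le
    · exact natDegree_C_mul_X_pow_le _ _
  have hGn : G.coeff n = 1 := by
    rw [hG, coeff_add, coeff_C_mul, coeff_C_mul, coeff_X_pow, if_pos rfl, mul_one, hFn, ← hab]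
    ring
  have hGm : G.Monic := monic_of_natDegree_le_of_coeff_eq_one n hGdeg hGn
  have hGnd : G.natDegree = n := natDegree_eq_of_le_of_coeff_ne_zero hGdeg (by rw [hGn]; exact one_ne_zero)
  have hGd : G.degree = n := by rw [degree_eq_natDegree hGm.ne_zero, hGnd]
  have hdeg : ∀ P : K[X][X], (P %ₘ G).degree < (n : WithBot ℕ) := by
    intro P
    rw [← hGd]
    exact degree_modByMonic_lt P hGm
  have hδd : δ.degree = d := by rw [degree_eq_natDegree hδ, hd]
  refine ⟨BAS_u x y d n, ?_, ?_, ?_⟩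
  · intro i
    unfold BAS_u
    apply Subalgebra.mul_mem
    · exact Subalgebra.pow_mem _ (Algebra.subset_adjoin (by simp)) _
    · exact Subalgebra.pow_mem _ (Algebra.subset_adjoin (by simp)) _
  · intro z hz
    obtain ⟨P, rfl⟩ := BAS_ev_surj x y z hz
    obtain ⟨R, hR⟩ : ∃ R, R = P %ₘ G := ⟨_, rfl⟩
    obtain ⟨Q, hQ⟩ : ∃ Q, Q = P /ₘ G := ⟨_, rfl⟩
    have hP : P = R + G * Q := by rw [hR, hQ, modByMonic_add_div]
    obtain ⟨R', hR'⟩ : ∃ R' : K[X][X], R' = ∑ b : Fin n, C (R.coeff b / δ) * X ^ (b : ℕ) :=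
      ⟨_, rfl⟩
    have hR2 : R = BAS_P d n (fun a b => (R.coeff b % δ).coeff a) + C δ * R' := by
      have hRd : R.degree < (n : WithBot ℕ) := by rw [hR]; exact hdeg P
      conv_lhs => rw [BAS_sum R n hRd]
      unfold BAS_P
      rw [hR', Finset.mul_sum, ← Finset.sum_add_distrib]
      apply Finset.sum_congr rfl
      intro b _
      have h1 : (R.coeff b % δ).degree < (d : WithBot ℕ) := by
        rw [← hδd]
        exact EuclideanDomain.mod_lt _ hδ
      rw [← BAS_sum (R.coeff b % δ) d h1, ← mul_assoc, ← C_mul, ← add_mul, ← C_add,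
        EuclideanDomain.mod_add_div]
    refine ⟨fun i => (R.coeff (finProdFinEquiv.symm i).2 % δ).coeff (finProdFinEquiv.symm i).1,
      BAS_ev x y (R' + C a * X ^ n * Q), BAS_ev_mem _ _ _, ?_⟩
    have h3 := BAS_key x y d n (fun a b => (R.coeff b % δ).coeff a)
    beta_reduce at h3
    rw [h3, ← BAS_ev_C x y δ, ← map_mul, ← map_add]
    have h4 : BAS_ev x y (C b * F * Q) = 0 := (hker _).2 ⟨C b * Q, by ring⟩
    have h5 : P = (BAS_P d n (fun a b => (R.coeff b % δ).coeff a) +
        C δ * (R' + C a * X ^ n * Q)) + C b * F * Q := by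
      conv_lhs => rw [hP, hR2, hG]
      rw [C_mul]
      ring
    conv_lhs => rw [h5, map_add, h4, add_zero]
  · rintro c ⟨z', hz', h⟩
    obtain ⟨P', rfl⟩ := BAS_ev_surj x y z' hz'
    obtain ⟨g, hg⟩ : ∃ g : Fin d → Fin n → K, ∀ a b, g a b = c (finProdFinEquiv (a, b)) :=
      ⟨_, fun _ _ => rfl⟩
    have hc : ∀ i, c i = g (finProdFinEquiv.symm i).1 (finProdFinEquiv.symm i).2 := by
      intro i
      rw [hg, Prod.mk.eta, Equiv.apply_symm_apply]
    have h1 : ∑ i, c i • BAS_u x y d n i = BAS_ev x y (BAS_P d n g) := by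
      rw [← BAS_key]
      exact Finset.sum_congr rfl fun i _ => by rw [hc i]
    obtain ⟨P₁, hP₁⟩ : ∃ P₁, P₁ = BAS_P d n g := ⟨_, rfl⟩
    rw [h1, ← hP₁, ← BAS_ev_C x y δ, ← map_mul, ← sub_eq_zero, ← map_sub, hker] at h
    obtain ⟨A, hA⟩ := h
    have hco2 : IsCoprime δ b := ⟨a, F.leadingCoeff, by rw [← hab]; ring⟩
    -- degrees
    have hP₁c : ∀ m : Fin n, P₁.coeff m = ∑ a : Fin d, C (g a m) * X ^ (a : ℕ) := by
      intro m
      rw [hP₁]
      unfold BAS_P
      rw [finsetSum_coeff]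
      rw [Finset.sum_eq_single m]
      · rw [coeff_C_mul, coeff_X_pow, if_pos rfl, mul_one]
      · intro b _ hb
        rw [coeff_C_mul, coeff_X_pow, if_neg (fun h => hb (Fin.ext h).symm), mul_zero]
      · intro h
        exact absurd (Finset.mem_univ _) h
    have hP₁d : P₁.degree < (n : WithBot ℕ) := by
      rw [degree_lt_iff_coeff_zero]
      intro m hm
      rw [hP₁]
      unfold BAS_P
      rw [finsetSum_coeff]
      apply Finset.sum_eq_zero
      intro b _
      rw [coeff_C_mul, coeff_X_pow, if_neg (by have := b.isLt; omega), mul_zero]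
    obtain ⟨P'', hP''⟩ : ∃ P'' : K[X][X], P'' = C b * P' - C a * X ^ n * A := ⟨_, rfl⟩
    have e1 : C b * P₁ = G * A + C δ * P'' := by
      have : P₁ = F * A + C δ * P' := by rw [← hA]; ring
      rw [hP'', hG, this, C_mul]
      ring
    obtain ⟨R, hR⟩ : ∃ R, R = P'' %ₘ G := ⟨_, rfl⟩
    obtain ⟨Q, hQ⟩ : ∃ Q, Q = P'' /ₘ G := ⟨_, rfl⟩
    have hPR : P'' = R + G * Q := by rw [hR, hQ, modByMonic_add_div]
    have hRd : R.degree < (n : WithBot ℕ) := by rw [hR]; exact hdeg _
    have e2 : C b * P₁ - C δ * R = G * (A + C δ * Q) := by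
      rw [e1, hPR]; ring
    have e3 : A + C δ * Q = 0 := by
      by_contra hne
      have h2 : (C b * P₁ - C δ * R).degree < (n : WithBot ℕ) := by
        apply lt_of_le_of_lt (degree_sub_le _ _)
        apply max_lt
        · refine lt_of_le_of_lt (degree_mul_le _ _) ?_
          refine lt_of_le_of_lt (add_le_add (degree_C_le) le_rfl) ?_
          rw [zero_add]
          exact hP₁d
        · refine lt_of_le_of_lt (degree_mul_le _ _) ?_
          refine lt_of_le_of_lt (add_le_add (degree_C_le) le_rfl) ?_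
          rw [zero_add]
          exact hRd
      rw [e2, mul_comm, hGm.degree_mul, hGd, degree_eq_natDegree hne] at h2
      have h3 : (A + C δ * Q).natDegree + n < n := by exact_mod_cast h2
      omega
    rw [e3, mul_zero, sub_eq_zero] at e2
    -- coefficients
    have hcoef : ∀ m : Fin n, ∑ a : Fin d, C (g a m) * X ^ (a : ℕ) = 0 := by
      intro m
      have h2 : δ ∣ b * P₁.coeff m := by
        refine ⟨R.coeff m, ?_⟩
        have := congrArg (fun P : K[X][X] => P.coeff m) e2
        simpa only [coeff_C_mul] using this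
      have h3 : δ ∣ P₁.coeff m := hco2.dvd_of_dvd_mul_left h2
      rw [hP₁c m] at h3
      by_contra hne
      have h4 := degree_le_of_dvd h3 hne
      have h5 : (∑ a : Fin d, C (g a m) * X ^ (a : ℕ)).degree < (d : WithBot ℕ) := by
        rw [degree_lt_iff_coeff_zero]
        intro k hk
        rw [finsetSum_coeff]
        apply Finset.sum_eq_zero
        intro b _
        rw [coeff_C_mul, coeff_X_pow, if_neg (by have := b.isLt; omega), mul_zero]
      rw [hδd] at h4
      exact absurd (lt_of_le_of_lt h4 h5) (lt_irrefl _)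
    funext i
    rw [hc i, Pi.zero_apply]
    have h6 := congrArg (fun q : K[X] => q.coeff ((finProdFinEquiv.symm i).1 : ℕ))
      (hcoef (finProdFinEquiv.symm i).2)
    rw [coeff_zero, finsetSum_coeff, Finset.sum_eq_single (finProdFinEquiv.symm i).1] at h6
    · rw [coeff_C_mul, coeff_X_pow, if_pos rfl, mul_one] at h6
      exact h6
    · intro b _ hb
      rw [coeff_C_mul, coeff_X_pow, if_neg (fun h => hb (Fin.ext h).symm), mul_zero]
    · intro h
      exact absurd (Finset.mem_univ _) h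

end Pool.Agent.NPC
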