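import Pool.Agent.NPC.StB

/-!
# NPC [BDA]: a derivation which is bounded on `k` is bounded on the elements of a finite separable
extension which are `≤ 1` at all places
-/

set_option autoImplicit false

namespace Pool.Agent.NPC

open Matrix

theorem thm_BDA : St_BDA := by
  intro k K L _ _ _ _ _ _ _ _ _ d D hD hd
  classical
  let b : Module.Basis (Fin (Module.finrank k K)) k K := Module.finBasis k K
  have hcard : Fintype.card (K →ₐ[k] L) = Module.finrank k K := AlgHom.card k K L
  let e : Fin (Module.finrank k K) ≃ (K →ₐ[k] L) := (Fintype.equivFinOfCardEq hcard).symm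
  let M : Matrix (Fin (Module.finrank k K)) (Fin (Module.finrank k K)) L :=
    Algebra.embeddingsMatrixReindex k L b e
  have hM : ∀ i j, M i j = (e j) (b i) := fun i j => by
    simp [M, Algebra.embeddingsMatrixReindex, Algebra.embeddingsMatrix]
  have hdet : M.det ≠ 0 := by
    intro h0
    have h1 := Algebra.discr_eq_det_embeddingsMatrixReindex_pow_two (K := k) (E := L) (b := b) e
    have h2 : algebraMap k L (Algebra.discr k b) = 0 := by
      rw [h1]
      show M.det ^ 2 = 0
      rw [h0]
      ring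
    have h3 : Algebra.discr k b = 0 := by
      apply (algebraMap k L).injective
      rw [h2, map_zero]
    exact Algebra.discr_not_zero_of_basis k b h3
  have hunit : IsUnit M.det := isUnit_iff_ne_zero.2 hdet
  -- the coordinates are bounded
  set C₁ : ℝ := ∑ i, ∑ j, ‖M⁻¹ j i‖ with hC₁
  have hcoord : ∀ u : K, (∀ τ : K →ₐ[k] L, ‖τ u‖ ≤ 1) → ∀ i, ‖algebraMap k L (b.repr u i)‖ ≤ C₁ := by
    intro u hu i
    have h1 : (fun j => (e j) u) = (fun i => algebraMap k L (b.repr u i)) ᵥ* M := by
      funext j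
      have h2 : u = ∑ i, b.repr u i • b i := (b.sum_repr u).symm
      have h3 : (e j) u = ∑ i, algebraMap k L (b.repr u i) * (e j) (b i) := by
        conv_lhs => rw [h2]
        rw [map_sum]
        refine Finset.sum_congr rfl fun i _ => ?_
        rw [map_smul, Algebra.smul_def]
      rw [h3]
      simp only [Matrix.vecMul, dotProduct, hM]
    have h4 : (fun i => algebraMap k L (b.repr u i)) = (fun j => (e j) u) ᵥ* M⁻¹ := by
      rw [h1, Matrix.vecMul_vecMul, Matrix.mul_nonsing_inv M hunit, Matrix.vecMul_one]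
    have h5 : algebraMap k L (b.repr u i) = ∑ j, (e j) u * M⁻¹ j i := by
      have := congrFun h4 i
      simpa only [Matrix.vecMul, dotProduct] using this
    rw [h5]
    calc ‖∑ j, (e j) u * M⁻¹ j i‖ ≤ ∑ j, ‖(e j) u * M⁻¹ j i‖ := norm_sum_le _ _
      _ ≤ ∑ j, ‖M⁻¹ j i‖ := by
          refine Finset.sum_le_sum fun j _ => ?_
          rw [norm_mul]
          have h6 := hu (e j)
          have h7 := norm_nonneg (M⁻¹ j i)
          nlinarith
      _ ≤ C₁ := Finset.single_le_sum (f := fun i => ∑ j, ‖M⁻¹ j i‖)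
          (fun i _ => Finset.sum_nonneg fun j _ => norm_nonneg _) (Finset.mem_univ i)
  have hC₁0 : 0 ≤ C₁ := Finset.sum_nonneg fun i _ => Finset.sum_nonneg fun j _ => norm_nonneg _
  refine ⟨∑ j, ∑ i, (C₁ * ‖(e j) (b i)‖ + C₁ * ‖(e j) (D (b i))‖), fun u hu τ => ?_⟩
  obtain ⟨j, rfl⟩ := e.surjective τ
  have hco := hcoord u hu
  have h1 : D u = ∑ i, (algebraMap k K (d (b.repr u i)) * b i
      + algebraMap k K (b.repr u i) * D (b i)) := by
    have h2 : u = ∑ i, algebraMap k K (b.repr u i) * b i := by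
      conv_lhs => rw [← b.sum_repr u]
      refine Finset.sum_congr rfl fun i _ => ?_
      rw [Algebra.smul_def]
    conv_lhs => rw [h2]
    rw [map_sum]
    refine Finset.sum_congr rfl fun i _ => ?_
    rw [Derivation.leibniz, hD, smul_eq_mul, smul_eq_mul]
    ring
  have h2 : (e j) (D u) = ∑ i, (algebraMap k L (d (b.repr u i)) * (e j) (b i)
      + algebraMap k L (b.repr u i) * (e j) (D (b i))) := by
    rw [h1, map_sum]
    refine Finset.sum_congr rfl fun i _ => ?_
    rw [map_add, map_mul, map_mul, AlgHom.commutes, AlgHom.commutes]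
  rw [h2]
  calc ‖∑ i, (algebraMap k L (d (b.repr u i)) * (e j) (b i)
        + algebraMap k L (b.repr u i) * (e j) (D (b i)))‖
      ≤ ∑ i, ‖algebraMap k L (d (b.repr u i)) * (e j) (b i)
        + algebraMap k L (b.repr u i) * (e j) (D (b i))‖ := norm_sum_le _ _
    _ ≤ ∑ i, (C₁ * ‖(e j) (b i)‖ + C₁ * ‖(e j) (D (b i))‖) := by
        refine Finset.sum_le_sum fun i _ => ?_
        refine (norm_add_le _ _).trans ?_
        rw [norm_mul, norm_mul]
        have h3 : ‖algebraMap k L (d (b.repr u i))‖ ≤ C₁ := (hd _).trans (hco i)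
        exact add_le_add (mul_le_mul_of_nonneg_right h3 (norm_nonneg _))
          (mul_le_mul_of_nonneg_right (hco i) (norm_nonneg _))
    _ ≤ ∑ j, ∑ i, (C₁ * ‖(e j) (b i)‖ + C₁ * ‖(e j) (D (b i))‖) :=
        Finset.single_le_sum (f := fun j => ∑ i, (C₁ * ‖(e j) (b i)‖ + C₁ * ‖(e j) (D (b i))‖))
          (fun j _ => Finset.sum_nonneg fun i _ => add_nonneg
            (mul_nonneg hC₁0 (norm_nonneg _)) (mul_nonneg hC₁0 (norm_nonneg _)))
          (Finset.mem_univ j)

end Pool.Agent.NPC
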