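import Pool.Agent.NPC.StB

/-!
# [BDV] A derivation which is bounded on `k` is bounded at every place of a finite separable
extension (helper35)
-/

set_option autoImplicit false

namespace Pool.Agent.NPC

open Polynomial

section

variable {k K L : Type} [Field k] [Field K] [NormedField L] [IsUltrametricDist L]
  [Algebra k K] [Algebra k L]

theorem BDV_sum_le {ι : Type} (s : Finset ι) (f : ι → L) (C : ℝ) (hC : 0 ≤ C)
    (h : ∀ i ∈ s, ‖f i‖ ≤ C) : ‖∑ i ∈ s, f i‖ ≤ C :=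
  IsUltrametricDist.norm_sum_le_of_forall_le_of_nonneg hC h

theorem BDV_sum_lt {ι : Type} (s : Finset ι) (f : ι → L) (C : ℝ) (hC : 0 < C)
    (h : ∀ i ∈ s, ‖f i‖ < C) : ‖∑ i ∈ s, f i‖ < C := by
  classical
  induction s using Finset.induction_on with
  | empty => simpa using hC
  | insert a s ha ih =>
    rw [Finset.sum_insert ha]
    refine lt_of_le_of_lt (IsUltrametricDist.norm_add_le_max _ _) (max_lt ?_ ?_)
    · exact h a (Finset.mem_insert_self a s)
    · exact ih fun i hi => h i (Finset.mem_insert_of_mem hi)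

theorem BDV_split [FiniteDimensional k K] (z : K) (hz : z ≠ 0) (τ : K →ₐ[k] L)
    (h1 : ‖τ z‖ ≤ 1) : ∃ X Y : K, X = -(Y * z) ∧ ‖τ Y‖ = 1 ∧
      (∀ τ' : K →ₐ[k] L, ‖τ' Y‖ ≤ 1) ∧ ∀ τ' : K →ₐ[k] L, ‖τ' X‖ ≤ 1 := by
  classical
  have hint : IsIntegral k z := Algebra.IsIntegral.isIntegral z
  set P := minpoly k z with hP
  set n := P.natDegree with hn
  set g : ℕ → ℝ := fun j => ‖algebraMap k L (P.coeff j)‖ with hg
  obtain ⟨m0, hm0, hmax⟩ := Finset.exists_max_image (Finset.range (n + 1)) g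
    ⟨0, Finset.mem_range.2 (Nat.succ_pos n)⟩
  set S' := (Finset.range (n + 1)).filter (fun j => g j = g m0) with hS'
  have hne : S'.Nonempty := ⟨m0, Finset.mem_filter.2 ⟨hm0, rfl⟩⟩
  set m := S'.max' hne with hm
  have hmS : m ∈ S' := S'.max'_mem hne
  have hmS2 := Finset.mem_filter.1 hmS
  have hmn : m < n + 1 := Finset.mem_range.1 hmS2.1
  have hgm : ∀ j ∈ Finset.range (n + 1), g j ≤ g m := by
    intro j hj
    rw [hmS2.2]
    exact hmax j hj
  have hgm2 : ∀ j ∈ Finset.range (n + 1), m < j → g j < g m := by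
    intro j hj hmj
    refine lt_of_le_of_ne (hgm j hj) fun h => ?_
    have : j ∈ S' := Finset.mem_filter.2 ⟨hj, h.trans hmS2.2⟩
    exact absurd (S'.le_max' j this) (not_le.2 hmj)
  have hgpos : 0 < g m := by
    refine lt_of_lt_of_le ?_ (hgm n (Finset.mem_range.2 (Nat.lt_succ_self n)))
    have : P.coeff n = 1 := (minpoly.monic hint).coeff_natDegree
    simp [hg, this]
  have hc : P.coeff m ≠ 0 := by
    intro h
    rw [hg] at hgpos
    simp [h] at hgpos
  set b : ℕ → k := fun j => P.coeff j / P.coeff m with hb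
  have hbn : ∀ j, ‖algebraMap k L (b j)‖ = g j / g m := by
    intro j
    simp [hb, hg]
  have hb1 : ∀ j ∈ Finset.range (n + 1), ‖algebraMap k L (b j)‖ ≤ 1 := by
    intro j hj
    rw [hbn, div_le_one hgpos]
    exact hgm j hj
  have hb2 : ∀ j ∈ Finset.range (n + 1), m < j → ‖algebraMap k L (b j)‖ < 1 := by
    intro j hj hmj
    rw [hbn, div_lt_one hgpos]
    exact hgm2 j hj hmj
  set Y : K := ∑ j ∈ Finset.Ico m (n + 1), algebraMap k K (b j) * z ^ (j - m) with hY
  set X : K := ∑ j ∈ Finset.range m, algebraMap k K (b j) * z⁻¹ ^ (m - 1 - j) with hX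
  have hrel : X = -(Y * z) := by
    have hzm : z ^ m ≠ 0 := pow_ne_zero m hz
    have e1 : z ^ m * X = z * ∑ j ∈ Finset.range m, algebraMap k K (b j) * z ^ j := by
      rw [hX, Finset.mul_sum, Finset.mul_sum]
      refine Finset.sum_congr rfl fun j hj => ?_
      have hj' : j < m := Finset.mem_range.1 hj
      have : z ^ m = z ^ (j + 1) * z ^ (m - 1 - j) := by
        rw [← pow_add]
        congr 1
        omega
      have h3 : z ^ (m - 1 - j) ≠ 0 := pow_ne_zero _ hz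
      calc z ^ m * (algebraMap k K (b j) * z⁻¹ ^ (m - 1 - j))
          = algebraMap k K (b j) * z ^ (j + 1) *
            (z ^ (m - 1 - j) * (z ^ (m - 1 - j))⁻¹) := by
            rw [this, inv_pow]
            ring
        _ = z * (algebraMap k K (b j) * z ^ j) := by
            rw [mul_inv_cancel₀ h3]
            ring
    have e2 : z ^ m * Y = ∑ j ∈ Finset.Ico m (n + 1), algebraMap k K (b j) * z ^ j := by
      rw [hY, Finset.mul_sum]
      refine Finset.sum_congr rfl fun j hj => ?_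
      have hj' : m ≤ j := (Finset.mem_Ico.1 hj).1
      have : z ^ j = z ^ m * z ^ (j - m) := by
        rw [← pow_add]
        congr 1
        omega
      rw [this]
      ring
    have e3 : ∑ j ∈ Finset.range (n + 1), algebraMap k K (b j) * z ^ j = 0 := by
      have h4 : aeval z P = 0 := minpoly.aeval k z
      rw [aeval_eq_sum_range] at h4
      have h5 : ∑ j ∈ Finset.range (n + 1), algebraMap k K (b j) * z ^ j =
          algebraMap k K (P.coeff m)⁻¹ * ∑ j ∈ Finset.range (P.natDegree + 1), P.coeff j • z ^ j := by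
        rw [Finset.mul_sum]
        refine Finset.sum_congr rfl fun j _ => ?_
        rw [Algebra.smul_def, ← mul_assoc, ← map_mul]
        have h6 : b j = (P.coeff m)⁻¹ * P.coeff j := by
          change P.coeff j / P.coeff m = _
          rw [div_eq_mul_inv, mul_comm]
        rw [h6]
      rw [h5, h4, mul_zero]
    rw [← Finset.sum_range_add_sum_Ico _ (Nat.le_of_lt hmn)] at e3
    have e4 : z ^ m * (X + Y * z) = 0 := by
      have : z ^ m * (X + Y * z) = z ^ m * X + z * (z ^ m * Y) := by ring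
      rw [this, e1, e2, ← mul_add, e3, mul_zero]
    rcases mul_eq_zero.1 e4 with h | h
    · exact absurd h hzm
    · exact eq_neg_of_add_eq_zero_left h
  have hτY : ∀ τ' : K →ₐ[k] L, τ' Y =
      ∑ j ∈ Finset.Ico m (n + 1), algebraMap k L (b j) * τ' z ^ (j - m) := by
    intro τ'
    rw [hY, map_sum]
    refine Finset.sum_congr rfl fun j _ => ?_
    rw [map_mul, map_pow, AlgHom.commutes]
  have hτX : ∀ τ' : K →ₐ[k] L, τ' X =
      ∑ j ∈ Finset.range m, algebraMap k L (b j) * (τ' z)⁻¹ ^ (m - 1 - j) := by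
    intro τ'
    rw [hX, map_sum]
    refine Finset.sum_congr rfl fun j _ => ?_
    rw [map_mul, map_pow, map_inv₀, AlgHom.commutes]
  have hY1 : ∀ τ' : K →ₐ[k] L, ‖τ' z‖ ≤ 1 → ‖τ' Y‖ ≤ 1 := by
    intro τ' h
    rw [hτY]
    refine BDV_sum_le _ _ 1 zero_le_one fun j hj => ?_
    rw [norm_mul, norm_pow]
    exact mul_le_one₀ (hb1 j (Finset.mem_range.2 (Finset.mem_Ico.1 hj).2)) (by positivity)
      (pow_le_one₀ (norm_nonneg _) h)
  have hX1 : ∀ τ' : K →ₐ[k] L, 1 < ‖τ' z‖ → ‖τ' X‖ ≤ 1 := by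
    intro τ' h
    rw [hτX]
    refine BDV_sum_le _ _ 1 zero_le_one fun j hj => ?_
    rw [norm_mul, norm_pow, norm_inv]
    refine mul_le_one₀ (hb1 j (Finset.mem_range.2 ?_)) (by positivity)
      (pow_le_one₀ (by positivity) (inv_le_one_of_one_le₀ h.le))
    have := Finset.mem_range.1 hj
    omega
  have hnX : ∀ τ' : K →ₐ[k] L, ‖τ' X‖ = ‖τ' Y‖ * ‖τ' z‖ := by
    intro τ'
    rw [hrel, map_neg, norm_neg, map_mul, norm_mul]
  refine ⟨X, Y, hrel, ?_, fun τ' => ?_, fun τ' => ?_⟩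
  · rw [hτY, Finset.sum_eq_sum_Ico_succ_bot hmn]
    have hbm : b m = 1 := div_self hc
    rw [hbm, map_one, Nat.sub_self, pow_zero, mul_one]
    have hlt : ‖∑ j ∈ Finset.Ico (m + 1) (n + 1), algebraMap k L (b j) * τ z ^ (j - m)‖ < 1 := by
      refine BDV_sum_lt _ _ 1 zero_lt_one fun j hj => ?_
      rw [norm_mul, norm_pow]
      have hj' := Finset.mem_Ico.1 hj
      have h2 : ‖τ z‖ ^ (j - m) ≤ 1 := pow_le_one₀ (norm_nonneg _) h1
      have h3 := hb2 j (Finset.mem_range.2 hj'.2) (by omega)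
      calc ‖algebraMap k L (b j)‖ * ‖τ z‖ ^ (j - m) ≤ ‖algebraMap k L (b j)‖ * 1 :=
            mul_le_mul_of_nonneg_left h2 (norm_nonneg _)
        _ < 1 := by rwa [mul_one]
    have h3 := IsUltrametricDist.norm_add_eq_max_of_norm_ne_norm (x := (1 : L))
      (y := ∑ j ∈ Finset.Ico (m + 1) (n + 1), algebraMap k L (b j) * τ z ^ (j - m))
      (by rw [norm_one]; exact hlt.ne')
    rw [h3, norm_one]
    exact max_eq_left hlt.le
  · rcases le_or_gt ‖τ' z‖ 1 with h | h
    · exact hY1 τ' h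
    · have h2 := hX1 τ' h
      rw [hnX] at h2
      by_contra h3
      push Not at h3
      have : 1 < ‖τ' Y‖ * ‖τ' z‖ := one_lt_mul_of_lt_of_le h3 h.le
      linarith
  · rcases le_or_gt ‖τ' z‖ 1 with h | h
    · rw [hnX]
      exact mul_le_one₀ (hY1 τ' h) (norm_nonneg _) h
    · exact hX1 τ' h

end

/-- [BDV] from [BDA] -/
theorem thm_BDV (hA : St_BDA) : St_BDV := by
  intro k K L _ _ _ _ _ _ _ _ _ d D t hD hd ht
  obtain ⟨C₀, hC₀⟩ := hA k K L d D hD hd
  set C : ℝ := max C₀ 1 with hC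
  have hC1 : 1 ≤ C := le_max_right _ _
  have hC2 : C₀ ≤ C := le_max_left _ _
  have key : ∀ (z : K) (τ : K →ₐ[k] L), z ≠ 0 → ‖τ z‖ ≤ 1 → ‖τ (D z)‖ ≤ C := by
    intro z τ hz h1
    obtain ⟨X, Y, hXY, hY, hY1, hX1⟩ := BDV_split z hz τ h1
    have h2 : ‖τ (D X)‖ ≤ C := (hC₀ X hX1 τ).trans hC2
    have h3 : ‖τ (D Y)‖ ≤ C := (hC₀ Y hY1 τ).trans hC2
    have h4 : D X = -(Y * D z + z * D Y) := by
      rw [hXY, map_neg, Derivation.leibniz, smul_eq_mul, smul_eq_mul]
    have h5 : Y * D z = -D X - z * D Y := by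
      rw [h4]
      ring
    have h6 : ‖τ (D z)‖ = ‖τ (Y * D z)‖ := by
      rw [map_mul, norm_mul, hY, one_mul]
    rw [h6, h5, map_sub, map_neg, map_mul τ, sub_eq_add_neg]
    refine (IsUltrametricDist.norm_add_le_max _ _).trans (max_le ?_ ?_)
    · rw [norm_neg]
      exact h2
    · rw [norm_neg, norm_mul]
      calc ‖τ z‖ * ‖τ (D Y)‖ ≤ 1 * ‖τ (D Y)‖ := mul_le_mul_of_nonneg_right h1 (norm_nonneg _)
        _ ≤ C := by rwa [one_mul]
  refine ⟨2 * C, fun u τ => ?_⟩
  by_cases hu : u = 0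
  · rw [hu, map_zero, map_zero, norm_zero, mul_zero]
  have hu' : 0 < ‖τ u‖ := norm_pos_iff.2 ((map_ne_zero τ).2 hu)
  obtain ⟨m', hm1, hm2⟩ := exists_mem_Ioc_zpow hu' (one_lt_two : (1 : ℝ) < 2)
  set m : ℤ := m' + 1 with hm
  have ht0 : t ≠ 0 := by
    rintro rfl
    rw [map_zero, norm_zero] at ht
    norm_num at ht
  have htm : t ^ m ≠ 0 := zpow_ne_zero m ht0
  have htn : ‖algebraMap k L (t ^ m)‖ = 2 ^ m := by
    rw [map_zpow₀, norm_zpow, ht]
  set s : K := algebraMap k K (t ^ m) with hs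
  have hs0 : s ≠ 0 := by
    rw [hs]
    exact (map_ne_zero (algebraMap k K)).2 htm
  have hτs : ‖τ s‖ = 2 ^ m := by
    rw [hs, AlgHom.commutes, htn]
  have h2m : (0 : ℝ) < 2 ^ m := by positivity
  set z : K := s⁻¹ * u with hz
  have hz0 : z ≠ 0 := mul_ne_zero (inv_ne_zero hs0) hu
  have hus : u = s * z := by
    rw [hz, mul_inv_cancel_left₀ hs0]
  have hτz : ‖τ z‖ ≤ 1 := by
    rw [hz, map_mul, map_inv₀, norm_mul, norm_inv, hτs, inv_mul_le_iff₀ h2m, mul_one]
    exact hm2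
  have h1 := key z τ hz0 hτz
  have h2 : ‖τ (D s)‖ ≤ 2 ^ m := by
    rw [hs, hD, AlgHom.commutes, ← htn]
    exact hd _
  have h3 : D u = s * D z + z * D s := by
    rw [hus, Derivation.leibniz, smul_eq_mul, smul_eq_mul]
  have h4 : ‖τ (D u)‖ ≤ C * 2 ^ m := by
    rw [h3, map_add, map_mul τ s, map_mul τ z]
    refine (IsUltrametricDist.norm_add_le_max _ _).trans (max_le ?_ ?_)
    · rw [norm_mul, hτs, mul_comm]
      exact mul_le_mul_of_nonneg_right h1 h2m.le
    · rw [norm_mul]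
      calc ‖τ z‖ * ‖τ (D s)‖ ≤ 1 * 2 ^ m := by
            exact mul_le_mul hτz h2 (norm_nonneg _) zero_le_one
        _ ≤ C * 2 ^ m := mul_le_mul_of_nonneg_right hC1 h2m.le
  have h5 : (2 : ℝ) ^ m ≤ 2 * ‖τ u‖ := by
    rw [hm, zpow_add_one₀ two_ne_zero]
    linarith
  calc ‖τ (D u)‖ ≤ C * 2 ^ m := h4
    _ ≤ C * (2 * ‖τ u‖) := mul_le_mul_of_nonneg_left h5 (by linarith)
    _ = 2 * C * ‖τ u‖ := by ring

end Pool.Agent.NPC
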