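import Pool.Agent.NPC.StB
import Pool.Agent.ZPT.AxDer
import Pool.Agent.Helper55.DM.A

/-!
# The base field `F_p(t_1, ..., t_n)` with the total degree place and the derivations
-/

set_option autoImplicit false

namespace Pool.Agent.NPC

open nonZeroDivisors

private theorem BSE_totalDegree_pderiv_le {R : Type} [CommRing R] {n : ℕ} (i : Fin n)
    (f : MvPolynomial (Fin n) R) : (MvPolynomial.pderiv i f).totalDegree ≤ f.totalDegree := by
  conv_lhs => rw [f.as_sum, map_sum]
  refine MvPolynomial.totalDegree_finsetSum_le fun m hm => ?_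
  rw [MvPolynomial.pderiv_monomial]
  refine (MvPolynomial.totalDegree_monomial_le _ _).trans ?_
  have h1 : (m.sum fun _ => id) ≤ f.totalDegree := MvPolynomial.le_totalDegree hm
  refine le_trans ?_ h1
  rw [Finsupp.sum_fintype _ _ (fun _ => rfl), Finsupp.sum_fintype _ _ (fun _ => rfl)]
  refine Finset.sum_le_sum fun j _ => ?_
  simp only [id, Finsupp.tsub_apply]
  omega

private theorem BSE_span {p n : ℕ} [Fact p.Prime] {k : Type} [Field k] [CharP k p]
    [Algebra (MvPolynomial (Fin n) (ZMod p)) k] (t : Fin n → k)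
    (ht : ∀ i, t i = algebraMap _ k (MvPolynomial.X i : MvPolynomial (Fin n) (ZMod p)))
    (f : MvPolynomial (Fin n) (ZMod p)) :
    ∃ w : (Fin n → Fin p) → k, algebraMap _ k f = ∑ a, tm t a * w a ^ p := by
  have hp : 0 < p := (Fact.out : p.Prime).pos
  have : ExpChar k p := ExpChar.prime Fact.out
  induction f using MvPolynomial.induction_on' with
  | add f g hf hg =>
    obtain ⟨w, hw⟩ := hf
    obtain ⟨w', hw'⟩ := hg
    refine ⟨fun a => w a + w' a, ?_⟩
    rw [map_add, hw, hw', ← Finset.sum_add_distrib]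
    refine Finset.sum_congr rfl fun a _ => ?_
    rw [add_pow_expChar, mul_add]
  | monomial u c =>
    classical
    let a₀ : Fin n → Fin p := fun i => ⟨u i % p, Nat.mod_lt _ hp⟩
    let w₀ : k := algebraMap _ k (MvPolynomial.C c : MvPolynomial (Fin n) (ZMod p)) *
      ∏ i, t i ^ (u i / p)
    refine ⟨Pi.single a₀ w₀, ?_⟩
    rw [Finset.sum_eq_single a₀]
    · rw [Pi.single_eq_same, MvPolynomial.monomial_eq, map_mul, Finsupp.prod_fintype _ _
        (fun _ => pow_zero _), map_prod]
      simp only [w₀, tm, a₀, mul_pow, ← Finset.prod_pow, ← pow_mul, ← map_pow, ZMod.pow_card]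
      rw [mul_left_comm, ← Finset.prod_mul_distrib]
      congr 1
      refine Finset.prod_congr rfl fun i _ => ?_
      rw [← pow_add, map_pow, ht i]
      congr 1
      exact (Nat.mod_add_div' (u i) p).symm
    · intro b _ hb
      rw [Pi.single_eq_of_ne hb, zero_pow hp.ne', mul_zero]
    · intro h
      exact absurd (Finset.mem_univ _) h

private theorem BSE_der {R P k : Type} [CommRing R] [CommRing P] [Field k] [Algebra R P]
    [Algebra P k] [IsFractionRing P k] (δ : Derivation R P P) :
    ∃ d : Derivation ℤ k k, ∀ a : P, d (algebraMap P k a) = algebraMap P k (δ a) := by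
  have hfe : Algebra.FormallyEtale P k := Algebra.FormallyEtale.of_isLocalization P⁰
  let dP : Derivation ℤ P k := (Algebra.linearMap P k).compDer (δ.restrictScalars ℤ)
  obtain ⟨d, hd⟩ := Pool.Agent.ZPT.der_ext ℤ P k dP
  exact ⟨d, hd⟩

private theorem BSE_bd {k L : Type} [Field k] [NormedField L] [IsUltrametricDist L]
    (φ : k →+* L) (d : Derivation ℤ k k) (a b : k) (hb : b ≠ 0) (h1 : ‖φ (d a)‖ ≤ ‖φ a‖)
    (h2 : ‖φ (d b)‖ ≤ ‖φ b‖) : ‖φ (d (a / b))‖ ≤ ‖φ (a / b)‖ := by
  have hb' : 0 < ‖φ b‖ := norm_pos_iff.2 ((map_ne_zero φ).2 hb)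
  rw [Derivation.leibniz_div, smul_eq_mul, smul_eq_mul, smul_eq_mul, map_mul, map_sub, map_mul,
    map_mul, map_pow, map_inv₀, map_div₀, norm_mul, norm_pow, norm_inv, norm_div]
  have h3 : ‖φ b * φ (d a) - φ a * φ (d b)‖ ≤ ‖φ a‖ * ‖φ b‖ := by
    rw [sub_eq_add_neg]
    refine (IsUltrametricDist.norm_add_le_max _ _).trans (max_le ?_ ?_)
    · rw [norm_mul, mul_comm]
      exact mul_le_mul_of_nonneg_right h1 (norm_nonneg _)
    · rw [norm_neg, norm_mul]
      exact mul_le_mul_of_nonneg_left h2 (norm_nonneg _)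
  calc _ ≤ (‖φ b‖⁻¹) ^ 2 * (‖φ a‖ * ‖φ b‖) :=
        mul_le_mul_of_nonneg_left h3 (by positivity)
    _ = ‖φ a‖ / ‖φ b‖ := by
        field_simp

/-- The base exists. -/
theorem thm_BSE : St_BSE := by
  intro p _ n
  obtain ⟨L, iL, iU, -, iA, iC, φ0, hφ0⟩ := Pool.Agent.Helper79.DM.exists_degField p n
  have hp : 0 < p := (Fact.out : p.Prime).pos
  let P := MvPolynomial (Fin n) (ZMod p)
  let k := FractionRing P
  have hinjk : Function.Injective (algebraMap P k) := IsFractionRing.injective P k
  have hinj : Function.Injective φ0 := by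
    refine (injective_iff_map_eq_zero φ0).2 fun f hf => ?_
    by_contra h
    have h1 := hφ0 f h
    rw [hf, norm_zero] at h1
    exact pow_ne_zero _ two_ne_zero h1.symm
  let φ : k →+* L := IsFractionRing.lift hinj
  have hφ : ∀ f : P, φ (algebraMap P k f) = φ0 f := fun f =>
    IsFractionRing.lift_algebraMap hinj f
  have hck : CharP k p := charP_of_injective_algebraMap hinjk p
  have hxk : ExpChar k p := ExpChar.prime Fact.out
  let A : Subring k := (algebraMap P k).range
  let e : P ≃+* A := RingEquiv.ofBijective (algebraMap P k).rangeRestrict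
    ⟨fun x y h => hinjk (congrArg Subtype.val h), (algebraMap P k).rangeRestrict_surjective⟩
  choose d hd' using fun i : Fin n => BSE_der (k := k)
    (MvPolynomial.pderiv i : Derivation (ZMod p) P P)
  have hdiv : ∀ z : k, ∃ (a b : P), b ≠ 0 ∧ z = algebraMap P k a / algebraMap P k b := by
    intro z
    obtain ⟨a, b, hb, rfl⟩ := IsFractionRing.div_surjective (A := P) z
    exact ⟨a, b, nonZeroDivisors.ne_zero hb, rfl⟩
  have hnd : ∀ i (f : P), ‖φ0 (MvPolynomial.pderiv i f)‖ ≤ ‖φ0 f‖ := by
    intro i f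
    by_cases h : MvPolynomial.pderiv i f = 0
    · rw [h, map_zero, norm_zero]
      exact norm_nonneg _
    · have h0 : f ≠ 0 := by
        rintro rfl
        exact h (map_zero _)
      rw [hφ0 _ h, hφ0 _ h0]
      exact pow_le_pow_right₀ (by norm_num) (BSE_totalDegree_pderiv_le i f)
  let B : Base p n k L :=
    { t := fun i => algebraMap P k (MvPolynomial.X i)
      A := A
      φ := φ
      d := d
      tA := fun i => ⟨_, rfl⟩
      frac := by
        intro z
        obtain ⟨a, b, hb, rfl⟩ := hdiv z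
        have hb' : algebraMap P k b ≠ 0 := (map_ne_zero_iff _ hinjk).2 hb
        exact ⟨algebraMap P k b, ⟨b, rfl⟩, hb', ⟨a, (mul_div_cancel₀ _ hb').symm⟩⟩
      icl := IsIntegrallyClosed.of_equiv e
      noe := isNoetherianRing_of_ringEquiv P e
      one_le := by
        rintro _ ⟨a, rfl⟩ ha
        have ha' : a ≠ 0 := by
          rintro rfl
          exact ha (map_zero _)
        rw [hφ, hφ0 a ha']
        exact one_le_pow₀ (by norm_num)
      fin := by
        intro M
        obtain ⟨T, hT⟩ := pow_unbounded_of_one_lt M (one_lt_two (α := ℝ))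
        refine ((Pool.Agent.Helper79.DM.finite_totalDegree_le p n T).image
          (algebraMap P k)).subset ?_
        rintro _ ⟨⟨a, rfl⟩, ha⟩
        refine ⟨a, ?_, rfl⟩
        by_cases h : a = 0
        · subst h
          exact (MvPolynomial.totalDegree_zero).le.trans (Nat.zero_le _)
        · rw [hφ, hφ0 a h] at ha
          exact ((pow_lt_pow_iff_right₀ (one_lt_two (α := ℝ))).1 (ha.trans_lt hT)).le
      dt := by
        intro i j
        rw [hd', MvPolynomial.pderiv_X, Pi.single_apply]
        by_cases h : i = j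
        · rw [if_pos h, if_pos h.symm, map_one]
        · rw [if_neg h, if_neg (fun h' => h h'.symm), map_zero]
      dA := by
        rintro i _ ⟨a, rfl⟩
        exact ⟨_, (hd' i a).symm⟩
      bd := by
        intro i z
        obtain ⟨a, b, hb, rfl⟩ := hdiv z
        refine BSE_bd φ (d i) _ _ ((map_ne_zero_iff _ hinjk).2 hb) ?_ ?_
        · rw [hd', hφ, hφ]
          exact hnd i a
        · rw [hd', hφ, hφ]
          exact hnd i b
      span := by
        intro z
        obtain ⟨a, b, hb, rfl⟩ := hdiv z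
        have hb' : algebraMap P k b ≠ 0 := (map_ne_zero_iff _ hinjk).2 hb
        obtain ⟨w, hw⟩ := BSE_span (p := p) (n := n) (k := k)
          (fun i => algebraMap P k (MvPolynomial.X i)) (fun _ => rfl) (a * b ^ (p - 1))
        refine ⟨fun u => w u / algebraMap P k b, ?_⟩
        simp only [div_pow]
        rw [show (∑ u, tm (fun i => algebraMap P k (MvPolynomial.X i)) u *
          (w u ^ p / (algebraMap P k b) ^ p)) =
          (∑ u, tm (fun i => algebraMap P k (MvPolynomial.X i)) u * w u ^ p) /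
            (algebraMap P k b) ^ p from by
            rw [Finset.sum_div]
            exact Finset.sum_congr rfl fun _ _ => (mul_div_assoc _ _ _).symm]
        rw [← hw, map_mul, map_pow]
        rw [div_eq_div_iff hb' (pow_ne_zero _ hb'), mul_assoc, ← pow_succ,
          Nat.sub_add_cancel hp]
      norm_t := by
        intro i
        have : Nontrivial (ZMod p) := inferInstance
        rw [hφ, hφ0 _ (MvPolynomial.X_ne_zero i), MvPolynomial.totalDegree_X, pow_one] }
  refine ⟨k, L, inferInstance, iL, iU, iA, iC, hck, B, ?_⟩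
  intro 𝕂 _ _ τ hτ
  have hτ' : Function.Injective (MvPolynomial.aeval τ : P →ₐ[ZMod p] 𝕂).toRingHom := hτ
  let ψ : k →+* 𝕂 := IsFractionRing.lift hτ'
  have hψ : ∀ f : P, ψ (algebraMap P k f) = MvPolynomial.aeval τ f := fun f =>
    IsFractionRing.lift_algebraMap hτ' f
  refine ⟨ψ, fun i => ?_, ?_, ?_⟩
  · exact (hψ _).trans (MvPolynomial.aeval_X τ i)
  · rintro _ ⟨a, rfl⟩
    rw [hψ, Algebra.adjoin_range_eq_range_aeval]
    exact ⟨a, rfl⟩
  · intro z hz
    rw [Algebra.adjoin_range_eq_range_aeval] at hz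
    obtain ⟨a, rfl⟩ := hz
    exact ⟨algebraMap P k a, ⟨a, rfl⟩, hψ a⟩

end Pool.Agent.NPC
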