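import Pool.Agent.NPC.S1C

/-!
# NPC [C1]: a bounded algebraic element is integral
-/

set_option autoImplicit false

namespace Pool.Agent.NPC

open Polynomial

section

variable {K V : Type} [Field K] [Field V] [Algebra K V]

lemma C1_evA (x y : V) (P : K[X][X]) :
    evA x y P = eval₂ ((aeval x : K[X] →ₐ[K] V) : K[X] →+* V) y P := by
  rw [evA, eval_map]

open scoped IntermediateField.algebraAdjoinAdjoin in
/-- clearing denominators -/
lemma C1_clear {Z t : V} (h : IsAlgebraic (fld1 (K := K) Z) t) :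
    ∃ P : K[X][X], P ≠ 0 ∧ evA Z t P = 0 := by
  have h1 : IsAlgebraic (Algebra.adjoin K {Z}) t :=
    (IsFractionRing.isAlgebraic_iff (Algebra.adjoin K {Z}) (fld1 (K := K) Z) V).2 h
  obtain ⟨Q, hQ, hQ0⟩ := h1
  have hmem : ∀ q : K[X], aeval Z q ∈ Algebra.adjoin K {Z} := fun q =>
    aeval_mem_adjoin_singleton K Z
  let φ : K[X] →+* Algebra.adjoin K {Z} :=
    RingHom.codRestrict ((aeval Z : K[X] →ₐ[K] V) : K[X] →+* V) (Algebra.adjoin K {Z}) hmem
  have hφ : Function.Surjective φ := by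
    rintro ⟨z, hz⟩
    rw [Algebra.adjoin_singleton_eq_range_aeval] at hz
    obtain ⟨q, hq⟩ := hz
    exact ⟨q, Subtype.ext hq⟩
  obtain ⟨P, rfl⟩ := Polynomial.map_surjective φ hφ Q
  refine ⟨P, fun h2 => hQ (by rw [h2, Polynomial.map_zero]), ?_⟩
  rw [aeval_def, eval₂_map] at hQ0
  rw [C1_evA]
  exact hQ0

/-- reduction modulo a monic polynomial -/
lemma C1_red {Z x : V} {G : K[X][X]} (hG : G.Monic) (h : evA Z x G = 0) (P : K[X][X]) :
    ∃ a : Fin G.natDegree → K[X], evA Z x P = ∑ j, aeval Z (a j) * x ^ (j : ℕ) := by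
  have hG1 : G ≠ 1 := by
    rintro rfl
    rw [C1_evA, eval₂_one] at h
    exact one_ne_zero h
  refine ⟨fun j => (P %ₘ G).coeff j, ?_⟩
  rw [C1_evA] at h ⊢
  conv_lhs => rw [← modByMonic_add_div P G]
  rw [eval₂_add, eval₂_mul, h, zero_mul, add_zero,
    eval₂_eq_sum_range' _ (natDegree_modByMonic_lt P hG hG1),
    ← Fin.sum_univ_eq_sum_range
      (fun i => ((aeval Z : K[X] →ₐ[K] V) : K[X] →+* V) ((P %ₘ G).coeff i) * x ^ i)]
  rfl

/-- integrality from the integrality of a polynomial -/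
lemma C1_int [Algebra K[X] V] (hK : ∀ c : K, algebraMap K[X] V (C c) = algebraMap K V c) {t : V}
    {p : K[X]} (hp : 1 ≤ p.natDegree) (h : IsIntegral K[X] (aeval t p)) : IsIntegral K[X] t := by
  let A := integralClosure K[X] V
  have hp0 : p ≠ 0 := by
    rintro rfl
    simp at hp
  let g : K →+* A := (algebraMap K[X] A).comp C
  let z' : A := g (p.leadingCoeff)⁻¹ * ⟨aeval t p, h⟩
  have hm : (p * C p.leadingCoeff⁻¹).Monic := monic_mul_leadingCoeff_inv hp0
  have hd : (p * C p.leadingCoeff⁻¹).natDegree = p.natDegree :=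
    natDegree_mul_leadingCoeff_inv p hp0
  have hg : (algebraMap A V).comp g = algebraMap K V := by
    ext c
    exact hK c
  have h1 : IsIntegral A t := by
    refine ⟨(p * C p.leadingCoeff⁻¹).map g - C z', ?_, ?_⟩
    · refine (hm.map g).sub_of_left ?_
      refine lt_of_le_of_lt degree_C_le ?_
      rw [← natDegree_pos_iff_degree_pos, hm.natDegree_map, hd]
      exact hp
    · rw [eval₂_sub, eval₂_map, hg, eval₂_C, ← aeval_def, map_mul, aeval_C, sub_eq_zero, mul_comm]
      exact congrArg (fun y => y * aeval t p) (hK _).symm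
  exact isIntegral_trans t h1

end

theorem thm_C1 (hU : St_UB) : St_C1 := by
  intro K V _ _ _ Z t S hZ ht halg
  obtain ⟨P, hP, hP0⟩ := C1_clear halg
  have hinj : ∀ q : K[X], ((aeval Z : K[X] →ₐ[K] V) : K[X] →+* V) q = 0 → q = 0 := fun q hq =>
    (transcendental_iff.1 hZ) q hq
  set G := integralNormalization P with hG
  have hGm : G.Monic := monic_integralNormalization hP
  set s := P.leadingCoeff with hs
  have hs0 : s ≠ 0 := leadingCoeff_ne_zero.2 hP
  set x := aeval Z s * t with hx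
  have hGx : evA Z x G = 0 := by
    rw [C1_evA] at hP0 ⊢
    exact integralNormalization_eval₂_eq_zero _ hP0 hinj
  have hxB : x ∈ S.Bd := S.Bd.mul_mem (S1C_aeval_Bd S s) ht
  obtain ⟨g, hxG⟩ := S1C_x_Gr S hGm hGx
  by_contra hno
  let inst : Algebra K[X] V := ((aeval Z : K[X] →ₐ[K] V) : K[X] →+* V).toAlgebra
  have hK : ∀ c : K, algebraMap K[X] V (C c) = algebraMap K V c := fun c => aeval_C Z c
  have hnint : ¬ IsIntegral K[X] t := by
    rintro ⟨Q, hQ, hQ0⟩
    refine hno ⟨Q, hQ, ?_⟩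
    rw [C1_evA]
    exact hQ0
  have hxint : IsIntegral K[X] x := ⟨G, hGm, by rw [← hGx, C1_evA]; rfl⟩
  set Λ₀ := Algebra.adjoin K {Z, x} with hΛ₀
  have hZΛ₀ : Z ∈ Λ₀ := Algebra.subset_adjoin (by simp)
  have hxΛ₀ : x ∈ Λ₀ := Algebra.subset_adjoin (by simp)
  have hBd : Λ₀ ≤ S1C_B S := by
    refine Algebra.adjoin_le ?_
    rintro z (rfl | rfl)
    · exact S.Z_mem
    · exact hxB
  have hpol : ∀ q : K[X], aeval Z q ∈ Λ₀ := fun q =>
    Algebra.adjoin_le (Set.singleton_subset_iff.2 hZΛ₀) (aeval_mem_adjoin_singleton K Z)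
  let W : Submodule K V := Submodule.span K {z | ∃ v ∈ Λ₀, ∃ k : ℕ, z = v * t ^ k}
  have key := hU K V Z S (Fin G.natDegree) (fun j => x ^ (j : ℕ)) (fun j => g * j) hZ ?_ W ?_ ?_
    (∑ j : Fin G.natDegree, g * (j : ℕ) + 1) (fun k => t ^ ((k : ℕ) + 1)) ?_ ?_ ?_
  · omega
  · exact fun j => S1C_pow_Gr S hxG j
  · intro z hz
    rw [← S1C_mem S]
    induction hz using Submodule.span_induction with
    | mem z h =>
      obtain ⟨v, hv, k, rfl⟩ := h
      exact (S1C_B S).mul_mem (hBd hv) ((S1C_B S).pow_mem ht k)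
    | zero => exact (S1C_B S).zero_mem
    | add a b _ _ ha hb => exact (S1C_B S).add_mem ha hb
    | smul c a _ ha => exact (S1C_B S).smul_mem ha c
  · intro a
    refine Submodule.subset_span ⟨∑ j, aeval Z (a j) * x ^ (j : ℕ), ?_, 0, by rw [pow_zero, mul_one]⟩
    exact Λ₀.sum_mem fun j _ => Λ₀.mul_mem (hpol _) (Λ₀.pow_mem hxΛ₀ _)
  · exact fun k => Submodule.subset_span ⟨1, Λ₀.one_mem, k + 1, by rw [one_mul]⟩
  · intro k
    obtain ⟨a, ha⟩ := C1_red hGm hGx (X ^ ((k : ℕ) + 1))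
    refine ⟨s ^ ((k : ℕ) + 1), a, pow_ne_zero _ hs0, ?_⟩
    rw [← ha, C1_evA, eval₂_X_pow, map_pow, hx, mul_pow]
  · intro c ⟨a, ha⟩
    by_contra hc
    obtain ⟨k, hk⟩ := Function.ne_iff.1 hc
    set q : K[X] := ∑ k : Fin (∑ j : Fin G.natDegree, g * (j : ℕ) + 1),
      monomial ((k : ℕ) + 1) (c k) with hq
    have h1 : q.coeff ((k : ℕ) + 1) = c k := by
      rw [hq]
      simp only [finsetSum_coeff, coeff_monomial]
      rw [Finset.sum_eq_single k]
      · rw [if_pos rfl]
      · intro b _ hb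
        rw [if_neg (fun h4 => hb (Fin.ext (by omega)))]
      · intro h4
        exact absurd (Finset.mem_univ _) h4
    have h2 : 1 ≤ q.natDegree := by
      have := le_natDegree_of_ne_zero (h1.trans_ne hk)
      omega
    apply hnint
    refine C1_int hK h2 ?_
    have h3 : aeval t q = ∑ j, aeval Z (a j) * x ^ (j : ℕ) := by
      rw [← ha, hq, map_sum]
      refine Finset.sum_congr rfl fun k _ => ?_
      rw [aeval_monomial, ← Algebra.smul_def]
    rw [h3]
    refine IsIntegral.sum _ fun j _ => IsIntegral.mul ?_ (hxint.pow _)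
    exact isIntegral_algebraMap (R := K[X]) (x := a j)

end Pool.Agent.NPC
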