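import Pool.Agent.NPC.StA

/-!
# [C2] A monic generator of the relations
-/

set_option autoImplicit false

namespace Pool.Agent.NPC

open Polynomial

theorem thm_C2 (hR : St_REL) : St_C2 := by
  intro K V _ _ _ Z t hZ hQ
  obtain ⟨Q, hQm, hQ0⟩ := hQ
  have halg : IsAlgebraic (fld1 (K := K) Z) t := by
    have hZmem : Z ∈ fld1 (K := K) Z := IntermediateField.mem_adjoin_simple_self K Z
    let z : fld1 (K := K) Z := ⟨Z, hZmem⟩
    refine ⟨Q.map ((aeval z : K[X] →ₐ[K] fld1 (K := K) Z) : K[X] →+* fld1 (K := K) Z), ?_, ?_⟩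
    · exact (hQm.map _).ne_zero
    · have h1 : aeval t (Q.map ((aeval z : K[X] →ₐ[K] fld1 (K := K) Z) :
          K[X] →+* fld1 (K := K) Z)) = evA Z t Q := by
        rw [evA, aeval_def, eval₂_eq_eval_map, Polynomial.map_map]
        congr 2
        ext a
        · simp
        · simp [z]
      rw [h1, hQ0]
  obtain ⟨F, hFi, hFd, hF⟩ := hR K V Z t hZ halg
  have hFQ : F ∣ Q := (hF Q).1 hQ0
  have hu : IsUnit F.leadingCoeff := by
    obtain ⟨G, hG⟩ := hFQ
    have : F.leadingCoeff * G.leadingCoeff = 1 := by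
      rw [← leadingCoeff_mul, ← hG]; exact hQm
    exact IsUnit.of_mul_eq_one _ this
  obtain ⟨u, hu'⟩ := hu
  have hassoc : Associated F (C ((↑u⁻¹ : K[X])) * F) := by
    refine ⟨Units.map (C : K[X] →+* K[X][X]).toMonoidHom u⁻¹, ?_⟩
    simp [mul_comm]
  refine ⟨C ((↑u⁻¹ : K[X])) * F, ?_, ?_, ?_⟩
  · rw [Monic, leadingCoeff_mul, leadingCoeff_C, ← hu']
    simp
  · exact hassoc.irreducible hFi
  · intro P
    rw [hF P]
    exact hassoc.dvd_iff_dvd_left

end Pool.Agent.NPC
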