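import Pool.Agent.NPC.StC

set_option autoImplicit false

/-! # CORE: the core theorem over an algebraically closed field -/

namespace Pool.Agent.NPC

open Polynomial Pool.Agent.Helper11.SP

section

variable {K E : Type} [Field K] [Field E] (φ : K →+* E)

private theorem CORE_unit {P : K[X][X]} (h : IsUnit (P.map (mapRingHom φ))) : IsUnit P := by
  rw [Polynomial.isUnit_iff] at h
  obtain ⟨q, hq, hqP⟩ := h
  obtain ⟨u, hu, rfl⟩ := Polynomial.isUnit_iff.1 hq
  have hinj : Function.Injective (mapRingHom φ) := Polynomial.map_injective φ φ.injective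
  have h1 : P.natDegree = 0 := by
    rw [← natDegree_map_eq_of_injective hinj P, ← hqP, natDegree_C]
  obtain ⟨a, rfl⟩ := natDegree_eq_zero.1 h1
  rw [Polynomial.map_C] at hqP
  have h2 := C_injective hqP
  have h3 : a.natDegree = 0 := by
    rw [← natDegree_map_eq_of_injective φ.injective a]
    have : a.map φ = C u := h2.symm
    rw [this, natDegree_C]
  obtain ⟨b, rfl⟩ := natDegree_eq_zero.1 h3
  have hb : b ≠ 0 := by
    rintro rfl
    rw [C_0, map_zero] at h2
    exact hu.ne_zero (C_eq_zero.1 h2)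
  exact (hb.isUnit.map C).map C

private theorem CORE_irr {P : K[X][X]} (h : Irreducible (P.map (mapRingHom φ))) :
    Irreducible P := by
  refine ⟨fun hu => h.not_isUnit (hu.map (mapRingHom (mapRingHom φ))), fun a b hab => ?_⟩
  have h1 : P.map (mapRingHom φ) = a.map (mapRingHom φ) * b.map (mapRingHom φ) := by
    rw [hab, Polynomial.map_mul]
  rcases h.isUnit_or_isUnit h1 with h2 | h2
  · exact Or.inl (CORE_unit φ h2)
  · exact Or.inr (CORE_unit φ h2)

private theorem CORE_swap (P : K[X][X]) :
    swp (P.map (mapRingHom φ)) = (swp P).map (mapRingHom φ) := by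
  induction P using Polynomial.induction_on' with
  | add p q hp hq =>
    show Bivariate.swap _ = (Bivariate.swap _).map _
    rw [Polynomial.map_add, map_add, map_add, Polynomial.map_add]
    exact congrArg₂ _ hp hq
  | monomial k a =>
    show Bivariate.swap _ = (Bivariate.swap _).map _
    rw [Polynomial.map_monomial, Bivariate.swap_monomial, Bivariate.swap_monomial,
      Polynomial.map_mul, Polynomial.map_C, Polynomial.map_map, coe_mapRingHom, Polynomial.map_map,
      Polynomial.map_pow, Polynomial.map_X, mapRingHom_comp_C]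

private theorem CORE_mapD {A : Type} [CommRing A] (d : A → A) (hd : d 0 = 0) (P : A[X]) (k : ℕ) :
    (mapD d P).coeff k = d (P.coeff k) := by
  unfold mapD
  rw [finsetSum_coeff]
  simp only [coeff_C_mul, coeff_X_pow, mul_ite, mul_one, mul_zero]
  rw [Finset.sum_ite_eq]
  split_ifs with h
  · rfl
  · rw [Finset.mem_range, not_lt] at h
    rw [coeff_eq_zero_of_natDegree_lt (by omega), hd]

private theorem CORE_dIn (P : K[X][X]) :
    dIn (P.map (mapRingHom φ)) = (dIn P).map (mapRingHom φ) := by
  ext1 k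
  unfold dIn
  rw [CORE_mapD _ derivative_zero, coeff_map, coeff_map, CORE_mapD _ derivative_zero,
    coe_mapRingHom, derivative_map]

end

section

variable {K E : Type} [Field K] [Field E] [Algebra K E]

private theorem CORE_evA (x y : E) (P : K[X][X]) :
    evA x y (P.map (mapRingHom (algebraMap K E))) = evA x y P := by
  unfold evA
  rw [Polynomial.map_map]
  congr 2
  ext q
  · simp
  · simp

private theorem CORE_evA_alg (x y : K) (P : K[X][X]) :
    evA (algebraMap K E x) (algebraMap K E y) P = algebraMap K E (evA x y P) := by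
  unfold evA
  rw [← Polynomial.eval_map_apply, Polynomial.map_map]
  congr 2
  ext q
  · simp
  · simp

private theorem CORE_lift (R : Subring K) (q : E[X])
    (h : ∀ i, ∃ u ∈ R, algebraMap K E u = q.coeff i) :
    ∃ P : K[X], P.map (algebraMap K E) = q ∧ ∀ i, P.coeff i ∈ R := by
  choose a ha ha' using h
  have key : ∀ k, (∑ i ∈ Finset.range (q.natDegree + 1), C (a i) * X ^ i : K[X]).coeff k =
      if k ∈ Finset.range (q.natDegree + 1) then a k else 0 := by
    intro k
    rw [finsetSum_coeff]
    simp only [coeff_C_mul, coeff_X_pow, mul_ite, mul_one, mul_zero]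
    rw [Finset.sum_ite_eq]
  refine ⟨∑ i ∈ Finset.range (q.natDegree + 1), C (a i) * X ^ i, ?_, fun k => ?_⟩
  · ext k
    rw [coeff_map, key]
    split_ifs with hk
    · exact ha' k
    · rw [Finset.mem_range, not_lt] at hk
      rw [map_zero, coeff_eq_zero_of_natDegree_lt (by omega)]
  · rw [key]
    split_ifs
    · exact ha k
    · exact R.zero_mem

private theorem CORE_lift2 (R : Subring K) (q : E[X][X])
    (h : ∀ i j, ∃ u ∈ R, algebraMap K E u = (q.coeff i).coeff j) :
    ∃ P : K[X][X], P.map (mapRingHom (algebraMap K E)) = q := by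
  have h1 : ∀ i, ∃ P : K[X], P.map (algebraMap K E) = q.coeff i := fun i => by
    obtain ⟨P, hP, -⟩ := CORE_lift R (q.coeff i) (h i)
    exact ⟨P, hP⟩
  choose a ha using h1
  refine ⟨∑ i ∈ Finset.range (q.natDegree + 1), C (a i) * X ^ i, ?_⟩
  ext1 k
  rw [coeff_map, finsetSum_coeff]
  simp only [coeff_C_mul, coeff_X_pow, mul_ite, mul_one, mul_zero]
  rw [Finset.sum_ite_eq]
  split_ifs with hk
  · exact ha k
  · rw [Finset.mem_range, not_lt] at hk
    rw [map_zero, coeff_eq_zero_of_natDegree_lt (by omega)]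

end

private theorem CORE_itc {A B : Type} [CommRing A] [CommRing B] (φ : A →+* B) (f : A[X]) (j : ℕ) :
    (itc f j).map φ = itc (f.map φ) j := by
  induction j with
  | zero => simp [itc]
  | succ j ih => rw [itc_succ, itc_succ, Polynomial.map_comp, ih]

private theorem CORE_fin {A : Type} [CommRing A] (q : A[X]) :
    (Set.range fun i => q.coeff i).Finite := by
  refine ((q.coeffs.finite_toSet).union (Set.finite_singleton 0)).subset ?_
  rintro _ ⟨i, rfl⟩
  by_cases h : q.coeff i = 0
  · exact Or.inr h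
  · exact Or.inl (coeff_mem_coeffs h)

private theorem CORE_fin2 {A : Type} [CommRing A] (q : A[X][X]) :
    (Set.range fun i : ℕ × ℕ => (q.coeff i.1).coeff i.2).Finite := by
  have h1 := (CORE_fin q).biUnion fun r _ => CORE_fin r
  refine h1.subset ?_
  rintro _ ⟨⟨i, j⟩, rfl⟩
  exact Set.mem_biUnion (Set.mem_range_self i) (Set.mem_range_self j)

/-- CORE. -/
theorem thm_CORE (hHG : St_HG) (hPL : St_PL) (hKC : St_KC) : St_CORE := by
  intro p hp 𝕂 _ _ _ r f g g₁ e h b c hr hf hfd hg hgd hfc hci h0i hbi hf0 hge hg1 hg2 hh hhd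
    hhs hh1 hh2 hper
  have hr2 : 2 ≤ p ^ r := by
    calc 2 ≤ p := hp.out.two_le
      _ = p ^ 1 := (pow_one p).symm
      _ ≤ p ^ r := Nat.pow_le_pow_right hp.out.pos hr
  obtain ⟨i₀, hgood⟩ := hHG p 𝕂 f g g₁ e h c (by rw [hfd]; exact hr2) (by rw [hfd, hgd]) hge hg1
    hh hhd hhs hh1 hci hper
  set B : Set 𝕂 := ((Set.range fun i => f.coeff i) ∪ (Set.range fun i => g.coeff i)) ∪
    ((Set.range fun i => g₁.coeff i) ∪ (Set.range fun i : ℕ × ℕ => (h.coeff i.1).coeff i.2)) ∪
    {b, c} with hB
  have hBf : B.Finite := (((CORE_fin f).union (CORE_fin g)).union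
    ((CORE_fin g₁).union (CORE_fin2 h))).union (Set.toFinite _)
  obtain ⟨K, L, _, _, _, _, _, S, hS⟩ := hPL p 𝕂 B hBf
  set ι := algebraMap K 𝕂 with hι
  obtain ⟨fK, hfK, hfR⟩ := CORE_lift (E := 𝕂) S.R f fun i =>
    hS _ (Or.inl (Or.inl (Or.inl ⟨i, rfl⟩)))
  obtain ⟨gK, hgK, hgR⟩ := CORE_lift (E := 𝕂) S.R g fun i =>
    hS _ (Or.inl (Or.inl (Or.inr ⟨i, rfl⟩)))
  obtain ⟨g1K, hg1K, -⟩ := CORE_lift (E := 𝕂) S.R g₁ fun i =>
    hS _ (Or.inl (Or.inr (Or.inl ⟨i, rfl⟩)))
  obtain ⟨hK, hhK⟩ := CORE_lift2 (E := 𝕂) S.R h fun i j =>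
    hS _ (Or.inl (Or.inr (Or.inr ⟨(i, j), rfl⟩)))
  obtain ⟨bK, hbR, hbK⟩ := hS b (Or.inr (Or.inl rfl))
  obtain ⟨cK, hcR, hcK⟩ := hS c (Or.inr (Or.inr rfl))
  have hinj : Function.Injective ι := ι.injective
  have hinj2 : Function.Injective (mapRingHom ι) := Polynomial.map_injective ι hinj
  have hev : ∀ (q : K[X]) (z : K), ι (q.eval z) = (q.map ι).eval (ι z) := fun q z =>
    (Polynomial.eval_map_apply ι z).symm
  have hit : ∀ (q : K[X]) (z : K) (l : ℕ), ι ((itc q l).eval z) =
      (itc (q.map ι) l).eval (ι z) := by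
    intro q z l
    rw [hev, CORE_itc]
  have horb : ∀ (q : K[X]) (z : K), Function.Injective (fun l : ℕ => (itc (q.map ι) l).eval (ι z)) →
      Function.Injective (fun l : ℕ => (itc q l).eval z) := by
    intro q z hq l l' hl
    apply hq
    beta_reduce at hl ⊢
    rw [← hit, ← hit, hl]
  have hsucc : ∀ (q : K[X]) (z : K) (l : ℕ), (itc q (l + 1)).eval z =
      q.eval ((itc q l).eval z) := by
    intro q z l
    rw [itc_succ, eval_comp]
  have hfm : fK.Monic := by rw [hinj.monic_map_iff, hfK]; exact hf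
  have hgm : gK.Monic := by rw [hinj.monic_map_iff, hgK]; exact hg
  have hfd' : fK.natDegree = p ^ r := by
    rw [← natDegree_map_eq_of_injective hinj fK, hfK, hfd]
  have hgd' : gK.natDegree = p ^ r := by
    rw [← natDegree_map_eq_of_injective hinj gK, hgK, hgd]
  have hmi : Function.Injective (Polynomial.map ι) := Polynomial.map_injective ι hinj
  have hmi2 : Function.Injective (Polynomial.map (mapRingHom ι)) :=
    Polynomial.map_injective _ hinj2
  have hder : ∀ l, (derivative fK).eval ((itc fK l).eval 0) ≠ 0 := by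
    intro l h1
    apply hf0 l
    have h2 := congrArg ι h1
    rw [hev, ← derivative_map, hit, map_zero, hfK] at h2
    exact h2
  have hfc' : (derivative fK).eval cK = 0 := by
    apply hinj
    rw [hev, ← derivative_map, hfK, hcK, hfc, map_zero]
  have hgood' : Good p 𝕂 fK gK hK cK i₀ := by
    obtain ⟨a1, a2, a3⟩ := hgood
    have e1 : ι ((itc fK i₀).eval cK) = (itc f i₀).eval c := by rw [hit, hfK, hcK]
    refine ⟨a1, fun h1 => a2 ?_, fun s hs => ?_⟩
    · have h2 := congrArg ι h1
      rw [hev, e1, map_zero] at h2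
      rw [← hhK, leadingCoeff_map_of_injective hinj2]
      exact h2
    · rw [← hι, e1] at hs ⊢
      have h3 := a3 s (by
        show evA ((itc f i₀).eval c) s h = 0
        rw [← hhK, CORE_evA]; exact hs)
      obtain ⟨b1, b2, b3⟩ := h3
      refine ⟨?_, ?_, ?_⟩
      · intro h4
        apply b1
        show evA ((itc f i₀).eval c) s (derivative h) = 0
        rw [← hhK, derivative_map, CORE_evA]; exact h4
      · intro h4
        apply b2
        rw [← hhK, CORE_swap, leadingCoeff_map_of_injective hinj2, coe_mapRingHom, aeval_def,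
          eval₂_map]
        exact h4
      · rintro ⟨i, e', G, y, h4, h5, h6, h7⟩
        apply b3
        refine ⟨i, e', G.map ι, y, ?_, ?_, ?_, ?_⟩
        · rw [← hgK, ← CORE_itc, h4, map_expand]
        · rw [derivative_map]
          exact fun h8 => h5 (hmi (by rw [h8, Polynomial.map_zero]))
        · rw [derivative_map, aeval_map_algebraMap]; exact h6
        · rw [aeval_map_algebraMap]; exact h7
  have hfin := hKC p K L 𝕂 S r fK gK g1K e hK (fun l => (itc fK l).eval 0)
    (fun l => (itc gK l).eval bK) cK i₀ hr hfm hfd' hgm hgd' hfR hgR (by simp [itc])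
    (by simpa [itc] using hbR) (hsucc fK 0) (hsucc gK bK)
    (horb fK 0 (by rw [hfK, map_zero]; exact h0i)) (horb gK bK (by rw [hgK, hbK]; exact hbi))
    hder hfc' (horb fK cK (by rw [hfK, hcK]; exact hci))
    (hmi (by rw [hgK, map_expand, hg1K]; exact hge))
    (fun h1 => hg1 (by rw [← hg1K, derivative_map, h1, Polynomial.map_zero]))
    (hg2.imp (fun h1 => by rwa [← natDegree_map_eq_of_injective hinj g1K, hg1K])
      fun h1 => hmi (by rw [hgK, h1, Polynomial.map_pow, Polynomial.map_X]))
    (CORE_irr ι (by rw [hhK]; exact hh))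
    (fun h1 => hh1 (by rw [← hhK, derivative_map, h1, Polynomial.map_zero]))
    (fun h1 => hh2 (by rw [← hhK, CORE_dIn, h1, Polynomial.map_zero])) hgood'
  refine hfin.subset fun n hn => ?_
  show evA ((itc fK n).eval 0) ((itc gK n).eval bK) hK = 0
  apply hinj
  rw [hι, ← CORE_evA_alg, ← hι, hit, hit, hfK, hgK, map_zero, hbK, ← CORE_evA, hhK]
  exact hn

end Pool.Agent.NPC
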