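import Pool.Agent.NPC.StC
import Pool.Agent.Helper11.SP.Dich

/-!
# If all large indices are covered the curve is periodic
-/

set_option autoImplicit false

namespace Pool.Agent.NPC

open Polynomial Pool.Agent.Helper11.SP Pool.Agent.Helper79.DM

theorem COV_evA_eq {K : Type} [Field K] (x y : K) (P : K[X][X]) : evA x y P = ev x y P := by
  unfold evA ev
  congr 2

theorem COV_itc_orb {K : Type} [Field K] (f : K[X]) (x : K) (n : ℕ) :
    (itc f n).eval x = orb f x n := itc_eval f n x

/-- A zero for infinitely many indices in an arithmetic progression. -/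
theorem COV_dvd {K : Type} [Field K] (f g : K[X]) (h : K[X][X]) (hirr : Irreducible h)
    (hd : 0 < h.natDegree) (x y : K) (hinj : Function.Injective (orb f x)) (n₀ P : ℕ)
    (hP : 0 < P) (hz : ∀ m, ev (orb f x (n₀ + P * m)) (orb g y (n₀ + P * m)) h = 0) :
    h ∣ tw f g h P := by
  by_contra hnd
  have hr := resultant_ne h (tw f g h P) hirr hd hnd
  have hzero : ∀ m, (resultant h (tw f g h P)).eval (orb f x (n₀ + P * m)) = 0 := by
    intro m
    obtain ⟨p, q, -, -, he⟩ := exists_mul_add_mul_eq_C_resultant h (tw f g h P) le_rfl le_rfl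
      (Or.inl hd.ne')
    have h1 := congrArg (ev (orb f x (n₀ + P * m)) (orb g y (n₀ + P * m))) he
    have h2 : ev (orb f x (n₀ + P * m)) (orb g y (n₀ + P * m)) (tw f g h P) = 0 := by
      rw [ev_tw]
      have h3 := hz (m + 1)
      have h4 : n₀ + P * (m + 1) = P + (n₀ + P * m) := by ring
      rw [h4, orb_add f x (n₀ + P * m) P, orb_add g y (n₀ + P * m) P] at h3
      exact h3
    rw [ev_add, ev_mul, ev_mul, hz m, h2, zero_mul, zero_mul, add_zero, ev_C] at h1
    exact h1.symm
  have hfin : {z : K | (resultant h (tw f g h P)).IsRoot z}.Finite := by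
    classical
    refine ((resultant h (tw f g h P)).roots.toFinset.finite_toSet).subset fun z hz => ?_
    simp only [Finset.mem_coe, Multiset.mem_toFinset]
    exact (mem_roots hr).2 hz
  have hinj' : Function.Injective (fun m : ℕ => orb f x (n₀ + P * m)) := by
    intro a b hab
    have := hinj hab
    have h5 : P * a = P * b := by omega
    exact Nat.eq_of_mul_eq_mul_left hP h5
  exact (Set.infinite_range_of_injective hinj')
    (hfin.subset (by rintro _ ⟨m, rfl⟩; exact hzero m))

/-- The gap principle for one pair of orbits if the curve is not periodic. -/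
theorem COV_gap (p : ℕ) [Fact p.Prime] (K : Type) [Field K] [CharP K p] (f g : K[X])
    (hf : 2 ≤ f.natDegree) (hfg : g.natDegree = f.natDegree) (h : K[X][X]) (hirr : Irreducible h)
    (hd : 0 < h.natDegree) (hno : ∀ N, 1 ≤ N → ¬ h ∣ tw f g h N) (x y : K)
    (hinj : Function.Injective (orb f x)) :
    ∃ c : ℕ, ∀ n j : ℕ, 0 < j → ev (orb f x n) (orb g y n) h = 0 →
      ev (orb f x (n + j)) (orb g y (n + j)) h = 0 → n ≤ j + c := by
  have hx : ¬ (Set.range (orb f x)).Finite := Set.infinite_range_of_injective hinj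
  rcases dich p K f g hfg.symm (by omega) x y hx h hirr hd with hep | ⟨c, -, hc⟩
  · obtain ⟨N, P, hP, hNP⟩ := hep
    refine ⟨N, fun n j _ hn _ => ?_⟩
    by_contra hlt
    have hNn : N ≤ n := by omega
    refine hno P hP (COV_dvd f g h hirr hd x y hinj n P hP fun m => ?_)
    induction m with
    | zero => simpa using hn
    | succ m ih =>
      have h1 := (hNP (n + P * m) (by omega)).1 ih
      have h2 : n + P * (m + 1) = n + P * m + P := by ring
      rw [h2]
      exact h1
  · exact ⟨c, fun n j hj h1 h2 => (hc n j hj h1 h2).2 hf⟩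

theorem thm_COV (_hSB2 : St_SB2) : St_COV := by
  intro p _ 𝕂 _ _ f g h c T M hf hg hirr hd _ hinj hcov
  classical
  by_contra hno'
  have hno : ∀ N, 1 ≤ N → ¬ h ∣ tw f g h N := fun N hN hdv => hno' ⟨N, hN, hdv⟩
  have hinjc : Function.Injective (orb f c) := by
    intro a b hab
    apply hinj
    show (itc f a).eval c = (itc f b).eval c
    rw [COV_itc_orb, COV_itc_orb]
    exact hab
  have hinjd : ∀ d, Function.Injective (orb f (orb f c d)) := by
    intro d a b hab
    have h1 := orb_add f c d a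
    have h2 := orb_add f c d b
    have h3 : orb f c (a + d) = orb f c (b + d) := by rw [h1, h2]; exact hab
    have := hinjc h3
    omega
  -- the constants
  choose CA hCA using fun (k : 𝕂) (d : ℕ) => COV_gap p 𝕂 f g hf hg h hirr hd hno c (orb g k d) hinjc
  choose CB hCB using fun (k : 𝕂) (d : ℕ) => COV_gap p 𝕂 f g hf hg h hirr hd hno (orb f c d) k (hinjd d)
  obtain ⟨C₀, hC₀⟩ : ∃ C₀ : ℕ, ∀ k ∈ T, ∀ d ≤ M, CA k d ≤ C₀ ∧ CB k d ≤ C₀ := by
    refine ⟨∑ k ∈ T, ∑ d ∈ Finset.range (M + 1), (CA k d + CB k d), fun k hk d hdM => ?_⟩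
    have h1 : CA k d + CB k d ≤ ∑ d ∈ Finset.range (M + 1), (CA k d + CB k d) :=
      Finset.single_le_sum (f := fun d => CA k d + CB k d) (fun _ _ => Nat.zero_le _)
        (Finset.mem_range.2 (by omega))
    have h2 : ∑ d ∈ Finset.range (M + 1), (CA k d + CB k d) ≤
        ∑ k ∈ T, ∑ d ∈ Finset.range (M + 1), (CA k d + CB k d) :=
      Finset.single_le_sum (f := fun k => ∑ d ∈ Finset.range (M + 1), (CA k d + CB k d))
        (fun _ _ => Nat.zero_le _) hk
    omega
  -- the classes
  obtain ⟨W, hW⟩ : ∃ W : ℕ, (T.card * (M + 1)) * 2 < W := ⟨_, Nat.lt_succ_self _⟩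
  let X₀ := M + (W + M + C₀) + 1
  have hX₀ : X₀ = M + (W + M + C₀) + 1 := rfl
  have hcl : ∀ i : ℕ, ∃ q : (𝕂 × ℕ) × Bool, M ≤ i →
      (q ∈ (T ×ˢ Finset.range (M + 1)) ×ˢ (Finset.univ : Finset Bool) ∧
      ((q.2 = true ∧ ev (orb f c i) (orb g q.1.1 (i + q.1.2)) h = 0) ∨
       (q.2 = false ∧ q.1.2 ≤ i ∧ ev (orb f c i) (orb g q.1.1 (i - q.1.2)) h = 0))) := by
    intro i
    by_cases hi : M ≤ i
    · obtain ⟨k, hk, l, hz, h1, h2⟩ := hcov i hi
      rw [COV_evA_eq, COV_itc_orb, COV_itc_orb] at hz
      rcases le_total i l with hil | hil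
      · refine ⟨((k, l - i), true), fun _ => ⟨?_, Or.inl ⟨rfl, ?_⟩⟩⟩
        · simp only [Finset.mem_product, Finset.mem_range, Finset.mem_univ, and_true]
          exact ⟨hk, by omega⟩
        · show ev (orb f c i) (orb g k (i + (l - i))) h = 0
          rw [show i + (l - i) = l by omega]
          exact hz
      · refine ⟨((k, i - l), false), fun _ => ⟨?_, Or.inr ⟨rfl, by simp, ?_⟩⟩⟩
        · simp only [Finset.mem_product, Finset.mem_range, Finset.mem_univ, and_true]
          exact ⟨hk, by omega⟩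
        · show ev (orb f c i) (orb g k (i - (i - l))) h = 0
          rw [show i - (i - l) = l by omega]
          exact hz
    · exact ⟨((0, 0), true), fun h => absurd h hi⟩
  choose q hq using hcl
  obtain ⟨a, ha, b, hb, hab, hqab⟩ := Finset.exists_ne_map_eq_of_card_lt_of_maps_to
    (s := Finset.range W) (t := (T ×ˢ Finset.range (M + 1)) ×ˢ (Finset.univ : Finset Bool))
    (f := fun i => q (X₀ + i))
    (by
      rw [Finset.card_product, Finset.card_product, Finset.card_range, Finset.card_range,
        Finset.card_univ, Fintype.card_bool]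
      exact hW)
    (fun i _ => (hq (X₀ + i) (by omega)).1)
  wlog hlt : a < b generalizing a b
  · exact this b hb a ha hab.symm hqab.symm (by omega)
  have hqa := hq (X₀ + a) (by omega)
  have hqb := hq (X₀ + b) (by omega)
  have hqab' : q (X₀ + a) = q (X₀ + b) := hqab
  rw [← hqab'] at hqb
  rw [Finset.mem_range] at ha hb
  obtain ⟨hmem, hza⟩ := hqa
  obtain ⟨-, hzb⟩ := hqb
  generalize q (X₀ + a) = Q at hmem hza hzb
  obtain ⟨⟨k, d⟩, bb⟩ := Q
  simp only [Finset.mem_product, Finset.mem_range, Finset.mem_univ, and_true] at hmem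
  obtain ⟨hk, hdM⟩ := hmem
  have hCC := hC₀ k hk d (by omega)
  rcases hza with ⟨e1, z1⟩ | ⟨e1, l1, z1⟩
  · rcases hzb with ⟨e2, z2⟩ | ⟨e2, l2, z2⟩
    · have h1 := hCA k d (X₀ + a) (b - a) (by omega)
        (by rw [← orb_add]; exact z1)
        (by rw [← orb_add, show X₀ + a + (b - a) = X₀ + b by omega]; exact z2)
      omega
    · simp only at e1 e2
      rw [e1] at e2
      exact absurd e2 (by decide)
  · rcases hzb with ⟨e2, z2⟩ | ⟨e2, l2, z2⟩
    · simp only at e1 e2
      rw [e1] at e2
      exact absurd e2 (by decide)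
    · simp only at l1 z1 l2 z2
      have h1 := hCB k d (X₀ + a - d) (b - a) (by omega)
        (by rw [← orb_add, show X₀ + a - d + d = X₀ + a by omega]; exact z1)
        (by
          rw [← orb_add, show X₀ + a - d + (b - a) + d = X₀ + b by omega,
            show X₀ + a - d + (b - a) = X₀ + b - d by omega]
          exact z2)
      omega

end Pool.Agent.NPC
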