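import Pool.Agent.NPC.StA

/-!
# Infinitely many values with a single root
-/

set_option autoImplicit false

namespace Pool.Agent.NPC

open Polynomial

/-- `Q` and its derivative are coprime up to a nonzero constant `r ∈ K[X]` -/
private theorem CR_bezout {K : Type} [Field K] (Q : K[X][X]) (hQ : Irreducible Q)
    (hm : Q.Monic) (hd : derivative Q ≠ 0) :
    ∃ (A B : K[X][X]) (r : K[X]), r ≠ 0 ∧ A * Q + B * derivative Q = C r := by
  set F := FractionRing K[X] with hF
  set ι : K[X] →+* F := algebraMap K[X] F with hι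
  have hinj : Function.Injective ι := IsFractionRing.injective K[X] F
  have h1 : Irreducible (Q.map ι) := (hm.irreducible_iff_irreducible_map_fraction_map (K := F)).1 hQ
  have h2 : derivative (Q.map ι) ≠ 0 := by
    rw [derivative_map]
    exact (Polynomial.map_ne_zero_iff hinj).2 hd
  have h3 : (Q.map ι).Separable := (separable_iff_derivative_ne_zero h1).2 h2
  obtain ⟨A', B', h4⟩ := h3
  obtain ⟨b₁, hm₁, hb₁⟩ := IsLocalization.integerNormalization_spec (nonZeroDivisors K[X]) A'
  obtain ⟨b₂, hm₂, hb₂⟩ := IsLocalization.integerNormalization_spec (nonZeroDivisors K[X]) B'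
  set A := IsLocalization.integerNormalization (nonZeroDivisors K[X]) A' with hA
  set B := IsLocalization.integerNormalization (nonZeroDivisors K[X]) B' with hB
  refine ⟨C b₂ * A, C b₁ * B, b₁ * b₂,
    mul_ne_zero (nonZeroDivisors.ne_zero hm₁) (nonZeroDivisors.ne_zero hm₂), ?_⟩
  apply Polynomial.map_injective ι hinj
  have e1 : A.map ι = C (ι b₁) * A' := by
    rw [hA, hb₁, Algebra.smul_def, Polynomial.algebraMap_apply]
  have e2 : B.map ι = C (ι b₂) * B' := by
    rw [hB, hb₂, Algebra.smul_def, Polynomial.algebraMap_apply]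
  rw [Polynomial.map_add, Polynomial.map_mul, Polynomial.map_mul, Polynomial.map_mul,
    Polynomial.map_mul, Polynomial.map_C, Polynomial.map_C, Polynomial.map_C, e1, e2, map_mul,
    C_mul, ← derivative_map]
  linear_combination (C (ι b₁) * C (ι b₂)) * h4

theorem thm_CR : St_CR := by
  intro K E _ _ _ Q hQ hm hd hinf
  by_contra hlt
  push Not at hlt
  obtain ⟨A, B, r, hr, hAB⟩ := CR_bezout Q hQ hm hd
  apply hinf
  refine (r.rootSet_finite E).subset ?_
  rintro v ⟨a, ha⟩
  rw [Polynomial.mem_rootSet]
  refine ⟨hr, ?_⟩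
  set φ : K[X] →+* E := ((aeval v : K[X] →ₐ[K] E) : K[X] →+* E) with hφ
  have h1 : (Q.map φ).eval a = 0 := by
    rw [ha, eval_pow, eval_sub, eval_X, eval_C, sub_self, zero_pow (by omega)]
  have h2 : ((derivative Q).map φ).eval a = 0 := by
    rw [← derivative_map, ha, derivative_X_sub_C_pow, eval_mul, eval_pow, eval_sub, eval_X,
      eval_C (x := a) (a := a), sub_self, zero_pow (by omega), mul_zero]
  have h3 := congrArg (fun P : K[X][X] => (P.map φ).eval a) hAB
  simp only [Polynomial.map_add, Polynomial.map_mul, eval_add, eval_mul, h1, h2, mul_zero, add_zero,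
    Polynomial.map_C, eval_C] at h3
  exact h3.symm

end Pool.Agent.NPC
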