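import Pool.Agent.NPC.StA

/-!
# Evaluation at a critical point
-/

set_option autoImplicit false

namespace Pool.Agent.NPC

open Polynomial Pool.Agent.Helper11.SP

theorem thm_CV : St_CV := by
  intro K E _ _ _ φ A Q Q' c hQ hQ' hdeg hφ hid hc
  set g : K[X] := derivative φ with hg
  set m : ℕ := Q.natDegree with hm
  set P : K[X][X] := Q.map (compRingHom φ) with hP
  have hPm : P.Monic := hQ.map _
  have hPd : P.natDegree = m := hQ.natDegree_map _
  set P₁ : K[X][X] := P.comp (X + C A) with hP₁
  have hP₁m : P₁.Monic := hPm.comp (monic_X_add_C A) (by simp)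
  have hP₁d : P₁.natDegree = m := by
    rw [hP₁, natDegree_comp, natDegree_X_add_C, mul_one, hPd]
  have hcomp : P₁.comp (C g * X) = C (g ^ m) * Q' := by
    rw [hP₁, comp_assoc, ← hid]
    congr 1
    simp
  have hcoef : ∀ i, P₁.coeff i * g ^ i = g ^ m * Q'.coeff i := by
    intro i
    rw [← comp_C_mul_X_coeff, hcomp, coeff_C_mul]
  have hmap : P₁.map ((aeval c : K[X] →ₐ[K] E) : K[X] →+* E) = X ^ m := by
    ext i
    rw [coeff_map, coeff_X_pow]
    rcases lt_trichotomy i m with hi | hi | hi
    · have h1 : P₁.coeff i = g ^ (m - i) * Q'.coeff i := by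
        have h2 := hcoef i
        have h3 : g ^ m = g ^ (m - i) * g ^ i := by rw [← pow_add]; congr 1; omega
        rw [h3] at h2
        have h4 : (P₁.coeff i - g ^ (m - i) * Q'.coeff i) * g ^ i = 0 := by
          linear_combination h2
        rcases mul_eq_zero.mp h4 with h5 | h5
        · exact sub_eq_zero.mp h5
        · exact absurd h5 (pow_ne_zero _ hφ)
      have h5 : ((aeval c : K[X] →ₐ[K] E) : K[X] →+* E) g = 0 := hc
      rw [if_neg (by omega), h1, map_mul, map_pow, h5, zero_pow (by omega), zero_mul]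
    · rw [hi]
      have h1 : P₁.coeff m = 1 := by
        rw [← hP₁d]; exact hP₁m.coeff_natDegree
      rw [if_pos rfl, h1, map_one]
    · have h1 : P₁.coeff i = 0 := coeff_eq_zero_of_natDegree_lt (by omega)
      rw [if_neg (by omega), h1, map_zero]
  have hback : P = P₁.comp (X - C A) := by
    rw [hP₁, comp_assoc]
    simp
  have hPmap : P.map ((aeval c : K[X] →ₐ[K] E) : K[X] →+* E) = (X - C (aeval c A)) ^ m := by
    rw [hback, Polynomial.map_comp, hmap, X_pow_comp]
    simp
  rw [← hPmap, hP, Polynomial.map_map]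
  congr 1
  ext q
  · simp
  · simp

end Pool.Agent.NPC
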