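import Pool.Agent.NPC.StB

/-!
# [EMB] Separable Noether normalization after extraction of `p^m`-th roots (helper35)
-/

set_option autoImplicit false

namespace Pool.Agent.NPC

open Polynomial

theorem EMB_sep {F E : Type} [Field F] [Field E] [Algebra F E] (p : ℕ) [Fact p.Prime] [CharP F p]
    (z : E) (hz : IsIntegral F z) : ∃ m : ℕ, IsSeparable F (z ^ (p ^ m)) := by
  haveI : ExpChar F p := ExpChar.prime Fact.out
  obtain ⟨g, hg, m, hm⟩ := (minpoly.irreducible hz).hasSeparableContraction p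
  refine ⟨m, ?_⟩
  have h1 : aeval (z ^ (p ^ m)) g = 0 := by
    rw [← expand_aeval, hm]
    exact minpoly.aeval F z
  exact hg.of_dvd (minpoly.dvd F _ h1)

theorem EMB_pow {F E : Type} [Field F] [Field E] [Algebra F E] (p : ℕ) (z : E) (m M : ℕ)
    (h : m ≤ M) (hs : IsSeparable F (z ^ (p ^ m))) : IsSeparable F (z ^ (p ^ M)) := by
  rw [← mem_separableClosure_iff] at hs ⊢
  have : z ^ p ^ M = (z ^ p ^ m) ^ p ^ (M - m) := by
    rw [← pow_mul, ← pow_add]
    congr 2
    omega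
  rw [this]
  exact pow_mem hs _

theorem EMB_int {k R C 𝕂 : Type} [CommRing k] [CommRing R] [CommRing C] [CommRing 𝕂]
    [Algebra C 𝕂] (g : k →+* R) (v : R →+* 𝕂) (h : k →+* C)
    (hh : (algebraMap C 𝕂).comp h = v.comp g) (z : R) (hz : g.IsIntegralElem z) :
    IsIntegral C (v z) := by
  obtain ⟨P, hP, hP0⟩ := hz
  refine ⟨P.map h, hP.map _, ?_⟩
  rw [eval₂_map, hh, ← hom_eval₂, hP0, map_zero]

/-- [EMB] -/
theorem thm_EMB : St_EMB := by
  intro p _ 𝕂 _ _ _ B hB
  haveI : CharP 𝕂 p := charP_of_injective_algebraMap (algebraMap (ZMod p) 𝕂).injective p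
  haveI : ExpChar 𝕂 p := ExpChar.prime Fact.out
  set R := Algebra.adjoin (ZMod p) B with hR
  haveI : Algebra.FiniteType (ZMod p) R :=
    (Subalgebra.fg_iff_finiteType _).1 ⟨hB.toFinset, by simp [hR]⟩
  obtain ⟨n, g, hginj, hgfin⟩ := exists_finite_inj_algHom_of_fg (ZMod p) R
  have hgint : g.toRingHom.IsIntegral := RingHom.Finite.to_isIntegral hgfin
  set f : MvPolynomial (Fin n) (ZMod p) →ₐ[ZMod p] 𝕂 := R.val.comp g with hf
  have hfinj : Function.Injective f := Subtype.val_injective.comp hginj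
  set ρ : Fin n → 𝕂 := fun i => f (MvPolynomial.X i) with hρdef
  have hρ : AlgebraicIndependent (ZMod p) ρ :=
    (AlgHom.algebraicIndependent_iff f hfinj).2 (MvPolynomial.algebraicIndependent_X _ _)
  have hfρ : f = MvPolynomial.aeval ρ := MvPolynomial.algHom_ext fun i => by simp [hρdef]
  -- the field generated by `ρ`
  set F := IntermediateField.adjoin (ZMod p) (Set.range ρ) with hF
  haveI : CharP F p := charP_of_injective_algebraMap (algebraMap (ZMod p) F).injective p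
  have hfmem : ∀ (A : Subalgebra (ZMod p) 𝕂), (∀ i, ρ i ∈ A) → ∀ P, f P ∈ A := by
    intro A hA P
    have h1 : f P ∈ (MvPolynomial.aeval ρ : MvPolynomial (Fin n) (ZMod p) →ₐ[ZMod p] 𝕂).range := by
      rw [hfρ]
      exact ⟨P, rfl⟩
    rw [← Algebra.adjoin_range_eq_range_aeval] at h1
    exact Algebra.adjoin_le (by rintro _ ⟨i, rfl⟩; exact hA i) h1
  have hFint : ∀ z ∈ B, IsIntegral F z := by
    intro z hz
    have hzR : z ∈ R := Algebra.subset_adjoin hz
    have hm : ∀ P, f P ∈ F.toSubalgebra := hfmem F.toSubalgebra fun i =>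
      IntermediateField.subset_adjoin _ _ ⟨i, rfl⟩
    exact EMB_int (C := F) g.toRingHom R.val.toRingHom
      (f.codRestrict F.toSubalgebra hm).toRingHom (by ext <;> rfl) ⟨z, hzR⟩ (hgint _)
  obtain ⟨M, hM⟩ : ∃ M : ℕ, ∀ z ∈ B, IsSeparable F (z ^ (p ^ M)) := by
    have h1 : ∀ z : 𝕂, ∃ m : ℕ, z ∈ B → IsSeparable F (z ^ (p ^ m)) := by
      intro z
      by_cases hz : z ∈ B
      · obtain ⟨m, hm⟩ := EMB_sep (F := F) p z (hFint z hz)
        exact ⟨m, fun _ => hm⟩
      · exact ⟨0, fun h => absurd h hz⟩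
    choose m hm using h1
    obtain ⟨M, hM⟩ := (hB.image m).bddAbove
    exact ⟨M, fun z hz => EMB_pow p z (m z) M (hM (Set.mem_image_of_mem m hz)) (hm z hz)⟩
  -- the inverse of Frobenius
  set σ : 𝕂 ≃+* 𝕂 := (iterateFrobeniusEquiv 𝕂 p M).symm with hσ
  have hσc : ∀ c : ZMod p, σ (algebraMap (ZMod p) 𝕂 c) = algebraMap (ZMod p) 𝕂 c := fun c =>
    DFunLike.congr_fun (Subsingleton.elim
      ((σ : 𝕂 →+* 𝕂).comp (algebraMap (ZMod p) 𝕂)) (algebraMap (ZMod p) 𝕂)) c
  have hσpow : ∀ z, σ (z ^ (p ^ M)) = z := fun z => by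
    rw [hσ, ← iterateFrobeniusEquiv_def]
    exact RingEquiv.symm_apply_apply _ _
  have hpowσ : ∀ z, (σ z) ^ (p ^ M) = z := fun z => by
    rw [hσ, ← iterateFrobeniusEquiv_def]
    exact RingEquiv.apply_symm_apply _ _
  let σA : 𝕂 →ₐ[ZMod p] 𝕂 := { (σ : 𝕂 →+* 𝕂) with commutes' := hσc }
  have hσA : ∀ z, σA z = σ z := fun _ => rfl
  set τ : Fin n → 𝕂 := fun i => σ (ρ i) with hτ
  have hτρ : ∀ i, ρ i = τ i ^ (p ^ M) := fun i => (hpowσ _).symm
  refine ⟨n, τ, ?_, fun z hz => ⟨?_, ?_⟩⟩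
  · exact (AlgHom.algebraicIndependent_iff σA σ.injective).2 hρ
  · have hzR : z ∈ R := Algebra.subset_adjoin hz
    have hm : ∀ P, f P ∈ Algebra.adjoin (ZMod p) (Set.range τ) :=
      hfmem _ fun i => by
        rw [hτρ]
        have h7 : τ i ∈ Set.range τ := ⟨i, rfl⟩
        exact pow_mem (Algebra.subset_adjoin h7) _
    exact EMB_int (C := Algebra.adjoin (ZMod p) (Set.range τ)) g.toRingHom R.val.toRingHom
      (f.codRestrict _ hm).toRingHom (by ext <;> rfl) ⟨z, hzR⟩ (hgint _)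
  · set F' := IntermediateField.adjoin (ZMod p) (Set.range τ) with hF'
    have hmap : F.map σA = F' := by
      rw [hF, IntermediateField.adjoin_map, hF', ← Set.range_comp]
      rfl
    have hmem : ∀ x : F, σ (x : 𝕂) ∈ F' := by
      intro x
      rw [← hmap]
      exact ⟨x, x.2, rfl⟩
    let e : F →+* F' :=
      { toFun := fun x => ⟨σ (x : 𝕂), hmem x⟩
        map_one' := Subtype.ext (by simp)
        map_zero' := Subtype.ext (by simp)
        map_mul' := fun x y => Subtype.ext (by simp)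
        map_add' := fun x y => Subtype.ext (by simp) }
    have h1 : (minpoly F (z ^ (p ^ M))).Separable := hM z hz
    have h2 : ((minpoly F (z ^ (p ^ M))).map e).Separable := h1.map
    have h3 : aeval z ((minpoly F (z ^ (p ^ M))).map e) = 0 := by
      rw [aeval_def, eval₂_map]
      have h4 : (algebraMap F' 𝕂).comp e = (σ : 𝕂 →+* 𝕂).comp (algebraMap F 𝕂) := rfl
      have h5 : z = (σ : 𝕂 →+* 𝕂) (z ^ (p ^ M)) := (hσpow z).symm
      have h6 : eval₂ ((σ : 𝕂 →+* 𝕂).comp (algebraMap F 𝕂)) ((σ : 𝕂 →+* 𝕂) (z ^ (p ^ M)))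
          (minpoly F (z ^ (p ^ M))) = 0 := by
        rw [← hom_eval₂, ← aeval_def, minpoly.aeval, map_zero]
      rw [h4]
      rw [← h5] at h6
      exact h6
    exact h2.of_dvd (minpoly.dvd F' _ h3)

end Pool.Agent.NPC
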