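import Pool.Agent.NPC.StC

set_option autoImplicit false

/-! # END: an orbit of integral elements can not consist of `p ^ s`-th powers for all `s` -/

namespace Pool.Agent.NPC

open Polynomial

private theorem END_bd {p : ℕ} {K L : Type} [Field K] [NormedField L] (S : PS p K L) (a : K) :
    ∃ C : ℝ, ∀ j, ‖S.σ j a‖ ≤ C := by
  have := S.fin
  obtain ⟨C, hC⟩ := (Set.finite_range fun j => ‖S.σ j a‖).bddAbove
  exact ⟨C, fun j => hC ⟨j, rfl⟩⟩

private theorem END_one {p : ℕ} (hp : 2 ≤ p) {K L : Type} [Field K] [NormedField L] (S : PS p K L)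
    (z : K) (hz : z ∈ S.R) (h : ∀ s : ℕ, ∃ a, z = a ^ (p ^ s)) (j : S.I) : ‖S.σ j z‖ ≤ 1 := by
  choose w hw using h
  obtain ⟨C, hC⟩ := END_bd S z
  have hR : ∀ s, w s ∈ S.R := by
    intro s
    refine S.Rint (X ^ (p ^ s) - Polynomial.C z) (w s) (monic_X_pow_sub_C z (by positivity)) ?_ ?_
    · intro i
      rw [coeff_sub, coeff_X_pow, coeff_C]
      refine S.R.sub_mem ?_ ?_
      · split_ifs
        · exact S.R.one_mem
        · exact S.R.zero_mem
      · split_ifs
        · exact hz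
        · exact S.R.zero_mem
    · rw [eval_sub, eval_pow, eval_X, eval_C, ← hw s, sub_self]
  have hn : ∀ s j, ‖S.σ j (w s)‖ ≤ max 1 C := by
    intro s j
    by_contra hcon
    push Not at hcon
    have h1 : 1 < ‖S.σ j (w s)‖ := lt_of_le_of_lt (le_max_left _ _) hcon
    have h2 : C < ‖S.σ j (w s)‖ := lt_of_le_of_lt (le_max_right _ _) hcon
    have h3 : ‖S.σ j (w s)‖ ≤ ‖S.σ j z‖ := by
      conv_rhs => rw [hw s]
      rw [map_pow, norm_pow]
      exact le_self_pow₀ h1.le (by positivity)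
    have := hC j
    linarith
  have hfin := S.north (max 1 C)
  obtain ⟨s, s', hss, hws⟩ : ∃ s s' : ℕ, s < s' ∧ w s = w s' := by
    by_contra hcon
    push Not at hcon
    have hinj : Function.Injective w := by
      intro s s' h
      rcases lt_trichotomy s s' with h1 | h1 | h1
      · exact absurd h (hcon s s' h1)
      · exact h1
      · exact absurd h.symm (hcon s' s h1)
    exact Set.infinite_of_injective_forall_mem hinj (s := {u : K | u ∈ S.R ∧ ∀ j, ‖S.σ j u‖ ≤
      max 1 C}) (fun s => ⟨hR s, hn s⟩) hfin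
  have e1 : ‖S.σ j z‖ = ‖S.σ j (w s)‖ ^ (p ^ s) := by
    conv_lhs => rw [hw s]
    rw [map_pow, norm_pow]
  have e2 : ‖S.σ j z‖ = ‖S.σ j (w s)‖ ^ (p ^ s') := by
    conv_lhs => rw [hw s', ← hws]
    rw [map_pow, norm_pow]
  have hle : ‖S.σ j (w s)‖ ≤ 1 := by
    by_contra hcon
    push Not at hcon
    have h1 : p ^ s < p ^ s' := Nat.pow_lt_pow_right (by omega) hss
    have := pow_lt_pow_right₀ hcon h1
    rw [← e1, ← e2] at this
    exact lt_irrefl _ this
  rw [e1]
  exact pow_le_one₀ (norm_nonneg _) hle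

/-- END. -/
theorem thm_END : St_END := by
  intro p hp K L _ _ _ S x hx h hinj
  refine Set.infinite_of_injective_forall_mem hinj (s := {u : K | u ∈ S.R ∧ ∀ j, ‖S.σ j u‖ ≤ 1})
    (fun l => ⟨hx l, fun j => ?_⟩) (S.north 1)
  exact END_one hp.out.two_le S (x l) (hx l) (fun s => h s l) j

end Pool.Agent.NPC
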