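import Pool.Agent.NPC.StA

/-! NPC [ETA]: the functional equation of polynomials of degree one (helper18). -/

set_option autoImplicit false

namespace Pool.Agent.NPC

open Polynomial

private theorem ETA_coeff {A : Type} [CommRing A] (d : A → A) (h0 : d 0 = 0) (P : A[X]) (n : ℕ) :
    (mapD d P).coeff n = d (P.coeff n) := by
  unfold mapD
  rw [finsetSum_coeff]
  simp only [coeff_C_mul, coeff_X_pow, mul_ite, mul_one, mul_zero]
  rw [Finset.sum_ite_eq]
  split_ifs with h
  · rfl
  · rw [Finset.mem_range, not_lt] at h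
    rw [coeff_eq_zero_of_natDegree_lt (by omega), h0]

theorem thm_ETA : St_ETA := by
  intro p hp K _ _ r f d η hr hf hdeg hf' hη heq
  have hpp : p.Prime := hp.out
  obtain ⟨q, hq⟩ : ∃ q : ℕ, q = p ^ r := ⟨_, rfl⟩
  have hq2 : 2 ≤ q := by
    rw [hq]
    calc 2 ≤ p := hpp.two_le
      _ = p ^ 1 := (pow_one p).symm
      _ ≤ p ^ r := Nat.pow_le_pow_right hpp.pos hr
  have hqK : (q : K) = 0 := by
    rw [hq, Nat.cast_pow, CharP.cast_eq_zero, zero_pow (by omega)]
  have hfq : f.coeff q = 1 := by
    have h1 := hf.coeff_natDegree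
    rwa [hdeg, ← hq] at h1
  have hfq1 : f.coeff (q + 1) = 0 := coeff_eq_zero_of_natDegree_lt (by rw [hdeg, ← hq]; omega)
  have hd1 : (derivative f).coeff q = 0 := by
    rw [coeff_derivative, hfq1, zero_mul]
  have hd2 : (derivative f).coeff (q - 1) = 0 := by
    rw [coeff_derivative, Nat.sub_add_cancel (by omega), hfq, one_mul]
    have h1 : (((q - 1 : ℕ) : K) + 1) = ((q - 1 + 1 : ℕ) : K) := by push_cast; ring
    rw [h1, Nat.sub_add_cancel (by omega), hqK]
  have hform : ∀ j, η j = C ((η j).coeff 0) + C ((η j).coeff 1) * X := by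
    intro j
    have h1 := eq_X_add_C_of_natDegree_le_one (hη j)
    rw [add_comm]
    exact h1
  have hD : (mapD d f).coeff q = 0 := by
    rw [ETA_coeff d (map_zero d), hfq]
    exact d.map_one_eq_zero
  have hk : ∀ j, (η j).coeff 1 = 0 := by
    intro j
    have h1 := congrArg (fun P : K[X] => P.coeff q) (heq j)
    rw [hform j, hform (j + 1)] at h1
    simp only [add_comp, mul_comp, C_comp, X_comp, coeff_add, coeff_C_mul, mul_add] at h1
    rw [hfq, hD, mul_comm (derivative f) (C _), coeff_C_mul, hd1, ← mul_assoc,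
      mul_comm (derivative f) (C _), mul_assoc, coeff_C_mul, coeff_C_of_ne_zero (by omega)] at h1
    have h2 : (derivative f * X).coeff q = 0 := by
      obtain ⟨m, hm⟩ : ∃ m, q = m + 1 := ⟨q - 1, by omega⟩
      rw [hm, coeff_mul_X]
      rw [hm, Nat.add_sub_cancel] at hd2
      exact hd2
    rw [h2] at h1
    simpa using h1
  have hC : ∀ j, η j = C ((η j).coeff 0) := by
    intro j
    have h1 := hform j
    rw [hk j, C_0, zero_mul, add_zero] at h1
    exact h1
  have he : ∀ j, C ((η j).coeff 0) = derivative f * C ((η (j + 1)).coeff 0) + mapD d f := by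
    intro j
    have h1 := heq j
    rw [hC j, hC (j + 1), C_comp] at h1
    exact h1
  have he2 : ∀ j, (η (j + 1)).coeff 0 = (η (j + 2)).coeff 0 := by
    intro j
    by_contra hne
    have h1 : C ((η j).coeff 0 - (η (j + 1)).coeff 0) =
        derivative f * C ((η (j + 1)).coeff 0 - (η (j + 2)).coeff 0) := by
      have e1 := he j
      have e2 := he (j + 1)
      rw [C_sub, C_sub, e1, e2]
      have e3 : derivative f * C ((η (j + 1)).coeff 0) =
        C ((η j).coeff 0) - mapD d f := by rw [e1]; ring
      have e4 : C ((η (j + 1)).coeff 0) =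
        derivative f * C ((η (j + 2)).coeff 0) + mapD d f := e2
      rw [show j + 1 + 1 = j + 2 from rfl]
      ring
    have h2 := congrArg natDegree h1
    rw [natDegree_C, natDegree_mul_C (sub_ne_zero.2 hne)] at h2
    omega
  have he3 : ∀ j, (η j).coeff 0 = (η (j + 1)).coeff 0 := by
    intro j
    have e1 := he j
    have e2 := he (j + 1)
    rw [he2 j] at e1
    exact C_injective (e1.trans e2.symm)
  have he4 : ∀ j, (η j).coeff 0 = (η 0).coeff 0 := by
    intro j
    induction j with
    | zero => rfl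
    | succ j ih => rw [← he3 j, ih]
  refine ⟨(η 0).coeff 0, fun j => ?_, ?_⟩
  · rw [hC j, he4 j]
  · have e1 := he 0
    rw [he4 (0 + 1)] at e1
    have e2 : mapD d f = C ((η 0).coeff 0) - derivative f * C ((η 0).coeff 0) := by
      rw [eq_sub_iff_add_eq, add_comm]
      exact e1.symm
    rw [e2]
    ring

end Pool.Agent.NPC
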