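import Pool.Agent.NPC.StC
import Pool.Agent.Helper11.SP.Gap

/-!
# Finitely many bad first coordinates
-/

set_option autoImplicit false

namespace Pool.Agent.NPC

open Polynomial Pool.Agent.Helper11.SP

private theorem FB_evA {K : Type} [Field K] (x y : K) (P : K[X][X]) :
    evA x y P = P.evalEval x y := by
  unfold evA
  rw [← map_evalRingHom_eval]
  congr 2

private theorem FB_swap {K : Type} [Field K] (x y : K) (P : K[X][X]) :
    evA x y P = ((swp P).map (evalRingHom y)).eval x := by
  rw [map_evalRingHom_eval, FB_evA, ← coe_aevalAeval_eq_evalEval, ← coe_aevalAeval_eq_evalEval,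
    Bivariate.aevalAeval_swap]

private theorem FB_roots {K : Type} [Field K] {q : K[X]} (hq : q ≠ 0) :
    {v : K | q.eval v = 0}.Finite := by
  classical
  refine (q.roots.toFinset.finite_toSet).subset fun z hz => ?_
  simp only [Finset.mem_coe, Multiset.mem_toFinset]
  exact (mem_roots hq).2 hz

private theorem FB_fibre {K : Type} [Field K] (h : K[X][X]) (hirr : Irreducible h)
    (hd : 0 < (swp h).natDegree) (s : K) : {v : K | evA v s h = 0}.Finite := by
  have h0 : (swp h).map (evalRingHom s) ≠ 0 := by
    intro h0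
    have hirr' : Irreducible (swp h) :=
      (MulEquiv.irreducible_iff (Bivariate.swap (R := K))).2 hirr
    have hdv : C (X - C s) ∣ swp h := by
      rw [C_dvd_iff_dvd_coeff]
      intro i
      rw [dvd_iff_isRoot]
      have h1 := congrArg (fun q => coeff q i) h0
      simp only [coeff_map, coeff_zero] at h1
      exact h1
    obtain ⟨Q, hQ⟩ := hdv
    rcases hirr'.isUnit_or_isUnit hQ with hu | hu
    · rw [isUnit_C] at hu
      exact not_isUnit_X_sub_C s hu
    · have h1 := natDegree_eq_zero_of_isUnit hu
      have h2 : (swp h).natDegree ≤ 0 := by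
        rw [hQ]
        refine natDegree_mul_le.trans ?_
        rw [natDegree_C, h1]
      omega
  have h1 : {v : K | evA v s h = 0} = {v : K | ((swp h).map (evalRingHom s)).eval v = 0} := by
    ext v
    rw [Set.mem_ofPred_eq, Set.mem_ofPred_eq, FB_swap]
  rw [h1]
  exact FB_roots h0

theorem thm_FB : St_FB := by
  intro K _ h hirr hd hds hder
  have hlead : {v : K | h.leadingCoeff.eval v = 0}.Finite :=
    FB_roots (leadingCoeff_ne_zero.2 hirr.ne_zero)
  have hnd : ¬ h ∣ derivative h := by
    intro hdv
    have h1 := natDegree_le_of_dvd hdv hder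
    have h2 := natDegree_derivative_lt hd.ne'
    omega
  have hres := resultant_ne h (derivative h) hirr hd hnd
  have hdis : {v : K | ∃ s : K, evA v s h = 0 ∧ evA v s (derivative h) = 0}.Finite := by
    refine (FB_roots hres).subset ?_
    rintro v ⟨s, h1, h2⟩
    obtain ⟨p, q, -, -, he⟩ := exists_mul_add_mul_eq_C_resultant h (derivative h) le_rfl le_rfl
      (Or.inl hd.ne')
    have h3 := congrArg (evalEval v s) he
    rw [FB_evA] at h1 h2
    rw [evalEval_add, evalEval_mul, evalEval_mul, h1, h2, zero_mul, zero_mul, add_zero,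
      evalEval_C] at h3
    exact h3.symm
  have hswap0 : swp h ≠ 0 := by
    intro h0
    rw [h0, natDegree_zero] at hds
    exact lt_irrefl _ hds
  have hS : {s : K | (swp h).leadingCoeff.eval s = 0}.Finite :=
    FB_roots (leadingCoeff_ne_zero.2 hswap0)
  have hfib : {v : K | ∃ s : K, evA v s h = 0 ∧ (swp h).leadingCoeff.eval s = 0}.Finite := by
    refine (hS.biUnion (t := fun s => {v : K | evA v s h = 0})
      (fun s _ => FB_fibre h hirr hds s)).subset ?_
    rintro v ⟨s, h1, h2⟩
    exact Set.mem_biUnion h2 h1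
  refine ((hlead.union hdis).union hfib).subset ?_
  rintro v (h1 | ⟨s, h1, h2 | h2⟩)
  · exact Or.inl (Or.inl h1)
  · exact Or.inl (Or.inr ⟨s, h1, h2⟩)
  · exact Or.inr ⟨s, h1, h2⟩

end Pool.Agent.NPC
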