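import Pool.Agent.NPC.StB

set_option autoImplicit false

/-! # GOD: good operators -/

namespace Pool.Agent.NPC

open Polynomial

private theorem GOD_bd {p : ℕ} {K L : Type} [Field K] [NormedField L] (S : PS p K L) (a : K) :
    ∃ C : ℝ, ∀ j, ‖S.σ j a‖ ≤ C := by
  have := S.fin
  obtain ⟨C, hC⟩ := (Set.finite_range fun j => ‖S.σ j a‖).bddAbove
  exact ⟨C, fun j => hC ⟨j, rfl⟩⟩

/-- GOD. -/
theorem thm_GOD : St_GOD := by
  intro p K L _ _ _ S
  refine ⟨fun i => ⟨?_, ?_⟩, fun T T' hT hT' => ⟨?_, ?_⟩, fun T T' hT hT' => ⟨?_, ?_⟩,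
    fun a => ⟨?_, ?_⟩⟩
  · obtain ⟨C, hC⟩ := S.bD
    exact ⟨C, fun j z => hC i j z⟩
  · intro c hc hc0
    obtain ⟨s, hs, hs0, hsD⟩ := S.RD
    refine ⟨s * c ^ 2, S.R.mul_mem hs (S.R.pow_mem hc 2), mul_ne_zero hs0 (pow_ne_zero 2 hc0),
      fun z hz => ?_⟩
    have h1 := hsD i _ hz
    have h2 := hsD i _ hc
    rw [Derivation.leibniz, smul_eq_mul, smul_eq_mul] at h1
    have e : s * c ^ 2 * S.D i z = c * (s * (c * S.D i z + z * S.D i c)) -
        c * z * (s * S.D i c) := by ring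
    show s * c ^ 2 * S.D i z ∈ S.R
    rw [e]
    exact S.R.sub_mem (S.R.mul_mem hc h1) (S.R.mul_mem hz h2)
  · obtain ⟨C, hC⟩ := hT.1
    obtain ⟨C', hC'⟩ := hT'.1
    refine ⟨C + C', fun j z => ?_⟩
    rw [AddMonoidHom.add_apply, map_add, add_mul]
    exact (norm_add_le _ _).trans (add_le_add (hC j z) (hC' j z))
  · intro c hc hc0
    obtain ⟨b, hb, hb0, h⟩ := hT.2 c hc hc0
    obtain ⟨b', hb', hb0', h'⟩ := hT'.2 c hc hc0
    refine ⟨b * b', S.R.mul_mem hb hb', mul_ne_zero hb0 hb0', fun z hz => ?_⟩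
    rw [AddMonoidHom.add_apply]
    have e : b * b' * (T z + T' z) = b' * (b * T z) + b * (b' * T' z) := by ring
    rw [e]
    exact S.R.add_mem (S.R.mul_mem hb' (h z hz)) (S.R.mul_mem hb (h' z hz))
  · obtain ⟨C, hC⟩ := hT.1
    obtain ⟨C', hC'⟩ := hT'.1
    refine ⟨max C' 0 * C, fun j z => ?_⟩
    rw [AddMonoidHom.comp_apply]
    calc ‖S.σ j (T' (T z))‖ ≤ C' * ‖S.σ j (T z)‖ := hC' j _
      _ ≤ max C' 0 * ‖S.σ j (T z)‖ :=
        mul_le_mul_of_nonneg_right (le_max_left _ _) (norm_nonneg _)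
      _ ≤ max C' 0 * (C * ‖S.σ j z‖) := mul_le_mul_of_nonneg_left (hC j z) (le_max_right _ _)
      _ = max C' 0 * C * ‖S.σ j z‖ := by ring
  · intro c hc hc0
    obtain ⟨b, hb, hb0, h⟩ := hT.2 c hc hc0
    obtain ⟨b', hb', hb0', h'⟩ := hT'.2 b hb hb0
    exact ⟨b', hb', hb0', fun z hz => h' _ (h z hz)⟩
  · obtain ⟨C, hC⟩ := GOD_bd S a
    refine ⟨C, fun j z => ?_⟩
    rw [AddMonoidHom.coe_mulLeft, map_mul, norm_mul]
    exact mul_le_mul_of_nonneg_right (hC j) (norm_nonneg _)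
  · intro c hc hc0
    obtain ⟨s, hs, hs0, hsa⟩ := S.frac a
    refine ⟨s * c, S.R.mul_mem hs hc, mul_ne_zero hs0 hc0, fun z hz => ?_⟩
    rw [AddMonoidHom.coe_mulLeft]
    have e : s * c * (a * z) = (s * a) * (c * z) := by ring
    rw [e]
    exact S.R.mul_mem hsa hz

end Pool.Agent.NPC
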