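import Pool.Agent.NPC.StB

/-!
# [GST] The bounded structure on an ultrapower
-/

set_option autoImplicit false

namespace Pool.Agent.NPC

open Polynomial

theorem ult_root_bound {L : Type} [NormedField L] [IsUltrametricDist L] (m : ℕ) (α : ℕ → L) (x : L)
    (A : ℝ) (hA : 1 ≤ A) (h : x ^ m + ∑ k ∈ Finset.range m, α k * x ^ k = 0)
    (hα : ∀ k < m, ‖α k‖ ≤ A) : ‖x‖ ≤ A := by
  by_contra hcon
  rw [not_le] at hcon
  have hx1 : 1 < ‖x‖ := lt_of_le_of_lt hA hcon
  have hx0 : 0 < ‖x‖ := by linarith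
  have hm : m ≠ 0 := by
    rintro rfl
    simp at h
  obtain ⟨m', rfl⟩ := Nat.exists_eq_succ_of_ne_zero hm
  have h1 : ‖x ^ (m' + 1)‖ ≤ A * ‖x‖ ^ m' := by
    have h2 : x ^ (m' + 1) = -∑ k ∈ Finset.range (m' + 1), α k * x ^ k := by
      exact eq_neg_of_add_eq_zero_left h
    rw [h2, norm_neg]
    apply IsUltrametricDist.norm_sum_le_of_forall_le_of_nonneg
    · positivity
    · intro k hk
      rw [Finset.mem_range] at hk
      rw [norm_mul, norm_pow]
      apply mul_le_mul (hα k hk) (pow_le_pow_right₀ hx1.le (by omega)) (by positivity) (by linarith)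
  rw [norm_pow, pow_succ, mul_comm] at h1
  have h3 : ‖x‖ ≤ A := le_of_mul_le_mul_right h1 (by positivity)
  linarith

/-- Dominance of the leading term. -/
theorem ult_dom {L : Type} [NormedField L] [IsUltrametricDist L] (b : L[X]) (hb : b ≠ 0) :
    ∃ M : ℝ, ∀ x : L, M ≤ ‖x‖ → ‖b.eval x‖ = ‖b.leadingCoeff‖ * ‖x‖ ^ b.natDegree := by
  have he : 0 < ‖b.leadingCoeff‖ := norm_pos_iff.mpr (leadingCoeff_ne_zero.mpr hb)
  refine ⟨1 + ∑ k ∈ Finset.range b.natDegree, ‖b.coeff k‖ / ‖b.leadingCoeff‖, ?_⟩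
  intro x hx
  have hsum0 : 0 ≤ ∑ k ∈ Finset.range b.natDegree, ‖b.coeff k‖ / ‖b.leadingCoeff‖ :=
    Finset.sum_nonneg (fun k _ => by positivity)
  have hx1 : 1 ≤ ‖x‖ := by linarith
  rw [eval_eq_sum_range, Finset.sum_range_succ]
  have hlead : ‖b.coeff b.natDegree * x ^ b.natDegree‖ = ‖b.leadingCoeff‖ * ‖x‖ ^ b.natDegree := by
    rw [norm_mul, norm_pow]
    rfl
  by_cases hm : b.natDegree = 0
  · rw [hm, Finset.sum_range_zero, zero_add, ← hm, hlead]
  obtain ⟨m', hm'⟩ := Nat.exists_eq_succ_of_ne_zero hm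
  have hpos : 0 < ‖x‖ ^ m' := by positivity
  have hlow : ‖∑ k ∈ Finset.range b.natDegree, b.coeff k * x ^ k‖ <
      ‖b.leadingCoeff‖ * ‖x‖ ^ b.natDegree := by
    have h1 : ‖∑ k ∈ Finset.range b.natDegree, b.coeff k * x ^ k‖ ≤
        (∑ k ∈ Finset.range b.natDegree, ‖b.coeff k‖) * ‖x‖ ^ m' := by
      apply IsUltrametricDist.norm_sum_le_of_forall_le_of_nonneg
      · exact mul_nonneg (Finset.sum_nonneg (fun k _ => norm_nonneg _)) hpos.le
      · intro k hk
        rw [norm_mul, norm_pow]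
        apply mul_le_mul
        · exact Finset.single_le_sum (f := fun k => ‖b.coeff k‖) (fun k _ => norm_nonneg _) hk
        · rw [Finset.mem_range] at hk
          exact pow_le_pow_right₀ hx1 (by omega)
        · positivity
        · exact Finset.sum_nonneg (fun k _ => norm_nonneg _)
    refine lt_of_le_of_lt h1 ?_
    have h2 : (∑ k ∈ Finset.range b.natDegree, ‖b.coeff k‖) < ‖b.leadingCoeff‖ * ‖x‖ := by
      have h3 : (∑ k ∈ Finset.range b.natDegree, ‖b.coeff k‖) =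
          ‖b.leadingCoeff‖ * ∑ k ∈ Finset.range b.natDegree, ‖b.coeff k‖ / ‖b.leadingCoeff‖ := by
        rw [Finset.mul_sum]
        refine Finset.sum_congr rfl ?_
        intro k _
        field_simp
      rw [h3]
      apply mul_lt_mul_of_pos_left _ he
      linarith
    calc (∑ k ∈ Finset.range b.natDegree, ‖b.coeff k‖) * ‖x‖ ^ m'
        < (‖b.leadingCoeff‖ * ‖x‖) * ‖x‖ ^ m' := mul_lt_mul_of_pos_right h2 hpos
      _ = ‖b.leadingCoeff‖ * ‖x‖ ^ b.natDegree := by rw [hm', pow_succ]; ring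
  have h4 := IsUltrametricDist.norm_add_eq_max_of_norm_ne_norm
    (x := ∑ k ∈ Finset.range b.natDegree, b.coeff k * x ^ k)
    (y := b.coeff b.natDegree * x ^ b.natDegree) (by rw [hlead]; exact hlow.ne)
  rw [h4, hlead]
  exact max_eq_right hlow.le

section
variable {p : ℕ} {K L V : Type} [Field K] [NormedField L] [IsUltrametricDist L] [Field V]
  [Algebra K V] (S : PS p K L)

omit [IsUltrametricDist L] in
theorem PS.bdd_const (E : Set S.I) (c : K) : S.bdd E (fun _ => c) := by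
  refine ⟨?_, fun j _ => ⟨‖S.σ j c‖, fun _ => le_rfl⟩⟩
  obtain ⟨s, hs, hs0, h⟩ := S.frac c
  exact ⟨s, hs, hs0, fun _ => h⟩

omit [IsUltrametricDist L] in
theorem PS.bdd_add (E : Set S.I) {u v : ℕ → K} (hu : S.bdd E u) (hv : S.bdd E v) :
    S.bdd E (u + v) := by
  obtain ⟨⟨s, hs, hs0, h⟩, hb⟩ := hu
  obtain ⟨⟨s', hs', hs0', h'⟩, hb'⟩ := hv
  refine ⟨⟨s * s', S.R.mul_mem hs hs', mul_ne_zero hs0 hs0', ?_⟩, ?_⟩
  · intro n
    have h1 : s * s' * (u + v) n = s' * (s * u n) + s * (s' * v n) := by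
      simp only [Pi.add_apply]; ring
    rw [h1]
    exact S.R.add_mem (S.R.mul_mem hs' (h n)) (S.R.mul_mem hs (h' n))
  · intro j hj
    obtain ⟨C, hC⟩ := hb j hj
    obtain ⟨C', hC'⟩ := hb' j hj
    refine ⟨C + C', fun n => ?_⟩
    simp only [Pi.add_apply, map_add]
    exact (norm_add_le _ _).trans (add_le_add (hC n) (hC' n))

omit [IsUltrametricDist L] in
theorem PS.bdd_mul (E : Set S.I) {u v : ℕ → K} (hu : S.bdd E u) (hv : S.bdd E v) :
    S.bdd E (u * v) := by
  obtain ⟨⟨s, hs, hs0, h⟩, hb⟩ := hu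
  obtain ⟨⟨s', hs', hs0', h'⟩, hb'⟩ := hv
  refine ⟨⟨s * s', S.R.mul_mem hs hs', mul_ne_zero hs0 hs0', ?_⟩, ?_⟩
  · intro n
    have h1 : s * s' * (u * v) n = (s * u n) * (s' * v n) := by
      simp only [Pi.mul_apply]; ring
    rw [h1]
    exact S.R.mul_mem (h n) (h' n)
  · intro j hj
    obtain ⟨C, hC⟩ := hb j hj
    obtain ⟨C', hC'⟩ := hb' j hj
    refine ⟨C * C', fun n => ?_⟩
    simp only [Pi.mul_apply, map_mul, norm_mul]
    exact mul_le_mul (hC n) (hC' n) (norm_nonneg _) ((norm_nonneg _).trans (hC n))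

omit [IsUltrametricDist L] in
theorem PS.bdd_neg (E : Set S.I) {u : ℕ → K} (hu : S.bdd E u) : S.bdd E (-u) := by
  have h := S.bdd_mul E (S.bdd_const E (-1)) hu
  have h1 : ((fun _ : ℕ => (-1 : K)) * u) = -u := by
    funext n
    simp
  rwa [h1] at h

variable {U : Ultrafilter ℕ} (up : UP U K V)

/-- The bounded elements. -/
def PS.BdS (E : Set S.I) : Subring V where
  carrier := {w | ∃ u, up.gm u = w ∧ S.bdd E u}
  mul_mem' := by
    rintro _ _ ⟨u, rfl, hu⟩ ⟨v, rfl, hv⟩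
    exact ⟨u * v, map_mul _ _ _, S.bdd_mul E hu hv⟩
  one_mem' := ⟨fun _ => 1, map_one up.gm, S.bdd_const E 1⟩
  add_mem' := by
    rintro _ _ ⟨u, rfl, hu⟩ ⟨v, rfl, hv⟩
    exact ⟨u + v, map_add _ _ _, S.bdd_add E hu hv⟩
  zero_mem' := ⟨fun _ => 0, map_zero up.gm, S.bdd_const E 0⟩
  neg_mem' := by
    rintro _ ⟨u, rfl, hu⟩
    exact ⟨-u, map_neg _ _, S.bdd_neg E hu⟩

/-- The growth filtration. -/
def PS.GrS (E : Set S.I) (z : ℕ → K) (d : ℤ) : AddSubgroup V where
  carrier := {w | ∃ u, up.gm u = w ∧ S.gr E z d u}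
  add_mem' := by
    rintro _ _ ⟨u, rfl, hu⟩ ⟨v, rfl, hv⟩
    refine ⟨u + v, map_add _ _ _, ?_⟩
    intro j hj
    obtain ⟨C, hC⟩ := hu j hj
    obtain ⟨C', hC'⟩ := hv j hj
    refine ⟨C + C', fun n => ?_⟩
    simp only [Pi.add_apply, map_add]
    rw [add_mul]
    exact (norm_add_le _ _).trans (add_le_add (hC n) (hC' n))
  zero_mem' := by
    refine ⟨fun _ => 0, map_zero up.gm, ?_⟩
    intro j hj
    exact ⟨0, fun n => by simp⟩
  neg_mem' := by
    rintro _ ⟨u, rfl, hu⟩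
    refine ⟨-u, map_neg _ _, ?_⟩
    intro j hj
    obtain ⟨C, hC⟩ := hu j hj
    refine ⟨C, fun n => ?_⟩
    simp only [Pi.neg_apply, map_neg, norm_neg]
    exact hC n

theorem UP.eq_of {u v : ℕ → K} (h : ∀ᶠ n in (U : Filter ℕ), u n = v n) : up.gm u = up.gm v := by
  rw [← sub_eq_zero, ← map_sub, up.zero]
  filter_upwards [h] with n hn
  simp [hn]

theorem UP.of_eq {u v : ℕ → K} (h : up.gm u = up.gm v) : ∀ᶠ n in (U : Filter ℕ), u n = v n := by
  rw [← sub_eq_zero, ← map_sub, up.zero] at h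
  filter_upwards [h] with n hn
  simpa [sub_eq_zero] using hn

/-- The common part of the two integrality statements. -/
theorem UP.root_rep (Pr : (ℕ → K) → Prop) (P : V[X]) (w : V) (hP : P.Monic)
    (hc : ∀ i, ∃ u, up.gm u = P.coeff i ∧ Pr u) (hw : P.eval w = 0) :
    ∃ (α : ℕ → ℕ → K) (u : ℕ → K), (∀ k, Pr (α k)) ∧ up.gm u = w ∧
      ∀ n, u n = 0 ∨ u n ^ P.natDegree + ∑ k ∈ Finset.range P.natDegree, α k n * u n ^ k = 0 := by
  classical
  choose α hα hPr using hc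
  obtain ⟨u₀, rfl⟩ := up.surj w
  have h1 : up.gm (u₀ ^ P.natDegree + ∑ k ∈ Finset.range P.natDegree, α k * u₀ ^ k) = 0 := by
    rw [map_add, map_pow, map_sum, ← hw, eval_eq_sum_range, Finset.sum_range_succ, add_comm]
    congr 1
    · refine Finset.sum_congr rfl ?_
      intro k _
      rw [map_mul, map_pow, hα]
    · have h2 : P.coeff P.natDegree = 1 := hP
      rw [h2, one_mul]
  rw [up.zero] at h1
  refine ⟨α, fun n => if u₀ n ^ P.natDegree + ∑ k ∈ Finset.range P.natDegree, α k n * u₀ n ^ k = 0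
    then u₀ n else 0, hPr, ?_, ?_⟩
  · apply up.eq_of
    filter_upwards [h1] with n hn
    have h3 : u₀ n ^ P.natDegree + ∑ k ∈ Finset.range P.natDegree, α k n * u₀ n ^ k = 0 := by
      simpa using hn
    rw [if_pos h3]
  · intro n
    by_cases h3 : u₀ n ^ P.natDegree + ∑ k ∈ Finset.range P.natDegree, α k n * u₀ n ^ k = 0
    · right
      simp only [if_pos h3]
      exact h3
    · left
      simp only [if_neg h3]

/-- Image of the equation at a place. -/
theorem PS.root_at (j : S.I) (m : ℕ) (α : ℕ → K) (x : K)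
    (h : x ^ m + ∑ k ∈ Finset.range m, α k * x ^ k = 0) (A : ℝ) (hA : 1 ≤ A)
    (hα : ∀ k < m, ‖S.σ j (α k)‖ ≤ A) : ‖S.σ j x‖ ≤ A := by
  apply ult_root_bound m (fun k => S.σ j (α k)) (S.σ j x) A hA _ hα
  have h1 := congrArg (S.σ j) h
  simpa only [map_add, map_pow, map_sum, map_mul, map_zero] using h1

theorem PS.int_Bd (E : Set S.I) (P : V[X]) (w : V) (hP : P.Monic)
    (hc : ∀ i, P.coeff i ∈ S.BdS up E) (hw : P.eval w = 0) : w ∈ S.BdS up E := by
  classical
  obtain ⟨α, u, hα, hu, hroot⟩ := up.root_rep (S.bdd E) P w hP hc hw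
  refine ⟨u, hu, ?_, ?_⟩
  · choose s hs hs0 hsa using fun k => (hα k).1
    set m := P.natDegree
    have hprodR : ∀ T : Finset ℕ, ∏ k ∈ T, s k ∈ S.R := fun T => Subring.prod_mem _ (fun k _ => hs k)
    refine ⟨∏ k ∈ Finset.range m, s k, hprodR _, Finset.prod_ne_zero_iff.mpr (fun k _ => hs0 k), ?_⟩
    set σ := ∏ k ∈ Finset.range m, s k with hσ
    have hσR : σ ∈ S.R := hprodR _
    have hσa : ∀ k < m, ∀ n, σ * α k n ∈ S.R := by
      intro k hk n
      rw [hσ, ← Finset.prod_erase_mul _ _ (Finset.mem_range.mpr hk), mul_assoc]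
      exact S.R.mul_mem (hprodR _) (hsa k n)
    intro n
    rcases hroot n with h0 | h0
    · rw [h0, mul_zero]
      exact S.R.zero_mem
    · apply S.Rint (X ^ m + ∑ k ∈ Finset.range m, C (σ ^ (m - k) * α k n) * X ^ k)
      · apply monic_X_pow_add
        apply mem_degreeLT.mp
        apply Submodule.sum_mem
        intro k hk
        apply mem_degreeLT.mpr
        refine lt_of_le_of_lt (degree_C_mul_X_pow_le _ _) ?_
        exact_mod_cast Finset.mem_range.mp hk
      · intro i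
        rw [coeff_add, coeff_X_pow, finsetSum_coeff]
        apply S.R.add_mem
        · split_ifs
          · exact S.R.one_mem
          · exact S.R.zero_mem
        · apply Subring.sum_mem
          intro k hk
          rw [coeff_C_mul, coeff_X_pow]
          split_ifs
          · rw [mul_one]
            have hk' := Finset.mem_range.mp hk
            have h1 : m - k = (m - k - 1) + 1 := by omega
            rw [h1, pow_succ, mul_assoc]
            exact S.R.mul_mem (S.R.pow_mem hσR _) (hσa k hk' n)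
          · rw [mul_zero]
            exact S.R.zero_mem
      · rw [eval_add, eval_pow, eval_X, eval_finsetSum]
        have h2 : σ ^ m * (u n ^ m + ∑ k ∈ Finset.range m, α k n * u n ^ k) = 0 := by
          rw [h0, mul_zero]
        rw [mul_add, Finset.mul_sum] at h2
        rw [← h2]
        congr 1
        · ring
        · refine Finset.sum_congr rfl ?_
          intro k hk
          rw [eval_mul, eval_C, eval_pow, eval_X, mul_pow]
          have hk' := Finset.mem_range.mp hk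
          have h1 : m = (m - k) + k := by omega
          conv_rhs => rw [h1, pow_add]
          ring
  · intro j hj
    choose C hC using fun k => (hα k).2 j hj
    refine ⟨1 + ∑ k ∈ Finset.range P.natDegree, |C k|, ?_⟩
    intro n
    have hA : 1 ≤ 1 + ∑ k ∈ Finset.range P.natDegree, |C k| := by
      have := Finset.sum_nonneg (s := Finset.range P.natDegree) (f := fun k => |C k|)
        (fun k _ => abs_nonneg _)
      linarith
    rcases hroot n with h0 | h0
    · rw [h0, map_zero, norm_zero]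
      linarith
    · apply S.root_at j P.natDegree (fun k => α k n) (u n) h0 _ hA
      intro k hk
      have h1 : |C k| ≤ ∑ k ∈ Finset.range P.natDegree, |C k| :=
        Finset.single_le_sum (f := fun k => |C k|) (fun k _ => abs_nonneg _)
          (Finset.mem_range.mpr hk)
      have h2 := hC k n
      have h3 := le_abs_self (C k)
      linarith

theorem PS.int_Gr (E : Set S.I) (z : ℕ → K) (hz : ∀ j ∈ E, ∀ n, 1 ≤ ‖S.σ j (z n)‖)
    (P : V[X]) (w : V) (d : ℕ) (hP : P.Monic)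
    (hc : ∀ i, P.coeff i ∈ S.GrS up E z d) (hw : P.eval w = 0) : w ∈ S.GrS up E z d := by
  classical
  obtain ⟨α, u, hα, hu, hroot⟩ := up.root_rep (S.gr E z d) P w hP hc hw
  refine ⟨u, hu, ?_⟩
  intro j hj
  choose C hC using fun k => (hα k) j hj
  refine ⟨1 + ∑ k ∈ Finset.range P.natDegree, |C k|, ?_⟩
  intro n
  have hA : 1 ≤ 1 + ∑ k ∈ Finset.range P.natDegree, |C k| := by
    have := Finset.sum_nonneg (s := Finset.range P.natDegree) (f := fun k => |C k|)
      (fun k _ => abs_nonneg _)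
    linarith
  have hz1 : 1 ≤ ‖S.σ j (z n)‖ ^ (d : ℤ) := by
    rw [zpow_natCast]
    exact one_le_pow₀ (hz j hj n)
  have hA2 : 1 ≤ (1 + ∑ k ∈ Finset.range P.natDegree, |C k|) * ‖S.σ j (z n)‖ ^ (d : ℤ) := by
    calc (1 : ℝ) = 1 * 1 := by ring
      _ ≤ _ := mul_le_mul hA hz1 zero_le_one (by linarith)
  rcases hroot n with h0 | h0
  · rw [h0, map_zero, norm_zero]
    linarith
  · apply S.root_at j P.natDegree (fun k => α k n) (u n) h0 _ hA2
    intro k hk
    have h1 : |C k| ≤ ∑ k ∈ Finset.range P.natDegree, |C k| :=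
      Finset.single_le_sum (f := fun k => |C k|) (fun k _ => abs_nonneg _)
        (Finset.mem_range.mpr hk)
    refine (hC k n).trans ?_
    apply mul_le_mul_of_nonneg_right _ (by linarith)
    have h3 := le_abs_self (C k)
    linarith

theorem UP.aeval (z : ℕ → K) (b : K[X]) :
    Polynomial.aeval (up.gm z) b = up.gm (fun n => b.eval (z n)) := by
  rw [aeval_eq_sum_range]
  have h1 : (fun n => b.eval (z n)) = ∑ i ∈ Finset.range (b.natDegree + 1),
      (fun _ => b.coeff i) * z ^ i := by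
    funext n
    rw [eval_eq_sum_range]
    simp
  rw [h1, map_sum]
  refine Finset.sum_congr rfl ?_
  intro i _
  rw [map_mul, map_pow, up.const, Algebra.smul_def]

theorem PS.Gr_inv (E : Set S.I) (hE : E.Nonempty) (z : ℕ → K)
    (hz : ∀ j ∈ E, (∀ n, 1 ≤ ‖S.σ j (z n)‖) ∧
      ∀ M : ℝ, ∀ᶠ n in (U : Filter ℕ), M ≤ ‖S.σ j (z n)‖)
    (b : K[X]) (hb : b ≠ 0) :
    (Polynomial.aeval (up.gm z) b)⁻¹ ∈ S.GrS up E z (-(b.natDegree : ℤ)) := by
  classical
  have := S.fin
  -- the good indices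
  set good : ℕ → Prop := fun n => ∀ j ∈ E, ‖S.σ j (b.eval (z n))‖ =
    ‖S.σ j b.leadingCoeff‖ * ‖S.σ j (z n)‖ ^ b.natDegree with hgood
  have hgoodE : ∀ᶠ n in (U : Filter ℕ), good n := by
    rw [hgood]
    have h1 : ∀ j, ∀ᶠ n in (U : Filter ℕ), j ∈ E → ‖S.σ j (b.eval (z n))‖ =
        ‖S.σ j b.leadingCoeff‖ * ‖S.σ j (z n)‖ ^ b.natDegree := by
      intro j
      by_cases hj : j ∈ E
      · have hb' : b.map (S.σ j) ≠ 0 := (Polynomial.map_ne_zero_iff (S.σ j).injective).mpr hb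
        obtain ⟨M, hM⟩ := ult_dom (b.map (S.σ j)) hb'
        filter_upwards [(hz j hj).2 M] with n hn _
        have h2 := hM _ hn
        rw [eval_map_apply, leadingCoeff_map, natDegree_map] at h2
        exact h2
      · filter_upwards with n h
        exact absurd h hj
    exact Filter.eventually_all.mpr h1
  obtain ⟨j₀, hj₀⟩ := hE
  have hne : ∀ n, good n → b.eval (z n) ≠ 0 := by
    intro n hn h0
    have h1 := hn j₀ hj₀
    rw [h0, map_zero, norm_zero] at h1
    have h2 : 0 < ‖S.σ j₀ b.leadingCoeff‖ := by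
      rw [norm_pos_iff]
      exact (map_ne_zero (S.σ j₀)).mpr (leadingCoeff_ne_zero.mpr hb)
    have h3 : 0 < ‖S.σ j₀ (z n)‖ := lt_of_lt_of_le one_pos ((hz j₀ hj₀).1 n)
    have h4 : 0 < ‖S.σ j₀ b.leadingCoeff‖ * ‖S.σ j₀ (z n)‖ ^ b.natDegree := by positivity
    linarith
  refine ⟨fun n => if good n then (b.eval (z n))⁻¹ else 0, ?_, ?_⟩
  · apply eq_inv_of_mul_eq_one_left
    rw [up.aeval, ← map_mul, ← map_one up.gm]
    apply up.eq_of
    filter_upwards [hgoodE] with n hn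
    simp only [Pi.mul_apply, if_pos hn, Pi.one_apply]
    exact inv_mul_cancel₀ (hne n hn)
  · intro j hj
    refine ⟨‖S.σ j b.leadingCoeff‖⁻¹, ?_⟩
    intro n
    by_cases hn : good n
    · simp only [if_pos hn, map_inv₀, norm_inv]
      rw [hn j hj, mul_inv, zpow_neg, zpow_natCast]
    · simp only [if_neg hn, map_zero, norm_zero]
      positivity

omit [IsUltrametricDist L] in
theorem PS.small (E : Set S.I) (hE : E.Nonempty) (z : ℕ → K)
    (hz : ∀ j ∈ E, (∀ n, 1 ≤ ‖S.σ j (z n)‖) ∧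
      ∀ M : ℝ, ∀ᶠ n in (U : Filter ℕ), M ≤ ‖S.σ j (z n)‖)
    (w : V) (h1 : w ∈ S.BdS up E) (h2 : w ∈ S.GrS up E z (-1)) : w = 0 := by
  classical
  have := S.fin
  obtain ⟨u, rfl, ⟨s, hs, hs0, hsu⟩, hub⟩ := h1
  obtain ⟨u', hu', hgr⟩ := h2
  by_contra hne
  have hne' : ¬ ∀ᶠ n in (U : Filter ℕ), u n = 0 := fun h => hne ((up.zero u).mpr h)
  have hnz : ∀ᶠ n in (U : Filter ℕ), u n ≠ 0 := by
    rw [← Ultrafilter.eventually_not] at hne'
    exact hne'
  have heq := up.of_eq hu'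
  -- bounds at all places
  have hbd : ∀ j, ∃ C : ℝ, ∀ n, u' n = u n → ‖S.σ j (s * u n)‖ ≤ C := by
    intro j
    by_cases hj : j ∈ E
    · obtain ⟨C, hC⟩ := hgr j hj
      refine ⟨‖S.σ j s‖ * |C|, ?_⟩
      intro n hn
      rw [map_mul, norm_mul, ← hn]
      apply mul_le_mul_of_nonneg_left _ (norm_nonneg _)
      refine (hC n).trans ?_
      have h3 := (hz j hj).1 n
      have h4 : ‖S.σ j (z n)‖ ^ (-1 : ℤ) ≤ 1 := by
        rw [zpow_neg_one]
        exact inv_le_one_of_one_le₀ h3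
      have h5 : 0 ≤ ‖S.σ j (z n)‖ ^ (-1 : ℤ) := by positivity
      calc C * ‖S.σ j (z n)‖ ^ (-1 : ℤ) ≤ |C| * ‖S.σ j (z n)‖ ^ (-1 : ℤ) :=
            mul_le_mul_of_nonneg_right (le_abs_self C) h5
        _ ≤ |C| * 1 := mul_le_mul_of_nonneg_left h4 (abs_nonneg C)
        _ = |C| := mul_one _
    · obtain ⟨C, hC⟩ := hub j hj
      refine ⟨‖S.σ j s‖ * C, ?_⟩
      intro n _
      rw [map_mul, norm_mul]
      exact mul_le_mul_of_nonneg_left (hC n) (norm_nonneg _)
  choose C hC using hbd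
  obtain ⟨M₀, hM₀⟩ := (Set.finite_range C).bddAbove
  set M := max 1 M₀
  have hM1 : 1 ≤ M := le_max_left _ _
  have hMC : ∀ j, C j ≤ M := fun j => (hM₀ ⟨j, rfl⟩).trans (le_max_right _ _)
  obtain ⟨N, hN⟩ := S.liou
  obtain ⟨j₀, hj₀⟩ := hE
  obtain ⟨C₀, hC₀⟩ := hgr j₀ hj₀
  obtain ⟨n, ⟨hn1, hn2⟩, hn3⟩ := ((hnz.and heq).and ((hz j₀ hj₀).2
    (‖S.σ j₀ s‖ * |C₀| * M ^ N + 1))).exists
  have h3 := hN (s * u n) (hsu n) (mul_ne_zero hs0 hn1) j₀ M hM1
    (fun j' => (hC j' n hn2).trans (hMC j'))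
  rw [map_mul, norm_mul, ← hn2] at h3
  have h4 := hC₀ n
  have hz1 := (hz j₀ hj₀).1 n
  have hz0 : 0 < ‖S.σ j₀ (z n)‖ := by linarith
  have h5 : ‖S.σ j₀ (u' n)‖ ≤ |C₀| * ‖S.σ j₀ (z n)‖⁻¹ := by
    refine h4.trans ?_
    rw [zpow_neg_one]
    exact mul_le_mul_of_nonneg_right (le_abs_self _) (by positivity)
  have h6 : 1 ≤ ‖S.σ j₀ s‖ * (|C₀| * ‖S.σ j₀ (z n)‖⁻¹) * M ^ N := by
    refine h3.trans ?_
    apply mul_le_mul_of_nonneg_right _ (by positivity)
    exact mul_le_mul_of_nonneg_left h5 (norm_nonneg _)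
  have h7 : ‖S.σ j₀ (z n)‖ ≤ ‖S.σ j₀ s‖ * |C₀| * M ^ N := by
    have h8 := mul_le_mul_of_nonneg_left h6 hz0.le
    have h9 : ‖S.σ j₀ (z n)‖ * (‖S.σ j₀ s‖ * (|C₀| * ‖S.σ j₀ (z n)‖⁻¹) * M ^ N) =
        ‖S.σ j₀ s‖ * |C₀| * M ^ N := by
      field_simp
    linarith
  linarith

end

theorem thm_GST : St_GST := by
  intro p K L V _ _ _ _ _ S U up E z hE hzR hzb hz
  refine ⟨{ Bd := S.BdS up E
            Gr := S.GrS up E z
            alg_mem := ?_
            Z_mem := ?_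
            Gr_mono := ?_
            Gr_mul := ?_
            Gr_alg := ?_
            Gr_Z := ?_
            Gr_inv := ?_
            int_Bd := ?_
            int_Gr := ?_
            small := ?_ }, ?_, ?_⟩
  · intro c
    exact ⟨fun _ => c, up.const c, S.bdd_const E c⟩
  · exact ⟨z, rfl, ⟨1, S.R.one_mem, one_ne_zero, fun n => by rw [one_mul]; exact hzR n⟩, hzb⟩
  · intro d e hde w hw
    obtain ⟨u, rfl, hu⟩ := hw
    refine ⟨u, rfl, ?_⟩
    intro j hj
    obtain ⟨C, hC⟩ := hu j hj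
    refine ⟨|C|, fun n => (hC n).trans ?_⟩
    have h1 := (hz j hj).1 n
    calc C * ‖S.σ j (z n)‖ ^ d ≤ |C| * ‖S.σ j (z n)‖ ^ d :=
          mul_le_mul_of_nonneg_right (le_abs_self C) (by positivity)
      _ ≤ |C| * ‖S.σ j (z n)‖ ^ e :=
          mul_le_mul_of_nonneg_left (zpow_le_zpow_right₀ h1 hde) (abs_nonneg C)
  · rintro d e _ _ ⟨u, rfl, hu⟩ ⟨v, rfl, hv⟩
    refine ⟨u * v, map_mul _ _ _, ?_⟩
    intro j hj
    obtain ⟨C, hC⟩ := hu j hj
    obtain ⟨C', hC'⟩ := hv j hj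
    refine ⟨C * C', fun n => ?_⟩
    have h1 := (hz j hj).1 n
    have h0 : ‖S.σ j (z n)‖ ≠ 0 := by linarith
    simp only [Pi.mul_apply, map_mul, norm_mul]
    rw [zpow_add₀ h0]
    calc ‖S.σ j (u n)‖ * ‖S.σ j (v n)‖ ≤ (C * ‖S.σ j (z n)‖ ^ d) * (C' * ‖S.σ j (z n)‖ ^ e) :=
          mul_le_mul (hC n) (hC' n) (norm_nonneg _) ((norm_nonneg _).trans (hC n))
      _ = _ := by ring
  · intro c
    refine ⟨fun _ => c, up.const c, ?_⟩
    intro j hj
    exact ⟨‖S.σ j c‖, fun n => by rw [zpow_zero, mul_one]⟩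
  · refine ⟨z, rfl, ?_⟩
    intro j hj
    exact ⟨1, fun n => by rw [zpow_one, one_mul]⟩
  · intro b hb
    exact S.Gr_inv up E hE z hz b hb
  · intro P w hP hc hw
    exact S.int_Bd up E P w hP hc hw
  · intro P w d hP hc hw
    exact S.int_Gr up E z (fun j hj => (hz j hj).1) P w d hP hc hw
  · intro w h1 h2
    exact S.small up E hE z hz w h1 h2
  · intro w
    exact Iff.rfl
  · intro d w
    exact Iff.rfl

end Pool.Agent.NPC
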