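import Pool.Agent.NPC.KER

/-!
# [HB] The powers `t^a`, `a ∈ [0, p^s)^n`, are a basis of `K` over `K^(p^s)`
-/

set_option autoImplicit false

namespace Pool.Agent.NPC

open Polynomial

section
variable {K : Type} [Field K] (p : ℕ) [hp : Fact p.Prime] [CharP K p] {n : ℕ} (t : Fin n → K)
  (D : Fin n → Derivation ℤ K K) (hD : ∀ i j, D i (t j) = if i = j then 1 else 0)

include hD in
omit hp [CharP K p] in
theorem tm_ne {m : ℕ} (a : Fin n → Fin m) : tm t a ≠ 0 := by
  apply Finset.prod_ne_zero_iff.mpr
  intro i _
  apply pow_ne_zero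
  intro h
  have h1 := hD i i
  rw [h, map_zero, if_pos rfl] at h1
  exact zero_ne_one h1

include hD in
/-- Independence over the `p`-th powers. -/
theorem tm_indep (w : (Fin n → Fin p) → K) (hw : ∑ a, tm t a * w a ^ p = 0) : w = 0 := by
  classical
  funext b
  have key : ∀ T : Finset (Fin n),
      ∑ a, tm t a * (if ∀ i ∈ T, a i = b i then w a else 0) ^ p = 0 := by
    intro T
    induction T using Finset.induction_on with
    | empty => simpa using hw
    | insert i T hi ih =>
      have h1 := proj_tm p t D hD i (b i) (fun a => if ∀ i ∈ T, a i = b i then w a else 0)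
      rw [ih, map_zero, sub_zero] at h1
      refine Eq.trans ?_ h1.symm
      refine Finset.sum_congr rfl ?_
      intro a _
      congr 2
      by_cases h2 : a i = b i
      · rw [if_pos h2]
        congr 1
        apply propext
        constructor
        · intro h j hj
          exact h j (Finset.mem_insert_of_mem hj)
        · intro h j hj
          rcases Finset.mem_insert.mp hj with rfl | hj
          · exact h2
          · exact h j hj
      · rw [if_neg h2, if_neg]
        intro h
        exact h2 (h i (Finset.mem_insert_self _ _))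
  have h1 := key Finset.univ
  rw [Finset.sum_eq_single b] at h1
  · rw [if_pos (fun i _ => rfl)] at h1
    have h2 := (mul_eq_zero.mp h1).resolve_left (tm_ne t D hD b)
    exact pow_eq_zero_iff hp.out.ne_zero |>.mp h2
  · intro a _ ha
    rw [if_neg, zero_pow hp.out.ne_zero, mul_zero]
    intro h
    exact ha (funext (fun i => h i (Finset.mem_univ i)))
  · intro h
    exact absurd (Finset.mem_univ _) h

end

/-- The digits. -/
def dig (p s : ℕ) : Fin p × Fin (p ^ s) ≃ Fin (p ^ (s + 1)) :=
  finProdFinEquiv.trans (finCongr (pow_succ' p s).symm)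

theorem dig_val (p s : ℕ) (x : Fin p × Fin (p ^ s)) :
    (dig p s x : ℕ) = (x.2 : ℕ) + p ^ s * (x.1 : ℕ) := by
  simp [dig, finProdFinEquiv]

/-- The digits of the exponents. -/
def digs (p s n : ℕ) : (Fin n → Fin p) × (Fin n → Fin (p ^ s)) ≃ (Fin n → Fin (p ^ (s + 1))) :=
  (Equiv.arrowProdEquivProdArrow (Fin n) (fun _ => Fin p) (fun _ => Fin (p ^ s))).symm.trans
    (Equiv.arrowCongr (Equiv.refl (Fin n)) (dig p s))

theorem digs_val (p s n : ℕ) (x : (Fin n → Fin p) × (Fin n → Fin (p ^ s))) (i : Fin n) :
    (digs p s n x i : ℕ) = (x.2 i : ℕ) + p ^ s * (x.1 i : ℕ) := by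
  have h : digs p s n x i = dig p s (x.1 i, x.2 i) := rfl
  rw [h, dig_val]

theorem tm_digs {K : Type} [Field K] (p s n : ℕ) (t : Fin n → K) (a' : Fin n → Fin p)
    (a : Fin n → Fin (p ^ s)) : tm t (digs p s n (a', a)) = tm t a * tm t a' ^ (p ^ s) := by
  unfold tm
  rw [← Finset.prod_pow, ← Finset.prod_mul_distrib]
  refine Finset.prod_congr rfl ?_
  intro i _
  rw [digs_val, pow_add, ← pow_mul, mul_comm (p ^ s)]

/-- The expansion in two steps. -/
theorem sum_digs {K : Type} [Field K] (p s n : ℕ) [hp : Fact p.Prime] [CharP K p] (t : Fin n → K)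
    (w : (Fin n → Fin (p ^ (s + 1))) → K) :
    ∑ b, tm t b * w b ^ (p ^ (s + 1)) =
      ∑ a, tm t a * (∑ a', tm t a' * w (digs p s n (a', a)) ^ p) ^ (p ^ s) := by
  rw [← (digs p s n).sum_comp, Fintype.sum_prod_type_right]
  refine Finset.sum_congr rfl ?_
  intro a _
  rw [sum_pow_char_pow, Finset.mul_sum]
  refine Finset.sum_congr rfl ?_
  intro a' _
  rw [tm_digs, mul_pow, ← pow_mul, ← pow_succ']
  ring

theorem thm_HB : St_HB := by
  intro p hp K L _ _ _ S s
  classical
  induction s with
  | zero =>
    have hu : ∀ a : Fin S.n → Fin (p ^ 0), a = fun _ => ⟨0, by simp⟩ := by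
      intro a
      funext i
      apply Fin.ext
      have h1 : (a i : ℕ) < 1 := lt_of_lt_of_eq (a i).isLt (pow_zero p)
      simp only
      omega
    have htm : ∀ a : Fin S.n → Fin (p ^ 0), tm S.t a = 1 := by
      intro a
      rw [hu a]
      simp [tm]
    have hsum : ∀ w : (Fin S.n → Fin (p ^ 0)) → K, ∑ a, tm S.t a * w a ^ (p ^ 0) =
        w (fun _ => ⟨0, by simp⟩) := by
      intro w
      rw [Finset.sum_eq_single (fun _ => ⟨0, by simp⟩)]
      · rw [htm, one_mul]
        exact pow_one _
      · intro a _ ha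
        exact absurd (hu a) ha
      · intro h
        exact absurd (Finset.mem_univ _) h
    refine ⟨?_, ?_⟩
    · intro z
      exact ⟨fun _ => z, by rw [hsum]⟩
    · intro w hw
      rw [hsum] at hw
      funext a
      rw [hu a, hw]
      rfl
  | succ s ih =>
    obtain ⟨ih1, ih2⟩ := ih
    refine ⟨?_, ?_⟩
    · intro z
      obtain ⟨w, hw⟩ := ih1 z
      choose v hv using fun a => S.span (w a)
      refine ⟨fun b => v ((digs p s S.n).symm b).2 ((digs p s S.n).symm b).1, ?_⟩
      rw [sum_digs, hw]
      refine Finset.sum_congr rfl ?_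
      intro a _
      simp only [Equiv.symm_apply_apply]
      rw [← hv a]
    · intro w hw
      rw [sum_digs] at hw
      have h1 := ih2 _ hw
      funext b
      have h2 := congrFun h1 ((digs p s S.n).symm b).2
      have h3 := tm_indep p S.t S.D S.Dt _ h2
      have h4 := congrFun h3 ((digs p s S.n).symm b).1
      simpa using h4

end Pool.Agent.NPC
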