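import Pool.Agent.NPC.StC

/-!
# A good critical value exists
-/

set_option autoImplicit false

namespace Pool.Agent.NPC

open Polynomial Pool.Agent.Helper11.SP

/-- A good critical value exists. -/
theorem thm_HG (hFB : St_FB) (hPST : St_PST) (hHT : St_HT) (hCOV : St_COV) : St_HG := by
  classical
  intro p _ 𝕂 _ _ _ f g g₁ e h c hf hgf hg hg₁ hirr hdeg hdeg' hder hinj hno
  by_contra hcon
  push Not at hcon
  have hbad := hFB 𝕂 h hirr hdeg hdeg' hder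
  have hfin : {i : ℕ | (itc f i).eval c ∈ {v : 𝕂 | h.leadingCoeff.eval v = 0 ∨
      ∃ s : 𝕂, evA v s h = 0 ∧
      (evA v s (derivative h) = 0 ∨ (swp h).leadingCoeff.eval s = 0)}}.Finite :=
    hbad.preimage hinj.injOn
  obtain ⟨i₁, hi₁⟩ := hfin.bddAbove
  have hgood : ∀ i, i₁ < i → 1 ≤ i → ∃ s : 𝕂, evA ((itc f i).eval c) s h = 0 ∧
      Post p 𝕂 g s := by
    intro i hi h1
    have hnb : (itc f i).eval c ∉ {v : 𝕂 | h.leadingCoeff.eval v = 0 ∨
      ∃ s : 𝕂, evA v s h = 0 ∧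
      (evA v s (derivative h) = 0 ∨ (swp h).leadingCoeff.eval s = 0)} := fun hb =>
      absurd (hi₁ hb) (not_le.2 hi)
    simp only [Set.mem_ofPred_eq, not_or, not_exists, not_and] at hnb
    by_contra hns
    push Not at hns
    refine hcon i ⟨h1, hnb.1, fun s hs => ?_⟩
    exact ⟨(hnb.2 s hs).1, (hnb.2 s hs).2, hns s hs⟩
  choose Mk hMk using fun k : 𝕂 => hHT p 𝕂 f g h c k hf hgf hirr hdeg hdeg' hinj
  let T : Finset 𝕂 := (derivative g₁).roots.toFinset.image fun κ => g₁.eval κ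
  let M : ℕ := i₁ + 1 + ∑ k ∈ T, Mk k
  obtain ⟨N, hN, hdvd⟩ := hCOV p 𝕂 f g h c T M hf hgf hirr hdeg hdeg' hinj (by
    intro i hi
    obtain ⟨s, hs, hps⟩ := hgood i (by omega) (by omega)
    obtain ⟨κ, l, hκ, rfl⟩ := hPST p 𝕂 g g₁ e s hg hg₁ hps
    have hkT : g₁.eval κ ∈ T := by
      refine Finset.mem_image.2 ⟨κ, ?_, rfl⟩
      rw [Multiset.mem_toFinset, mem_roots hg₁]
      exact hκ
    have hle : Mk (g₁.eval κ) ≤ ∑ k ∈ T, Mk k :=
      Finset.single_le_sum (fun _ _ => Nat.zero_le _) hkT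
    obtain ⟨h1, h2⟩ := hMk (g₁.eval κ) i l (by omega) hs
    exact ⟨g₁.eval κ, hkT, l, hs, by omega, by omega⟩)
  exact hno N hN hdvd

end Pool.Agent.NPC
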