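import Pool.Agent.NPC.StA

/-!
# The Hasse operator is a derivation modulo `L` (module HL; MP_6ac234_nt, proof written by helper6)
-/

set_option autoImplicit false

namespace Pool.Agent.NPC

open Polynomial Pool.Agent.Helper11.SP

section

open KaehlerDifferential TensorProduct IntermediateField

theorem HL_sep {K V : Type} [Field K] [Field V] [Algebra K V] (x y : V)
    (hy : IsSeparable (fld1 (K := K) x) y) (z : V) (hz : z ∈ fld (K := K) x y) :
    IsSeparable (fld1 (K := K) x) z := by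
  have h1 := (isSeparable_adjoin_simple_iff_isSeparable (fld1 (K := K) x) V).2 hy
  have h2 : z ∈ IntermediateField.adjoin (fld1 (K := K) x) {y} := by
    have h3 := IntermediateField.adjoin_adjoin_left K ({x} : Set V) {y}
    have h4 : z ∈ (IntermediateField.adjoin (IntermediateField.adjoin K ({x} : Set V))
        ({y} : Set V)).restrictScalars K := by
      rw [h3]
      exact hz
    exact h4
  have h5 : IsSeparable (fld1 (K := K) x)
      (⟨z, h2⟩ : IntermediateField.adjoin (fld1 (K := K) x) {y}) := h1.isSeparable' _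
  unfold IsSeparable at h5 ⊢
  rw [← minpoly.algebraMap_eq
    (algebraMap (IntermediateField.adjoin (fld1 (K := K) x) {y}) V).injective] at h5
  exact h5

theorem HL_der {K V : Type} [Field K] [Field V] [Algebra K V] (x y : V)
    (hx : Transcendental K x) (hy : IsSeparable (fld1 (K := K) x) y) :
    ∃ d : Derivation K (fld (K := K) x y) (fld (K := K) x y),
      ∀ x₁ : fld (K := K) x y, (x₁ : V) = x → d x₁ = 1 := by
  have hFL : fld1 (K := K) x ≤ fld (K := K) x y :=
    IntermediateField.adjoin.mono K _ _ (by simp)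
  let _ : Algebra (fld1 (K := K) x) (fld (K := K) x y) :=
    (IntermediateField.inclusion hFL).toRingHom.toAlgebra
  have : IsScalarTower (fld1 (K := K) x) (fld (K := K) x y) V :=
    IsScalarTower.of_algebraMap_eq (fun _ => rfl)
  have hsep : Algebra.IsSeparable (fld1 (K := K) x) (fld (K := K) x y) := by
    refine ⟨fun z => ?_⟩
    have h1 := HL_sep x y hy z z.2
    unfold IsSeparable at h1 ⊢
    rw [← minpoly.algebraMap_eq (algebraMap (fld (K := K) x y) V).injective]
    exact h1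
  have hxF : x ∈ fld1 (K := K) x := IntermediateField.mem_adjoin_simple_self K x
  let _ : Algebra K[X] (fld1 (K := K) x) :=
    (aeval (⟨x, hxF⟩ : fld1 (K := K) x) : K[X] →ₐ[K] fld1 (K := K) x).toRingHom.toAlgebra
  let _ : Algebra K[X] (fld (K := K) x y) :=
    (aeval (⟨x, hFL hxF⟩ : fld (K := K) x y) : K[X] →ₐ[K] fld (K := K) x y).toRingHom.toAlgebra
  have hmap : ∀ q : K[X], algebraMap K[X] (fld (K := K) x y) q = aeval ⟨x, hFL hxF⟩ q :=
    fun q => rfl
  have hmap' : ∀ q : K[X], algebraMap K[X] (fld1 (K := K) x) q = aeval ⟨x, hxF⟩ q :=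
    fun q => rfl
  have : IsScalarTower K K[X] (fld (K := K) x y) := IsScalarTower.of_algebraMap_eq (fun c => by
    rw [hmap, Polynomial.algebraMap_eq, aeval_C])
  have : IsScalarTower K[X] (fld1 (K := K) x) (fld (K := K) x y) :=
    IsScalarTower.of_algebraMap_eq (fun q => by
      have h1 := (Polynomial.aeval_algHom_apply (IntermediateField.inclusion hFL)
        (⟨x, hxF⟩ : fld1 (K := K) x) q)
      rw [hmap, hmap']
      exact h1)
  have : IsLocalization (nonZeroDivisors K[X]) (fld1 (K := K) x) := by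
    let e : RatFunc K ≃ₐ[K[X]] (fld1 (K := K) x) :=
      AlgEquiv.ofRingEquiv (f := (RatFunc.algEquivOfTranscendental x hx).toRingEquiv) (fun q =>
        RatFunc.algEquivOfTranscendental_algebraMap x hx q)
    exact IsLocalization.isLocalization_of_algEquiv (nonZeroDivisors K[X]) e
  have : Algebra.FormallyEtale (fld1 (K := K) x) (fld (K := K) x y) :=
    Algebra.FormallyEtale.of_isSeparable _ _
  have : Algebra.FormallyEtale K[X] (fld1 (K := K) x) :=
    Algebra.FormallyEtale.of_isLocalization (nonZeroDivisors K[X])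
  have : Algebra.FormallyEtale K[X] (fld (K := K) x y) :=
    Algebra.FormallyEtale.comp K[X] (fld1 (K := K) x) (fld (K := K) x y)
  let d0 : Derivation K K[X] (fld (K := K) x y) :=
    Polynomial.mkDerivation K (1 : fld (K := K) x y)
  let l0 : Ω[K[X]⁄K] →ₗ[K[X]] (fld (K := K) x y) := d0.liftKaehlerDifferential
  let l1 : (fld (K := K) x y) ⊗[K[X]] Ω[K[X]⁄K] →ₗ[fld (K := K) x y] (fld (K := K) x y) :=
    l0.liftBaseChange (fld (K := K) x y)
  let e := KaehlerDifferential.tensorKaehlerEquivOfFormallyEtale K K[X] (fld (K := K) x y)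
  let l2 : Ω[(fld (K := K) x y)⁄K] →ₗ[fld (K := K) x y] (fld (K := K) x y) :=
    l1.comp e.symm.toLinearMap
  refine ⟨l2.compDer (KaehlerDifferential.D K (fld (K := K) x y)), fun x₁ hx₁ => ?_⟩
  have h1 : x₁ = algebraMap K[X] (fld (K := K) x y) X := by
    rw [hmap, aeval_X]
    exact Subtype.ext hx₁
  change l1 (e.symm (KaehlerDifferential.D K (fld (K := K) x y) x₁)) = 1
  conv_lhs => rw [h1]
  rw [KaehlerDifferential.tensorKaehlerEquivOfFormallyEtale_symm_D_algebraMap,
    LinearMap.liftBaseChange_tmul, one_smul, Derivation.liftKaehlerDifferential_comp_D]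
  exact Polynomial.mkDerivation_X K (1 : fld (K := K) x y)

end

section

variable {p : ℕ} [hp : Fact p.Prime] {K V : Type} [Field K] [Field V] [Algebra K V] [CharP V p]

/-- the field of `p ^ s`-th powers -/
noncomputable def HL_VP (p : ℕ) [Fact p.Prime] (V : Type) [Field V] [CharP V p] (s : ℕ) :
    Subfield V := (iterateFrobenius V p s).fieldRange

omit hp in
theorem HL_mem_VP [Fact p.Prime] {s : ℕ} {z : V} : z ∈ HL_VP p V s ↔ ∃ r, r ^ (p ^ s) = z := by
  unfold HL_VP
  rw [RingHom.mem_fieldRange]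
  simp only [iterateFrobenius_def]

/-- the hypotheses on the `p`-basis and the operator -/
structure HL_Ctx (p : ℕ) (K V : Type) [Field K] [Field V] [Algebra K V] (n s : ℕ)
    (t : Fin n → K) (D : Derivation ℤ V V) (𝒟 : V →+ V) : Prop where
  span : ∀ z : K, ∃ w : (Fin n → Fin (p ^ s)) → K, z = ∑ a, tm t a * w a ^ (p ^ s)
  ind : ∀ w : (Fin n → Fin (p ^ s)) → V,
    ∑ a, algebraMap K V (tm t a) * w a ^ (p ^ s) = 0 → w = 0
  DK : ∀ z : K, ∃ z' : K, D (algebraMap K V z) = algebraMap K V z'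
  op : ∀ w : (Fin n → Fin (p ^ s)) → V,
    𝒟 (∑ a, algebraMap K V (tm t a) * w a ^ (p ^ s)) =
      ∑ a, algebraMap K V (tm t a) * (D (w a)) ^ (p ^ s)

/-- the zero index -/
def HL_a0 (p : ℕ) [hp : Fact p.Prime] (n s : ℕ) : Fin n → Fin (p ^ s) :=
  fun _ => ⟨0, pow_pos hp.out.pos s⟩

variable {n s : ℕ} {t : Fin n → K} {D : Derivation ℤ V V} {𝒟 : V →+ V}

omit [CharP V p] in
theorem HL_single (z : V) : ∑ a : Fin n → Fin (p ^ s), algebraMap K V (tm t a) *
    (if a = HL_a0 p n s then z else 0) = z := by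
  rw [Finset.sum_eq_single (HL_a0 p n s)]
  · rw [if_pos rfl]
    have h1 : tm t (HL_a0 p n s) = 1 := by simp [tm, HL_a0]
    rw [h1, map_one, one_mul]
  · intro a _ ha
    rw [if_neg ha, mul_zero]
  · intro h
    exact absurd (Finset.mem_univ _) h

theorem HL_indep (H : HL_Ctx p K V n s t D 𝒟) {q r : (Fin n → Fin (p ^ s)) → V}
    (hq : ∀ a, q a ∈ HL_VP p V s) (hr : ∀ a, r a ∈ HL_VP p V s)
    (h : ∑ a, algebraMap K V (tm t a) * q a = ∑ a, algebraMap K V (tm t a) * r a) : q = r := by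
  simp only [HL_mem_VP] at hq hr
  choose x hx using hq
  choose y hy using hr
  have h1 := H.ind (fun a => x a - y a) (by
    have h2 : ∀ a, algebraMap K V (tm t a) * (x a - y a) ^ (p ^ s) =
        algebraMap K V (tm t a) * q a - algebraMap K V (tm t a) * r a := by
      intro a
      rw [sub_pow_char_pow, hx, hy, mul_sub]
    rw [Finset.sum_congr rfl (fun a _ => h2 a), Finset.sum_sub_distrib, h, sub_self])
  funext a
  have h2 := congrFun h1 a
  simp only [Pi.zero_apply, sub_eq_zero] at h2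
  rw [← hx, ← hy, h2]

/-- the sums `∑ t ^ a q_a` with `q_a ∈ Q` -/
noncomputable def HL_S (p : ℕ) {K V : Type} [Field K] [Field V] [Algebra K V] {n : ℕ} (s : ℕ)
    (t : Fin n → K) (Q : Subfield V) : Submodule Q V :=
  Submodule.span Q (Set.range fun a : Fin n → Fin (p ^ s) => algebraMap K V (tm t a))

omit hp [CharP V p] in
theorem HL_mem_S {Q : Subfield V} {z : V} : z ∈ HL_S p s t Q ↔
    ∃ u : (Fin n → Fin (p ^ s)) → V, (∀ a, u a ∈ Q) ∧
      z = ∑ a, algebraMap K V (tm t a) * u a := by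
  unfold HL_S
  rw [Submodule.mem_span_range_iff_exists_fun]
  constructor
  · rintro ⟨c, rfl⟩
    refine ⟨fun a => c a, fun a => (c a).2, Finset.sum_congr rfl fun a _ => ?_⟩
    rw [mul_comm]
    rfl
  · rintro ⟨u, hu, rfl⟩
    refine ⟨fun a => ⟨u a, hu a⟩, Finset.sum_congr rfl fun a _ => ?_⟩
    rw [mul_comm]
    rfl

omit [CharP V p] in
theorem HL_Q_le_S {Q : Subfield V} {z : V} (hz : z ∈ Q) : z ∈ HL_S p s t Q := by
  rw [HL_mem_S]
  refine ⟨fun a => if a = HL_a0 p n s then z else 0, fun a => ?_, (HL_single z).symm⟩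
  show (if a = HL_a0 p n s then z else 0) ∈ Q
  split_ifs
  · exact hz
  · exact Q.zero_mem

omit hp [CharP V p] in
theorem HL_K_le_S (H : HL_Ctx p K V n s t D 𝒟) {Q : Subfield V}
    (hQ : ∀ z : K, (algebraMap K V z) ^ (p ^ s) ∈ Q) (z : K) :
    algebraMap K V z ∈ HL_S p s t Q := by
  obtain ⟨w, hw⟩ := H.span z
  rw [HL_mem_S]
  refine ⟨fun a => (algebraMap K V (w a)) ^ (p ^ s), fun a => hQ _, ?_⟩
  conv_lhs => rw [hw]
  rw [map_sum]
  exact Finset.sum_congr rfl fun a _ => by rw [map_mul, map_pow]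

omit hp [CharP V p] in
theorem HL_mul_S (H : HL_Ctx p K V n s t D 𝒟) {Q : Subfield V}
    (hQ : ∀ z : K, (algebraMap K V z) ^ (p ^ s) ∈ Q) {z w : V} (hz : z ∈ HL_S p s t Q)
    (hw : w ∈ HL_S p s t Q) : z * w ∈ HL_S p s t Q := by
  obtain ⟨u, hu, rfl⟩ := HL_mem_S.mp hz
  obtain ⟨v, hv, rfl⟩ := HL_mem_S.mp hw
  rw [Finset.sum_mul_sum]
  refine Submodule.sum_mem _ fun a _ => Submodule.sum_mem _ fun b _ => ?_
  have h1 : algebraMap K V (tm t a) * u a * (algebraMap K V (tm t b) * v b) =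
      (⟨u a * v b, Q.mul_mem (hu a) (hv b)⟩ : Q) • algebraMap K V (tm t a * tm t b) := by
    rw [map_mul]
    change _ = (u a * v b) * _
    ring
  rw [h1]
  exact Submodule.smul_mem _ _ (HL_K_le_S H hQ _)

theorem HL_pow_S {Q : Subfield V}
    (hQ : ∀ z : K, (algebraMap K V z) ^ (p ^ s) ∈ Q) {z : V} (hz : z ∈ HL_S p s t Q) :
    z ^ (p ^ s) ∈ Q := by
  obtain ⟨u, hu, rfl⟩ := HL_mem_S.mp hz
  rw [sum_pow_char_pow]
  refine Q.sum_mem fun a _ => ?_
  rw [mul_pow]
  exact Q.mul_mem (hQ _) (Q.pow_mem (hu a) _)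

/-- the field `∑ t ^ a Q` -/
noncomputable def HL_M (H : HL_Ctx p K V n s t D 𝒟) (Q : Subfield V)
    (hQ : ∀ z : K, (algebraMap K V z) ^ (p ^ s) ∈ Q) : IntermediateField K V where
  carrier := HL_S p s t Q
  mul_mem' := fun hz hw => HL_mul_S H hQ hz hw
  one_mem' := HL_Q_le_S Q.one_mem
  add_mem' := fun hz hw => (HL_S p s t Q).add_mem hz hw
  zero_mem' := (HL_S p s t Q).zero_mem
  algebraMap_mem' := fun z => HL_K_le_S H hQ z
  inv_mem' := by
    intro z hz
    by_cases h0 : z = 0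
    · rw [h0, inv_zero]
      exact (HL_S p s t Q).zero_mem
    · have hpow : ∀ k : ℕ, z ^ k ∈ HL_S p s t Q := by
        intro k
        induction k with
        | zero =>
          rw [pow_zero]
          exact HL_Q_le_S Q.one_mem
        | succ k ih =>
          rw [pow_succ]
          exact HL_mul_S H hQ ih hz
      have h1 : z⁻¹ = (⟨(z ^ (p ^ s))⁻¹, Q.inv_mem (HL_pow_S hQ hz)⟩ : Q) •
          z ^ (p ^ s - 1) := by
        change _ = (z ^ (p ^ s))⁻¹ * z ^ (p ^ s - 1)
        have h2 : z ^ (p ^ s) = z ^ (p ^ s - 1) * z := by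
          rw [← pow_succ, Nat.sub_add_cancel (pow_pos hp.out.pos s)]
        rw [h2, mul_inv, mul_comm (z ^ (p ^ s - 1))⁻¹, mul_assoc,
          inv_mul_cancel₀ (pow_ne_zero _ h0), mul_one]
      rw [h1]
      exact Submodule.smul_mem _ _ (hpow _)

theorem HL_mem_M (H : HL_Ctx p K V n s t D 𝒟) {Q : Subfield V}
    {hQ : ∀ z : K, (algebraMap K V z) ^ (p ^ s) ∈ Q} {z : V} : z ∈ HL_M H Q hQ ↔
    ∃ u : (Fin n → Fin (p ^ s)) → V, (∀ a, u a ∈ Q) ∧
      z = ∑ a, algebraMap K V (tm t a) * u a := HL_mem_S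

/-! ### the operator on `p ^ s`-th powers -/

omit [CharP V p] in
theorem HL_opPow (H : HL_Ctx p K V n s t D 𝒟) (r : V) : 𝒟 (r ^ (p ^ s)) = (D r) ^ (p ^ s) := by
  have hne : p ^ s ≠ 0 := (pow_pos hp.out.pos s).ne'
  have h1 := H.op (fun a => if a = HL_a0 p n s then r else 0)
  have h2 : ∀ a : Fin n → Fin (p ^ s), (if a = HL_a0 p n s then r else 0) ^ (p ^ s) =
      if a = HL_a0 p n s then r ^ (p ^ s) else 0 := by
    intro a
    split_ifs
    · rfl
    · exact zero_pow hne
  have h3 : ∀ a : Fin n → Fin (p ^ s), (D (if a = HL_a0 p n s then r else 0)) ^ (p ^ s) =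
      if a = HL_a0 p n s then (D r) ^ (p ^ s) else 0 := by
    intro a
    split_ifs
    · rfl
    · rw [map_zero]
      exact zero_pow hne
  simp only [h2, h3, HL_single] at h1
  exact h1

theorem HL_opSum (H : HL_Ctx p K V n s t D 𝒟) {u : (Fin n → Fin (p ^ s)) → V}
    (hu : ∀ a, u a ∈ HL_VP p V s) : 𝒟 (∑ a, algebraMap K V (tm t a) * u a) =
      ∑ a, algebraMap K V (tm t a) * 𝒟 (u a) := by
  simp only [HL_mem_VP] at hu
  choose r hr using hu
  have h1 := H.op r
  simp only [hr] at h1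
  rw [h1]
  exact Finset.sum_congr rfl fun a _ => by rw [← hr a, HL_opPow H]

theorem HL_opMul (H : HL_Ctx p K V n s t D 𝒟) {a b : V} (ha : a ∈ HL_VP p V s)
    (hb : b ∈ HL_VP p V s) : 𝒟 (a * b) = a * 𝒟 b + b * 𝒟 a := by
  obtain ⟨x, rfl⟩ := HL_mem_VP.mp ha
  obtain ⟨y, rfl⟩ := HL_mem_VP.mp hb
  rw [← mul_pow, HL_opPow H, HL_opPow H, HL_opPow H, Derivation.leibniz, add_pow_char_pow]
  simp only [smul_eq_mul, mul_pow]

end

section

variable {p : ℕ} [hp : Fact p.Prime] {K V : Type} [Field K] [Field V] [Algebra K V] [CharP V p]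
variable {n s : ℕ} {t : Fin n → K} {D : Derivation ℤ V V} {𝒟 : V →+ V}

/-- the operator minus the derivation -/
noncomputable def HL_E {L : IntermediateField K V} (d : Derivation K L L) (𝒟 : V →+ V) (x : V) :
    L →+ V where
  toFun z := 𝒟 (z : V) - (d z : V) * 𝒟 x
  map_zero' := by simp
  map_add' a b := by
    simp only [IntermediateField.coe_add, map_add]
    ring

omit hp [CharP V p] in
theorem HL_E_apply {L : IntermediateField K V} (d : Derivation K L L) (𝒟 : V →+ V) (x : V)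
    (z : L) : HL_E d 𝒟 x z = 𝒟 (z : V) - (d z : V) * 𝒟 x := rfl

theorem HL_E_mul (H : HL_Ctx p K V n s t D 𝒟) {L : IntermediateField K V} (d : Derivation K L L)
    (x : V) {a b : L} (ha : (a : V) ∈ HL_VP p V s) (hb : (b : V) ∈ HL_VP p V s) :
    HL_E d 𝒟 x (a * b) = a * HL_E d 𝒟 x b + b * HL_E d 𝒟 x a := by
  rw [HL_E_apply, HL_E_apply, HL_E_apply, Derivation.leibniz, IntermediateField.coe_mul,
    HL_opMul H ha hb]
  simp only [smul_eq_mul, IntermediateField.coe_add, IntermediateField.coe_mul]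
  ring

theorem HL_E_one (H : HL_Ctx p K V n s t D 𝒟) {L : IntermediateField K V} (d : Derivation K L L)
    (x : V) : HL_E d 𝒟 x 1 = 0 := by
  have h1 := HL_E_mul H d x (a := 1) (b := 1) (HL_VP p V s).one_mem (HL_VP p V s).one_mem
  simp only [mul_one, IntermediateField.coe_one, one_mul] at h1
  linear_combination -h1

theorem HL_E_pow (H : HL_Ctx p K V n s t D 𝒟) {L : IntermediateField K V} (d : Derivation K L L)
    (x : V) {a : L} (ha : (a : V) ∈ HL_VP p V s) (k : ℕ) :
    HL_E d 𝒟 x (a ^ k) = k * (a : V) ^ (k - 1) * HL_E d 𝒟 x a := by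
  induction k with
  | zero => rw [pow_zero, HL_E_one H d x]; simp
  | succ k ih =>
    have hk : ((a ^ k : L) : V) ∈ HL_VP p V s := by
      rw [IntermediateField.coe_pow]
      exact (HL_VP p V s).pow_mem ha k
    rw [pow_succ, HL_E_mul H d x hk ha, ih, IntermediateField.coe_pow]
    rcases Nat.eq_zero_or_pos k with h | h
    · subst h
      simp
    · have h2 : (a : V) ^ k = (a : V) ^ (k - 1) * a := by
        rw [← pow_succ, Nat.sub_add_cancel h]
      rw [Nat.add_sub_cancel, h2]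
      push_cast
      ring

/-- the elements of `L` which are `p ^ s`-th powers and on which the operator is the derivation
modulo `L` -/
noncomputable def HL_W (H : HL_Ctx p K V n s t D 𝒟) (L : IntermediateField K V)
    (d : Derivation K L L) (x : V) : Subfield V where
  carrier := {z | ∃ u : L, (u : V) = z ∧ z ∈ HL_VP p V s ∧ HL_E d 𝒟 x u ∈ L}
  mul_mem' := by
    rintro _ _ ⟨a, rfl, ha, ha'⟩ ⟨b, rfl, hb, hb'⟩
    refine ⟨a * b, rfl, (HL_VP p V s).mul_mem ha hb, ?_⟩
    rw [HL_E_mul H d x ha hb]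
    exact L.add_mem (L.mul_mem a.2 hb') (L.mul_mem b.2 ha')
  one_mem' := ⟨1, rfl, (HL_VP p V s).one_mem, by rw [HL_E_one H d x]; exact L.zero_mem⟩
  add_mem' := by
    rintro _ _ ⟨a, rfl, ha, ha'⟩ ⟨b, rfl, hb, hb'⟩
    refine ⟨a + b, rfl, (HL_VP p V s).add_mem ha hb, ?_⟩
    rw [map_add]
    exact L.add_mem ha' hb'
  zero_mem' := ⟨0, rfl, (HL_VP p V s).zero_mem, by rw [map_zero]; exact L.zero_mem⟩
  neg_mem' := by
    rintro _ ⟨a, rfl, ha, ha'⟩
    refine ⟨-a, rfl, (HL_VP p V s).neg_mem ha, ?_⟩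
    rw [map_neg]
    exact L.neg_mem ha'
  inv_mem' := by
    rintro _ ⟨a, rfl, ha, ha'⟩
    refine ⟨a⁻¹, rfl, (HL_VP p V s).inv_mem ha, ?_⟩
    by_cases h0 : a = 0
    · rw [h0, inv_zero, map_zero]
      exact L.zero_mem
    · have hai : ((a⁻¹ : L) : V) ∈ HL_VP p V s := (HL_VP p V s).inv_mem ha
      have h1 := HL_E_mul H d x ha hai
      rw [mul_inv_cancel₀ h0, HL_E_one H d x] at h1
      have h0' : (a : V) ≠ 0 := fun h => h0 (Subtype.ext h)
      have h2 : HL_E d 𝒟 x a⁻¹ = -((a⁻¹ : L) : V) * ((a⁻¹ : L) : V) * HL_E d 𝒟 x a := by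
        have h3 : (a : V) * ((a⁻¹ : L) : V) = 1 := by
          rw [IntermediateField.coe_inv, mul_inv_cancel₀ h0']
        have h4 : (a : V) * (HL_E d 𝒟 x a⁻¹ - -((a⁻¹ : L) : V) * ((a⁻¹ : L) : V) *
            HL_E d 𝒟 x a) = 0 := by
          linear_combination -h1 + ((a⁻¹ : L) : V) * HL_E d 𝒟 x a * h3
        rcases mul_eq_zero.mp h4 with h5 | h5
        · exact absurd h5 h0'
        · exact sub_eq_zero.mp h5
      rw [h2]
      exact L.mul_mem (L.mul_mem (L.neg_mem (a⁻¹ : L).2) (a⁻¹ : L).2) ha'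

theorem HL_mem_W (H : HL_Ctx p K V n s t D 𝒟) {L : IntermediateField K V}
    {d : Derivation K L L} {x z : V} : z ∈ HL_W H L d x ↔
      ∃ u : L, (u : V) = z ∧ z ∈ HL_VP p V s ∧ HL_E d 𝒟 x u ∈ L := Iff.rfl

/-- the field generated by `x` and the `p ^ s`-th powers of the elements of `K` -/
noncomputable def HL_Q1 (p : ℕ) (K : Type) {V : Type} [Field K] [Field V] [Algebra K V] (s : ℕ)
    (x : V) : Subfield V :=
  Subfield.closure ({z | ∃ w : K, z = (algebraMap K V w) ^ (p ^ s)} ∪ {x})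

theorem HL_Q1_le (H : HL_Ctx p K V n s t D 𝒟) {L : IntermediateField K V}
    {d : Derivation K L L} {x : V} (x₁ : L) (hx₁ : (x₁ : V) = x) (hd : d x₁ = 1)
    (hx : x ∈ HL_VP p V s) : HL_Q1 p K s x ≤ HL_W H L d x := by
  unfold HL_Q1
  rw [Subfield.closure_le]
  rintro z (⟨w, rfl⟩ | hz)
  · refine ⟨algebraMap K L (w ^ (p ^ s)), ?_, HL_mem_VP.mpr ⟨algebraMap K V w, rfl⟩, ?_⟩
    · rw [map_pow, IntermediateField.coe_pow]
      rfl
    · rw [HL_E_apply, Derivation.map_algebraMap]
      have h1 : ((algebraMap K L (w ^ (p ^ s)) : L) : V) = (algebraMap K V w) ^ (p ^ s) := by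
        rw [map_pow, IntermediateField.coe_pow]
        rfl
      rw [h1, HL_opPow H]
      obtain ⟨z', hz'⟩ := H.DK w
      rw [hz', ← map_pow]
      simp only [IntermediateField.coe_zero, zero_mul, sub_zero]
      exact L.algebraMap_mem _
  · rw [Set.mem_singleton_iff] at hz
    rw [hz]
    refine ⟨x₁, hx₁, hx, ?_⟩
    rw [HL_E_apply, hx₁, hd]
    simp only [IntermediateField.coe_one, one_mul, sub_self]
    exact L.zero_mem

omit hp [CharP V p] in
theorem HL_x_mem (x : V) : x ∈ HL_Q1 p K s x :=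
  Subfield.subset_closure (Or.inr rfl)

omit hp [CharP V p] in
theorem HL_K_mem (x : V) (z : K) : (algebraMap K V z) ^ (p ^ s) ∈ HL_Q1 p K s x :=
  Subfield.subset_closure (Or.inl ⟨z, rfl⟩)

theorem HL_Q1_le_VP {x : V} (hx : x ∈ HL_VP p V s) :
    HL_Q1 p K s x ≤ HL_VP p V s := by
  unfold HL_Q1
  rw [Subfield.closure_le]
  rintro z (⟨w, rfl⟩ | hz)
  · exact HL_mem_VP.mpr ⟨_, rfl⟩
  · rw [Set.mem_singleton_iff] at hz
    rw [hz]
    exact hx

omit hp [CharP V p] in
theorem HL_Q1_le_F (x : V) : HL_Q1 p K s x ≤ (fld1 (K := K) x).toSubfield := by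
  unfold HL_Q1
  rw [Subfield.closure_le]
  rintro z (⟨w, rfl⟩ | hz)
  · have h1 : (algebraMap K V w) ^ (p ^ s) ∈ fld1 (K := K) x :=
      pow_mem ((fld1 (K := K) x).algebraMap_mem w) _
    exact h1
  · rw [Set.mem_singleton_iff] at hz
    rw [hz]
    exact IntermediateField.mem_adjoin_simple_self K x

/-- the operator is the derivation modulo `L` on the `p ^ s`-th powers in `L` -/
theorem HL_N_le (H : HL_Ctx p K V n s t D 𝒟) {L : IntermediateField K V}
    {d : Derivation K L L} {x : V} (x₁ : L) (hx₁ : (x₁ : V) = x) (hd : d x₁ = 1)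
    (hx : x ∈ HL_VP p V s) (hF : fld1 (K := K) x ≤ L) (u : L) (hu : (u : V) ∈ HL_VP p V s)
    (hsep : IsSeparable (fld1 (K := K) x) (u : V)) : HL_E d 𝒟 x u ∈ L := by
  set F := fld1 (K := K) x with hFdef
  set m : F[X] := minpoly F (u : V) with hm
  have hint : IsIntegral F (u : V) := hsep.isIntegral
  have hmon : m.Monic := minpoly.monic hint
  have hroot : aeval (u : V) m = 0 := minpoly.aeval F (u : V)
  -- coefficients
  have hFM : F ≤ HL_M H (HL_Q1 p K s x) (HL_K_mem x) := by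
    rw [hFdef]
    change IntermediateField.adjoin K {x} ≤ _
    rw [IntermediateField.adjoin_le_iff]
    rintro z hz
    rw [Set.mem_singleton_iff] at hz
    rw [hz]
    exact HL_Q_le_S (HL_x_mem x)
  have hcoef : ∀ k, ∃ c : (Fin n → Fin (p ^ s)) → V, (∀ a, c a ∈ HL_Q1 p K s x) ∧
      (m.coeff k : V) = ∑ a, algebraMap K V (tm t a) * c a := fun k =>
    (HL_mem_M H).mp (hFM (m.coeff k).2)
  choose c hc hc' using hcoef
  have hcVP : ∀ k a, c k a ∈ HL_VP p V s := fun k a => HL_Q1_le_VP hx (hc k a)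
  have haev : ∀ q : F[X], aeval (u : V) q =
      ∑ k ∈ Finset.range (q.natDegree + 1), (q.coeff k : V) * (u : V) ^ k := by
    intro q
    rw [aeval_eq_sum_range]
    rfl
  have hzero : ∀ a, ∑ k ∈ Finset.range (m.natDegree + 1), c k a * (u : V) ^ k = 0 := by
    have h1 : (fun a => ∑ k ∈ Finset.range (m.natDegree + 1), c k a * (u : V) ^ k) =
        (fun _ : Fin n → Fin (p ^ s) => (0 : V)) := by
      refine HL_indep H (fun a => ?_) (fun a => (HL_VP p V s).zero_mem) ?_
      · exact (HL_VP p V s).sum_mem fun k _ =>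
          (HL_VP p V s).mul_mem (hcVP k a) ((HL_VP p V s).pow_mem hu k)
      · have h2 := hroot
        rw [haev] at h2
        simp only [mul_zero, Finset.sum_const_zero]
        rw [← h2]
        have h3 : ∀ a : Fin n → Fin (p ^ s), algebraMap K V (tm t a) *
            ∑ k ∈ Finset.range (m.natDegree + 1), c k a * (u : V) ^ k =
            ∑ k ∈ Finset.range (m.natDegree + 1),
              algebraMap K V (tm t a) * c k a * (u : V) ^ k := by
          intro a
          rw [Finset.mul_sum]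
          exact Finset.sum_congr rfl fun k _ => by ring
        rw [Finset.sum_congr rfl (fun a _ => h3 a), Finset.sum_comm]
        refine Finset.sum_congr rfl fun k _ => ?_
        rw [hc' k, Finset.sum_mul]
    intro a
    exact congrFun h1 a
  have hlead : c m.natDegree (HL_a0 p n s) = 1 := by
    have h1 : c m.natDegree = fun a => if a = HL_a0 p n s then (1 : V) else 0 := by
      refine HL_indep H (hcVP _) (fun a => ?_) ?_
      · show (if a = HL_a0 p n s then (1 : V) else 0) ∈ HL_VP p V s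
        split_ifs
        · exact (HL_VP p V s).one_mem
        · exact (HL_VP p V s).zero_mem
      · rw [← hc', HL_single, hmon.coeff_natDegree]
        rfl
    rw [h1]
    simp
  set q : F[X] := ∑ k ∈ Finset.range (m.natDegree + 1),
    C (⟨c k (HL_a0 p n s), HL_Q1_le_F x (hc k _)⟩ : F) * X ^ k with hq
  have hqcoef : ∀ k, k < m.natDegree + 1 →
      q.coeff k = (⟨c k (HL_a0 p n s), HL_Q1_le_F x (hc k _)⟩ : F) := by
    intro k hk
    rw [hq, finsetSum_coeff, Finset.sum_eq_single k]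
    · rw [coeff_C_mul, coeff_X_pow, if_pos rfl, mul_one]
    · intro j _ hj
      rw [coeff_C_mul, coeff_X_pow, if_neg (Ne.symm hj), mul_zero]
    · intro h
      exact absurd (Finset.mem_range.mpr hk) h
  have hqdeg : q.natDegree ≤ m.natDegree := by
    rw [hq]
    refine natDegree_sum_le_of_forall_le _ _ fun k hk => ?_
    refine (natDegree_C_mul_X_pow_le _ _).trans ?_
    exact Nat.lt_succ_iff.mp (Finset.mem_range.mp hk)
  have hqmon : q.Monic := by
    refine monic_of_natDegree_le_of_coeff_eq_one m.natDegree hqdeg ?_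
    rw [hqcoef _ (Nat.lt_succ_self _)]
    exact Subtype.ext hlead
  have hqroot : aeval (u : V) q = 0 := by
    rw [hq, map_sum, ← hzero (HL_a0 p n s)]
    refine Finset.sum_congr rfl fun k _ => ?_
    rw [map_mul, aeval_C, map_pow, aeval_X]
    rfl
  have hqm : q = m := eq_of_monic_of_dvd_of_natDegree_le hmon hqmon
    (minpoly.dvd F (u : V) hqroot) hqdeg
  have hmW : ∀ k, k < m.natDegree + 1 → (m.coeff k : V) ∈ HL_W H L d x := by
    intro k hk
    rw [← hqm, hqcoef k hk]
    exact HL_Q1_le H x₁ hx₁ hd hx (hc k _)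
  -- the derivative
  have hder : aeval (u : V) (derivative m) ≠ 0 := hsep.aeval_derivative_ne_zero hroot
  have hder' : aeval (u : V) (derivative m) =
      ∑ k ∈ Finset.range (m.natDegree + 1), (m.coeff k : V) * k * (u : V) ^ (k - 1) := by
    rw [derivative_apply, sum_over_range _ (by intro k; simp), map_sum]
    refine Finset.sum_congr rfl fun k _ => ?_
    rw [map_mul, aeval_C, map_pow, aeval_X, map_mul, map_natCast]
    rfl
  -- apply the operator
  have hmL : ∀ k, (m.coeff k : V) ∈ L := fun k => hF (m.coeff k).2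
  have hsum : ∑ k ∈ Finset.range (m.natDegree + 1), (⟨m.coeff k, hmL k⟩ : L) * u ^ k = 0 := by
    apply Subtype.ext
    have h1 := hroot
    rw [haev] at h1
    rw [IntermediateField.coe_zero, ← h1]
    change (algebraMap L V) _ = _
    rw [map_sum]
    refine Finset.sum_congr rfl fun k _ => ?_
    rw [map_mul, map_pow]
    rfl
  have hE := congrArg (HL_E d 𝒟 x) hsum
  rw [map_sum, map_zero] at hE
  have hterm : ∀ k ∈ Finset.range (m.natDegree + 1),
      HL_E d 𝒟 x ((⟨m.coeff k, hmL k⟩ : L) * u ^ k) =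
        (m.coeff k : V) * k * (u : V) ^ (k - 1) * HL_E d 𝒟 x u +
          (u : V) ^ k * HL_E d 𝒟 x ⟨m.coeff k, hmL k⟩ := by
    intro k hk
    obtain ⟨-, -, hVP, -⟩ := (HL_mem_W H).mp (hmW k (Finset.mem_range.mp hk))
    have hk' : ((u ^ k : L) : V) ∈ HL_VP p V s := by
      rw [IntermediateField.coe_pow]
      exact (HL_VP p V s).pow_mem hu k
    rw [HL_E_mul H d x (a := ⟨m.coeff k, hmL k⟩) hVP hk', HL_E_pow H d x hu,
      IntermediateField.coe_pow]
    ring
  rw [Finset.sum_congr rfl hterm, Finset.sum_add_distrib, ← Finset.sum_mul, ← hder'] at hE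
  have hrest : ∑ k ∈ Finset.range (m.natDegree + 1),
      (u : V) ^ k * HL_E d 𝒟 x ⟨m.coeff k, hmL k⟩ ∈ L := by
    refine L.sum_mem fun k hk => L.mul_mem (pow_mem u.2 k) ?_
    obtain ⟨v, hv, -, hvE⟩ := (HL_mem_W H).mp (hmW k (Finset.mem_range.mp hk))
    have h1 : v = ⟨m.coeff k, hmL k⟩ := Subtype.ext hv
    rw [← h1]
    exact hvE
  have hderL : aeval (u : V) (derivative m) ∈ L := by
    rw [haev]
    exact L.sum_mem fun k _ => L.mul_mem (hF (SetLike.coe_mem _)) (pow_mem u.2 k)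
  have hsol : HL_E d 𝒟 x u = -(∑ k ∈ Finset.range (m.natDegree + 1),
      (u : V) ^ k * HL_E d 𝒟 x ⟨m.coeff k, hmL k⟩) / aeval (u : V) (derivative m) := by
    rw [eq_div_iff hder]
    linear_combination hE
  rw [hsol]
  exact L.div_mem (L.neg_mem hrest) hderL

/-- the whole field -/
theorem HL_main (H : HL_Ctx p K V n s t D 𝒟) (L : IntermediateField K V) (d : Derivation K L L)
    (x : V) (hxVP : x ∈ HL_VP p V s) (hFL : fld1 (K := K) x ≤ L)
    (hd : ∀ x₁ : L, (x₁ : V) = x → d x₁ = 1)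
    (hsep : ∀ z ∈ L, IsSeparable (fld1 (K := K) x) z)
    (hQN : ∀ z : K, (algebraMap K V z) ^ (p ^ s) ∈ L.toSubfield ⊓ HL_VP p V s)
    (hLM : L ≤ HL_M H (L.toSubfield ⊓ HL_VP p V s) hQN) (u : L) :
    ∃ lam : L, 𝒟 (u : V) = (d u : V) * 𝒟 x + lam := by
  have hxL : x ∈ L := hFL (IntermediateField.mem_adjoin_simple_self K x)
  obtain ⟨v, hv, hv'⟩ := (HL_mem_M H).mp (hLM u.2)
  have hvL : ∀ a, v a ∈ L := fun a => (hv a).1
  have hvP : ∀ a, v a ∈ HL_VP p V s := fun a => (hv a).2
  have hEv : ∀ a, HL_E d 𝒟 x ⟨v a, hvL a⟩ ∈ L := fun a =>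
    HL_N_le H ⟨x, hxL⟩ rfl (hd _ rfl) hxVP hFL ⟨v a, hvL a⟩ (hvP a) (hsep _ (hvL a))
  have hu : u = ∑ a, (tm t a) • (⟨v a, hvL a⟩ : L) := by
    apply Subtype.ext
    rw [hv']
    change _ = (algebraMap L V) _
    rw [map_sum]
    refine Finset.sum_congr rfl fun a _ => ?_
    rw [Algebra.smul_def, map_mul]
    rfl
  have hdu : (d u : V) = ∑ a, algebraMap K V (tm t a) * (d ⟨v a, hvL a⟩ : V) := by
    conv_lhs => rw [hu]
    rw [map_sum]
    change (algebraMap L V) _ = _
    rw [map_sum]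
    refine Finset.sum_congr rfl fun a _ => ?_
    rw [Derivation.map_smul, Algebra.smul_def, map_mul]
    rfl
  have hlam : ∑ a, algebraMap K V (tm t a) * HL_E d 𝒟 x ⟨v a, hvL a⟩ ∈ L :=
    L.sum_mem fun a _ => L.mul_mem (L.algebraMap_mem _) (hEv a)
  refine ⟨⟨_, hlam⟩, ?_⟩
  rw [hv', HL_opSum H hvP, hdu, Finset.sum_mul]
  change _ = _ + ∑ a, algebraMap K V (tm t a) * HL_E d 𝒟 x ⟨v a, hvL a⟩
  rw [← Finset.sum_add_distrib]
  refine Finset.sum_congr rfl fun a _ => ?_
  rw [HL_E_apply]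
  ring

end

theorem thm_HL : St_HL := by
  intro p hp K V _ _ _ _ n s t D 𝒟 x x' y hspan hind hDK hop hxx hx hy
  have : CharP V p := charP_of_injective_algebraMap (algebraMap K V).injective p
  have H : HL_Ctx p K V n s t D 𝒟 := ⟨hspan, hind, hDK, hop⟩
  obtain ⟨d, hd⟩ := HL_der x y hx hy
  refine ⟨d, hd, fun u => ?_⟩
  have hFL : fld1 (K := K) x ≤ fld (K := K) x y :=
    IntermediateField.adjoin.mono K _ _ (by simp)
  have hxL : x ∈ fld (K := K) x y := hFL (IntermediateField.mem_adjoin_simple_self K x)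
  have hyL : y ∈ fld (K := K) x y := IntermediateField.subset_adjoin K _ (by simp)
  have hxVP : x ∈ HL_VP p V s := HL_mem_VP.mpr ⟨x', hxx.symm⟩
  have hQN : ∀ z : K, (algebraMap K V z) ^ (p ^ s) ∈
      (fld (K := K) x y).toSubfield ⊓ HL_VP p V s := by
    intro z
    have h1 : (algebraMap K V z) ^ (p ^ s) ∈ fld (K := K) x y :=
      pow_mem ((fld (K := K) x y).algebraMap_mem z) _
    exact ⟨h1, HL_mem_VP.mpr ⟨_, rfl⟩⟩
  have hxM : x ∈ HL_M H ((fld (K := K) x y).toSubfield ⊓ HL_VP p V s) hQN :=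
    HL_Q_le_S ⟨hxL, hxVP⟩
  have hFM : fld1 (K := K) x ≤ HL_M H ((fld (K := K) x y).toSubfield ⊓ HL_VP p V s) hQN := by
    change IntermediateField.adjoin K {x} ≤ _
    rw [IntermediateField.adjoin_le_iff]
    rintro z hz
    rw [Set.mem_singleton_iff] at hz
    rw [hz]
    exact hxM
  have hyPL : y ^ (p ^ s) ∈ fld (K := K) x y := pow_mem hyL _
  have hyP : y ^ (p ^ s) ∈ HL_M H ((fld (K := K) x y).toSubfield ⊓ HL_VP p V s) hQN :=
    HL_Q_le_S ⟨hyPL, HL_mem_VP.mpr ⟨y, rfl⟩⟩
  have hyM : y ∈ HL_M H ((fld (K := K) x y).toSubfield ⊓ HL_VP p V s) hQN := by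
    have : CharP (fld1 (K := K) x) p :=
      charP_of_injective_algebraMap (algebraMap K (fld1 (K := K) x)).injective p
    have : ExpChar (fld1 (K := K) x) p := inferInstance
    have h1 := IntermediateField.adjoin_simple_eq_adjoin_pow_expChar_pow_of_isSeparable
      (fld1 (K := K) x) V hy p s
    have h2 : y ∈ IntermediateField.adjoin (fld1 (K := K) x) {y} :=
      IntermediateField.mem_adjoin_simple_self _ y
    rw [h1] at h2
    have h3 : IntermediateField.adjoin (fld1 (K := K) x) {y ^ p ^ s} ≤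
        IntermediateField.extendScalars hFM := by
      rw [IntermediateField.adjoin_le_iff]
      rintro z hz
      rw [Set.mem_singleton_iff] at hz
      rw [hz]
      exact hyP
    exact h3 h2
  have hLM : fld (K := K) x y ≤
      HL_M H ((fld (K := K) x y).toSubfield ⊓ HL_VP p V s) hQN := by
    refine IntermediateField.adjoin_le_iff.mpr ?_
    rintro z hz
    simp only [Set.mem_insert_iff, Set.mem_singleton_iff] at hz
    rcases hz with hz | hz
    · rw [hz]
      exact hxM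
    · rw [hz]
      exact hyM
  exact HL_main H (fld (K := K) x y) d x hxVP hFL hd (fun z hz => HL_sep x y hy z hz) hQN hLM u

end Pool.Agent.NPC
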