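import Pool.Agent.NPC.StB

set_option autoImplicit false

/-! # HS: Hasse operators exist and are good -/

namespace Pool.Agent.NPC

open Polynomial

section

variable {p : ℕ} {K L : Type} [Field K] [NormedField L] [IsUltrametricDist L]

private theorem HS_bd (S : PS p K L) (a : K) : ∃ C : ℝ, 0 ≤ C ∧ ∀ j, ‖S.σ j a‖ ≤ C := by
  have := S.fin
  obtain ⟨C, hC⟩ := (Set.finite_range fun j => ‖S.σ j a‖).bddAbove
  exact ⟨max C 0, le_max_right _ _, fun j => (hC ⟨j, rfl⟩).trans (le_max_left _ _)⟩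

private theorem HS_zero (hG : St_GOD) (S : PS p K L) : S.good (0 : K →+ K) := by
  have h := (hG p K L S).2.2.2 0
  have e : AddMonoidHom.mulLeft (0 : K) = 0 := by
    ext z; simp
  rwa [e] at h

private theorem HS_sum (hG : St_GOD) (S : PS p K L) {ι : Type} (s : Finset ι) (T : ι → K →+ K)
    (h : ∀ i ∈ s, S.good (T i)) : S.good (∑ i ∈ s, T i) := by
  classical
  induction s using Finset.induction_on with
  | empty => rw [Finset.sum_empty]; exact HS_zero hG S
  | insert a s ha ih =>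
    rw [Finset.sum_insert ha]
    exact (hG p K L S).2.1 _ _ (h a (Finset.mem_insert_self a s))
      (ih fun i hi => h i (Finset.mem_insert_of_mem hi))

private theorem HS_neg (hG : St_GOD) (S : PS p K L) {T : K →+ K} (h : S.good T) :
    S.good (-T) := by
  have h1 := (hG p K L S).2.2.1 T _ h ((hG p K L S).2.2.2 (-1))
  have e : (AddMonoidHom.mulLeft (-1 : K)).comp T = -T := by
    ext z; simp
  rwa [e] at h1

private theorem HS_id (hG : St_GOD) (S : PS p K L) : S.good (AddMonoidHom.id K) := by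
  have h := (hG p K L S).2.2.2 1
  have e : AddMonoidHom.mulLeft (1 : K) = AddMonoidHom.id K := by
    ext z; simp
  rwa [e] at h

/-- iterates of a derivation -/
private def HS_it (D : Derivation ℤ K K) : ℕ → K →+ K
  | 0 => AddMonoidHom.id K
  | k + 1 => (D : K →+ K).comp (HS_it D k)

private theorem HS_it_good (hG : St_GOD) (S : PS p K L) (i : Fin S.n) (k : ℕ) :
    S.good (HS_it (S.D i) k) := by
  induction k with
  | zero => exact HS_id hG S
  | succ k ih => exact (hG p K L S).2.2.1 _ _ ih ((hG p K L S).1 i)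

omit [IsUltrametricDist L] in
private theorem HS_it_val (S : PS p K L) (i : Fin S.n) (u : K) (hu : S.D i u = 0) (k m : ℕ) :
    HS_it (S.D i) m (S.t i ^ k * u) = (k.descFactorial m : K) * (S.t i ^ (k - m) * u) := by
  induction m with
  | zero => simp [HS_it]
  | succ m ih =>
    show S.D i (HS_it (S.D i) m (S.t i ^ k * u)) = _
    rw [ih]
    have h1 : S.D i ((k.descFactorial m : K) * (S.t i ^ (k - m) * u)) =
        (k.descFactorial m : K) * S.D i (S.t i ^ (k - m) * u) := by
      rw [Derivation.leibniz]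
      have : S.D i (k.descFactorial m : K) = 0 := by
        exact Derivation.map_natCast _ _
      rw [this, smul_zero, add_zero, smul_eq_mul]
    rw [h1, Derivation.leibniz, hu, smul_zero, zero_add, Derivation.leibniz_pow, S.Dt, if_pos rfl,
      Nat.descFactorial_succ]
    simp only [smul_eq_mul, nsmul_eq_mul, mul_one]
    push_cast
    rw [Nat.sub_sub]
    ring

/-- the coefficient of `t_i ^ m` -/
private theorem HS_one (hG : St_GOD) [Fact p.Prime] [CharP K p] (S : PS p K L) (i : Fin S.n) :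
    ∀ d m : ℕ, m + d + 1 = p → ∃ T : K →+ K, S.good T ∧ ∀ k < p, ∀ u, S.D i u = 0 →
      T (S.t i ^ k * u) = if k = m then u else 0 := by
  intro d
  induction d using Nat.strong_induction_on with
  | _ d ih =>
    intro m hm
    have h1 : ∀ m' ∈ Finset.Ioo m p, ∃ T : K →+ K, S.good T ∧ ∀ k < p, ∀ u, S.D i u = 0 →
        T (S.t i ^ k * u) = if k = m' then u else 0 := by
      intro m' hm'
      rw [Finset.mem_Ioo] at hm'
      exact ih (p - 1 - m') (by omega) m' (by omega)
    choose! T hT1 hT2 using h1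
    set Q : K →+ K := ∑ m' ∈ Finset.Ioo m p, (AddMonoidHom.mulLeft (S.t i ^ m')).comp (T m')
      with hQ
    have hQg : S.good Q := HS_sum hG S _ _ fun m' hm' =>
      (hG p K L S).2.2.1 _ _ (hT1 m' hm') ((hG p K L S).2.2.2 _)
    have hQv : ∀ k < p, ∀ u, S.D i u = 0 → Q (S.t i ^ k * u) =
        if m < k then S.t i ^ k * u else 0 := by
      intro k hk u hu
      rw [hQ, AddMonoidHom.finsetSum_apply]
      have : ∀ m' ∈ Finset.Ioo m p, ((AddMonoidHom.mulLeft (S.t i ^ m')).comp (T m'))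
          (S.t i ^ k * u) = if k = m' then S.t i ^ k * u else 0 := by
        intro m' hm'
        rw [AddMonoidHom.comp_apply, hT2 m' hm' k hk u hu, AddMonoidHom.coe_mulLeft]
        split_ifs with h
        · rw [h]
        · rw [mul_zero]
      rw [Finset.sum_congr rfl this, Finset.sum_ite_eq]
      simp only [Finset.mem_Ioo, hk, and_true]
    set R : K →+ K := (AddMonoidHom.mulLeft ((m.factorial : K)⁻¹)).comp
      ((HS_it (S.D i) m).comp (AddMonoidHom.id K + -Q)) with hR
    refine ⟨R, ?_, ?_⟩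
    · refine (hG p K L S).2.2.1 _ _ ?_ ((hG p K L S).2.2.2 _)
      refine (hG p K L S).2.2.1 _ _ ?_ (HS_it_good hG S i m)
      exact (hG p K L S).2.1 _ _ (HS_id hG S) (HS_neg hG S hQg)
    · intro k hk u hu
      have hfac : (m.factorial : K) ≠ 0 := by
        rw [Ne, CharP.cast_eq_zero_iff K p, (Fact.out : p.Prime).dvd_factorial]
        omega
      rw [hR, AddMonoidHom.comp_apply, AddMonoidHom.comp_apply, AddMonoidHom.add_apply,
        AddMonoidHom.id_apply, AddMonoidHom.neg_apply, hQv k hk u hu, AddMonoidHom.coe_mulLeft]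
      rcases lt_trichotomy k m with h | h | h
      · rw [if_neg (by omega), if_neg (by omega), neg_zero, add_zero, HS_it_val S i u hu,
          Nat.descFactorial_eq_zero_iff_lt.2 h]
        simp
      · rw [if_neg (by omega), if_pos h, neg_zero, add_zero, HS_it_val S i u hu, h,
          Nat.descFactorial_self, Nat.sub_self, pow_zero, one_mul, inv_mul_cancel_left₀ hfac]
      · rw [if_pos h, if_neg (by omega), add_neg_cancel, map_zero, mul_zero]

omit [IsUltrametricDist L] in
private theorem HS_killP [CharP K p] (S : PS p K L) (i : Fin S.n) (w : K) : S.D i (w ^ p) = 0 := by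
  rw [Derivation.leibniz_pow, ← Nat.cast_smul_eq_nsmul K, CharP.cast_eq_zero, zero_smul]

omit [IsUltrametricDist L] in
private theorem HS_killM (S : PS p K L) (i : Fin S.n) (s : Finset (Fin S.n)) (hi : i ∉ s)
    (b : Fin S.n → ℕ) (v : K) (hv : S.D i v = 0) : S.D i ((∏ j ∈ s, S.t j ^ b j) * v) = 0 := by
  classical
  have h1 : S.D i (∏ j ∈ s, S.t j ^ b j) = 0 := by
    induction s using Finset.induction_on with
    | empty => rw [Finset.prod_empty]; exact Derivation.map_one_eq_zero _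
    | insert a s ha ih =>
      have hia : i ≠ a := by
        rintro rfl
        exact hi (Finset.mem_insert_self _ _)
      rw [Finset.prod_insert ha, Derivation.leibniz, ih fun h => hi (Finset.mem_insert_of_mem h),
        Derivation.leibniz_pow, S.Dt, if_neg hia]
      simp
  rw [Derivation.leibniz, h1, hv]
  simp

/-- the coefficient of `t ^ a` with respect to a set of indices -/
private theorem HS_set (hG : St_GOD) [Fact p.Prime] [CharP K p] (S : PS p K L)
    (a : Fin S.n → Fin p) (s : Finset (Fin S.n)) :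
    ∃ T : K →+ K, S.good T ∧ ∀ (b : Fin S.n → Fin p) (v : K), (∀ j ∈ s, S.D j v = 0) →
      T ((∏ j ∈ s, S.t j ^ (b j : ℕ)) * v) = if ∀ j ∈ s, b j = a j then v else 0 := by
  classical
  induction s using Finset.induction_on with
  | empty =>
    refine ⟨AddMonoidHom.id K, HS_id hG S, fun b v _ => ?_⟩
    simp
  | insert i s hi ih =>
    obtain ⟨T, hT1, hT2⟩ := ih
    obtain ⟨T', hT1', hT2'⟩ := HS_one hG S i (p - 1 - a i) (a i) (by have := (a i).2; omega)
    refine ⟨T.comp T', (hG p K L S).2.2.1 _ _ hT1' hT1, fun b v hv => ?_⟩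
    rw [Finset.prod_insert hi, mul_assoc, AddMonoidHom.comp_apply, hT2' (b i) (b i).2 _
      (HS_killM S i s hi (fun j => (b j : ℕ)) v (hv i (Finset.mem_insert_self i s)))]
    by_cases h1 : b i = a i
    · rw [if_pos (by rw [h1]), hT2 b v fun j hj => hv j (Finset.mem_insert_of_mem hj)]
      simp only [Finset.mem_insert, forall_eq_or_imp, h1, true_and]
    · rw [if_neg (fun h => h1 (Fin.ext h)), map_zero, if_neg]
      exact fun h => h1 (h i (Finset.mem_insert_self i s))

/-- the `p`-th power of a coordinate is a good operator -/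
private theorem HS_coef (hG : St_GOD) [Fact p.Prime] [CharP K p] (S : PS p K L)
    (a : Fin S.n → Fin p) :
    ∃ T : K →+ K, S.good T ∧ ∀ w : (Fin S.n → Fin p) → K,
      T (∑ b, tm S.t b * w b ^ p) = w a ^ p := by
  classical
  obtain ⟨T, hT1, hT2⟩ := HS_set hG S a Finset.univ
  refine ⟨T, hT1, fun w => ?_⟩
  rw [map_sum]
  have : ∀ b ∈ (Finset.univ : Finset (Fin S.n → Fin p)), T (tm S.t b * w b ^ p) =
      if b = a then w b ^ p else 0 := by
    intro b _
    rw [tm, hT2 b (w b ^ p) fun j _ => HS_killP S j (w b)]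
    by_cases h : b = a
    · rw [if_pos h, if_pos fun j _ => by rw [h]]
    · rw [if_neg h, if_neg fun h' => h (funext fun j => h' j (Finset.mem_univ j))]
  rw [Finset.sum_congr rfl this, Finset.sum_ite_eq' Finset.univ a]
  simp

private theorem HS_pos {m q x : ℕ} (h : x < m * q) : 0 < m :=
  Nat.pos_of_ne_zero (by rintro rfl; simp at h)

/-- splitting of the exponents -/
private def HS_split (n m q : ℕ) : (Fin n → Fin (m * q)) ≃ (Fin n → Fin m) × (Fin n → Fin q) where
  toFun b := (fun j => ⟨(b j : ℕ) % m, Nat.mod_lt _ (HS_pos (b j).2)⟩,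
    fun j => ⟨(b j : ℕ) / m, Nat.div_lt_of_lt_mul (b j).2⟩)
  invFun a := fun j => ⟨(a.1 j : ℕ) + m * (a.2 j : ℕ), by
    have h1 := (a.1 j).2
    have h2 := (a.2 j).2
    calc (a.1 j : ℕ) + m * (a.2 j : ℕ) < m + m * (a.2 j : ℕ) := by omega
      _ = m * ((a.2 j : ℕ) + 1) := by ring
      _ ≤ m * q := Nat.mul_le_mul_left m h2⟩
  left_inv b := by
    funext j
    apply Fin.ext
    exact Nat.mod_add_div _ _
  right_inv a := by
    refine Prod.ext ?_ ?_
    · funext j
      apply Fin.ext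
      show ((a.1 j : ℕ) + m * (a.2 j : ℕ)) % m = a.1 j
      rw [Nat.add_mul_mod_self_left, Nat.mod_eq_of_lt (a.1 j).2]
    · funext j
      apply Fin.ext
      show ((a.1 j : ℕ) + m * (a.2 j : ℕ)) / m = a.2 j
      have h1 := (a.1 j).2
      rw [Nat.add_mul_div_left _ _ (by omega), Nat.div_eq_of_lt h1, zero_add]

private theorem HS_tm_split {n m q : ℕ} (t : Fin n → K) (a : (Fin n → Fin m) × (Fin n → Fin q)) :
    tm t ((HS_split n m q).symm a) = tm t a.1 * tm t a.2 ^ m := by
  unfold tm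
  rw [← Finset.prod_pow, ← Finset.prod_mul_distrib]
  refine Finset.prod_congr rfl fun j _ => ?_
  show t j ^ ((a.1 j : ℕ) + m * (a.2 j : ℕ)) = _
  rw [pow_add, pow_mul']

private theorem HS_sumsplit [Fact p.Prime] [CharP K p] {n : ℕ} (s : ℕ) (t : Fin n → K)
    (w : (Fin n → Fin (p ^ s * p)) → K) : ∑ b, tm t b * w b ^ (p ^ s * p) =
      ∑ b1 : Fin n → Fin (p ^ s), tm t b1 *
        (∑ b2 : Fin n → Fin p, tm t b2 * w ((HS_split n (p ^ s) p).symm (b1, b2)) ^ p) ^
          (p ^ s) := by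
  rw [← (HS_split n (p ^ s) p).symm.sum_comp, Fintype.sum_prod_type]
  refine Finset.sum_congr rfl fun b1 _ => ?_
  rw [sum_pow_char_pow, Finset.mul_sum]
  refine Finset.sum_congr rfl fun b2 _ => ?_
  rw [HS_tm_split, mul_pow, ← pow_mul, mul_comm p (p ^ s), mul_assoc]

/-- the coordinates are bounded and have bounded denominators -/
private theorem HS_claim (hG : St_GOD) [hp : Fact p.Prime] [CharP K p] (S : PS p K L) (s : ℕ) :
    ∀ a : Fin S.n → Fin (p ^ s),
      (∃ C : ℝ, 0 ≤ C ∧ ∀ (w : (Fin S.n → Fin (p ^ s)) → K) (j : S.I),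
        ‖S.σ j (w a)‖ ^ (p ^ s) ≤ C * ‖S.σ j (∑ b, tm S.t b * w b ^ (p ^ s))‖) ∧
      ∀ c ∈ S.R, c ≠ 0 → ∃ b ∈ S.R, b ≠ 0 ∧ ∀ w : (Fin S.n → Fin (p ^ s)) → K,
        c * (∑ b, tm S.t b * w b ^ (p ^ s)) ∈ S.R → b * w a ∈ S.R := by
  have hroot : ∀ b ∈ S.R, ∀ w : K, b * w ^ p ∈ S.R → b * w ∈ S.R := by
    intro b hb w hw
    have h1 : (b * w) ^ p ∈ S.R := by
      have e : (b * w) ^ p = b ^ (p - 1) * (b * w ^ p) := by
        rw [mul_pow, ← mul_assoc, ← pow_succ, Nat.sub_add_cancel hp.out.pos]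
      rw [e]; exact S.R.mul_mem (S.R.pow_mem hb _) hw
    refine S.Rint (X ^ p - Polynomial.C ((b * w) ^ p)) (b * w)
      (monic_X_pow_sub_C _ hp.out.ne_zero) ?_ ?_
    · intro i
      rw [coeff_sub, coeff_X_pow, coeff_C]
      refine S.R.sub_mem ?_ ?_
      · split_ifs
        · exact S.R.one_mem
        · exact S.R.zero_mem
      · split_ifs
        · exact h1
        · exact S.R.zero_mem
    · rw [eval_sub, eval_pow, eval_X, eval_C, sub_self]
  induction s with
  | zero =>
    intro a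
    have hu : ∀ b : Fin S.n → Fin (p ^ 0), b = a := by
      intro b
      funext j
      apply Fin.ext
      have h1 := (b j).2
      have h2 := (a j).2
      have h3 : p ^ 0 = 1 := pow_zero p
      omega
    have hsum : ∀ w : (Fin S.n → Fin (p ^ 0)) → K, ∑ b, tm S.t b * w b ^ (p ^ 0) = w a := by
      intro w
      rw [Finset.sum_eq_single a (fun b _ h => absurd (hu b) h) fun h =>
        absurd (Finset.mem_univ a) h]
      have hw : w a ^ (p ^ 0) = w a := (congrArg (w a ^ ·) (pow_zero p)).trans (pow_one _)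
      rw [hw]
      have : tm S.t a = 1 := by
        unfold tm
        refine Finset.prod_eq_one fun j _ => ?_
        have h2 := (a j).2
        have h3 : p ^ 0 = 1 := pow_zero p
        have : (a j : ℕ) = 0 := by omega
        rw [this, pow_zero]
      rw [this, one_mul]
    refine ⟨⟨1, zero_le_one, fun w j => ?_⟩, fun c hc hc0 => ⟨c, hc, hc0, fun w hw => ?_⟩⟩
    · rw [hsum, pow_zero, pow_one, one_mul]
    · rwa [hsum] at hw
  | succ s ih =>
    -- split the index
    rw [pow_succ]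
    intro a
    set a1 := (HS_split S.n (p ^ s) p a).1 with ha1
    set a2 := (HS_split S.n (p ^ s) p a).2 with ha2
    obtain ⟨⟨C, hC0, hC⟩, hden⟩ := ih a1
    obtain ⟨Q, ⟨⟨C', hC'⟩, hQden⟩, hQv⟩ := HS_coef hG S a2
    have hsum := fun w => HS_sumsplit (p := p) s S.t w
    have haa : (HS_split S.n (p ^ s) p).symm (a1, a2) = a := by
      rw [ha1, ha2, Prod.mk.eta, Equiv.symm_apply_apply]
    refine ⟨⟨(max C' 0) ^ (p ^ s) * C, by positivity, fun w j => ?_⟩, fun c hc hc0 => ?_⟩
    · set v : (Fin S.n → Fin (p ^ s)) → K := fun b1 =>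
        ∑ b2 : Fin S.n → Fin p, tm S.t b2 * w ((HS_split S.n (p ^ s) p).symm (b1, b2)) ^ p with hv
      rw [hsum]
      have h1 := hC v j
      have h2 : ‖S.σ j (w a)‖ ^ p ≤ max C' 0 * ‖S.σ j (v a1)‖ := by
        have h3 := hC' j (v a1)
        have h4 := hQv fun b2 => w ((HS_split S.n (p ^ s) p).symm (a1, b2))
        beta_reduce at h4
        rw [haa] at h4
        rw [hv] at h3 ⊢
        beta_reduce at h3 ⊢
        rw [h4, map_pow, norm_pow] at h3
        exact h3.trans (mul_le_mul_of_nonneg_right (le_max_left _ _) (norm_nonneg _))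
      calc ‖S.σ j (w a)‖ ^ (p ^ s * p) = (‖S.σ j (w a)‖ ^ p) ^ (p ^ s) := by rw [← pow_mul, mul_comm]
        _ ≤ (max C' 0 * ‖S.σ j (v a1)‖) ^ (p ^ s) := pow_le_pow_left₀ (by positivity) h2 _
        _ = (max C' 0) ^ (p ^ s) * ‖S.σ j (v a1)‖ ^ (p ^ s) := mul_pow _ _ _
        _ ≤ (max C' 0) ^ (p ^ s) * (C * ‖S.σ j (∑ b, tm S.t b * v b ^ (p ^ s))‖) :=
          mul_le_mul_of_nonneg_left h1 (by positivity)
        _ = _ := by ring
    · obtain ⟨b, hb, hb0, hbw⟩ := hden c hc hc0
      obtain ⟨b', hb', hb0', hbw'⟩ := hQden b hb hb0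
      refine ⟨b', hb', hb0', fun w hw => ?_⟩
      rw [hsum] at hw
      have h1 := hbw _ hw
      have h2 := hbw' _ h1
      beta_reduce at h2
      rw [hQv, haa] at h2
      exact hroot b' hb' _ h2

/-- common denominators -/
private theorem HS_den (S : PS p K L) {ι : Type} [Fintype ι] (Pr : K → Prop)
    (g : ι → K → K) (h : ∀ i, ∃ b ∈ S.R, b ≠ 0 ∧ ∀ z, Pr z → b * g i z ∈ S.R) :
    ∃ b ∈ S.R, b ≠ 0 ∧ ∀ i z, Pr z → b * g i z ∈ S.R := by
  classical
  choose b hb hb0 hbg using h
  refine ⟨∏ i, b i, S.R.prod_mem fun i _ => hb i, Finset.prod_ne_zero_iff.2 fun i _ => hb0 i,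
    fun i z hz => ?_⟩
  rw [← Finset.mul_prod_erase Finset.univ b (Finset.mem_univ i)]
  have e : b i * (∏ x ∈ Finset.univ.erase i, b x) * g i z =
      (∏ x ∈ Finset.univ.erase i, b x) * (b i * g i z) := by ring
  rw [e]
  exact S.R.mul_mem (S.R.prod_mem fun i _ => hb i) (hbg i z hz)

end

/-- HS. -/
theorem thm_HS (hG : St_GOD) (hB : St_HB) : St_HS := by
  intro p hp K L _ _ _ _ S i s
  obtain ⟨hex, huniq⟩ := hB p K L S s
  choose co hco using hex
  have hun : ∀ w w' : (Fin S.n → Fin (p ^ s)) → K,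
      ∑ a, tm S.t a * w a ^ (p ^ s) = ∑ a, tm S.t a * w' a ^ (p ^ s) → w = w' := by
    intro w w' h
    have h1 : ∑ a, tm S.t a * (w - w') a ^ (p ^ s) = 0 := by
      rw [← sub_eq_zero.2 h, ← Finset.sum_sub_distrib]
      refine Finset.sum_congr rfl fun a _ => ?_
      rw [Pi.sub_apply, sub_pow_char_pow, mul_sub]
    exact sub_eq_zero.1 (huniq _ h1)
  have hcow : ∀ w : (Fin S.n → Fin (p ^ s)) → K, co (∑ a, tm S.t a * w a ^ (p ^ s)) = w :=
    fun w => hun _ _ (hco _).symm
  have hadd : ∀ z z', co (z + z') = co z + co z' := by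
    intro z z'
    refine hun _ _ ?_
    rw [← hco]
    conv_lhs => rw [hco z, hco z', ← Finset.sum_add_distrib]
    refine Finset.sum_congr rfl fun a _ => ?_
    rw [Pi.add_apply, add_pow_char_pow, mul_add]
  let T : K →+ K := AddMonoidHom.mk' (fun z => ∑ a, tm S.t a * (S.D i (co z a)) ^ (p ^ s)) (by
    intro z z'
    rw [hadd, ← Finset.sum_add_distrib]
    refine Finset.sum_congr rfl fun a _ => ?_
    rw [Pi.add_apply, map_add, add_pow_char_pow, mul_add])
  have hT : ∀ z, T z = ∑ a, tm S.t a * (S.D i (co z a)) ^ (p ^ s) := fun z => rfl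
  refine ⟨T, ⟨?_, ?_⟩, fun w => by rw [hT, hcow]⟩
  · obtain ⟨C, hC⟩ := S.bD
    have h1 := fun a => (HS_claim hG S s a).1
    choose Ca hCa0 hCa using h1
    have h2 := fun a : Fin S.n → Fin (p ^ s) => HS_bd S (tm S.t a)
    choose Ma hMa0 hMa using h2
    refine ⟨∑ a, Ma a * ((max C 0) ^ (p ^ s) * Ca a), fun j z => ?_⟩
    rw [hT, map_sum, Finset.sum_mul]
    refine (norm_sum_le _ _).trans (Finset.sum_le_sum fun a _ => ?_)
    rw [map_mul, map_pow, norm_mul, norm_pow]
    have h3 : ‖S.σ j (S.D i (co z a))‖ ≤ max C 0 * ‖S.σ j (co z a)‖ :=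
      (hC i j _).trans (mul_le_mul_of_nonneg_right (le_max_left _ _) (norm_nonneg _))
    have h4 := hCa a (co z) j
    rw [← hco z] at h4
    calc ‖S.σ j (tm S.t a)‖ * ‖S.σ j (S.D i (co z a))‖ ^ (p ^ s)
        ≤ Ma a * (max C 0 * ‖S.σ j (co z a)‖) ^ (p ^ s) :=
          mul_le_mul (hMa a j) (pow_le_pow_left₀ (norm_nonneg _) h3 _) (by positivity) (hMa0 a)
      _ = Ma a * ((max C 0) ^ (p ^ s) * ‖S.σ j (co z a)‖ ^ (p ^ s)) := by rw [mul_pow]
      _ ≤ Ma a * ((max C 0) ^ (p ^ s) * (Ca a * ‖S.σ j z‖)) :=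
          mul_le_mul_of_nonneg_left (mul_le_mul_of_nonneg_left h4 (by positivity)) (hMa0 a)
      _ = Ma a * ((max C 0) ^ (p ^ s) * Ca a) * ‖S.σ j z‖ := by ring
  · intro c hc hc0
    have htR : ∀ a : Fin S.n → Fin (p ^ s), tm S.t a ∈ S.R := fun a =>
      S.R.prod_mem fun j _ => S.R.pow_mem (S.tR j) _
    have key : ∀ a : Fin S.n → Fin (p ^ s), ∃ b ∈ S.R, b ≠ 0 ∧ ∀ z, c * z ∈ S.R →
        b * (S.D i (co z a)) ^ (p ^ s) ∈ S.R := by
      intro a
      obtain ⟨b, hb, hb0, h1⟩ := (HS_claim hG S s a).2 c hc hc0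
      obtain ⟨b', hb', hb0', h2⟩ := ((hG p K L S).1 i).2 b hb hb0
      refine ⟨b' ^ (p ^ s), S.R.pow_mem hb' _, pow_ne_zero _ hb0', fun z hz => ?_⟩
      have h3 := h1 (co z) (by rw [← hco z]; exact hz)
      have h4 := h2 _ h3
      rw [← mul_pow]
      exact S.R.pow_mem h4 _
    obtain ⟨b, hb, hb0, h1⟩ := HS_den S (fun z => c * z ∈ S.R)
      (fun a z => (S.D i (co z a)) ^ (p ^ s)) key
    refine ⟨b, hb, hb0, fun z hz => ?_⟩
    rw [hT, Finset.mul_sum]
    refine S.R.sum_mem fun a _ => ?_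
    have e : b * (tm S.t a * (S.D i (co z a)) ^ (p ^ s)) =
        tm S.t a * (b * (S.D i (co z a)) ^ (p ^ s)) := by ring
    rw [e]
    exact S.R.mul_mem (htR a) (h1 a z hz)

end Pool.Agent.NPC
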