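import Pool.Agent.NPC.StC
import Pool.Agent.Helper11.SP.Dich

/-!
# Comparison of heights on the curve: `thm_HT`
-/

set_option autoImplicit false

namespace Pool.Agent.NPC

open Polynomial Pool.Agent.Helper11.SP Pool.Agent.Helper79.DM

/-- One half of the comparison over a ring with enough places. -/
private theorem HT_core {A L I : Type*} [CommRing A] [IsDomain A] [NormedField L]
    [IsUltrametricDist L] [Finite I] (σ : I → A →+* L) (N : ℕ)
    (hinj : ∀ i, Function.Injective (σ i))
    (hfin : ∀ M : ℝ, {u : A | ∀ i, ‖σ i u‖ ≤ M}.Finite)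
    (hliou : ∀ u : A, u ≠ 0 → ∀ i, ∀ M : ℝ, 1 ≤ M → (∀ j, ‖σ j u‖ ≤ M) →
      1 ≤ ‖σ i u‖ * M ^ N)
    (f g : A[X]) (hfg : g.natDegree = f.natDegree) (hf : 2 ≤ f.natDegree) (x y : ℕ → A)
    (hx : ∀ n, x (n + 1) = f.eval (x n)) (hy : ∀ n, y (n + 1) = g.eval (y n))
    (hxi : Function.Injective x) (P : A[X][X]) :
    ∃ M : ℕ, ∀ i l : ℕ, P.map (evalRingHom (y l)) ≠ 0 → ev (y l) (x i) P = 0 → i ≤ l + M := by
  classical
  have := Fintype.ofFinite I
  -- a place where the first orbit is unbounded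
  obtain ⟨i₀, hi₀⟩ : ∃ i, ∀ M : ℝ, ∃ n, M < ‖σ i (x n)‖ := by
    by_contra hc
    push Not at hc
    choose M hM using hc
    have h1 : Set.range x ⊆ {u : A | ∀ i, ‖σ i u‖ ≤ ∑ i, |M i|} := by
      rintro _ ⟨n, rfl⟩ i
      calc ‖σ i (x n)‖ ≤ M i := hM i n
        _ ≤ |M i| := le_abs_self _
        _ ≤ ∑ i, |M i| := Finset.single_le_sum (fun j _ => abs_nonneg (M j)) (Finset.mem_univ i)
    exact (Set.infinite_range_of_injective hxi) ((hfin _).subset h1)
  have hfd : (f.map (σ i₀)).natDegree = f.natDegree :=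
    Polynomial.natDegree_map_eq_of_injective (hinj i₀) f
  obtain ⟨μ, n₀, hμ, hn₀⟩ := growth (f.map (σ i₀)) (by omega) (fun n => σ i₀ (x n))
    (fun n => by rw [hx, Polynomial.eval_map, Polynomial.eval₂_at_apply]) hi₀
  rw [hfd] at hn₀
  -- the absolute values
  let v : I → AbsoluteValue A ℝ := fun i =>
    { toFun := fun u => ‖σ i u‖
      map_mul' := fun a b => by rw [map_mul, norm_mul]
      nonneg' := fun a => norm_nonneg _
      eq_zero' := fun a => by
        rw [norm_eq_zero]
        exact ⟨fun h => hinj i (by rw [h, map_zero]), fun h => by rw [h, map_zero]⟩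
      add_le' := fun a b => by rw [map_add]; exact norm_add_le _ _ }
  have hna : ∀ i, IsNonarchimedean (v i) := fun i a b => by
    show ‖σ i (a + b)‖ ≤ max ‖σ i a‖ ‖σ i b‖
    rw [map_add]
    exact IsUltrametricDist.norm_add_le_max _ _
  -- the constants
  obtain ⟨B, hB, hB1, hB2, hB3⟩ : ∃ B : ℝ, 1 ≤ B ∧ (∀ i, v i (y 0) ≤ B) ∧
      (∀ i k, v i (g.coeff k) ≤ B) ∧ (∀ i k l, v i ((P.coeff k).coeff l) ≤ B) := by
    have hpos : ∀ i, 0 ≤ v i (y 0) + gv (v i) (hna i) g +
        gv (gv (v i) (hna i)) (gv_na _ _) P := fun i =>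
      add_nonneg (add_nonneg ((v i).nonneg _) ((gv (v i) (hna i)).nonneg _))
        ((gv (gv (v i) (hna i)) (gv_na _ _)).nonneg _)
    have hs : ∀ i, v i (y 0) + gv (v i) (hna i) g +
        gv (gv (v i) (hna i)) (gv_na _ _) P ≤ ∑ i, (v i (y 0) + gv (v i) (hna i) g +
        gv (gv (v i) (hna i)) (gv_na _ _) P) := fun i =>
      Finset.single_le_sum (f := fun i => v i (y 0) + gv (v i) (hna i) g +
        gv (gv (v i) (hna i)) (gv_na _ _) P) (fun j _ => hpos j) (Finset.mem_univ i)
    have hs0 : 0 ≤ ∑ i, (v i (y 0) + gv (v i) (hna i) g +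
        gv (gv (v i) (hna i)) (gv_na _ _) P) := Finset.sum_nonneg fun i _ => hpos i
    refine ⟨1 + ∑ i, (v i (y 0) + gv (v i) (hna i) g +
        gv (gv (v i) (hna i)) (gv_na _ _) P), by linarith, fun i => ?_, fun i k => ?_,
        fun i k l => ?_⟩
    · have h2 := (gv (v i) (hna i)).nonneg g
      have h3 := (gv (gv (v i) (hna i)) (gv_na _ _)).nonneg P
      have h4 := hs i
      linarith
    · have h1 := coeff_le_gv (v i) (hna i) g k
      have h2 := (v i).nonneg (y 0)
      have h3 := (gv (gv (v i) (hna i)) (gv_na _ _)).nonneg P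
      have h4 := hs i
      linarith
    · have h1 := coeff_le_gv (v i) (hna i) (P.coeff k) l
      have h2 := coeff_le_gv (gv (v i) (hna i)) (gv_na _ _) P k
      have h3 := (v i).nonneg (y 0)
      have h5 := (gv (v i) (hna i)).nonneg g
      have h4 := hs i
      linarith
  obtain ⟨E, hE⟩ : ∃ E : ℕ, ∀ k, (P.coeff k).natDegree ≤ E := by
    refine ⟨P.support.sup fun k => (P.coeff k).natDegree, fun k => ?_⟩
    by_cases hk : P.coeff k = 0
    · rw [hk, natDegree_zero]
      exact Nat.zero_le _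
    · exact Finset.le_sup (f := fun k => (P.coeff k).natDegree) (mem_support_iff.2 hk)
  have hB0 : (0 : ℝ) ≤ B := by linarith
  obtain ⟨d, hd⟩ : ∃ d, d = f.natDegree := ⟨_, rfl⟩
  -- growth of the second orbit
  have hyg : ∀ i l, max 1 (v i (y l)) ≤ B ^ ee d (l + 1) := by
    intro i l
    induction l with
    | zero =>
      have h1 : ee d (0 + 1) = 1 := by simp [ee]
      rw [h1, pow_one]
      exact max_le hB (hB1 i)
    | succ l ih =>
      have h1 : v i (y (l + 1)) ≤ B * max 1 (v i (y l)) ^ d := by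
        have h2 := abv_eval₂_le (v i) (hna i) (RingHom.id A) (y l) g B hB0 (fun k => hB2 i k) d
          (by rw [hd, hfg])
        rw [hy]
        exact h2
      have h2 : (1 : ℝ) ≤ max 1 (v i (y l)) := le_max_left _ _
      have h3 : (1 : ℝ) ≤ B * max 1 (v i (y l)) ^ d :=
        one_le_mul_of_one_le_of_one_le hB (one_le_pow₀ h2)
      calc max 1 (v i (y (l + 1))) ≤ B * max 1 (v i (y l)) ^ d := max_le h3 h1
        _ ≤ B * (B ^ ee d (l + 1)) ^ d := by
            refine mul_le_mul_of_nonneg_left ?_ hB0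
            exact pow_le_pow_left₀ (by linarith) ih d
        _ = B ^ ee d (l + 1 + 1) := by
            rw [ee_succ d (l + 1), pow_add, pow_one, ← pow_mul, mul_comm d]
  obtain ⟨κ, hκ⟩ := pow_unbounded_of_one_lt B hμ
  obtain ⟨c, hc, hcmp⟩ := exp_compare d (by omega) (κ * ((E + 1) * (N + 1))) n₀
  refine ⟨c, fun i l hP0 h0 => (hcmp i l fun k hk => ?_).2 (by omega)⟩
  have hcoef : ∀ j m, ‖σ j ((P.map (evalRingHom (y l))).coeff m)‖ ≤ B ^ (1 + ee d (l + 1) * E) := by
    intro j m
    rw [coeff_map]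
    have h2 := abv_eval₂_le (v j) (hna j) (RingHom.id A) (y l) (P.coeff m) B hB0
      (fun k => hB3 j m k) E (hE m)
    have h3 : v j ((evalRingHom (y l)) (P.coeff m)) ≤ B * (B ^ ee d (l + 1)) ^ E := by
      refine h2.trans (mul_le_mul_of_nonneg_left ?_ hB0)
      exact pow_le_pow_left₀ (le_trans zero_le_one (le_max_left _ _)) (hyg j l) E
    rw [pow_add, pow_one, pow_mul]
    exact h3
  have h2 := root_le σ N hliou _ hP0 (x i) h0 _ (one_le_pow₀ hB) hcoef i₀
  have h4 := hn₀ k
  rw [← hk, ← hd] at h4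
  have h5 : μ ^ ee d k ≤ μ ^ (κ * ((E + 1) * (N + 1)) * (d ^ l + ee d l + 1)) := by
    refine h4.trans (h2.trans ?_)
    rw [← pow_mul]
    have h6 : (1 + ee d (l + 1) * E) * (N + 1) ≤ ((E + 1) * (N + 1)) * (d ^ l + ee d l + 1) := by
      have h7 : ee d (l + 1) = ee d l + d ^ l := by
        unfold ee
        rw [Finset.sum_range_succ]
      rw [h7]
      have h8 : 1 + (ee d l + d ^ l) * E ≤ (E + 1) * (d ^ l + ee d l + 1) := by nlinarith
      calc (1 + (ee d l + d ^ l) * E) * (N + 1)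
          ≤ ((E + 1) * (d ^ l + ee d l + 1)) * (N + 1) := Nat.mul_le_mul_right _ h8
        _ = ((E + 1) * (N + 1)) * (d ^ l + ee d l + 1) := by ring
    have h9 : B ^ ((1 + ee d (l + 1) * E) * (N + 1)) ≤
        B ^ (((E + 1) * (N + 1)) * (d ^ l + ee d l + 1)) := pow_le_pow_right₀ hB h6
    refine h9.trans ?_
    have e : κ * ((E + 1) * (N + 1)) * (d ^ l + ee d l + 1) =
        κ * (((E + 1) * (N + 1)) * (d ^ l + ee d l + 1)) := by ring
    rw [e, pow_mul μ κ]
    exact pow_le_pow_left₀ hB0 hκ.le _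
  exact (pow_le_pow_iff_right₀ hμ).1 h5

/-- One half of the comparison over a field. -/
private theorem HT_half (p : ℕ) [Fact p.Prime] (K : Type) [Field K] [CharP K p] (f g : K[X])
    (hfg : g.natDegree = f.natDegree) (hf : 2 ≤ f.natDegree) (x y : K)
    (hx : ¬ (Set.range (orb f x)).Finite) (P : K[X][X]) :
    ∃ M : ℕ, ∀ i l : ℕ, P.map (evalRingHom (orb g y l)) ≠ 0 →
      ev (orb g y l) (orb f x i) P = 0 → i ≤ l + M := by
  classical
  have hfin : ((↑f.coeffs ∪ ↑g.coeffs ∪ (⋃ q ∈ P.coeffs, (↑q.coeffs : Set K)) ∪ {x, y} : Set K)).Finite :=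
    (((Finset.finite_toSet _).union (Finset.finite_toSet _)).union
      (Set.Finite.biUnion (Finset.finite_toSet _) fun q _ => Finset.finite_toSet _)).union
      (Set.toFinite _)
  obtain ⟨L, _, _, _, _, _, A, I, _, σ, N, hBA, hinj, hbd, hliou⟩ := exists_places p K _ hfin
  obtain ⟨f', hf'⟩ := lift_poly A f (fun z hz => hBA (by simp [hz]))
  obtain ⟨g', hg'⟩ := lift_poly A g (fun z hz => hBA (by simp [hz]))
  obtain ⟨P', hP'⟩ : ∃ P' : A[X][X], P'.map (mapRingHom A.subtype) = P := by
    refine (Polynomial.mem_lifts P).1 ((Polynomial.lifts_iff_coeff_lifts P).2 fun n => ?_)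
    by_cases hc : P.coeff n = 0
    · exact ⟨0, by rw [map_zero, hc]⟩
    · obtain ⟨q, hq⟩ := lift_poly A (P.coeff n) (fun z hz => hBA (by
        refine Or.inl (Or.inr ?_)
        exact Set.mem_biUnion (Polynomial.coeff_mem_coeffs hc) hz))
      exact ⟨q, hq⟩
  have hinjA : Function.Injective A.subtype := Subtype.val_injective
  have hinjA' : Function.Injective (mapRingHom A.subtype) := Polynomial.map_injective _ hinjA
  have hxA : x ∈ A := hBA (by simp)
  have hyA : y ∈ A := hBA (by simp)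
  have ex : ∀ n, (((fun z : A => f'.eval z)^[n] ⟨x, hxA⟩ : A) : K) = orb f x n :=
    fun n => coe_iterate A f' f hf' ⟨x, hxA⟩ n
  have ey : ∀ n, (((fun z : A => g'.eval z)^[n] ⟨y, hyA⟩ : A) : K) = orb g y n :=
    fun n => coe_iterate A g' g hg' ⟨y, hyA⟩ n
  have rx : ¬ (Set.range fun n : ℕ => (fun z : A => f'.eval z)^[n] ⟨x, hxA⟩).Finite := by
    intro hfi
    apply hx
    refine (hfi.image (fun a : A => (a : K))).subset ?_
    rintro _ ⟨n, rfl⟩
    exact ⟨_, ⟨n, rfl⟩, ex n⟩
  have hdf : f'.natDegree = f.natDegree := by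
    rw [← hf', Polynomial.natDegree_map_eq_of_injective hinjA]
  have hdg : g'.natDegree = g.natDegree := by
    rw [← hg', Polynomial.natDegree_map_eq_of_injective hinjA]
  obtain ⟨M, hM⟩ := HT_core σ N hinj hbd hliou f' g' (by rw [hdf, hdg, hfg])
    (by rw [hdf]; exact hf)
    (fun n : ℕ => (fun z : A => f'.eval z)^[n] ⟨x, hxA⟩)
    (fun n : ℕ => (fun z : A => g'.eval z)^[n] ⟨y, hyA⟩)
    (fun n => Function.iterate_succ_apply' _ _ _) (fun n => Function.iterate_succ_apply' _ _ _)
    (iter_injective _ _ rx) P'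
  have hmap : ∀ a : A, P.map (evalRingHom (a : K)) = (P'.map (evalRingHom a)).map A.subtype := by
    intro a
    rw [← hP', Polynomial.map_map, Polynomial.map_map]
    have h1 : (evalRingHom (a : K)).comp (mapRingHom A.subtype) =
        A.subtype.comp (evalRingHom a) := by
      refine RingHom.ext fun q => ?_
      show (q.map A.subtype).eval (a : K) = ((q.eval a : A) : K)
      rw [Polynomial.eval_map]
      exact Polynomial.eval₂_at_apply A.subtype a
    rw [h1]
  have hev : ∀ a b : A, ((ev a b P' : A) : K) = ev (a : K) (b : K) P := by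
    intro a b
    unfold ev
    have h2 : ((P'.map (evalRingHom a)).map A.subtype).eval (A.subtype b) =
        A.subtype ((P'.map (evalRingHom a)).eval b) :=
      Polynomial.eval_map_apply A.subtype b
    rw [hmap]
    exact h2.symm
  refine ⟨M, fun i l h0 h1 => hM i l ?_ ?_⟩
  · intro h2
    apply h0
    have h3 := hmap ((fun z : A => g'.eval z)^[l] ⟨y, hyA⟩)
    rw [ey] at h3
    rw [h3]
    have h4 : P'.map (evalRingHom ((fun z : A => g'.eval z)^[l] ⟨y, hyA⟩)) = 0 := h2
    rw [h4, Polynomial.map_zero]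
  · apply hinjA
    rw [map_zero]
    show ((ev _ _ P' : A) : K) = 0
    rw [hev, ex, ey]
    exact h1

/-- An irreducible polynomial of positive degree has no vertical component. -/
private theorem HT_irr {K : Type} [Field K] (P : K[X][X]) (hP : Irreducible P)
    (hd : 0 < P.natDegree) (s : K) : P.map (evalRingHom s) ≠ 0 := by
  intro h0
  have h1 : C (X - C s) ∣ P := by
    rw [C_dvd_iff_dvd_coeff]
    intro i
    rw [dvd_iff_isRoot, IsRoot.def]
    have h2 := congrArg (fun q : K[X] => q.coeff i) h0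
    simpa using h2
  have h2 : ¬ IsUnit (C (X - C s) : K[X][X]) := by
    rw [isUnit_C]
    exact not_isUnit_X_sub_C s
  obtain ⟨Q, hQ⟩ := h1
  have h3 : IsUnit Q := (hP.isUnit_or_isUnit hQ).resolve_left h2
  obtain ⟨q, hq, rfl⟩ := Polynomial.isUnit_iff.1 h3
  rw [hQ, ← C_mul, natDegree_C] at hd
  exact lt_irrefl 0 hd

private theorem HT_swap {K : Type} [Field K] (x y : K) (P : K[X][X]) :
    ev x y (swp P) = ev y x P := by
  have h1 : ((evalRingHom y).comp (mapRingHom (evalRingHom x))).comp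
      ((Bivariate.swap (R := K)).toRingEquiv.toRingHom) =
      (evalRingHom x).comp (mapRingHom (evalRingHom y)) := by
    refine Polynomial.ringHom_ext' (Polynomial.ringHom_ext' ?_ ?_) ?_
    · refine RingHom.ext fun a => ?_
      show eval y (map (evalRingHom x) (Bivariate.swap (C (C a)))) =
        eval x (map (evalRingHom y) (C (C a)))
      rw [Bivariate.swap_C_C]
      simp
    · show eval y (map (evalRingHom x) (Bivariate.swap (C X))) =
        eval x (map (evalRingHom y) (C X))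
      rw [Bivariate.swap_X]
      simp
    · show eval y (map (evalRingHom x) (Bivariate.swap X)) =
        eval x (map (evalRingHom y) X)
      rw [Bivariate.swap_Y]
      simp
  exact congrArg (fun φ : K[X][X] →+* K => φ P) h1

private theorem HT_evA {K : Type} [Field K] (x y : K) (P : K[X][X]) : evA x y P = ev x y P := by
  unfold evA ev
  rw [coe_aeval_eq_evalRingHom]

theorem thm_HT : St_HT := by
  intro p _ 𝕂 _ _ f g h c k hf hfg hirr hd hds hinj
  classical
  have ex : ∀ i, (itc f i).eval c = orb f c i := fun i => itc_eval f i c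
  have ey : ∀ i, (itc g i).eval k = orb g k i := fun i => itc_eval g i k
  have hinj' : Function.Injective (orb f c) := by
    intro a b hab
    apply hinj
    simp only [ex]
    exact hab
  have hirr' : Irreducible (swp h) := (MulEquiv.irreducible_iff (Bivariate.swap (R := 𝕂))).2 hirr
  obtain ⟨M₁, hM₁⟩ := HT_half p 𝕂 f g hfg hf c k (Set.infinite_range_of_injective hinj') (swp h)
  have k1 : ∀ i l : ℕ, evA ((itc f i).eval c) ((itc g l).eval k) h = 0 → i ≤ l + M₁ := by
    intro i l h0
    apply hM₁ i l (HT_irr _ hirr' hds _)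
    rw [HT_swap, ← HT_evA, ← ex, ← ey]
    exact h0
  by_cases hy : (Set.range (orb g k)).Finite
  · -- finitely many `i`
    have hfin : {i : ℕ | ∃ l, evA ((itc f i).eval c) ((itc g l).eval k) h = 0}.Finite := by
      have h1 : (⋃ s ∈ Set.range (orb g k),
          {v : 𝕂 | v ∈ ((swp h).map (evalRingHom s)).rootSet 𝕂}).Finite := by
        refine hy.biUnion fun s _ => ?_
        exact rootSet_finite _ _
      refine Set.Finite.of_finite_image (h1.subset ?_) hinj'.injOn
      rintro _ ⟨i, ⟨l, hl⟩, rfl⟩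
      refine Set.mem_biUnion ⟨l, rfl⟩ ?_
      rw [Set.mem_ofPred_eq, mem_rootSet]
      refine ⟨HT_irr _ hirr' hds _, ?_⟩
      rw [ex, ey, HT_evA, ← HT_swap] at hl
      rw [coe_aeval_eq_eval]
      exact hl
    obtain ⟨M₀, hM₀⟩ := hfin.bddAbove
    refine ⟨M₀ + 1, fun i l hi h0 => ?_⟩
    have := hM₀ ⟨l, h0⟩
    omega
  · obtain ⟨M₂, hM₂⟩ := HT_half p 𝕂 g f hfg.symm (by omega) k c hy h
    refine ⟨M₁ + M₂, fun i l _ h0 => ?_⟩
    have h1 := k1 i l h0
    have h2 := hM₂ l i (HT_irr _ hirr hd _) (by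
      rw [← HT_evA, ← ex, ← ey]
      exact h0)
    omega

end Pool.Agent.NPC
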