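import Pool.Agent.NPC.StB

/-!
# The integral closure in a finite separable extension
-/

set_option autoImplicit false

namespace Pool.Agent.NPC

open Polynomial

private theorem INT_prod_mul_mem {K ι : Type} [Field K] (R : Subring K) (s : Finset ι)
    (f : ι → K) (hf : ∀ i ∈ s, f i ∈ R) (i : ι) (hi : i ∈ s) (x : K) (hx : f i * x ∈ R) :
    (∏ j ∈ s, f j) * x ∈ R := by
  classical
  rw [← Finset.mul_prod_erase s f hi, mul_right_comm]
  exact R.mul_mem hx (R.prod_mem fun j hj => hf j (Finset.mem_of_mem_erase hj))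

/-- The integral closure. -/
theorem thm_INT : St_INT := by
  intro k K _ _ _ _ _ A hicl hnoe hfrac
  have hloc : IsFractionRing A k := by
    refine ⟨?_, ?_, ?_⟩
    · rintro ⟨y, hy⟩
      refine IsUnit.mk0 _ ?_
      have := nonZeroDivisors.ne_zero hy
      exact fun h => this (Subtype.ext h)
    · intro z
      obtain ⟨b, hb, hb0, hbz⟩ := hfrac z
      refine ⟨(⟨b * z, hbz⟩, ⟨⟨b, hb⟩, mem_nonZeroDivisors_of_ne_zero fun h => hb0 (congrArg Subtype.val h)⟩), ?_⟩
      exact mul_comm _ _
    · intro x y h
      exact ⟨1, by rw [Subtype.ext h]⟩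
  have hfin : Module.Finite A (integralClosure A K) :=
    IsIntegralClosure.finite A k K (integralClosure A K)
  let R : Subring K := (integralClosure A K).toSubring
  have hR : ∀ z : K, z ∈ R ↔ IsIntegral A z := fun z => Iff.rfl
  have hRz : ∀ z : K, z ∈ R ↔ ∃ P : k[X], P.Monic ∧ (∀ i, P.coeff i ∈ A) ∧ aeval z P = 0 := by
    intro z
    rw [hR]
    constructor
    · rintro ⟨P, hP, hPz⟩
      refine ⟨P.map (algebraMap A k), hP.map _, fun i => ?_, ?_⟩
      · rw [coeff_map]
        exact (P.coeff i).2
      · rw [aeval_map_algebraMap]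
        exact hPz
    · rintro ⟨P, hP, hPc, hPz⟩
      have hl : P ∈ lifts (algebraMap A k) := by
        rw [lifts_iff_coeff_lifts]
        intro i
        exact ⟨⟨P.coeff i, hPc i⟩, rfl⟩
      obtain ⟨Q, hQ, -, hQm⟩ := lifts_and_natDegree_eq_and_monic hl hP
      refine ⟨Q, hQm, ?_⟩
      rw [← hQ, aeval_map_algebraMap] at hPz
      exact hPz
  have hAR : ∀ a ∈ A, algebraMap k K a ∈ R := fun a ha =>
    (hR _).2 (isIntegral_algebraMap (R := A) (A := K) (x := ⟨a, ha⟩))
  have hRfrac : ∀ z : K, ∃ s ∈ R, s ≠ 0 ∧ s * z ∈ R := by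
    intro z
    have h1 : IsAlgebraic A z :=
      (IsFractionRing.isAlgebraic_iff A k K).2 (Algebra.IsAlgebraic.isAlgebraic z)
    obtain ⟨y, hy0, hy⟩ := h1.exists_integral_multiple
    refine ⟨algebraMap A K y, hAR _ y.2, ?_, ?_⟩
    · intro h
      refine hy0 (Subtype.ext ?_)
      exact (map_eq_zero (algebraMap k K)).1 h
    · rw [← Algebra.smul_def]
      exact hy
  refine ⟨R, hRz, hAR, hRfrac, ?_, ?_⟩
  · intro P z hP hPc hPz
    have hl : P ∈ lifts (algebraMap R K) := by
      rw [lifts_iff_coeff_lifts]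
      intro i
      exact ⟨⟨P.coeff i, hPc i⟩, rfl⟩
    obtain ⟨Q, hQ, -, hQm⟩ := lifts_and_natDegree_eq_and_monic hl hP
    have h1 : IsIntegral (integralClosure A K) z := by
      refine ⟨Q, hQm, ?_⟩
      rw [← hQ, eval_map] at hPz
      exact hPz
    exact (hR z).2 (isIntegral_trans (R := A) (A := integralClosure A K) z h1)
  · intro n d D hd hD
    obtain ⟨G, hG⟩ : (Subalgebra.toSubmodule (integralClosure A K)).FG :=
      Module.Finite.iff_fg.1 hfin
    choose s hsR hs0 hs using fun (i : Fin n) (e : K) => hRfrac (D i e)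
    have hGR : ∀ e ∈ G, e ∈ R := by
      intro e he
      have : e ∈ Subalgebra.toSubmodule (integralClosure A K) := by
        rw [← hG]
        exact Submodule.subset_span he
      exact this
    refine ⟨∏ x ∈ Finset.univ ×ˢ G, s x.1 x.2, R.prod_mem fun x _ => hsR _ _,
      Finset.prod_ne_zero_iff.2 fun x _ => hs0 _ _, ?_⟩
    intro i z hz
    have hz' : z ∈ Submodule.span A (G : Set K) := by
      rw [hG]
      exact hz
    suffices h : z ∈ R ∧ (∏ x ∈ Finset.univ ×ˢ G, s x.1 x.2) * D i z ∈ R from h.2
    induction hz' using Submodule.span_induction with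
    | mem x hx =>
      refine ⟨hGR x hx, ?_⟩
      exact INT_prod_mul_mem R _ (fun x : Fin n × K => s x.1 x.2) (fun x _ => hsR _ _) (i, x)
        (Finset.mem_product.2 ⟨Finset.mem_univ _, hx⟩) _ (hs i x)
    | zero =>
      refine ⟨R.zero_mem, ?_⟩
      rw [map_zero, mul_zero]
      exact R.zero_mem
    | add x y hx hy ihx ihy =>
      have hx' : x ∈ R := by
        have : x ∈ Subalgebra.toSubmodule (integralClosure A K) := by
          rw [← hG]
          exact hx
        exact this
      have hy' : y ∈ R := by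
        have : y ∈ Subalgebra.toSubmodule (integralClosure A K) := by
          rw [← hG]
          exact hy
        exact this
      refine ⟨R.add_mem hx' hy', ?_⟩
      rw [map_add, mul_add]
      exact R.add_mem (ihx hx').2 (ihy hy').2
    | smul a x hx ih =>
      have hx' : x ∈ R := by
        have : x ∈ Subalgebra.toSubmodule (integralClosure A K) := by
          rw [← hG]
          exact hx
        exact this
      have ha : algebraMap k K a ∈ R := hAR _ a.2
      have hax : a • x = algebraMap k K a * x := Algebra.smul_def (R := A) a x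
      refine ⟨?_, ?_⟩
      · rw [hax]
        exact R.mul_mem ha hx'
      · rw [hax, Derivation.leibniz, smul_eq_mul, smul_eq_mul, hD, mul_add]
        refine R.add_mem ?_ ?_
        · rw [mul_left_comm]
          exact R.mul_mem ha (ih hx').2
        · refine R.mul_mem (R.prod_mem fun x _ => hsR _ _) (R.mul_mem hx' (hAR _ (hd i _ a.2)))

end Pool.Agent.NPC
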