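import Pool.Agent.NPC.StC

/-!
# NPC, module IRR: an irreducible curve over an algebraically closed field
-/

set_option autoImplicit false

namespace Pool.Agent.NPC

open Polynomial Pool.Agent.Helper11.SP

section IRR

variable {K V : Type} [Field K] [Field V] [Algebra K V]

private noncomputable def IRRE (x y : V) : K[X][X] →+* V :=
  (evalRingHom y).comp (mapRingHom ((aeval x : K[X] →ₐ[K] V) : K[X] →+* V))

private theorem IRRE_eq (x y : V) (P : K[X][X]) : evA x y P = IRRE x y P := by
  unfold evA IRRE
  rfl

private theorem IRR_C (x y : V) (q : K[X]) : evA x y (C q) = aeval x q := by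
  unfold evA
  rw [map_C, eval_C]
  rfl

private theorem IRR_X (x y : V) : evA x y (X : K[X][X]) = y := by
  unfold evA
  rw [map_X, eval_X]

private theorem IRR_swp (x y : V) (P : K[X][X]) : evA x y (swp P) = evA y x P := by
  rw [IRRE_eq, IRRE_eq]
  have : (IRRE x y).comp ((Bivariate.swap (R := K) : K[X][X] ≃ₐ[K] K[X][X]) : K[X][X] →+* K[X][X])
      = IRRE y x := by
    refine Polynomial.ringHom_ext' ?_ ?_
    · refine Polynomial.ringHom_ext' ?_ ?_
      · refine RingHom.ext fun a => ?_
        show IRRE x y (Bivariate.swap (C (C a))) = IRRE y x (C (C a))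
        rw [Bivariate.swap_C_C, ← IRRE_eq, ← IRRE_eq, IRR_C, IRR_C]
        simp
      · show IRRE x y (Bivariate.swap (C X)) = IRRE y x (C X)
        rw [Bivariate.swap_X, ← IRRE_eq, ← IRRE_eq, IRR_C, IRR_X, aeval_X]
    · show IRRE x y (Bivariate.swap X) = IRRE y x X
      rw [Bivariate.swap_Y, ← IRRE_eq, ← IRRE_eq, IRR_C, IRR_X, aeval_X]
  exact RingHom.congr_fun this P

private theorem IRR_one (f q : K[X]) (a : K) (hq : q ≠ 0) :
    Pool.Agent.Helper79.DM.EP {n : ℕ | q.eval ((itc f n).eval a) = 0} := by
  by_cases hfin : {n : ℕ | q.eval ((itc f n).eval a) = 0}.Finite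
  · obtain ⟨N, hN⟩ := hfin.bddAbove
    refine ⟨N + 1, 1, one_pos, fun n hn => ?_⟩
    constructor
    · intro h
      have := hN h
      omega
    · intro h
      have := hN h
      omega
  · have hinf : {n : ℕ | q.eval ((itc f n).eval a) = 0}.Infinite := hfin
    classical
    obtain ⟨n, hn, m, hm, hnm, he⟩ := hinf.exists_ne_map_eq_of_mapsTo
      (f := fun n : ℕ => (itc f n).eval a) (t := (q.roots.toFinset : Set K)) (fun n hn => by
        rw [Finset.mem_coe, Multiset.mem_toFinset, mem_roots hq]
        exact hn) (Finset.finite_toSet _)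
    have key : ∀ n m : ℕ, n < m → (itc f n).eval a = (itc f m).eval a →
        Pool.Agent.Helper79.DM.EP {n : ℕ | q.eval ((itc f n).eval a) = 0} := by
      intro n m hlt he
      refine ⟨n, m - n, by omega, fun k hk => ?_⟩
      have : (itc f (k + (m - n))).eval a = (itc f k).eval a := by
        rw [itc_eval, itc_eval] at he
        rw [itc_eval, itc_eval]
        have h1 : k + (m - n) = (k - n) + m := by omega
        have h2 : k = (k - n) + n := by omega
        rw [h1, Function.iterate_add_apply, ← he, ← Function.iterate_add_apply, ← h2]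
      show q.eval ((itc f k).eval a) = 0 ↔ q.eval ((itc f (k + (m - n))).eval a) = 0
      rw [this]
    rcases lt_or_gt_of_ne hnm with h | h
    · exact key n m h he
    · exact key m n h he.symm

private theorem IRR_it (φ : K →+* K) (f : K[X]) (n : ℕ) : itc (f.map φ) n = (itc f n).map φ := by
  induction n with
  | zero => unfold itc; simp
  | succ n ih => rw [itc_succ, ih, itc_succ, Polynomial.map_comp]

private theorem IRR_ev (φ : K →+* K) (f : K[X]) (a : K) (n : ℕ) :
    (itc (f.map φ) n).eval (φ a) = φ ((itc f n).eval a) := by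
  rw [IRR_it, eval_map, eval₂_at_apply]

end IRR

theorem thm_IRR (hTWS : St_TWS) (hNRM : St_NRM) : St_IRR := by
  intro p _ 𝕂 _ _ _ r f g h a b c hr hf hg hf' hc hinj hirr
  by_cases h1 : h.natDegree = 0
  · obtain ⟨q, hq⟩ := natDegree_eq_zero.1 h1
    have hq0 : q ≠ 0 := by
      rintro rfl
      rw [C_0] at hq
      exact hirr.ne_zero hq.symm
    have := IRR_one f q a hq0
    convert this using 3 with n
    rw [← hq, IRR_C]
    rfl
  by_cases h2 : (swp h).natDegree = 0
  · obtain ⟨q, hq⟩ := natDegree_eq_zero.1 h2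
    have hq0 : q ≠ 0 := by
      rintro rfl
      rw [C_0] at hq
      exact hirr.ne_zero ((map_eq_zero_iff _ (Bivariate.swap (R := 𝕂)).injective).1 hq.symm)
    have := IRR_one g q b hq0
    convert this using 3 with n
    rw [← IRR_swp, ← hq, IRR_C]
    rfl
  obtain ⟨m, m', h', hirr', hd1, hd2, hY, hX, hiff⟩ := hTWS p 𝕂 h hirr (Nat.pos_of_ne_zero h1)
    (Nat.pos_of_ne_zero h2)
  have key := hNRM p 𝕂 r (f.map (iterateFrobenius 𝕂 p m)) (g.map (iterateFrobenius 𝕂 p m')) h'
    (iterateFrobenius 𝕂 p m a) (iterateFrobenius 𝕂 p m' b) (iterateFrobenius 𝕂 p m c) hr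
    (by rw [natDegree_map, hf]) (by rw [natDegree_map, hg])
    (by
      rw [derivative_map]
      exact (Polynomial.map_ne_zero_iff (iterateFrobenius 𝕂 p m).injective).2 hf')
    (by rw [derivative_map, eval_map, eval₂_at_apply, hc, map_zero])
    (by
      intro l l' hl
      simp only [IRR_ev] at hl
      exact hinj ((iterateFrobenius 𝕂 p m).injective hl))
    hirr' hd1 hd2 hY hX
  simp only [IRR_ev] at key
  simp only [iterateFrobenius_def] at key
  simp only [hiff]
  exact key

end Pool.Agent.NPC
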