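import Pool.Agent.NPC.StC

/-!
# NPC, module ITG: iterates of `g = g₁(X^(p^e))`
-/

set_option autoImplicit false

namespace Pool.Agent.NPC

open Polynomial Pool.Agent.Helper11.SP

private theorem ITG_comp {K : Type} [Field K] (p : ℕ) [Fact p.Prime] [CharP K p] (g₁ G : K[X])
    (e i : ℕ) : (expand K (p ^ e) g₁).comp (expand K (p ^ (e * i)) G) =
      expand K (p ^ (e * (i + 1))) (g₁.comp (G.map (iterateFrobenius K p e))) := by
  have h1 : (expand K (p ^ (e * i)) G) ^ (p ^ e) =
      expand K (p ^ (e * (i + 1))) (G.map (iterateFrobenius K p e)) := by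
    rw [← map_iterateFrobenius_expand, map_expand, map_expand, expand_expand, ← pow_add]
    congr 2
    ring
  rw [expand_eq_comp_X_pow (p := p ^ e), comp_assoc, X_pow_comp, h1,
    expand_eq_comp_X_pow, expand_eq_comp_X_pow, comp_assoc]

theorem thm_ITG : St_ITG := by
  intro p _ K _ _ g g₁ e hg hd i
  induction i with
  | zero =>
    refine ⟨X, ?_, ?_, ?_, fun _ => monic_X⟩
    · simp [itc]
    · simp
    · simp
  | succ i ih =>
    obtain ⟨G, h1, h2, h3, h4⟩ := ih
    have hinj : Function.Injective (iterateFrobenius K p e) := (iterateFrobenius K p e).injective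
    have hd2 : derivative (G.map (iterateFrobenius K p e)) ≠ 0 := by
      rw [derivative_map]
      exact fun h => h2 ((map_injective _ hinj) (by rw [h, Polynomial.map_zero]))
    have hc : G.map (iterateFrobenius K p e) ≠ C ((G.map (iterateFrobenius K p e)).coeff 0) :=
      fun h => hd2 (by rw [h, derivative_C])
    have hn0 : (G.map (iterateFrobenius K p e)).natDegree ≠ 0 := fun h =>
      hc (eq_C_of_natDegree_eq_zero h)
    refine ⟨g₁.comp (G.map (iterateFrobenius K p e)), ?_, ?_, ?_, ?_⟩
    · rw [itc_succ, h1, hg, ITG_comp]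
    · rw [derivative_comp]
      refine mul_ne_zero hd2 fun h => ?_
      rcases comp_eq_zero_iff.1 h with h | h
      · exact hd h
      · exact hc h.2
    · rw [natDegree_comp, natDegree_map_eq_of_injective hinj, h3, pow_succ']
    · intro hm
      have hm1 : g₁.Monic := by
        rw [hg, Monic, leadingCoeff_expand (pow_pos (Fact.out : p.Prime).pos e)] at hm
        exact hm
      exact hm1.comp ((h4 hm).map _) hn0

end Pool.Agent.NPC
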