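import Pool.Agent.NPC.StC

set_option autoImplicit false

/-! # KC: the core over a place system, finitely many returns -/

namespace Pool.Agent.NPC

open Polynomial Pool.Agent.Helper11.SP

/-- KC. -/
theorem thm_KC (hUPX : St_UPX) (hRD : St_RD) (hORB : St_ORB) (hEND : St_END) : St_KC := by
  intro p hp K L 𝕂 _ _ _ _ _ _ _ S r f g g₁ e h x y c i₀ hr hf hfd hg hgd hfR hgR hx0 hy0 hx hy
    hxi hyi hfx hfc hci hge hg1 hg2 hh hh1 hh2 hgood
  by_contra hinf
  have hinf : {n : ℕ | evA (x n) (y n) h = 0}.Infinite := hinf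
  set A := {n : ℕ | evA (x n) (y n) h = 0} with hA
  have hne : (Filter.cofinite ⊓ Filter.principal A).NeBot := by
    rw [Filter.inf_principal_neBot_iff]
    intro s hs
    rw [Filter.mem_cofinite] at hs
    have := hinf.diff hs
    obtain ⟨n, hn⟩ := this.nonempty
    exact ⟨n, by simpa using hn.2, hn.1⟩
  set U : Ultrafilter ℕ := Ultrafilter.of (Filter.cofinite ⊓ Filter.principal A) with hU
  have hU1 : (U : Filter ℕ) ≤ Filter.cofinite := (Ultrafilter.of_le _).trans inf_le_left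
  have hU2 : ∀ᶠ n in (U : Filter ℕ), evA (x n) (y n) h = 0 := by
    have : (U : Filter ℕ) ≤ Filter.principal A := (Ultrafilter.of_le _).trans inf_le_right
    exact Filter.le_principal_iff.1 this
  obtain ⟨V, _, _, ⟨up⟩⟩ := hUPX.1 U K
  have hlv : ∀ s, Lv p f x s := by
    intro s
    induction s with
    | zero => exact ⟨fun i => ⟨f.coeff i, by simp⟩, fun l => ⟨x l, by simp⟩⟩
    | succ s ih =>
      exact hRD p K L V 𝕂 S U up r s f g g₁ e h x y c i₀ hU1 hr hf hfd hg hgd hfR hgR hx0 hy0 hx hy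
        hxi hyi hfx hfc hci hge hg1 hg2 hh hh1 hh2 hgood hU2 ih
  have h2 : 2 ≤ f.natDegree := by
    rw [hfd]
    calc 2 ≤ p := hp.out.two_le
      _ = p ^ 1 := (pow_one p).symm
      _ ≤ p ^ r := Nat.pow_le_pow_right hp.out.pos hr
  obtain ⟨hxR, -⟩ := hORB p K L S f x hf h2 hfR (by rw [hx0]; exact S.R.zero_mem) hx hxi
  exact hEND p K L S x hxR (fun s l => (hlv s).2 l) hxi

end Pool.Agent.NPC
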