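import Pool.Agent.NPC.StB

/-!
# [KER] Elements killed by all derivations are `p`-th powers
-/

set_option autoImplicit false

namespace Pool.Agent.NPC

open Polynomial

section
variable {K : Type} [Field K]

/-- The operator `t D - c`. -/
noncomputable def thet (t : K) (D : Derivation ℤ K K) (c : ℤ) : AddMonoid.End K where
  toFun z := t * D z - (c : K) * z
  map_zero' := by simp
  map_add' := by
    intro x y
    rw [map_add]
    ring

theorem thet_apply (t : K) (D : Derivation ℤ K K) (c : ℤ) (z : K) :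
    thet t D c z = t * D z - (c : K) * z := rfl

theorem der_ppow (p : ℕ) [CharP K p] (D : Derivation ℤ K K) (w : K) : D (w ^ p) = 0 := by
  rw [Derivation.leibniz_pow]
  simp

theorem tm_der {n m : ℕ} (t : Fin n → K) (D : Fin n → Derivation ℤ K K)
    (hD : ∀ i j, D i (t j) = if i = j then 1 else 0) (a : Fin n → Fin m) (i : Fin n)
    (T : Finset (Fin n)) : t i * D i (∏ j ∈ T, t j ^ (a j : ℕ)) =
      (if i ∈ T then ((a i : ℕ) : K) else 0) * ∏ j ∈ T, t j ^ (a j : ℕ) := by
  classical
  induction T using Finset.induction_on with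
  | empty => simp
  | insert j T hj ih =>
    rw [Finset.prod_insert hj, Derivation.leibniz, smul_eq_mul, smul_eq_mul, mul_add]
    have h1 : t i * (t j ^ (a j : ℕ) * D i (∏ j ∈ T, t j ^ (a j : ℕ))) =
        t j ^ (a j : ℕ) * (t i * D i (∏ j ∈ T, t j ^ (a j : ℕ))) := by ring
    rw [h1, ih, Derivation.leibniz_pow, hD]
    by_cases hij : i = j
    · subst hij
      rw [if_neg hj, if_pos rfl, if_pos (Finset.mem_insert_self _ _)]
      rw [nsmul_eq_mul, smul_eq_mul, mul_one]
      by_cases ha : (a i : ℕ) = 0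
      · rw [ha]
        simp
      · obtain ⟨k, hk⟩ := Nat.exists_eq_succ_of_ne_zero ha
        rw [hk]
        simp only [Nat.succ_eq_add_one, Nat.add_sub_cancel]
        ring
    · have h2 : (i ∈ insert j T) ↔ i ∈ T := by
        rw [Finset.mem_insert]
        exact ⟨fun h => h.resolve_left hij, Or.inr⟩
      simp only [h2, if_neg hij]
      ring

variable (p : ℕ) [hp : Fact p.Prime] [CharP K p] {n : ℕ} (t : Fin n → K)
  (D : Fin n → Derivation ℤ K K) (hD : ∀ i j, D i (t j) = if i = j then 1 else 0)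

include hD in
omit hp in
theorem thet_tm (i : Fin n) (c : ℤ) {m : ℕ} (a : Fin n → Fin m) (w : K) :
    thet (t i) (D i) c (tm t a * w ^ p) = (((a i : ℕ) : ℤ) - c) • (tm t a * w ^ p) := by
  rw [thet_apply, Derivation.leibniz, der_ppow p, smul_zero, zero_add, smul_eq_mul]
  have h1 := tm_der t D hD a i Finset.univ
  rw [if_pos (Finset.mem_univ i)] at h1
  have h2 : t i * (w ^ p * D i (tm t a)) = w ^ p * (t i * D i (tm t a)) := by ring
  rw [h2]
  unfold tm
  rw [h1, zsmul_eq_mul]
  push_cast
  ring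

omit hp in
theorem thet_pow_eig (φ : AddMonoid.End K) (e : K) (k : ℤ) (h : φ e = k • e) (m : ℕ) :
    (φ ^ m) e = (k ^ m) • e := by
  induction m with
  | zero => simp
  | succ m ih =>
    have h1 : (φ ^ (m + 1)) e = φ ((φ ^ m) e) := by
      rw [pow_succ']
      rfl
    rw [h1, ih, map_zsmul, h, smul_smul, pow_succ]

include hD in
/-- The projection to the part with exponent `c` of `t i`. -/
theorem proj_tm (i : Fin n) (c : Fin p) (w : (Fin n → Fin p) → K) :
    (∑ a, tm t a * w a ^ p) - ((thet (t i) (D i) ((c : ℕ) : ℤ)) ^ (p - 1)) (∑ a, tm t a * w a ^ p) =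
      ∑ a, tm t a * (if a i = c then w a else 0) ^ p := by
  have hp0 : p ≠ 0 := hp.out.ne_zero
  have hp1 : p - 1 ≠ 0 := by
    have := hp.out.two_le
    omega
  rw [map_sum, ← Finset.sum_sub_distrib]
  refine Finset.sum_congr rfl ?_
  intro a _
  rw [thet_pow_eig _ _ _ (thet_tm p t D hD i ((c : ℕ) : ℤ) a (w a))]
  by_cases hac : a i = c
  · rw [if_pos hac, hac, sub_self, zero_pow hp1, zero_smul, sub_zero]
  · rw [if_neg hac, zero_pow hp0, mul_zero]
    have h1 : ((((a i : ℕ) : ℤ) - ((c : ℕ) : ℤ)) ^ (p - 1)) • (tm t a * w a ^ p) =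
        tm t a * w a ^ p := by
      rw [zsmul_eq_mul]
      have h2 : ((((((a i : ℕ) : ℤ) - ((c : ℕ) : ℤ)) ^ (p - 1) : ℤ)) : K) = ((1 : ℤ) : K) := by
        rw [CharP.intCast_eq_intCast K p]
        apply Int.ModEq.pow_card_sub_one_eq_one hp.out
        rw [Int.isCoprime_iff_gcd_eq_one]
        have h3 : ¬ ((p : ℤ) ∣ (((a i : ℕ) : ℤ) - ((c : ℕ) : ℤ))) := by
          intro hdvd
          apply hac
          have ha := (a i).isLt
          have hc := c.isLt
          have h4 : (((a i : ℕ) : ℤ) - ((c : ℕ) : ℤ)) = 0 := by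
            apply Int.eq_zero_of_abs_lt_dvd hdvd
            rw [abs_lt]
            constructor <;> omega
          apply Fin.ext
          omega
        have h5 : IsCoprime (p : ℤ) (((a i : ℕ) : ℤ) - ((c : ℕ) : ℤ)) :=
          ((Nat.prime_iff_prime_int.mp hp.out).coprime_iff_not_dvd).mpr h3
        exact Int.isCoprime_iff_gcd_eq_one.mp h5.symm
      rw [h2]
      push_cast
      ring
    rw [h1, sub_self]

end

theorem thm_KER : St_KER := by
  intro p hp K _ _ n t D hD hspan z hz
  classical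
  have hp1 : p - 1 ≠ 0 := by
    have := hp.out.two_le
    omega
  have hp0 : 0 < p := hp.out.pos
  have key : ∀ T : Finset (Fin n), ∃ w : (Fin n → Fin p) → K, z = ∑ a, tm t a * w a ^ p ∧
      ∀ a, (∃ i ∈ T, (a i : ℕ) ≠ 0) → w a = 0 := by
    intro T
    induction T using Finset.induction_on with
    | empty =>
      obtain ⟨w, hw⟩ := hspan z
      exact ⟨w, hw, fun a ⟨i, hi, _⟩ => absurd hi (Finset.notMem_empty i)⟩
    | insert i T _ ih =>
      obtain ⟨w, hw, hw0⟩ := ih
      refine ⟨fun a => if a i = ⟨0, hp0⟩ then w a else 0, ?_, ?_⟩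
      · rw [← proj_tm p t D hD i ⟨0, hp0⟩ w, ← hw]
        have h1 : ((thet (t i) (D i) (((⟨0, hp0⟩ : Fin p) : ℕ) : ℤ)) ^ (p - 1)) z = 0 := by
          rw [thet_pow_eig _ z 0 _ (p - 1), zero_pow hp1, zero_smul]
          rw [thet_apply, hz i]
          simp
        rw [h1, sub_zero]
      · rintro a ⟨j, hj, hja⟩
        rcases Finset.mem_insert.mp hj with rfl | hj
        · have h1 : ¬ a j = ⟨0, hp0⟩ := by
            intro h
            apply hja
            rw [h]
          simp only [if_neg h1]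
        · simp only [hw0 a ⟨j, hj, hja⟩, ite_self]
  obtain ⟨w, hw, hw0⟩ := key Finset.univ
  refine ⟨w (fun _ => ⟨0, hp0⟩), ?_⟩
  rw [hw, Finset.sum_eq_single (fun _ => (⟨0, hp0⟩ : Fin p))]
  · simp [tm]
  · intro a _ ha
    rw [hw0 a, zero_pow hp.out.ne_zero, mul_zero]
    by_contra hcon
    apply ha
    funext i
    apply Fin.ext
    by_contra h
    exact hcon ⟨i, Finset.mem_univ i, h⟩
  · intro h
    exact absurd (Finset.mem_univ _) h

end Pool.Agent.NPC
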