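import Pool.Agent.NPC.StA

/-!
# NPC [LB]: the lower bound
-/

set_option autoImplicit false

namespace Pool.Agent.NPC

open Polynomial

section

variable {K V : Type} [Field K] [Field V] [Algebra K V]

/-- `z` is a multiple of `δ ^ k` -/
def LB_M (Λ : Subalgebra K V) (δ : V) (k : ℕ) (z : V) : Prop := ∃ z' ∈ Λ, z = δ ^ k * z'

lemma LB_M.add {Λ : Subalgebra K V} {δ : V} {k : ℕ} {z w : V} (hz : LB_M Λ δ k z)
    (hw : LB_M Λ δ k w) : LB_M Λ δ k (z + w) := by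
  obtain ⟨z', h1, rfl⟩ := hz
  obtain ⟨w', h2, rfl⟩ := hw
  exact ⟨z' + w', Λ.add_mem h1 h2, by ring⟩

lemma LB_M.neg {Λ : Subalgebra K V} {δ : V} {k : ℕ} {z : V} (hz : LB_M Λ δ k z) :
    LB_M Λ δ k (-z) := by
  obtain ⟨z', h1, rfl⟩ := hz
  exact ⟨-z', Λ.neg_mem h1, by ring⟩

lemma LB_M.mul {Λ : Subalgebra K V} {δ : V} {k : ℕ} {z w : V} (hz : LB_M Λ δ k z)
    (hw : w ∈ Λ) : LB_M Λ δ k (w * z) := by
  obtain ⟨z', h1, rfl⟩ := hz
  exact ⟨w * z', Λ.mul_mem hw h1, by ring⟩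

lemma LB_M.smul {Λ : Subalgebra K V} {δ : V} {k : ℕ} {z : V} (hz : LB_M Λ δ k z) (c : K) :
    LB_M Λ δ k (c • z) := by
  rw [Algebra.smul_def]
  exact hz.mul (Λ.algebraMap_mem c)

lemma LB_M.sum {Λ : Subalgebra K V} {δ : V} {k : ℕ} {ι : Type} (s : Finset ι) {f : ι → V}
    (h : ∀ i ∈ s, LB_M Λ δ k (f i)) : LB_M Λ δ k (∑ i ∈ s, f i) := by
  classical
  induction s using Finset.induction_on with
  | empty => exact ⟨0, Λ.zero_mem, by simp⟩
  | insert a s ha ih =>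
    rw [Finset.sum_insert ha]
    exact (h a (Finset.mem_insert_self _ _)).add
      (ih fun i hi => h i (Finset.mem_insert_of_mem hi))

/-- a polynomial relation for `S` modulo `δ` -/
lemma LB_rel (Λ : Subalgebra K V) {S δ : V} {d : ℕ} (u : Fin d → V) (hS : S ∈ Λ)
    (hspan : ∀ z ∈ Λ, ∃ c : Fin d → K, ∃ z' ∈ Λ, z = ∑ i, c i • u i + δ * z') :
    ∃ P : K[X], P ≠ 0 ∧ LB_M Λ δ 1 (aeval S P) := by
  choose c z' hz' hc using fun j : Fin (d + 1) => hspan (S ^ (j : ℕ)) (Λ.pow_mem hS _)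
  have h1 : ¬ LinearIndependent K c := by
    intro h
    have h2 := h.fintype_card_le_finrank
    rw [Module.finrank_fin_fun, Fintype.card_fin] at h2
    omega
  obtain ⟨g, hg, i₀, hi₀⟩ := Fintype.not_linearIndependent_iff.1 h1
  refine ⟨∑ j : Fin (d + 1), monomial (j : ℕ) (g j), ?_, ?_⟩
  · intro h
    apply hi₀
    have h3 := congrArg (fun P : K[X] => P.coeff (i₀ : ℕ)) h
    simp only [finsetSum_coeff, coeff_monomial, coeff_zero] at h3
    rw [Finset.sum_eq_single i₀] at h3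
    · rw [if_pos rfl] at h3
      exact h3
    · intro b _ hb
      rw [if_neg (fun h4 => hb (Fin.ext h4))]
    · intro h4
      exact absurd (Finset.mem_univ _) h4
  · refine ⟨∑ j, g j • z' j, Λ.sum_mem fun j _ => Λ.smul_mem (hz' j) _, ?_⟩
    rw [map_sum, pow_one]
    have h4 : ∀ j : Fin (d + 1), aeval S (monomial (j : ℕ) (g j)) =
        ∑ i, (g j * c j i) • u i + δ * (g j • z' j) := by
      intro j
      rw [aeval_monomial, hc j, mul_add, ← Algebra.smul_def, Finset.smul_sum]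
      congr 1
      · exact Finset.sum_congr rfl fun i _ => by rw [smul_smul]
      · rw [Algebra.smul_def]
        ring
    rw [Finset.sum_congr rfl fun j _ => h4 j, Finset.sum_add_distrib, ← Finset.mul_sum,
      Finset.sum_comm, ← zero_add (δ * ∑ i, g i • z' i)]
    congr 1
    · refine Finset.sum_eq_zero fun i _ => ?_
      rw [← Finset.sum_smul]
      have h5 := congrFun hg i
      rw [Finset.sum_apply] at h5
      simp only [Pi.smul_apply, smul_eq_mul, Pi.zero_apply] at h5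
      rw [h5, zero_smul]
    · rw [zero_add]

/-- the relation can be chosen with constant term not zero -/
lemma LB_rel' (Λ : Subalgebra K V) {S δ a b : V} (hS : S ∈ Λ) (ha : a ∈ Λ) (hb : b ∈ Λ)
    (hab : a * S + b * δ = 1) (n : ℕ) : ∀ P : K[X], P.natDegree ≤ n → P ≠ 0 →
      LB_M Λ δ 1 (aeval S P) → ∃ Q : K[X], Q.coeff 0 ≠ 0 ∧ LB_M Λ δ 1 (aeval S Q) := by
  have hmem : ∀ P : K[X], aeval S P ∈ Λ := fun P =>
    Algebra.adjoin_le (Set.singleton_subset_iff.2 hS) (aeval_mem_adjoin_singleton K S)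
  induction n with
  | zero =>
    intro P h1 h2 h3
    refine ⟨P, fun h => h2 ?_, h3⟩
    rw [eq_C_of_natDegree_le_zero h1, h, C_0]
  | succ n ih =>
    intro P h1 h2 h3
    by_cases h4 : P.coeff 0 = 0
    · have h5 : divX P * X = P := by
        have := divX_mul_X_add P
        rw [h4, C_0, add_zero] at this
        exact this
      refine ih (divX P) ?_ ?_ ?_
      · rw [natDegree_divX_eq_natDegree_tsub_one]
        omega
      · intro h
        rw [h, zero_mul] at h5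
        exact h2 h5.symm
      · have h6 : aeval S P = aeval S (divX P) * S := by
          conv_lhs => rw [← h5]
          rw [map_mul, aeval_X]
        have h7 : aeval S (divX P) = a * aeval S P + b * aeval S (divX P) * δ := by
          rw [h6]
          linear_combination (-aeval S (divX P)) * hab
        rw [h7]
        refine (h3.mul ha).add ⟨b * aeval S (divX P), Λ.mul_mem hb (hmem _), by ring⟩
    · exact ⟨P, h4, h3⟩

/-- an inverse of `S` modulo `δ ^ k` in `Λ₀` -/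
lemma LB_inv {Λ₀ Λ : Subalgebra K V} (h0 : Λ₀ ≤ Λ) {S δ a b : V} (hS : S ∈ Λ₀) (ha : a ∈ Λ)
    (hb : b ∈ Λ) (hab : a * S + b * δ = 1) {P : K[X]} (hP : P ≠ 0)
    (hP' : LB_M Λ δ 1 (aeval S P)) (k : ℕ) : ∃ h ∈ Λ₀, LB_M Λ δ k (1 - S * h) := by
  obtain ⟨Q, hQ, hQ'⟩ := LB_rel' Λ (h0 hS) ha hb hab P.natDegree P le_rfl hP hP'
  have hmem : ∀ P : K[X], aeval S P ∈ Λ₀ := fun P =>
    Algebra.adjoin_le (Set.singleton_subset_iff.2 hS) (aeval_mem_adjoin_singleton K S)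
  have h1 : ∃ g ∈ Λ₀, LB_M Λ δ 1 (1 - S * g) := by
    refine ⟨-((Q.coeff 0)⁻¹ • aeval S (divX Q)), Λ₀.neg_mem (Λ₀.smul_mem (hmem _) _), ?_⟩
    have e1 : aeval S Q = aeval S (divX Q) * S + algebraMap K V (Q.coeff 0) := by
      have h := congrArg (aeval S) (divX_mul_X_add Q)
      rw [map_add, map_mul, aeval_X, aeval_C] at h
      exact h.symm
    have e2 : algebraMap K V (Q.coeff 0)⁻¹ * algebraMap K V (Q.coeff 0) = 1 := by
      rw [← map_mul, inv_mul_cancel₀ hQ, map_one]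
    have h2 : 1 - S * -((Q.coeff 0)⁻¹ • aeval S (divX Q)) = (Q.coeff 0)⁻¹ • aeval S Q := by
      rw [e1, Algebra.smul_def, Algebra.smul_def]
      linear_combination -e2
    rw [h2]
    exact hQ'.smul _
  obtain ⟨g, hg, g', hg', hgg⟩ := h1
  rw [pow_one] at hgg
  induction k with
  | zero =>
    refine ⟨0, Λ₀.zero_mem, 1, Λ.one_mem, by simp⟩
  | succ k ih =>
    obtain ⟨h, hh, z, hz, e⟩ := ih
    refine ⟨h + g - S * h * g, Λ₀.sub_mem (Λ₀.add_mem hh hg)
      (Λ₀.mul_mem (Λ₀.mul_mem hS hh) hg), z * g', Λ.mul_mem hz hg', ?_⟩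
    have h3 : 1 - S * (h + g - S * h * g) = (1 - S * h) * (1 - S * g) := by ring
    rw [h3, e, hgg]
    ring

/-- approximation by elements of `Λ₀` -/
lemma LB_approx {Λ₀ Λ : Subalgebra K V} (h0 : Λ₀ ≤ Λ) {S δ : V} (hS : S ∈ Λ₀)
    (hpow : ∀ z ∈ Λ, ∃ m : ℕ, S ^ m * z ∈ Λ₀) {k : ℕ} {h : V} (hh : h ∈ Λ₀)
    (hk : LB_M Λ δ k (1 - S * h)) {e : V} (he : e ∈ Λ) : ∃ v ∈ Λ₀, LB_M Λ δ k (e - v) := by
  obtain ⟨m, hm⟩ := hpow e he
  refine ⟨h ^ m * (S ^ m * e), Λ₀.mul_mem (Λ₀.pow_mem hh m) hm, ?_⟩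
  have h1 : ∀ m : ℕ, LB_M Λ δ k (1 - (S * h) ^ m) := by
    intro m
    induction m with
    | zero => exact ⟨0, Λ.zero_mem, by simp⟩
    | succ m ih =>
      have h2 : 1 - (S * h) ^ (m + 1) = (1 - S * h) + (S * h) * (1 - (S * h) ^ m) := by ring
      rw [h2]
      exact hk.add (ih.mul (Λ.mul_mem (h0 hS) (h0 hh)))
  have h3 : e - h ^ m * (S ^ m * e) = e * (1 - (S * h) ^ m) := by rw [mul_pow]; ring
  rw [h3]
  exact (h1 m).mul he

/-- independence of the `δ ^ a u_i` modulo `δ ^ k` -/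
lemma LB_ind {Λ : Subalgebra K V} {δ : V} (hδ : δ ∈ Λ) (hδ0 : δ ≠ 0) {d : ℕ} {u : Fin d → V}
    (hu : ∀ i, u i ∈ Λ)
    (hind : ∀ c : Fin d → K, (∃ z' ∈ Λ, ∑ i, c i • u i = δ * z') → c = 0) (k : ℕ) :
    ∀ c : Fin k → Fin d → K, LB_M Λ δ k (∑ a : Fin k, ∑ i, c a i • (δ ^ (a : ℕ) * u i)) →
      ∀ a i, c a i = 0 := by
  induction k with
  | zero =>
    intro c _ a
    exact a.elim0
  | succ k ih =>
    intro c hc
    obtain ⟨z, hz, e⟩ := hc
    rw [Fin.sum_univ_succ] at e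
    have h1 : ∑ a : Fin k, ∑ i, c a.succ i • (δ ^ ((a.succ : Fin (k + 1)) : ℕ) * u i) =
        δ * ∑ a : Fin k, ∑ i, c a.succ i • (δ ^ (a : ℕ) * u i) := by
      rw [Finset.mul_sum]
      refine Finset.sum_congr rfl fun a _ => ?_
      rw [Finset.mul_sum]
      refine Finset.sum_congr rfl fun i _ => ?_
      rw [Fin.val_succ, pow_succ, mul_smul_comm]
      congr 1
      ring
    rw [h1] at e
    simp only [Fin.val_zero, pow_zero, one_mul] at e
    have h2 : c 0 = 0 := by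
      refine hind _ ⟨δ ^ k * z - ∑ a : Fin k, ∑ i, c a.succ i • (δ ^ (a : ℕ) * u i), ?_, ?_⟩
      · refine Λ.sub_mem (Λ.mul_mem (Λ.pow_mem hδ k) hz) ?_
        refine Λ.sum_mem fun a _ => Λ.sum_mem fun i _ => Λ.smul_mem ?_ _
        exact Λ.mul_mem (Λ.pow_mem hδ _) (hu i)
      · linear_combination e
    rw [h2] at e
    simp only [Pi.zero_apply, zero_smul, Finset.sum_const_zero, zero_add] at e
    have h3 := ih (fun a => c a.succ) ⟨z, hz, mul_left_cancel₀ hδ0 (by rw [e]; ring)⟩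
    intro a i
    refine Fin.cases ?_ (fun a => h3 a i) a
    rw [h2]
    rfl

/-! ### polynomials in `T` -/

variable {L : Subfield V} {T : V}

/-- `z` is a polynomial in `T` of degree at most `N` over `L` -/
def LB_P (L : Subfield V) (T : V) (N : ℕ) (z : V) : Prop :=
  ∃ P : L[X], P.natDegree ≤ N ∧ aeval T P = z

lemma LB_P.add {N : ℕ} {z w : V} (hz : LB_P L T N z) (hw : LB_P L T N w) :
    LB_P L T N (z + w) := by
  obtain ⟨P, h1, rfl⟩ := hz
  obtain ⟨Q, h2, rfl⟩ := hw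
  exact ⟨P + Q, natDegree_add_le_of_degree_le h1 h2, by rw [map_add]⟩

lemma LB_P.mul {N : ℕ} {z c : V} (hz : LB_P L T N z) (hc : c ∈ L) : LB_P L T N (c * z) := by
  obtain ⟨P, h1, rfl⟩ := hz
  exact ⟨C (⟨c, hc⟩ : L) * P, (natDegree_C_mul_le _ _).trans h1, by
    rw [map_mul, aeval_C]; rfl⟩

lemma LB_P.sum {N : ℕ} {ι : Type} (s : Finset ι) {f : ι → V} (h : ∀ i ∈ s, LB_P L T N (f i)) :
    LB_P L T N (∑ i ∈ s, f i) := by
  classical
  induction s using Finset.induction_on with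
  | empty => exact ⟨0, by simp, by simp⟩
  | insert a s ha ih =>
    rw [Finset.sum_insert ha]
    exact (h a (Finset.mem_insert_self _ _)).add
      (ih fun i hi => h i (Finset.mem_insert_of_mem hi))

lemma LB_P.lin {n' lam : V} (hn : n' ∈ L) (hlam : lam ∈ L) {j N : ℕ} (hj : j ≤ N) :
    LB_P L T N ((n' * T + lam) ^ j) := by
  refine ⟨(C (⟨n', hn⟩ : L) * X + C (⟨lam, hlam⟩ : L)) ^ j, ?_, ?_⟩
  · refine natDegree_pow_le.trans ?_
    have h1 : (C (⟨n', hn⟩ : L) * X + C (⟨lam, hlam⟩ : L)).natDegree ≤ 1 := natDegree_linear_le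
    calc j * _ ≤ j * 1 := Nat.mul_le_mul_left _ h1
      _ ≤ N := by omega
  · rw [map_pow, map_add, map_mul, aeval_C, aeval_C, aeval_X]
    rfl

lemma LB_P.pow {j N : ℕ} (hj : j ≤ N) : LB_P L T N (T ^ j) := by
  have h := LB_P.lin (L := L) (T := T) L.one_mem L.zero_mem hj
  rw [one_mul, add_zero] at h
  exact h

/-- comparison of the coefficients of `T ^ (N + 1)` -/
lemma LB_top (hT : Transcendental L T) {n' lam s b z w : V} (hn : n' ∈ L) (hlam : lam ∈ L)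
    (hs : s ∈ L) (hb : b ∈ L) {N : ℕ} (hz : LB_P L T N z) (hw : LB_P L T N w)
    (h : z + s * (n' * T + lam) ^ (N + 1) = w + b * T ^ (N + 1)) : s * n' ^ (N + 1) = b := by
  obtain ⟨P, h1, rfl⟩ := hz
  obtain ⟨R, h2, rfl⟩ := hw
  have h3 : P + C (⟨s, hs⟩ : L) * (C (⟨n', hn⟩ : L) * X + C (⟨lam, hlam⟩ : L)) ^ (N + 1) =
      R + C (⟨b, hb⟩ : L) * X ^ (N + 1) := by
    apply transcendental_iff_injective.1 hT
    rw [map_add, map_add, map_mul, map_mul, map_pow, map_pow, map_add, map_mul, aeval_C, aeval_C,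
      aeval_C, aeval_C, aeval_X]
    exact h
  have h4 := congrArg (fun P : L[X] => P.coeff (N + 1)) h3
  simp only [coeff_add, coeff_C_mul, coeff_X_pow, if_true, mul_one] at h4
  rw [coeff_eq_zero_of_natDegree_lt (Nat.lt_succ_of_le h1),
    coeff_eq_zero_of_natDegree_lt (Nat.lt_succ_of_le h2), zero_add, zero_add] at h4
  have h5 : ((C (⟨n', hn⟩ : L) * X + C (⟨lam, hlam⟩ : L)) ^ (N + 1)).coeff (N + 1) =
      (⟨n', hn⟩ : L) ^ (N + 1) := by
    have h6 := coeff_pow_of_natDegree_le (p := C (⟨n', hn⟩ : L) * X + C (⟨lam, hlam⟩ : L))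
      (m := N + 1) (n := 1) natDegree_linear_le
    rw [mul_one] at h6
    rw [h6]
    simp
  rw [h5] at h4
  have h7 := congrArg (fun x : L => (x : V)) h4
  simpa using h7

end

theorem thm_LB : St_LB := by
  intro K V _ _ _ Λ₀ Λ L S δ n₁ lam T d u h0 hL hlam hS hδ hδ0 hn hpow hSu hnu hu hspan hind hT N
  obtain ⟨a, ha, b, hb, hab⟩ := hSu
  obtain ⟨P, hP, hP'⟩ := LB_rel Λ u (h0 hS) hspan
  have hn' : n₁ / δ ∈ L := L.div_mem (hL _ hn) (hL _ hδ)
  -- `n₁` is a unit modulo the powers of `δ`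
  have hnk : ∀ (k : ℕ) (s z : V), s ∈ Λ → z ∈ Λ → s * n₁ ^ k = δ ^ k * z → LB_M Λ δ k s := by
    intro k s z hs hz hsz
    obtain ⟨a', ha', b', hb', h1⟩ := hnu
    have hc : IsCoprime ((⟨n₁, hn⟩ : Λ) ^ k) ((⟨δ, hδ⟩ : Λ) ^ k) := by
      refine IsCoprime.pow ⟨⟨a', ha'⟩, ⟨b', hb'⟩, Subtype.ext h1⟩
    obtain ⟨a₂, b₂, h2⟩ := hc
    have h3 : (a₂ : V) * n₁ ^ k + (b₂ : V) * δ ^ k = 1 := congrArg Subtype.val h2
    refine ⟨a₂ * z + b₂ * s, Λ.add_mem (Λ.mul_mem a₂.2 hz) (Λ.mul_mem b₂.2 hs), ?_⟩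
    linear_combination (-s) * h3 + (a₂ : V) * hsz
  suffices H : ∃ (ι : Type) (_ : Fintype ι), Fintype.card ι = d * (N * (N + 1) / 2) ∧
      ∃ w : ι → V, (∀ k, ∃ v ∈ Λ₀, ∃ j ≤ N, w k = v * (n₁ / δ * T + lam) ^ j) ∧
        (∀ c : ι → K, (∃ b : Fin (N + 1) → V, (∀ l, b l ∈ Λ) ∧
          ∑ k, c k • w k = ∑ l, b l * T ^ (l : ℕ)) → c = 0) by
    obtain ⟨ι, _, hcard, w, h1, h2⟩ := H
    have e : Fin (d * (N * (N + 1) / 2)) ≃ ι := (Fintype.equivFinOfCardEq hcard).symm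
    refine ⟨w ∘ e, fun k => h1 (e k), fun c ⟨b, hb, hc⟩ => ?_⟩
    have h3 := h2 (c ∘ e.symm) ⟨b, hb, by
      rw [← hc]
      refine Fintype.sum_equiv e.symm _ _ fun x => ?_
      simp⟩
    funext k
    have h4 := congrFun h3 (e k)
    simpa using h4
  induction N with
  | zero =>
    refine ⟨Fin 0, inferInstance, by simp, fun k => k.elim0, fun k => k.elim0, fun c _ => ?_⟩
    funext k
    exact k.elim0
  | succ N ih =>
    obtain ⟨ι, _, hcard, w, h1, h2⟩ := ih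
    obtain ⟨h, hh, hk⟩ := LB_inv h0 hS ha hb hab hP hP' (N + 1)
    have hap : ∀ p : Fin (N + 1) × Fin d, ∃ v ∈ Λ₀, LB_M Λ δ (N + 1) (δ ^ (p.1 : ℕ) * u p.2 - v) :=
      fun p => LB_approx h0 hS hpow hh hk (Λ.mul_mem (Λ.pow_mem hδ _) (hu _))
    choose v hv hv' using hap
    refine ⟨ι ⊕ (Fin (N + 1) × Fin d), inferInstance, ?_,
      Sum.elim w fun p => v p * (n₁ / δ * T + lam) ^ (N + 1), ?_, ?_⟩
    · rw [Fintype.card_sum, hcard, Fintype.card_prod, Fintype.card_fin, Fintype.card_fin]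
      have h3 : (N + 1) * (N + 1 + 1) = N * (N + 1) + (N + 1) * 2 := by ring
      rw [h3, Nat.add_mul_div_right _ _ (by norm_num)]
      ring
    · rintro (k | p)
      · obtain ⟨v', hv1, j, hj, e⟩ := h1 k
        exact ⟨v', hv1, j, hj.trans N.le_succ, e⟩
      · exact ⟨v p, hv p, N + 1, le_rfl, rfl⟩
    · intro c ⟨b, hb, hc⟩
      rw [Fintype.sum_sum_type, Fin.sum_univ_castSucc] at hc
      simp only [Sum.elim_inl, Sum.elim_inr, Fin.val_castSucc, Fin.val_last] at hc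
      have hKL : ∀ x : K, algebraMap K V x ∈ L := fun x => hL _ (Λ.algebraMap_mem x)
      have hs : ∑ p, c (Sum.inr p) • (v p * (n₁ / δ * T + lam) ^ (N + 1)) =
          (∑ p, c (Sum.inr p) • v p) * (n₁ / δ * T + lam) ^ (N + 1) := by
        rw [Finset.sum_mul]
        exact Finset.sum_congr rfl fun p _ => (smul_mul_assoc _ _ _).symm
      rw [hs] at hc
      have hsm : ∑ p, c (Sum.inr p) • v p ∈ Λ := Λ.sum_mem fun p _ => Λ.smul_mem (h0 (hv p)) _
      have hold : LB_P L T N (∑ k, c (Sum.inl k) • w k) := by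
        refine LB_P.sum _ fun k _ => ?_
        obtain ⟨v', hv1, j, hj, e⟩ := h1 k
        rw [Algebra.smul_def, e]
        exact ((LB_P.lin hn' hlam hj).mul (hL _ (h0 hv1))).mul (hKL _)
      have hnew : LB_P L T N (∑ l : Fin (N + 1), b l.castSucc * T ^ (l : ℕ)) :=
        LB_P.sum _ fun l _ => (LB_P.pow (by omega)).mul (hL _ (hb _))
      have htop := LB_top hT hn' hlam (hL _ hsm) (hL _ (hb _)) hold hnew hc
      have h3 : LB_M Λ δ (N + 1) (∑ p, c (Sum.inr p) • v p) := by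
        refine hnk (N + 1) _ _ hsm (hb (Fin.last (N + 1))) ?_
        rw [← htop, div_pow]
        have : δ ^ (N + 1) ≠ 0 := pow_ne_zero _ hδ0
        field_simp
      have h4 : LB_M Λ δ (N + 1)
          (∑ a : Fin (N + 1), ∑ i, c (Sum.inr (a, i)) • (δ ^ (a : ℕ) * u i)) := by
        rw [← Fintype.sum_prod_type' (f := fun a i => c (Sum.inr (a, i)) • (δ ^ (a : ℕ) * u i))]
        have h5 : ∑ p : Fin (N + 1) × Fin d, c (Sum.inr (p.1, p.2)) • (δ ^ (p.1 : ℕ) * u p.2) =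
            ∑ p, c (Sum.inr p) • (δ ^ (p.1 : ℕ) * u p.2 - v p) + ∑ p, c (Sum.inr p) • v p := by
          rw [← Finset.sum_add_distrib]
          refine Finset.sum_congr rfl fun p _ => ?_
          rw [← smul_add, sub_add_cancel]
        rw [h5]
        exact (LB_M.sum _ fun p _ => (hv' p).smul _).add h3
      have h6 := LB_ind hδ hδ0 hu hind (N + 1) (fun a i => c (Sum.inr (a, i))) h4
      have h7 : ∑ p, c (Sum.inr p) • v p = 0 := by
        refine Finset.sum_eq_zero fun p _ => ?_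
        rw [h6 p.1 p.2, zero_smul]
      rw [h7, zero_mul] at htop
      rw [h7, ← htop, zero_mul, zero_mul, add_zero, add_zero] at hc
      have h8 := h2 (fun k => c (Sum.inl k)) ⟨fun l => b l.castSucc, fun l => hb _, hc⟩
      funext k
      rcases k with k | p
      · exact congrFun h8 k
      · exact h6 p.1 p.2

end Pool.Agent.NPC
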