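import Pool.Agent.NPC.StC
import Pool.Agent.NPC.COV
import Pool.Agent.Helper79.DN.All

/-!
# The theorem for the first map
-/

set_option autoImplicit false

namespace Pool.Agent.NPC

open Polynomial Pool.Agent.Helper11.SP Pool.Agent.Helper79.DM

/-- A finite union of arithmetic progressions is eventually periodic. -/
theorem MAIN_ep_union (U : Finset (ℕ × ℕ)) :
    EP {n : ℕ | ∃ q ∈ U, ∃ k : ℕ, n = q.1 * k + q.2} := by
  classical
  induction U using Finset.induction_on with
  | empty =>
    refine EP.of_finite ?_
    simp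
  | insert q U _ ih =>
    have h1 : EP {n : ℕ | ∃ k : ℕ, n = q.1 * k + q.2} := by
      rcases Nat.eq_zero_or_pos q.1 with h0 | h0
      · refine EP.of_finite ((Set.finite_singleton q.2).subset ?_)
        rintro n ⟨k, hk⟩
        rw [h0, zero_mul, zero_add] at hk
        exact hk
      · refine ep_of_add q.1 h0 ?_
        rintro n ⟨k, hk⟩
        refine ⟨k + 1, ?_⟩
        rw [hk]
        ring
    refine EP.congr 0 (fun n _ => ?_) (EP.union h1 ih)
    constructor
    · rintro (h2 | ⟨q', hq', h2⟩)
      · exact ⟨q, Finset.mem_insert_self _ _, h2⟩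
      · exact ⟨q', Finset.mem_insert_of_mem hq', h2⟩
    · rintro ⟨q', hq', h2⟩
      rcases Finset.mem_insert.1 hq' with rfl | h3
      · exact Or.inl h2
      · exact Or.inr ⟨q', h3, h2⟩

theorem MAIN_ret_map {K L : Type} [Field K] [Field L] (σ : K →+* L) (f g : K[X]) (a b : K)
    (h : MvPolynomial (Fin 2) K) :
    ret (f.map σ) (g.map σ) (σ a) (σ b) (MvPolynomial.map σ h) = ret f g a b h := by
  ext n
  show MvPolynomial.eval ![orb (f.map σ) (σ a) n, orb (g.map σ) (σ b) n] (MvPolynomial.map σ h) = 0 ↔
    MvPolynomial.eval ![orb f a n, orb g b n] h = 0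
  rw [orb_map, orb_map]
  have h1 : (![σ (orb f a n), σ (orb g b n)] : Fin 2 → L) = σ ∘ ![orb f a n, orb g b n] := by
    funext i
    fin_cases i <;> rfl
  rw [h1, MvPolynomial.eval_map]
  have h2 := MvPolynomial.eval₂_comp_left σ (RingHom.id K) (![orb f a n, orb g b n]) h
  rw [RingHom.comp_id] at h2
  rw [← h2]
  exact map_eq_zero σ

theorem thm_MAIN (hIRR : St_IRR) : St_MAIN := by
  intro p _ K _ _ f g a b h c h0 hf' hc hinf
  classical
  have hp : p.Prime := Fact.out
  by_cases ht : 0 < h.totalDegree
  swap
  · refine EP.of_finite ?_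
    have h1 : h.totalDegree = 0 := by omega
    have h2 := (MvPolynomial.totalDegree_eq_zero_iff_eq_C).1 h1
    have h3 : ret f g a b h = ∅ := by
      ext n
      simp only [Set.mem_empty_iff_false, iff_false]
      intro hn
      have h4 : MvPolynomial.eval ![orb f a n, orb g b n] h = 0 := hn
      rw [h2, MvPolynomial.eval_C] at h4
      apply h0
      rw [h2, h4, map_zero]
    rw [h3]
    exact Set.finite_empty
  by_cases H : f.natDegree ≠ g.natDegree ∨ ∀ k, f.natDegree ≠ p ^ k
  · obtain ⟨U, hU⟩ := Pool.Agent.Helper79.DN.final0 p hp K f g a b h ht H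
    rw [hU]
    exact MAIN_ep_union U
  push Not at H
  obtain ⟨hfg, r, hr⟩ := H
  have hr1 : 1 ≤ r := by
    by_contra hr0
    have h1 : r = 0 := by omega
    rw [h1, pow_zero] at hr
    have h2 : derivative f = C (f.coeff 1) := by
      conv_lhs => rw [Polynomial.eq_X_add_C_of_natDegree_le_one hr.le]
      simp
    rw [h2, aeval_C] at hc
    have h3 : f.coeff 1 = 0 := (map_eq_zero _).1 hc
    apply hf'
    rw [h2, h3, map_zero]
  let σ : K →+* AlgebraicClosure K := algebraMap K (AlgebraicClosure K)
  have hσ : Function.Injective σ := (algebraMap K (AlgebraicClosure K)).injective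
  haveI : CharP (AlgebraicClosure K) p := charP_of_injective_algebraMap hσ p
  rw [← MAIN_ret_map σ]
  have h0' : MvPolynomial.map σ h ≠ 0 := by
    intro hz
    apply h0
    exact MvPolynomial.map_injective σ hσ (by rw [hz, map_zero])
  have hae : ∀ (z : AlgebraicClosure K) (q : K[X]), (q.map σ).eval z = aeval z q := by
    intro z q
    rw [eval_map]
    rfl
  refine ret_of_factors _ _ _ _ _ h0' fun k hk _ => ?_
  have hP : Irreducible (toP _ k) := (MulEquiv.irreducible_iff (toP _)).2 hk
  have hinj : Function.Injective (fun l : ℕ => (itc (f.map σ) l).eval c) := by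
    have h1 : ¬ (Set.range (orb (f.map σ) c)).Finite := by
      intro hfin
      apply hinf
      refine hfin.subset ?_
      rintro _ ⟨n, rfl⟩
      refine ⟨n, ?_⟩
      show (fun z => (f.map σ).eval z)^[n] c = (fun z => aeval z f)^[n] c
      congr 1
      funext z
      exact hae z f
    have h2 := orb_injective _ _ h1
    intro i j hij
    apply h2
    have h3 : (itc (f.map σ) i).eval c = (itc (f.map σ) j).eval c := hij
    rw [COV_itc_orb, COV_itc_orb] at h3
    exact h3
  have hmain := hIRR p (AlgebraicClosure K) r (f.map σ) (g.map σ) (toP _ k) (σ a) (σ b) c hr1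
    (by rw [natDegree_map_eq_of_injective hσ]; exact hr)
    (by rw [natDegree_map_eq_of_injective hσ, ← hfg]; exact hr)
    (by
      rw [derivative_map]
      intro hz
      apply hf'
      exact Polynomial.map_injective σ hσ (by rw [hz, Polynomial.map_zero]))
    (by rw [derivative_map, hae]; exact hc)
    hinj hP
  refine EP.congr 0 (fun n _ => ?_) hmain
  show evA _ _ _ = 0 ↔ MvPolynomial.eval ![orb _ _ n, orb _ _ n] k = 0
  rw [COV_evA_eq, ev_toP, COV_itc_orb, COV_itc_orb]

end Pool.Agent.NPC
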