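import Pool.Agent.NPC.StB

/-!
# [NOR] Northcott and Liouville for the integral closure
-/

set_option autoImplicit false

namespace Pool.Agent.NPC

open Polynomial

private theorem NOR_frac {k : Type} [Field k] (A : Subring k)
    (h : ∀ z : k, ∃ b ∈ A, b ≠ 0 ∧ b * z ∈ A) : IsFractionRing A k := by
  change IsLocalization (nonZeroDivisors A) k
  rw [isLocalization_iff]
  refine ⟨?_, ?_, ?_⟩
  · intro y
    have h1 : (y : A) ≠ 0 := nonZeroDivisors.coe_ne_zero y
    refine IsUnit.mk0 _ ?_
    intro h2
    apply h1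
    exact Subtype.ext h2
  · intro z
    obtain ⟨b, hb, hb0, hbz⟩ := h z
    refine ⟨(⟨b * z, hbz⟩, ⟨⟨b, hb⟩, ?_⟩), ?_⟩
    · apply mem_nonZeroDivisors_of_ne_zero
      intro h3
      exact hb0 (congrArg Subtype.val h3)
    · change z * b = b * z
      ring
  · intro x y hxy
    refine ⟨1, ?_⟩
    have h3 : x = y := Subtype.ext hxy
    rw [h3]

private theorem NOR_coeff {k K : Type} [Field k] [Field K] [Algebra k K]
    (A : Subring k) (hA : IsIntegrallyClosed A) (h : ∀ z : k, ∃ b ∈ A, b ≠ 0 ∧ b * z ∈ A)
    (u : K) (hu : ∃ P : k[X], P.Monic ∧ (∀ i, P.coeff i ∈ A) ∧ aeval u P = 0) (i : ℕ) :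
    (minpoly k u).coeff i ∈ A := by
  have : IsFractionRing A k := NOR_frac A h
  obtain ⟨P, hP, hPA, hP0⟩ := hu
  have hlift : ∃ Q : A[X], Q.map (algebraMap A k) = P ∧ Q.Monic := by
    have h1 : P ∈ Polynomial.lifts (algebraMap A k) := by
      rw [Polynomial.lifts_iff_coeff_lifts]
      intro n
      exact ⟨⟨P.coeff n, hPA n⟩, rfl⟩
    obtain ⟨Q, hQ, _, hQm⟩ := Polynomial.lifts_and_natDegree_eq_and_monic h1 hP
    exact ⟨Q, hQ, hQm⟩
  obtain ⟨Q, hQ, hQm⟩ := hlift
  have hint : IsIntegral A u := by
    refine ⟨Q, hQm, ?_⟩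
    have h2 : aeval u (Q.map (algebraMap A k)) = 0 := by rw [hQ]; exact hP0
    rw [aeval_map_algebraMap] at h2
    exact h2
  have := hA
  have h3 := minpoly.isIntegrallyClosed_eq_field_fractions' k hint
  rw [h3, coeff_map]
  exact ((minpoly A u).coeff i).2

theorem thm_NOR : St_NOR := by
  classical
  intro k K L _ _ _ _ _ _ _ _ _ A hA hfr hone hfin
  have hroot : ∀ (u : K) (z : L), z ∈ ((minpoly k u).map (algebraMap k L)).roots →
      ∃ τ : K →ₐ[k] L, τ u = z := by
    intro u z hz
    have h1 := Algebra.IsAlgebraic.range_eval_eq_rootSet_minpoly (F := k) (K := K) L u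
    have h2 : z ∈ (minpoly k u).rootSet L := by
      rw [rootSet_def]
      simpa [aroots_def] using hz
    rw [← h1] at h2
    obtain ⟨τ, hτ⟩ := h2
    exact ⟨τ, hτ⟩
  have hsplit : ∀ u : K, ((minpoly k u).map (algebraMap k L)).Splits := fun u =>
    IsAlgClosed.splits _
  have hmon : ∀ u : K, (minpoly k u).Monic := fun u => minpoly.monic (Algebra.IsIntegral.isIntegral u)
  constructor
  · intro M
    set B : ℝ := max M 1 ^ (Module.finrank k K) *
      (Module.finrank k K).choose (Module.finrank k K / 2) with hB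
    refine Set.Finite.subset (bUnion_roots_finite (algebraMap k K) (Module.finrank k K)
      (hfin B)) ?_
    rintro u ⟨hu, hτ⟩
    simp only [Set.mem_iUnion]
    refine ⟨minpoly k u, ⟨minpoly.natDegree_le u, ?_⟩, ?_⟩
    · intro i
      refine ⟨NOR_coeff A hA hfr u hu i, ?_⟩
      have h5 := coeff_bdd_of_roots_le (B := M) (d := Module.finrank k K) (algebraMap k L)
        (hmon u) (hsplit u) (minpoly.natDegree_le u) ?_ i
      · rw [coeff_map] at h5
        exact h5
      · intro z hz
        obtain ⟨τ, rfl⟩ := hroot u z hz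
        exact hτ τ
    · have h6 : (minpoly k u).map (algebraMap k K) ≠ 0 := ((hmon u).map _).ne_zero
      simp only [Finset.mem_coe, Multiset.mem_toFinset]
      rw [mem_roots h6, IsRoot.def, eval_map_algebraMap]
      exact minpoly.aeval k u
  · refine ⟨Module.finrank k K, ?_⟩
    intro u hu hu0 τ M hM hτ
    have h1 : (minpoly k u).coeff 0 ∈ A := NOR_coeff A hA hfr u hu 0
    have h2 : (minpoly k u).coeff 0 ≠ 0 := minpoly.coeff_zero_ne_zero
      (Algebra.IsIntegral.isIntegral u) hu0
    have h3 := hone _ h1 h2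
    have h4 := (hsplit u).coeff_zero_eq_prod_roots_of_monic ((hmon u).map _)
    rw [coeff_map] at h4
    rw [h4, norm_mul, norm_pow, norm_neg, norm_one, one_pow, one_mul] at h3
    have h7 : τ u ∈ ((minpoly k u).map (algebraMap k L)).roots := by
      rw [mem_roots ((hmon u).map _).ne_zero, IsRoot.def, eval_map_algebraMap]
      have h8 : aeval (τ u) (minpoly k u) = τ (aeval u (minpoly k u)) := aeval_algHom_apply τ u _
      rw [h8, minpoly.aeval, map_zero]
    obtain ⟨s, hs⟩ := Multiset.exists_cons_of_mem h7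
    have hcard : s.card ≤ Module.finrank k K := by
      have h9 : ((minpoly k u).map (algebraMap k L)).roots.card ≤ Module.finrank k K := by
        refine le_trans (card_roots' _) ?_
        rw [(hmon u).natDegree_map]
        exact minpoly.natDegree_le u
      rw [hs, Multiset.card_cons] at h9
      omega
    rw [hs, Multiset.prod_cons, norm_mul] at h3
    have hprod : ∀ t : Multiset L, (∀ z ∈ t, ‖z‖ ≤ M) → ‖t.prod‖ ≤ M ^ t.card := by
      intro t
      induction t using Multiset.induction_on with
      | empty => intro _; simp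
      | cons a t ih =>
        intro ht
        rw [Multiset.prod_cons, norm_mul, Multiset.card_cons, pow_succ, mul_comm (M ^ _) M]
        exact mul_le_mul (ht a (Multiset.mem_cons_self a t))
          (ih (fun z hz => ht z (Multiset.mem_cons_of_mem hz))) (norm_nonneg _)
          (le_trans zero_le_one hM)
    have h10 : ‖s.prod‖ ≤ M ^ (Module.finrank k K) := by
      refine le_trans (hprod s ?_) (pow_le_pow_right₀ hM hcard)
      intro z hz
      have h11 : z ∈ ((minpoly k u).map (algebraMap k L)).roots := by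
        rw [hs]; exact Multiset.mem_cons_of_mem hz
      obtain ⟨τ', rfl⟩ := hroot u z h11
      exact hτ τ'
    exact le_trans h3 (mul_le_mul_of_nonneg_left h10 (norm_nonneg _))

end Pool.Agent.NPC
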