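import Pool.Agent.NPC.StC
import Pool.Agent.Helper11.SP.Dich

/-!
# NPC/NRM (helper67): normalisation
-/

set_option autoImplicit false

namespace Pool.Agent.NPC

open Polynomial Pool.Agent.Helper11.SP Pool.Agent.Helper79.DM

private theorem NRM_evA {K : Type} [Field K] (x y : K) (P : K[X][X]) : evA x y P = ev x y P := by
  unfold evA ev
  rw [show ((aeval x : K[X] →ₐ[K] K) : K[X] →+* K) = evalRingHom x from
    Polynomial.coe_aeval_eq_evalRingHom x]

private theorem NRM_dvd {K : Type} [Field K] (x y : K) {P Q : K[X][X]} (h : P ∣ Q)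
    (h0 : evA x y P = 0) : evA x y Q = 0 := by
  obtain ⟨R, rfl⟩ := h
  rw [NRM_evA] at h0 ⊢
  rw [ev_mul, h0, zero_mul]

private theorem NRM_orb {K : Type} [Field K] (f : K[X]) (x : K) (n : ℕ) :
    (itc f n).eval x = orb f x n := itc_eval f n x

private theorem NRM_ret {K : Type} [Field K] (f g : K[X]) (a b : K) (h : K[X][X]) :
    {n : ℕ | evA ((itc f n).eval a) ((itc g n).eval b) h = 0} =
      ret f g a b ((toP K).symm h) := by
  ext n
  show evA ((itc f n).eval a) ((itc g n).eval b) h = 0 ↔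
    MvPolynomial.eval ![orb f a n, orb g b n] ((toP K).symm h) = 0
  rw [← ev_toP, RingEquiv.apply_symm_apply, NRM_evA, NRM_orb, NRM_orb]

/-- separable part -/
private theorem NRM_sep {p : ℕ} [hp : Fact p.Prime] {K : Type} [Field K] [CharP K p] :
    ∀ (n : ℕ) (g : K[X]), g.natDegree = n → 0 < n →
      ∃ (e : ℕ) (g₁ : K[X]), g = expand K (p ^ e) g₁ ∧ derivative g₁ ≠ 0 := by
  intro n
  induction n using Nat.strong_induction_on with
  | _ n ih =>
    intro g hg hn
    by_cases hd : derivative g = 0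
    · have h1 : expand K p (contract p g) = g := expand_contract p hd hp.out.ne_zero
      have h2 : (contract p g).natDegree * p = n := by
        rw [← hg, ← natDegree_expand, h1]
      have h3 : 0 < (contract p g).natDegree := by
        rcases Nat.eq_zero_or_pos (contract p g).natDegree with h | h
        · rw [h, zero_mul] at h2
          omega
        · exact h
      have h4 : (contract p g).natDegree < n := by
        have := hp.out.two_le
        nlinarith
      obtain ⟨e, g₁, h5, h6⟩ := ih _ h4 (contract p g) rfl h3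
      refine ⟨e + 1, g₁, ?_, h6⟩
      rw [pow_succ', expand_mul, ← h5, h1]
    · refine ⟨0, g, ?_, hd⟩
      rw [pow_zero, expand_one]

private theorem NRM_lin_ne {K : Type} [Field K] {u : K} (hu : u ≠ 0) (v : K) {P : K[X]}
    (hP : P ≠ 0) : P.comp (C u * X + C v) ≠ 0 := by
  intro h
  rw [comp_eq_zero_iff] at h
  rcases h with h | ⟨-, h⟩
  · exact hP h
  · have h1 := congrArg (fun q : K[X] => q.coeff 1) h
    simp only [coeff_add, coeff_C_mul, coeff_X_one, coeff_C_succ, mul_one, add_zero] at h1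
    exact hu h1

/-- conjugation of a polynomial to a monic one -/
private theorem NRM_conj {K : Type} [Field K] {f : K[X]} {q : ℕ} (hq : 2 ≤ q)
    (hf : f.natDegree = q) {lam : K} (hl : lam ≠ 0) (hlq : lam ^ (q - 1) = f.leadingCoeff) (ξ : K)
    {F : K[X]} (hF : F = C lam * (f - C ξ).comp (C lam⁻¹ * X + C ξ)) :
    F.Monic ∧ F.natDegree = q ∧ derivative F = (derivative f).comp (C lam⁻¹ * X + C ξ) ∧
    (∀ z : K, F.eval (lam * (z - ξ)) = lam * (f.eval z - ξ)) ∧
    ∀ (z : K) (n : ℕ), (itc F n).eval (lam * (z - ξ)) = lam * ((itc f n).eval z - ξ) := by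
  have hL1 : (C lam⁻¹ * X + C ξ : K[X]).natDegree = 1 := natDegree_linear (inv_ne_zero hl)
  have hL2 : (C lam⁻¹ * X + C ξ : K[X]).leadingCoeff = lam⁻¹ := leadingCoeff_linear (inv_ne_zero hl)
  have hf1 : (f - C ξ).natDegree = q := by rw [natDegree_sub_C, hf]
  have hf2 : (f - C ξ).leadingCoeff = f.leadingCoeff := by
    rw [leadingCoeff, hf1, coeff_sub, coeff_C, if_neg (by omega), sub_zero, leadingCoeff, hf]
  have hev : ∀ z : K, F.eval (lam * (z - ξ)) = lam * (f.eval z - ξ) := by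
    intro z
    rw [hF, eval_mul, eval_C, eval_comp, eval_sub, eval_C, eval_add, eval_mul, eval_C, eval_X,
      eval_C, inv_mul_cancel_left₀ hl, sub_add_cancel]
  refine ⟨?_, ?_, ?_, hev, ?_⟩
  · rw [Monic, hF, leadingCoeff_mul, leadingCoeff_C, leadingCoeff_comp (by rw [hL1]; exact one_ne_zero),
      hL2, hf2, ← hlq, hf1]
    have h1 : q = (q - 1) + 1 := by omega
    conv_lhs => rw [h1]
    rw [Nat.add_sub_cancel, pow_succ, inv_pow]
    field_simp
  · rw [hF, natDegree_C_mul hl, natDegree_comp, hL1, mul_one, hf1]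
  · rw [hF, derivative_C_mul, derivative_comp, derivative_sub, derivative_C, sub_zero,
      derivative_add, derivative_C, add_zero, derivative_C_mul, derivative_X, mul_one, ← mul_assoc,
      ← C_mul, mul_inv_cancel₀ hl, C_1, one_mul]
  · intro z n
    induction n with
    | zero =>
      rw [itc_eval, itc_eval, Function.iterate_zero_apply, Function.iterate_zero_apply]
    | succ n ih =>
      rw [itc_succ, itc_succ, eval_comp, eval_comp, ih, hev]

/-- the normalised case -/
private theorem NRM_main (hAFF : St_AFF) (hCORE : St_CORE) (hSB2 : St_SB2)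
    (p : ℕ) [hp : Fact p.Prime] (𝕂 : Type) [Field 𝕂] [IsAlgClosed 𝕂]
    [CharP 𝕂 p] (r : ℕ) (f g : 𝕂[X]) (h : 𝕂[X][X]) (ξ b c : 𝕂) (hr : 1 ≤ r)
    (hf : f.natDegree = p ^ r) (hg : g.natDegree = p ^ r)
    (hc : (derivative f).eval c = 0)
    (hcinj : Function.Injective (fun l : ℕ => (itc f l).eval c))
    (hi : Irreducible h) (h1 : 0 < h.natDegree) (h2 : 0 < (swp h).natDegree)
    (h3 : derivative h ≠ 0) (h4 : dIn h ≠ 0)
    (hξinj : Function.Injective (fun l : ℕ => (itc f l).eval ξ))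
    (hbinj : Function.Injective (fun l : ℕ => (itc g l).eval b))
    (hξ : ∀ l : ℕ, (derivative f).eval ((itc f l).eval ξ) ≠ 0) :
    EP {n : ℕ | evA ((itc f n).eval ξ) ((itc g n).eval b) h = 0} := by
  obtain ⟨q, hqdef⟩ : ∃ q : ℕ, q = p ^ r := ⟨_, rfl⟩
  have hq : 2 ≤ q := by
    rw [hqdef]
    calc 2 ≤ p := hp.out.two_le
      _ = p ^ 1 := (pow_one p).symm
      _ ≤ p ^ r := Nat.pow_le_pow_right hp.out.pos hr
  have hf0 : f ≠ 0 := by
    rintro rfl
    rw [natDegree_zero] at hf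
    omega
  have hg0 : g ≠ 0 := by
    rintro rfl
    rw [natDegree_zero] at hg
    omega
  obtain ⟨lam, hlq⟩ := IsAlgClosed.exists_pow_nat_eq f.leadingCoeff (n := q - 1) (by omega)
  obtain ⟨mu, hmq⟩ := IsAlgClosed.exists_pow_nat_eq g.leadingCoeff (n := q - 1) (by omega)
  have hl : lam ≠ 0 := by
    rintro rfl
    rw [zero_pow (by omega)] at hlq
    exact hf0 (leadingCoeff_eq_zero.1 hlq.symm)
  have hm : mu ≠ 0 := by
    rintro rfl
    rw [zero_pow (by omega)] at hmq
    exact hg0 (leadingCoeff_eq_zero.1 hmq.symm)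
  -- a fixed point of `g`
  obtain ⟨ζ, hζ⟩ : ∃ ζ : 𝕂, g.eval ζ = ζ := by
    have hd : (g - X).natDegree = q := by
      rw [natDegree_sub_eq_left_of_natDegree_lt]
      · rw [hg, hqdef]
      · rw [natDegree_X, hg, ← hqdef]
        omega
    obtain ⟨ζ, hζ⟩ := IsAlgClosed.exists_root (g - X) (by
      intro h
      have := natDegree_eq_of_degree_eq_some (n := 0) (by rw [h]; rfl)
      omega)
    refine ⟨ζ, ?_⟩
    rw [IsRoot, eval_sub, eval_X] at hζ
    exact sub_eq_zero.1 hζ
  obtain ⟨F, hF⟩ : ∃ F : 𝕂[X], F = C lam * (f - C ξ).comp (C lam⁻¹ * X + C ξ) := ⟨_, rfl⟩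
  obtain ⟨G, hG⟩ : ∃ G : 𝕂[X], G = C mu * (g - C ζ).comp (C mu⁻¹ * X + C ζ) := ⟨_, rfl⟩
  obtain ⟨F1, F2, F3, F4, F5⟩ := NRM_conj hq (hf.trans hqdef.symm) hl hlq ξ hF
  obtain ⟨G1, G2, G3, G4, G5⟩ := NRM_conj hq (hg.trans hqdef.symm) hm hmq ζ hG
  have F50 : ∀ n, (itc F n).eval 0 = lam * ((itc f n).eval ξ - ξ) := by
    intro n
    have := F5 ξ n
    rwa [sub_self, mul_zero] at this
  -- the separable part of `G`
  obtain ⟨e, g₁, hge, hg₁⟩ := NRM_sep (p := p) q g (hg.trans hqdef.symm) (by omega)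
  obtain ⟨Gs, hGs⟩ : ∃ Gs : 𝕂[X], Gs = C mu * (g₁ - C ζ).comp (C (mu⁻¹ ^ p ^ e) * X +
      C (ζ ^ p ^ e)) := ⟨_, rfl⟩
  have hmue : mu⁻¹ ^ p ^ e ≠ 0 := pow_ne_zero _ (inv_ne_zero hm)
  have hGe : G = expand 𝕂 (p ^ e) Gs := by
    rw [hG, hGs, map_mul, expand_C, hge, expand_eq_comp_X_pow, expand_eq_comp_X_pow, comp_assoc,
      add_comp, mul_comp, C_comp, C_comp, X_comp, sub_comp, sub_comp, C_comp, C_comp, comp_assoc,
      X_pow_comp, add_pow_char_pow, mul_pow, ← C_pow, ← C_pow]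
  have hGsd : derivative Gs ≠ 0 := by
    rw [hGs, derivative_C_mul, derivative_comp, derivative_sub, derivative_C, sub_zero,
      derivative_add, derivative_C, add_zero, derivative_C_mul, derivative_X, mul_one]
    refine mul_ne_zero ?_ (mul_ne_zero ?_ (NRM_lin_ne hmue _ hg₁))
    · rw [Ne, C_eq_zero]
      exact hm
    · rw [Ne, C_eq_zero]
      exact hmue
  have hpe : 0 < p ^ e := pow_pos hp.out.pos e
  have hcase : 2 ≤ Gs.natDegree ∨ G = X ^ (p ^ r) := by
    by_cases hcon : 2 ≤ Gs.natDegree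
    · exact Or.inl hcon
    · right
      have hGsm : Gs.Monic := by
        rw [hGe] at G1
        exact (monic_expand_iff hpe).1 G1
      have hd0 : Gs.natDegree ≠ 0 := by
        intro h
        obtain ⟨a, ha⟩ := natDegree_eq_zero.1 h
        refine hGsd ?_
        rw [← ha, derivative_C]
      have hd1 : Gs.natDegree = 1 := by omega
      have hGse : Gs = X + C (Gs.coeff 0) := by
        have := hGsm.as_sum
        rw [hd1, Finset.sum_range_one, pow_one, pow_zero, mul_one] at this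
        exact this
      have hG0 : G.eval 0 = 0 := by
        have := G4 ζ
        rwa [sub_self, mul_zero, hζ, sub_self, mul_zero] at this
      have hc0 : Gs.coeff 0 = 0 := by
        rw [hGe, expand_eval, zero_pow hpe.ne', ← coeff_zero_eq_eval_zero] at hG0
        exact hG0
      rw [hc0, C_0, add_zero] at hGse
      have hGX : G = X ^ (p ^ e) := by
        rw [hGe, hGse, expand_X]
      have hdd : p ^ e = p ^ r := by
        rw [← hqdef, ← G2, hGX, natDegree_X_pow]
      rw [hGX, hdd]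
  obtain ⟨ht, hht⟩ : ∃ ht : 𝕂[X][X], ht = sub2 (C lam⁻¹ * X + C ξ) (C mu⁻¹ * X + C ζ) h :=
    ⟨_, rfl⟩
  have hA := hAFF 𝕂 lam⁻¹ ξ mu⁻¹ ζ h (inv_ne_zero hl) (inv_ne_zero hm) hi h1 h2 h3 h4
  rw [← hht] at hA
  obtain ⟨A1, A2, A3, A4, A5⟩ := hA
  have hev : ∀ x y : 𝕂, evA (lam * (x - ξ)) (mu * (y - ζ)) ht = evA x y h := by
    intro x y
    have := (hSB2 𝕂 𝕂 (C lam⁻¹ * X + C ξ) (C mu⁻¹ * X + C ζ) h (lam * (x - ξ))
      (mu * (y - ζ))).1
    rw [hht, this, coe_aeval_eq_eval, coe_aeval_eq_eval, eval_add, eval_mul, eval_C, eval_X, eval_C,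
      eval_add, eval_mul, eval_C, eval_X, eval_C, inv_mul_cancel_left₀ hl,
      inv_mul_cancel_left₀ hm, sub_add_cancel, sub_add_cancel]
  have hset : {n : ℕ | evA ((itc f n).eval ξ) ((itc g n).eval b) h = 0} =
      {n : ℕ | evA ((itc F n).eval 0) ((itc G n).eval (mu * (b - ζ))) ht = 0} := by
    ext n
    show evA ((itc f n).eval ξ) ((itc g n).eval b) h = 0 ↔
      evA ((itc F n).eval 0) ((itc G n).eval (mu * (b - ζ))) ht = 0
    rw [F50, G5, hev]
  rw [hset]
  by_cases hN : ∃ N, 1 ≤ N ∧ ht ∣ sub2 (itc F N) (itc G N) ht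
  · obtain ⟨N, hN1, hN2⟩ := hN
    refine ep_of_add N hN1 fun n hn => ?_
    have hn' : evA ((itc F n).eval 0) ((itc G n).eval (mu * (b - ζ))) ht = 0 := hn
    have h5 := NRM_dvd _ _ hN2 hn'
    rw [(hSB2 𝕂 𝕂 (itc F N) (itc G N) ht _ _).1, coe_aeval_eq_eval, coe_aeval_eq_eval] at h5
    show evA ((itc F (n + N)).eval 0) ((itc G (n + N)).eval (mu * (b - ζ))) ht = 0
    have h6 : ∀ (P : 𝕂[X]) (z : 𝕂), (itc P (n + N)).eval z = (itc P N).eval ((itc P n).eval z) := by
      intro P z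
      rw [NRM_orb, NRM_orb, NRM_orb, add_comm, orb_add]
    rw [h6, h6]
    exact h5
  · have hN' : ∀ N, 1 ≤ N → ¬ ht ∣ sub2 (itc F N) (itc G N) ht := fun N hN1 hN2 => hN ⟨N, hN1, hN2⟩
    refine EP.of_finite (hCORE p 𝕂 r F G Gs e ht (mu * (b - ζ)) (lam * (c - ξ)) hr F1
      (F2.trans hqdef) G1 (G2.trans hqdef) ?_ ?_ ?_ ?_ ?_ hGe hGsd hcase A1 A2 A3 A4 A5 hN')
    · rw [F3, eval_comp, eval_add, eval_mul, eval_C, eval_X, eval_C, inv_mul_cancel_left₀ hl,
        sub_add_cancel, hc]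
    · intro i j hij
      simp only [F5] at hij
      exact hcinj (sub_left_injective (mul_left_cancel₀ hl hij))
    · intro i j hij
      simp only [F50] at hij
      exact hξinj (sub_left_injective (mul_left_cancel₀ hl hij))
    · intro i j hij
      simp only [G5] at hij
      exact hbinj (sub_left_injective (mul_left_cancel₀ hm hij))
    · intro l
      rw [F50, F3, eval_comp, eval_add, eval_mul, eval_C, eval_X, eval_C,
        inv_mul_cancel_left₀ hl, sub_add_cancel]
      exact hξ l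

theorem thm_NRM (hAFF : St_AFF) (hCORE : St_CORE) (hSB2 : St_SB2) : St_NRM := by
  classical
  intro p _ 𝕂 _ _ _ r f g h a b c hr hf hg hf' hc hcinj hi h1 h2 h3 h4
  by_cases ha : (Set.range (orb f a)).Finite
  · rw [NRM_ret]
    exact ret_ep_of_finite f g a b _ ha
  by_cases hb : (Set.range (orb g b)).Finite
  · rw [NRM_ret, ret_swap]
    exact ret_ep_of_finite g f b a _ hb
  have hainj := orb_injective f a ha
  have hbinj := orb_injective g b hb
  obtain ⟨l₀, hl₀⟩ : ∃ l₀ : ℕ, ∀ l, l₀ ≤ l → (derivative f).eval (orb f a l) ≠ 0 := by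
    have hfin : {l : ℕ | (derivative f).eval (orb f a l) = 0}.Finite := by
      refine Set.Finite.subset ((Finset.finite_toSet (derivative f).roots.toFinset).preimage
        hainj.injOn) ?_
      intro l hl
      show orb f a l ∈ ((derivative f).roots.toFinset : Set 𝕂)
      rw [Finset.mem_coe, Multiset.mem_toFinset]
      exact (mem_roots hf').2 hl
    obtain ⟨N, hN⟩ := hfin.bddAbove
    refine ⟨N + 1, fun l hl h0 => ?_⟩
    have := hN h0
    omega
  refine EP.of_tail l₀ ?_
  have hset : {n : ℕ | n + l₀ ∈ {n : ℕ | evA ((itc f n).eval a) ((itc g n).eval b) h = 0}} =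
      {n : ℕ | evA ((itc f n).eval (orb f a l₀)) ((itc g n).eval (orb g b l₀)) h = 0} := by
    ext n
    show evA ((itc f (n + l₀)).eval a) ((itc g (n + l₀)).eval b) h = 0 ↔
      evA ((itc f n).eval (orb f a l₀)) ((itc g n).eval (orb g b l₀)) h = 0
    rw [NRM_orb, NRM_orb, NRM_orb, NRM_orb, orb_add, orb_add]
  rw [hset]
  refine NRM_main hAFF hCORE hSB2 p 𝕂 r f g h (orb f a l₀) (orb g b l₀) c hr hf hg hc hcinj hi h1
    h2 h3 h4 ?_ ?_ ?_
  · intro i j hij
    simp only [NRM_orb, ← orb_add] at hij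
    have := hainj hij
    omega
  · intro i j hij
    simp only [NRM_orb, ← orb_add] at hij
    have := hbinj hij
    omega
  · intro l
    rw [NRM_orb, ← orb_add]
    exact hl₀ _ (by omega)

end Pool.Agent.NPC
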