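import Pool.Agent.NPC.StA

/-!
# The bounded form `ω`
-/

set_option autoImplicit false

namespace Pool.Agent.NPC

open Polynomial Pool.Agent.Helper11.SP

private lemma OM_aeval_mem {K V : Type} [Field K] [Field V] [Algebra K V] {y : V}
    (St : Str K V y) (q : K[X]) : aeval y q ∈ St.Bd := by
  induction q using Polynomial.induction_on' with
  | add p q hp hq => rw [map_add]; exact St.Bd.add_mem hp hq
  | monomial n a =>
    rw [aeval_monomial]
    exact St.Bd.mul_mem (St.alg_mem a) (St.Bd.pow_mem St.Z_mem n)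

private lemma OM_evA_mem {K V : Type} [Field K] [Field V] [Algebra K V] (x y : V)
    (P : K[X][X]) : evA x y P ∈ Algebra.adjoin K {x, y} := by
  have hx : x ∈ Algebra.adjoin K ({x, y} : Set V) := Algebra.subset_adjoin (by simp)
  have hy : y ∈ Algebra.adjoin K ({x, y} : Set V) := Algebra.subset_adjoin (by simp)
  induction P using Polynomial.induction_on' with
  | add p q hp hq =>
    have : evA x y (p + q) = evA x y p + evA x y q := by
      simp [evA, Polynomial.map_add]
    rw [this]; exact add_mem hp hq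
  | monomial n a =>
    have : evA x y (monomial n a) = aeval x a * y ^ n := by
      simp [evA, Polynomial.map_monomial]
    rw [this]
    refine mul_mem ?_ (pow_mem hy n)
    exact Polynomial.aeval_mem_adjoin_singleton K x (p := a) |> fun h =>
      (Algebra.adjoin_mono (by simp : ({x} : Set V) ⊆ {x, y})) h

private lemma OM_pow_mul_mem {K V : Type} [Field K] [Field V] [Algebra K V] {x y : V}
    (St : Str K V y) (S : V) (hS : S ∈ St.Bd) (hx : S * x ∈ St.Bd) (z : V)
    (hz : z ∈ Algebra.adjoin K ({x, y} : Set V)) : ∃ m : ℕ, S ^ m * z ∈ St.Bd := by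
  induction hz using Algebra.adjoin_induction with
  | mem t ht =>
    simp only [Set.mem_insert_iff, Set.mem_singleton_iff] at ht
    rcases ht with rfl | rfl
    · exact ⟨1, by simpa using hx⟩
    · exact ⟨0, by simpa using St.Z_mem⟩
  | algebraMap r => exact ⟨0, by simpa using St.alg_mem r⟩
  | add a b _ _ ha hb =>
    obtain ⟨m, hm⟩ := ha
    obtain ⟨n, hn⟩ := hb
    refine ⟨m + n, ?_⟩
    have : S ^ (m + n) * (a + b) = S ^ n * (S ^ m * a) + S ^ m * (S ^ n * b) := by ring
    rw [this]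
    exact St.Bd.add_mem (St.Bd.mul_mem (St.Bd.pow_mem hS n) hm)
      (St.Bd.mul_mem (St.Bd.pow_mem hS m) hn)
  | mul a b _ _ ha hb =>
    obtain ⟨m, hm⟩ := ha
    obtain ⟨n, hn⟩ := hb
    refine ⟨m + n, ?_⟩
    have : S ^ (m + n) * (a * b) = (S ^ m * a) * (S ^ n * b) := by ring
    rw [this]
    exact St.Bd.mul_mem hm hn

theorem thm_OM : St_OM := by
  intro K V _ _ _ x y St s δ δ' ν 𝒟 d x₁ y₁ hx₁ hy₁ hdx hν hδ0 hδ'0 hν0 h𝒟 hG hBd
  have hxA : x ∈ Algebra.adjoin K ({x, y} : Set V) := Algebra.subset_adjoin (by simp)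
  have hyA : y ∈ Algebra.adjoin K ({x, y} : Set V) := Algebra.subset_adjoin (by simp)
  have hle : ∀ z ∈ Algebra.adjoin K ({x, y} : Set V), z ∈ fld (K := K) x y := fun z hz =>
    IntermediateField.algebra_adjoin_le_adjoin K _ hz
  have hqx : ∀ q : K[X], aeval x q ∈ Algebra.adjoin K ({x, y} : Set V) := fun q =>
    (Algebra.adjoin_mono (by simp : ({x} : Set V) ⊆ {x, y}))
      (Polynomial.aeval_mem_adjoin_singleton K x)
  have hqy : ∀ q : K[X], aeval y q ∈ Algebra.adjoin K ({x, y} : Set V) := fun q =>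
    (Algebra.adjoin_mono (by simp : ({y} : Set V) ⊆ {x, y}))
      (Polynomial.aeval_mem_adjoin_singleton K y)
  have hSBd : aeval y s ∈ St.Bd := OM_aeval_mem St s
  have hxt : aeval y s * x ∈ St.Bd := by
    obtain ⟨G, hGm, hG0⟩ := hG
    refine St.int_Bd (G.map ((aeval y : K[X] →ₐ[K] V) : K[X] →+* V)) _ (hGm.map _) ?_ hG0
    intro i
    rw [coeff_map]
    exact OM_aeval_mem St _
  obtain ⟨m, hm⟩ := OM_pow_mul_mem St (aeval y s) hSBd hxt (evA x y δ') (OM_evA_mem x y δ')
  -- the derivation at `y`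
  set dy : V := (d y₁ : V) with hdy
  obtain ⟨lam₁, hl₁⟩ := h𝒟 y₁
  rw [hy₁] at hl₁
  -- the element `s(y) x`
  obtain ⟨lam₂, hl₂⟩ := h𝒟 (aeval y₁ s * x₁)
  have hcq : ∀ q : K[X], ((aeval y₁ q : fld (K := K) x y) : V) = aeval y q := by
    intro q
    have h1 := Polynomial.aeval_algHom_apply (fld (K := K) x y).val y₁ q
    have h2 : (fld (K := K) x y).val y₁ = y := hy₁
    rw [h2] at h1
    exact h1.symm
  have hcs := hcq s
  have hcs' := hcq (derivative s)
  have hc : ((aeval y₁ s * x₁ : fld (K := K) x y) : V) = aeval y s * x := by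
    rw [MulMemClass.coe_mul, hcs, hx₁]
  have hd : ((d (aeval y₁ s * x₁) : fld (K := K) x y) : V)
      = aeval y s + x * aeval y (derivative s) * dy := by
    rw [Derivation.leibniz, hdx, Derivation.map_aeval]
    simp only [smul_eq_mul, mul_one, AddMemClass.coe_add, MulMemClass.coe_mul, hcs, hcs', hx₁]
    rw [← hdy]
    ring
  rw [hc, hd] at hl₂
  have hω : aeval y s ^ m * evA x y δ' * 𝒟 (aeval y s * x) ∈ St.Bd :=
    St.Bd.mul_mem hm (hBd _ hxt)
  have hzA : evA x y δ' * x * aeval y (derivative s) * aeval y s ^ m ∈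
      Algebra.adjoin K ({x, y} : Set V) :=
    mul_mem (mul_mem (mul_mem (OM_evA_mem x y δ') hxA) (hqy _)) (pow_mem (hqy _) m)
  have hnA : (aeval y s) ^ (m + 1) * evA x y ν + aeval x δ *
      (evA x y δ' * x * aeval y (derivative s) * aeval y s ^ m) ∈
      Algebra.adjoin K ({x, y} : Set V) :=
    add_mem (mul_mem (pow_mem (hqy _) _) (OM_evA_mem x y ν)) (mul_mem (hqx _) hzA)
  refine ⟨m, (aeval y s) ^ (m + 1) * evA x y ν + aeval x δ *
      (evA x y δ' * x * aeval y (derivative s) * aeval y s ^ m),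
    aeval y s ^ m * evA x y δ' * lam₂ - ((aeval y s) ^ (m + 1) * evA x y ν + aeval x δ *
      (evA x y δ' * x * aeval y (derivative s) * aeval y s ^ m)) / aeval x δ * lam₁,
    evA x y δ' * x * aeval y (derivative s) * aeval y s ^ m, hnA, hzA, ?_, rfl, ?_⟩
  · refine sub_mem (mul_mem (mul_mem (pow_mem (hle _ (hqy _)) m) (hle _ (OM_evA_mem x y δ')))
      lam₂.2) (mul_mem (div_mem (hle _ hnA) (hle _ (hqx _))) lam₁.2)
  · convert hω using 1
    rw [hl₁, hl₂]
    have key : ((aeval y s) ^ (m + 1) * evA x y ν + aeval x δ *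
      (evA x y δ' * x * aeval y (derivative s) * aeval y s ^ m)) / aeval x δ * dy =
      aeval y s ^ m * evA x y δ' * (aeval y s + x * aeval y (derivative s) * dy) := by
      rw [div_mul_eq_mul_div, div_eq_iff hδ0]
      linear_combination (aeval y s) ^ (m + 1) * hν
    linear_combination (𝒟 x) * key

end Pool.Agent.NPC
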