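import Pool.Agent.NPC.GST

/-!
# [ORB] Orbits at the places
-/

set_option autoImplicit false

namespace Pool.Agent.NPC

open Polynomial

theorem thm_ORB : St_ORB := by
  intro p K L _ _ _ S f x hf hdeg hfR hx0 hx hinj
  classical
  have := S.fin
  have hxR : ∀ l, x l ∈ S.R := by
    intro l
    induction l with
    | zero => exact hx0
    | succ l ih =>
      rw [hx, eval_eq_sum_range]
      exact Subring.sum_mem _ (fun k _ => S.R.mul_mem (hfR k) (S.R.pow_mem ih k))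
  refine ⟨hxR, ?_⟩
  have hM : ∀ j, ∃ M : ℝ, 2 ≤ M ∧ ∀ y : K, M ≤ ‖S.σ j y‖ → 2 * ‖S.σ j y‖ ≤ ‖S.σ j (f.eval y)‖ := by
    intro j
    have hb' : f.map (S.σ j) ≠ 0 := (Polynomial.map_ne_zero_iff (S.σ j).injective).mpr hf.ne_zero
    obtain ⟨M, hM⟩ := ult_dom (f.map (S.σ j)) hb'
    refine ⟨max 2 M, le_max_left _ _, ?_⟩
    intro y hy
    have h1 := hM (S.σ j y) ((le_max_right _ _).trans hy)
    rw [eval_map_apply, leadingCoeff_map, natDegree_map, hf.leadingCoeff, map_one, norm_one,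
      one_mul] at h1
    rw [h1]
    have h2 : 2 ≤ ‖S.σ j y‖ := (le_max_left _ _).trans hy
    calc 2 * ‖S.σ j y‖ ≤ ‖S.σ j y‖ * ‖S.σ j y‖ := by nlinarith
      _ = ‖S.σ j y‖ ^ 2 := by ring
      _ ≤ ‖S.σ j y‖ ^ f.natDegree := pow_le_pow_right₀ (by linarith) hdeg
  choose M hM2 hMf using hM
  refine ⟨{j | ∃ l, M j ≤ ‖S.σ j (x l)‖}, ?_, ?_, ?_⟩
  · by_contra hE
    rw [Set.not_nonempty_iff_eq_empty] at hE
    obtain ⟨M₀, hM₀⟩ := (Set.finite_range M).bddAbove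
    have h1 : Set.range x ⊆ {u : K | u ∈ S.R ∧ ∀ j, ‖S.σ j u‖ ≤ M₀} := by
      rintro _ ⟨l, rfl⟩
      refine ⟨hxR l, ?_⟩
      intro j
      have h2 : j ∉ ({j | ∃ l, M j ≤ ‖S.σ j (x l)‖} : Set S.I) := by
        rw [hE]
        simp
      have h3 : ‖S.σ j (x l)‖ < M j := by
        by_contra h4
        exact h2 ⟨l, not_lt.mp h4⟩
      exact h3.le.trans (hM₀ ⟨j, rfl⟩)
    exact (Set.infinite_range_of_injective hinj) ((S.north M₀).subset h1)
  · intro j hj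
    refine ⟨M j, fun l => ?_⟩
    by_contra h4
    exact hj ⟨l, (not_le.mp h4).le⟩
  · rintro j ⟨l₁, hl₁⟩ B
    have hgrow : ∀ i : ℕ, M j ≤ ‖S.σ j (x (l₁ + i))‖ ∧ (2 : ℝ) ^ i ≤ ‖S.σ j (x (l₁ + i))‖ := by
      intro i
      induction i with
      | zero =>
        refine ⟨hl₁, ?_⟩
        have := hM2 j
        simp only [pow_zero, add_zero]
        linarith
      | succ i ih =>
        obtain ⟨h1, h2⟩ := ih
        have h3 := hMf j (x (l₁ + i)) h1
        rw [← hx] at h3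
        have h4 : l₁ + (i + 1) = l₁ + i + 1 := by ring
        rw [h4]
        have := hM2 j
        refine ⟨by linarith, ?_⟩
        rw [pow_succ]
        linarith
    obtain ⟨i₀, hi₀⟩ := pow_unbounded_of_one_lt B (one_lt_two (α := ℝ))
    refine ⟨l₁ + i₀, ?_⟩
    intro l hl
    obtain ⟨i, rfl⟩ := Nat.exists_eq_add_of_le hl
    have h1 := (hgrow (i₀ + i)).2
    have h2 : l₁ + (i₀ + i) = l₁ + i₀ + i := by ring
    rw [h2] at h1
    have h3 : (2 : ℝ) ^ i₀ ≤ 2 ^ (i₀ + i) := pow_le_pow_right₀ one_le_two (by omega)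
    linarith

end Pool.Agent.NPC
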