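import Pool.Agent.NPC.StB

/-!
# NPC PL: place systems exist (helper88)
-/

set_option autoImplicit false

namespace Pool.Agent.NPC

open Polynomial

/-- lifting a monic polynomial along a map whose range contains its coefficients -/
private theorem PL_lift {A 𝕂 : Type} [CommRing A] [Field 𝕂] (f : A →+* 𝕂) (Q : 𝕂[X])
    (hQ : Q.Monic) (h : ∀ i, ∃ a, f a = Q.coeff i) : ∃ P : A[X], P.Monic ∧ P.map f = Q := by
  have h1 : Q ∈ lifts f := (lifts_iff_coeff_lifts Q).2 fun i => by
    obtain ⟨a, ha⟩ := h i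
    exact ⟨a, ha⟩
  obtain ⟨P, h2, _, h3⟩ := lifts_and_natDegree_eq_and_monic h1 hQ
  exact ⟨P, h3, h2⟩

theorem thm_PL (hBSE : St_BSE) (hDX : St_DX) (hSPN : St_SPN) (hKER : St_KER) (hBDV : St_BDV)
    (hINT : St_INT) (hNOR : St_NOR) (hEMB : St_EMB) : St_PL := by
  intro p hp 𝕂 _ _ _ B hB
  let _ : Algebra (ZMod p) 𝕂 := ZMod.algebra 𝕂 p
  obtain ⟨n, τ, hτ, hBz⟩ := hEMB p 𝕂 B hB
  obtain ⟨k, L, _, _, _, _, _, _, B0, hB0⟩ := hBSE p n
  obtain ⟨ψ, h1, h2, h3⟩ := hB0 𝕂 τ hτ
  let _ : Algebra k 𝕂 := ψ.toAlgebra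
  -- integrality
  have hint : ∀ z ∈ B, ∃ P : k[X], P.Monic ∧ (∀ i, P.coeff i ∈ B0.A) ∧ aeval z P = 0 := by
    intro z hz
    obtain ⟨Q, hQ, hQ0⟩ := (hBz z hz).1
    obtain ⟨P, hP, hPQ⟩ := PL_lift (ψ.comp B0.A.subtype)
      (Q.map (algebraMap (Algebra.adjoin (ZMod p) (Set.range τ)) 𝕂)) (hQ.map _) (fun i => by
        rw [coeff_map]
        obtain ⟨a, ha, hae⟩ := h3 _ (Q.coeff i).2
        exact ⟨⟨a, ha⟩, hae⟩)
    refine ⟨P.map B0.A.subtype, hP.map _, fun i => ?_, ?_⟩
    · rw [coeff_map]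
      exact (P.coeff i).2
    · rw [aeval_def, eval₂_eq_eval_map, Polynomial.map_map]
      change (P.map (ψ.comp B0.A.subtype)).eval z = 0
      rw [hPQ, eval_map]
      exact hQ0
  -- the field generated by `τ` is in the range of `ψ`
  have hle : ∀ y ∈ IntermediateField.adjoin (ZMod p) (Set.range τ), ∃ a, ψ a = y := by
    intro y hy
    induction hy using IntermediateField.adjoin_induction with
    | mem x hx =>
      obtain ⟨i, rfl⟩ := hx
      exact ⟨B0.t i, h1 i⟩
    | algebraMap c =>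
      refine ⟨(c.val : k), ?_⟩
      rw [map_natCast]
      have h4 : algebraMap (ZMod p) 𝕂 ((c.val : ℕ) : ZMod p) = ((c.val : ℕ) : 𝕂) := map_natCast _ _
      rw [ZMod.natCast_zmod_val] at h4
      exact h4.symm
    | add x y _ _ hx hy =>
      obtain ⟨a, rfl⟩ := hx
      obtain ⟨b, rfl⟩ := hy
      exact ⟨a + b, map_add _ _ _⟩
    | inv x _ hx =>
      obtain ⟨a, rfl⟩ := hx
      exact ⟨a⁻¹, map_inv₀ _ _⟩
    | mul x y _ _ hx hy =>
      obtain ⟨a, rfl⟩ := hx
      obtain ⟨b, rfl⟩ := hy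
      exact ⟨a * b, map_mul _ _ _⟩
  -- separability
  have hsep : ∀ z ∈ B, IsIntegral k z ∧ IsSeparable k z := by
    intro z hz
    have hs := (hBz z hz).2
    have hzi := hs.isIntegral
    obtain ⟨P, hP, hPQ⟩ := PL_lift ψ
      ((minpoly (IntermediateField.adjoin (ZMod p) (Set.range τ)) z).map
        (algebraMap (IntermediateField.adjoin (ZMod p) (Set.range τ)) 𝕂))
      ((minpoly.monic hzi).map _) (fun i => by
        rw [coeff_map]
        exact hle _ (SetLike.coe_mem _))
    have hPsep : P.Separable := by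
      rw [← separable_map ψ, hPQ, separable_map]
      exact hs
    have hP0 : aeval z P = 0 := by
      rw [aeval_def, eval₂_eq_eval_map]
      change (P.map ψ).eval z = 0
      rw [hPQ, eval_map, ← aeval_def]
      exact minpoly.aeval _ _
    exact ⟨⟨P, hP, hP0⟩, hPsep.of_dvd (minpoly.dvd k z hP0)⟩
  -- the field `K`
  obtain ⟨K, hK⟩ : ∃ K : IntermediateField k 𝕂, K = IntermediateField.adjoin k B := ⟨_, rfl⟩
  have hBK : ∀ z ∈ B, z ∈ K := fun z hz => by
    rw [hK]
    exact IntermediateField.subset_adjoin k B hz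
  have hfin : FiniteDimensional k K := by
    rw [hK]
    have : Finite B := hB
    exact IntermediateField.finiteDimensional_adjoin fun z hz => (hsep z hz).1
  have hKsep : Algebra.IsSeparable k K := by
    rw [hK]
    exact (IntermediateField.isSeparable_adjoin_iff_isSeparable k 𝕂).2 fun z hz => (hsep z hz).2
  have hchar : CharP K p := (algebraMap K 𝕂).charP (algebraMap K 𝕂).injective p
  let _ : Algebra k L := B0.φ.toAlgebra
  have hIfin : Finite (K →ₐ[k] L) := Finite.algHom k K L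
  choose D hD using fun i => hDX k K (B0.d i)
  obtain ⟨R, r1, r2, r3, r4, r5⟩ := hINT k K B0.A B0.icl B0.noe B0.frac
  obtain ⟨n1, N, n2⟩ := hNOR k K L B0.A B0.icl B0.frac B0.one_le B0.fin
  have hspan := hSPN p k K n B0.t B0.span
  have hDt : ∀ i j, D i (algebraMap k K (B0.t j)) = if i = j then 1 else 0 := by
    intro i j
    rw [hD, B0.dt]
    split_ifs
    · exact map_one _
    · exact map_zero _
  choose C hC using fun i => hBDV k K L (B0.d i) (D i) (B0.t i) (hD i) (B0.bd i) (B0.norm_t i)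
  let S : PS p K L :=
    { n := n
      t := fun i => algebraMap k K (B0.t i)
      D := D
      R := R
      I := K →ₐ[k] L
      fin := hIfin
      σ := fun τ => (τ : K →+* L)
      tR := fun i => r2 _ (B0.tA i)
      Dt := hDt
      ker := hKER p K n _ D hDt hspan
      span := hspan
      frac := r3
      Rint := r4
      RD := r5 n B0.d D B0.dA hD
      bD := by
        refine ⟨∑ i, |C i|, fun i j z => (hC i z j).trans ?_⟩
        refine mul_le_mul_of_nonneg_right ?_ (norm_nonneg _)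
        exact (le_abs_self _).trans
          (Finset.single_le_sum (f := fun i => |C i|) (fun i _ => abs_nonneg _) (Finset.mem_univ i))
      north := fun M => by
        refine (n1 M).subset ?_
        rintro u ⟨hu1, hu2⟩
        exact ⟨(r1 u).1 hu1, hu2⟩
      liou := ⟨N, fun u hu hu0 j M hM hj => n2 u ((r1 u).1 hu) hu0 j M hM hj⟩ }
  refine ⟨K, L, inferInstance, inferInstance, inferInstance, hchar, inferInstance, S, ?_⟩
  intro z hz
  refine ⟨⟨z, hBK z hz⟩, (r1 _).2 ?_, rfl⟩
  obtain ⟨P, hP, hPA, hP0⟩ := hint z hz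
  refine ⟨P, hP, hPA, ?_⟩
  apply (algebraMap K 𝕂).injective
  rw [map_zero, ← Polynomial.aeval_algebraMap_apply]
  exact hP0

end Pool.Agent.NPC
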