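import Pool.Agent.NPC.StC

/-!
# NPC [PST]: postcritical values lie on finitely many orbits
-/

set_option autoImplicit false

namespace Pool.Agent.NPC

open Polynomial Pool.Agent.Helper11.SP

/-- uniqueness of the representation `G(X^(p^e))` with `G' ≠ 0` -/
private theorem PST_uniq_le {p : ℕ} [Fact p.Prime] {K : Type} [Field K] [CharP K p] {a b : ℕ}
    (hab : a ≤ b) {G H : K[X]} (h : expand K (p ^ a) G = expand K (p ^ b) H)
    (hG : derivative G ≠ 0) : G = H := by
  have hp : 0 < p := (Fact.out : p.Prime).pos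
  obtain ⟨d, rfl⟩ := Nat.exists_eq_add_of_le hab
  rw [pow_add, ← expand_expand] at h
  have h1 : G = expand K (p ^ d) H := expand_injective (pow_pos hp a) h
  rcases Nat.eq_zero_or_pos d with rfl | hd
  · rw [pow_zero, expand_one] at h1
    exact h1
  · exfalso
    apply hG
    have h2 : ((p ^ d : ℕ) : K[X]) = 0 := by
      rw [Nat.cast_pow, CharP.cast_eq_zero K[X] p, zero_pow hd.ne']
    rw [h1, derivative_expand, h2, zero_mul, mul_zero]

private theorem PST_uniq {p : ℕ} [Fact p.Prime] {K : Type} [Field K] [CharP K p] {a b : ℕ}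
    {G H : K[X]} (h : expand K (p ^ a) G = expand K (p ^ b) H)
    (hG : derivative G ≠ 0) (hH : derivative H ≠ 0) : G = H := by
  rcases le_total a b with hab | hab
  · exact PST_uniq_le hab h hG
  · exact (PST_uniq_le hab h.symm hH).symm

private theorem PST_expand_comp {K : Type} [Field K] (n : ℕ) (f h : K[X]) :
    expand K n (f.comp h) = f.comp (expand K n h) := by
  rw [expand_eq_comp_X_pow, expand_eq_comp_X_pow, comp_assoc]

private theorem PST_comp_expand {K : Type} [Field K] (n : ℕ) (f h : K[X]) :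
    (expand K n f).comp h = f.comp (h ^ n) := by
  rw [expand_eq_comp_X_pow, comp_assoc, X_pow_comp]

/-- the iterates with their critical values -/
private theorem PST_rep {p : ℕ} [Fact p.Prime] {𝕂 : Type} [Field 𝕂] [IsAlgClosed 𝕂] [CharP 𝕂 p]
    {g g₁ : 𝕂[X]} {e : ℕ} (hg : g = expand 𝕂 (p ^ e) g₁) (hg₁ : derivative g₁ ≠ 0) (i : ℕ) :
    ∃ (e' : ℕ) (G : 𝕂[X]), itc g i = expand 𝕂 (p ^ e') G ∧ derivative G ≠ 0 ∧
      ∀ y, (derivative G).eval y = 0 → ∃ (κ : 𝕂) (l : ℕ), (derivative g₁).eval κ = 0 ∧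
        G.eval y = (itc g l).eval (g₁.eval κ) := by
  have hp : 0 < p := (Fact.out : p.Prime).pos
  induction i with
  | zero =>
    refine ⟨0, X, ?_, ?_, fun y hy => ?_⟩
    · rw [pow_zero, expand_one]
      rfl
    · rw [derivative_X]
      exact one_ne_zero
    · rw [derivative_X, eval_one] at hy
      exact absurd hy one_ne_zero
  | succ i ih =>
    obtain ⟨e', G, h1, h2, h3⟩ := ih
    have hder : derivative (G.map (iterateFrobenius 𝕂 p e)) ≠ 0 := by
      rw [derivative_map]
      intro h0
      apply h2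
      exact (Polynomial.map_eq_zero _).1 h0
    have hcomp : derivative (g₁.comp (G.map (iterateFrobenius 𝕂 p e))) =
        derivative (G.map (iterateFrobenius 𝕂 p e)) *
          (derivative g₁).comp (G.map (iterateFrobenius 𝕂 p e)) := derivative_comp _ _
    refine ⟨e' + e, g₁.comp (G.map (iterateFrobenius 𝕂 p e)), ?_, ?_, ?_⟩
    · have h4 : expand 𝕂 (p ^ e) (G.map (iterateFrobenius 𝕂 p e)) = G ^ (p ^ e) := by
        rw [← map_iterateFrobenius_expand p G e, map_expand]
      rw [itc_succ, h1, hg, pow_add, ← expand_expand, PST_expand_comp (p ^ e), h4,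
        PST_expand_comp, map_pow, PST_comp_expand]
    · rw [hcomp]
      refine mul_ne_zero hder fun h0 => ?_
      rcases comp_eq_zero_iff.1 h0 with h5 | ⟨-, h5⟩
      · exact hg₁ h5
      · apply hder
        rw [h5, derivative_C]
    · intro y hy
      rw [hcomp, eval_mul, eval_comp] at hy
      rcases mul_eq_zero.1 hy with h5 | h5
      · obtain ⟨z, hz⟩ := IsAlgClosed.exists_pow_nat_eq y (pow_pos hp e)
        have hz' : y = iterateFrobenius 𝕂 p e z := by
          rw [iterateFrobenius_def, hz]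
        have h6 : (derivative G).eval z = 0 := by
          rw [derivative_map, hz', eval_map, eval₂_at_apply] at h5
          exact (map_eq_zero _).1 h5
        obtain ⟨κ, l, h7, h8⟩ := h3 z h6
        refine ⟨κ, l + 1, h7, ?_⟩
        rw [eval_comp, hz', eval_map, eval₂_at_apply, iterateFrobenius_def, itc_succ, eval_comp,
          ← h8]
        conv_rhs => rw [hg]
        rw [expand_eval]
      · refine ⟨_, 0, h5, ?_⟩
        rw [eval_comp]
        show _ = (X : 𝕂[X]).eval _
        rw [eval_X]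

theorem thm_PST : St_PST := by
  intro p _ 𝕂 _ _ _ g g₁ e s hg hg₁ hs
  obtain ⟨i, e'', G, y, h1, h2, h3, h4⟩ := hs
  obtain ⟨e', G', h5, h6, h7⟩ := PST_rep hg hg₁ i
  have h8 : G = G' := PST_uniq (h1.symm.trans h5) h2 h6
  subst h8
  rw [coe_aeval_eq_eval] at h3 h4
  obtain ⟨κ, l, h9, h10⟩ := h7 y h3
  exact ⟨κ, l, h9, h4.symm.trans h10⟩

end Pool.Agent.NPC
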