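import Pool.Agent.NPC.StC

/-!
# NPC, module R1: step 1 for the orbits (assembly), the case `deg g₁ ≥ 2`
-/

set_option autoImplicit false

namespace Pool.Agent.NPC

open Polynomial Pool.Agent.Helper11.SP

section R1

variable {K V : Type} [Field K] [Field V] [Algebra K V]

private noncomputable def R1E (x y : V) : K[X][X] →+* V :=
  (evalRingHom y).comp (mapRingHom ((aeval x : K[X] →ₐ[K] V) : K[X] →+* V))

private theorem R1E_eq (x y : V) (P : K[X][X]) : evA x y P = R1E x y P := by
  unfold evA R1E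
  rfl

private theorem R1_mul (x y : V) (P Q : K[X][X]) : evA x y (P * Q) = evA x y P * evA x y Q := by
  simp only [R1E_eq, map_mul]

private theorem R1_add (x y : V) (P Q : K[X][X]) : evA x y (P + Q) = evA x y P + evA x y Q := by
  simp only [R1E_eq, map_add]

private theorem R1_neg (x y : V) (P : K[X][X]) : evA x y (-P) = -evA x y P := by
  simp only [R1E_eq, map_neg]

private theorem R1_C (x y : V) (q : K[X]) : evA x y (C q) = aeval x q := by
  unfold evA
  rw [map_C, eval_C]
  rfl

private theorem R1_X (x y : V) : evA x y (X : K[X][X]) = y := by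
  unfold evA
  rw [map_X, eval_X]

private theorem R1_mapC (x y : V) (q : K[X]) : evA x y (q.map C) = aeval y q := by
  unfold evA
  rw [Polynomial.map_map, eval_map, aeval_def]
  congr 1
  refine RingHom.ext fun a => ?_
  simp

private theorem R1_swp (x y : V) (P : K[X][X]) : evA x y (swp P) = evA y x P := by
  rw [R1E_eq, R1E_eq]
  have : (R1E x y).comp ((Bivariate.swap (R := K) : K[X][X] ≃ₐ[K] K[X][X]) : K[X][X] →+* K[X][X])
      = R1E y x := by
    refine Polynomial.ringHom_ext' ?_ ?_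
    · refine Polynomial.ringHom_ext' ?_ ?_
      · refine RingHom.ext fun a => ?_
        show R1E x y (Bivariate.swap (C (C a))) = R1E y x (C (C a))
        rw [Bivariate.swap_C_C, ← R1E_eq, ← R1E_eq, R1_C, R1_C]
        simp
      · show R1E x y (Bivariate.swap (C X)) = R1E y x (C X)
        rw [Bivariate.swap_X, ← R1E_eq, ← R1E_eq, R1_C, R1_X, aeval_X]
    · show R1E x y (Bivariate.swap X) = R1E y x X
      rw [Bivariate.swap_Y, ← R1E_eq, ← R1E_eq, R1_C, R1_X, aeval_X]
  exact RingHom.congr_fun this P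

private theorem R1_coeff_mapD {A : Type} [CommRing A] (d : A → A) (hd : d 0 = 0) (P : A[X])
    (k : ℕ) : (mapD d P).coeff k = d (P.coeff k) := by
  unfold mapD
  rw [finsetSum_coeff]
  simp only [coeff_C_mul_X_pow]
  rw [Finset.sum_ite_eq]
  split_ifs with h
  · rfl
  · rw [coeff_eq_zero_of_natDegree_lt, hd]
    rw [Finset.mem_range] at h
    omega

private theorem R1_dIn_coeff (P : K[X][X]) (k : ℕ) : (dIn P).coeff k = derivative (P.coeff k) :=
  R1_coeff_mapD _ (by simp) P k

private theorem R1_swp_dIn (P : K[X][X]) : swp (dIn P) = derivative (swp P) := by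
  induction P using Polynomial.induction_on' with
  | add P Q hP hQ =>
    have : dIn (P + Q) = dIn P + dIn Q := by
      ext1 k
      rw [coeff_add, R1_dIn_coeff, R1_dIn_coeff, R1_dIn_coeff, coeff_add, derivative_add]
    rw [this]
    show Bivariate.swap (dIn P + dIn Q) = derivative (Bivariate.swap (P + Q))
    rw [map_add, map_add, derivative_add]
    exact congrArg₂ _ hP hQ
  | monomial n q =>
    have : dIn (monomial n q) = monomial n (derivative q) := by
      ext1 k
      rw [R1_dIn_coeff, coeff_monomial, coeff_monomial]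
      split_ifs <;> simp
    rw [this]
    show Bivariate.swap (monomial n (derivative q)) = derivative (Bivariate.swap (monomial n q))
    rw [Bivariate.swap_monomial, Bivariate.swap_monomial, derivative_mul, derivative_C, mul_zero,
      add_zero, derivative_map]

private theorem R1_compinj {φ : K[X]} (hφ : 0 < φ.natDegree) :
    Function.Injective (compRingHom φ : K[X] →+* K[X]) := by
  rw [injective_iff_map_eq_zero]
  intro q hq
  have hq : q.comp φ = 0 := hq
  rcases comp_eq_zero_iff.1 hq with h | ⟨-, h⟩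
  · exact h
  · rw [h, natDegree_C] at hφ
    exact absurd hφ (lt_irrefl _)

private theorem R1_mapC_deg (ψ : K[X]) : (ψ.map (C : K →+* K[X])).natDegree = ψ.natDegree :=
  natDegree_map_eq_of_injective C_injective _

private theorem R1_sub2_ne {φ ψ : K[X]} (hφ : 0 < φ.natDegree) (hψ : 0 < ψ.natDegree)
    {P : K[X][X]} (hP : P ≠ 0) : sub2 φ ψ P ≠ 0 := by
  intro h
  unfold sub2 at h
  rcases comp_eq_zero_iff.1 h with h | ⟨-, h⟩
  · exact hP ((Polynomial.map_eq_zero_iff (R1_compinj hφ)).1 h)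
  · have := R1_mapC_deg ψ
    rw [h, natDegree_C] at this
    omega

private theorem R1_sub2_lc {φ ψ : K[X]} (hφ : 0 < φ.natDegree) (hψ : 0 < ψ.natDegree)
    (hm : ψ.Monic) (P : K[X][X]) : (sub2 φ ψ P).leadingCoeff = P.leadingCoeff.comp φ := by
  unfold sub2
  rw [leadingCoeff_comp (by rw [R1_mapC_deg]; omega),
    leadingCoeff_map_of_injective (R1_compinj hφ), (hm.map C).leadingCoeff, one_pow, mul_one]
  rfl

/-- evaluation into the field generated by one element -/
private noncomputable def R1ev (x : V) : K[X] →+* fld1 (K := K) x :=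
  ((aeval (⟨x, IntermediateField.subset_adjoin K {x} rfl⟩ : fld1 (K := K) x) :
    K[X] →ₐ[K] fld1 (K := K) x) : K[X] →+* fld1 (K := K) x)

private theorem R1ev_coe (x : V) (q : K[X]) : ((R1ev x q : fld1 (K := K) x) : V) = aeval x q := by
  unfold R1ev
  show ((aeval (⟨x, IntermediateField.subset_adjoin K {x} rfl⟩ : fld1 (K := K) x) q :
    fld1 (K := K) x) : V) = aeval x q
  have := (aeval_algebraMap_apply V (⟨x, IntermediateField.subset_adjoin K {x} rfl⟩ :
    fld1 (K := K) x) q)
  exact this.symm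

private theorem R1ev_aeval (x y : V) (P : K[X][X]) : aeval y (P.map (R1ev x)) = evA x y P := by
  unfold evA
  rw [aeval_def, eval₂_map, eval_map]
  congr 1
  refine RingHom.ext fun q => ?_
  exact R1ev_coe x q

private theorem R1ev_inj {x : V} (hx : Transcendental K x) :
    Function.Injective (R1ev (K := K) x) := by
  rw [injective_iff_map_eq_zero]
  intro q hq
  have h1 := R1ev_coe (K := K) x q
  rw [hq] at h1
  have h1 : aeval x q = 0 := h1.symm
  exact (transcendental_iff.1 hx) q h1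

private theorem R1_alg {x y : V} (hx : Transcendental K x) {P : K[X][X]} (hP : P ≠ 0)
    (h : evA x y P = 0) : IsAlgebraic (fld1 (K := K) x) y :=
  ⟨P.map (R1ev x), fun h0 => hP ((Polynomial.map_eq_zero_iff (R1ev_inj hx)).1 h0),
    by rw [R1ev_aeval, h]⟩

private theorem R1_sep {x y : V} {P : K[X][X]} (h : evA x y P = 0)
    (h' : evA x y (derivative P) ≠ 0) : IsSeparable (fld1 (K := K) x) y := by
  have e1 : aeval y (P.map (R1ev (K := K) x)) = 0 := by rw [R1ev_aeval, h]
  have e2 : aeval y (derivative (P.map (R1ev (K := K) x))) ≠ 0 := by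
    rw [derivative_map, R1ev_aeval]; exact h'
  have hQ : P.map (R1ev (K := K) x) ≠ 0 := by
    intro h0
    rw [h0] at e2
    simp at e2
  have hal : IsAlgebraic (fld1 (K := K) x) y := ⟨_, hQ, e1⟩
  have hint : IsIntegral (fld1 (K := K) x) y := hal.isIntegral
  obtain ⟨q, hq⟩ := minpoly.dvd (fld1 (K := K) x) y e1
  unfold IsSeparable
  rw [separable_iff_derivative_ne_zero (minpoly.irreducible hint)]
  intro h0
  apply e2
  rw [hq, derivative_mul, h0, zero_mul, zero_add, map_mul, minpoly.aeval, zero_mul]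

private theorem R1_rel (hREL : St_REL) {x y : V} (hx : Transcendental K x) {h : K[X][X]}
    (hi : Irreducible h) (h0 : evA x y h = 0) : Rel x y h := by
  obtain ⟨F, hF, -, hR⟩ := hREL K V x y hx (R1_alg hx hi.ne_zero h0)
  have h1 : F ∣ h := (hR h).1 h0
  have h2 : h ∣ F := (hF.dvd_symm hi) h1
  intro P
  rw [hR P]
  exact ⟨fun h3 => h2.trans h3, fun h3 => h1.trans h3⟩

private theorem R1_it (f : K[X]) (x : ℕ → V) (hx : ∀ j, aeval (x (j + 1)) f = x j) (j : ℕ) :
    ∀ k, aeval (x (k + j)) (itc f j) = x k := by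
  induction j with
  | zero => intro k; unfold itc; simp
  | succ j ih =>
    intro k
    rw [itc_succ, aeval_comp]
    have := ih (k + 1)
    rw [show k + (j + 1) = k + 1 + j by ring, this, hx]

private theorem R1_itder {f : K[X]} (hf : 0 < f.natDegree) (hf' : derivative f ≠ 0) (j : ℕ) :
    derivative (itc f j) ≠ 0 := by
  induction j with
  | zero => unfold itc; simp
  | succ j ih =>
    rw [itc_succ, derivative_comp]
    refine mul_ne_zero ih ?_
    intro h
    rcases comp_eq_zero_iff.1 h with h | ⟨-, h⟩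
    · exact hf' h
    · have := itc_natDegree f j
      rw [h, natDegree_C] at this
      have : 0 < f.natDegree ^ j := by positivity
      omega

private theorem R1_itadd (f : K[X]) (i j : ℕ) : itc f (i + j) = (itc f i).comp (itc f j) := by
  induction i with
  | zero => rw [zero_add]; unfold itc; simp
  | succ i ih => rw [show i + 1 + j = (i + j) + 1 by ring, itc_succ, ih, itc_succ, comp_assoc]

private theorem R1_dvd {f : K[X]} {c : K} (hc : (derivative f).eval c = 0) {i₀ i : ℕ}
    (h1 : 1 ≤ i₀) (h2 : i₀ < i) : (itc f (i - i₀) - C c) ∣ derivative (itc f i) := by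
  have e1 : itc f i = ((itc f (i₀ - 1)).comp f).comp (itc f (i - i₀)) := by
    have e2 : itc f i₀ = (itc f (i₀ - 1)).comp f := by
      have := R1_itadd f (i₀ - 1) 1
      rw [show i₀ - 1 + 1 = i₀ by omega] at this
      rw [this]
      congr 1
      unfold itc
      simp
    rw [← e2, ← R1_itadd, show i₀ + (i - i₀) = i by omega]
  rw [e1, derivative_comp, derivative_comp]
  apply Dvd.dvd.mul_left
  rw [mul_comp]
  apply Dvd.dvd.mul_right
  have : X - C c ∣ derivative f := dvd_iff_isRoot.2 hc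
  obtain ⟨w, hw⟩ := this
  rw [hw, mul_comp, sub_comp, X_comp, C_comp]
  exact dvd_mul_right _ _

private theorem R1_trans {X Y z : V} (hY : IsAlgebraic (fld1 (K := K) X) Y)
    (hz : IsAlgebraic (fld (K := K) X Y) z) : IsAlgebraic (fld1 (K := K) X) z := by
  let A : IntermediateField (fld1 (K := K) X) V := algebraicClosure (fld1 (K := K) X) V
  have hle : ∀ w : V, w ∈ fld (K := K) X Y → w ∈ A := by
    have : fld (K := K) X Y ≤ A.restrictScalars K := by
      rw [IntermediateField.adjoin_le_iff]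
      intro w hw
      rcases hw with rfl | hw
      · show w ∈ A
        exact A.algebraMap_mem (⟨w, IntermediateField.subset_adjoin K {w} rfl⟩ :
          fld1 (K := K) w)
      · rw [Set.mem_singleton_iff] at hw
        rw [hw]
        exact mem_algebraicClosure_iff.2 hY
    exact fun w hw => this hw
  have hA : IsAlgebraic A z := by
    obtain ⟨P, hP, hPz⟩ := hz
    let ι : fld (K := K) X Y →+* A :=
      { toFun := fun w => ⟨w, hle w w.2⟩
        map_one' := rfl
        map_mul' := fun _ _ => rfl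
        map_zero' := rfl
        map_add' := fun _ _ => rfl }
    refine ⟨P.map ι, ?_, ?_⟩
    · rwa [Ne, Polynomial.map_eq_zero_iff ι.injective]
    · rw [aeval_def, eval₂_map]
      exact hPz
  exact hA.restrictScalars _

end R1

theorem thm_R1 (hITG : St_ITG) (hREL : St_REL) (hRAT : St_RAT) (hUNI : St_UNI) (hSB2 : St_SB2)
    (hS1 : St_S1) (hHL : St_HL) : St_R1 := by
  intro p _ K V 𝕂 _ _ _ _ _ _ _ n s r t D 𝒟 f g g₁ e h x x' y c i₀ hspan hind hDK h𝒟 hr hfm hfd
    hgm hgd hf' hfc hg hg₁' hg₁d hxx hxs hys hxt hyt h00 hirr hh' hdIn hStr hGood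
  have hp : 1 < p := (Fact.out : p.Prime).one_lt
  have hpr : 1 < p ^ r := Nat.one_lt_pow (by omega) hp
  have hf0 : 0 < f.natDegree := by rw [hfd]; omega
  -- degrees of `h`
  have hhd : 0 < h.natDegree := by
    rw [Nat.pos_iff_ne_zero]
    intro h0
    apply hh'
    rw [natDegree_eq_zero.1 h0 |>.choose_spec.symm]
    simp
  have hsirr : Irreducible (swp h) :=
    (MulEquiv.irreducible_iff (Bivariate.swap (R := K))).2 hirr
  have hR1 : Rel (x 0) (y 0) h := R1_rel hREL (hxt 0) hirr h00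
  have hR2 : Rel (y 0) (x 0) (swp h) := R1_rel hREL (hyt 0) hsirr (by rw [R1_swp]; exact h00)
  -- the index `i`
  obtain ⟨i, hi0, hi⟩ : ∃ i, i₀ < i ∧
      (p ^ r) ^ i₀ * (swp h).natDegree < g₁.natDegree ^ i * h.natDegree := by
    refine ⟨(p ^ r) ^ i₀ * (swp h).natDegree + i₀ + 1, by omega, ?_⟩
    have h1 : (p ^ r) ^ i₀ * (swp h).natDegree + i₀ + 1 <
        2 ^ ((p ^ r) ^ i₀ * (swp h).natDegree + i₀ + 1) := Nat.lt_two_pow_self
    have h2 : 2 ^ ((p ^ r) ^ i₀ * (swp h).natDegree + i₀ + 1) ≤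
        g₁.natDegree ^ ((p ^ r) ^ i₀ * (swp h).natDegree + i₀ + 1) := Nat.pow_le_pow_left hg₁d _
    have h3 := Nat.le_mul_of_pos_right
      (g₁.natDegree ^ ((p ^ r) ^ i₀ * (swp h).natDegree + i₀ + 1)) hhd
    omega
  obtain ⟨G, hG, hG', hGd, hGm⟩ := hITG p K g g₁ e hg hg₁' i
  have hGm := hGm hgm
  have hGpos : 0 < G.natDegree := by rw [hGd]; positivity
  set X₀ : V := x i with hX₀
  set Y₀ : V := y i ^ (p ^ (e * i)) with hY₀
  obtain ⟨St, hSt1, hSt2⟩ : ∃ St : Str K V Y₀, (∀ w ∈ St.Bd, 𝒟 w ∈ St.Bd) ∧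
      ∀ w ∈ St.Gr 1, 𝒟 w ∈ St.Gr 1 := hStr i (e * i)
  have hfi : aeval X₀ (itc f i) = x 0 := by
    have := R1_it f x hxs i 0
    rwa [zero_add] at this
  have hGY : aeval Y₀ G = y 0 := by
    have := R1_it g y hys i 0
    rw [zero_add, hG, expand_aeval] at this
    exact this
  have hXt : Transcendental K X₀ := hxt i
  have hYt : Transcendental K Y₀ := (hyt i).pow (by positivity)
  have hfid : 0 < (itc f i).natDegree := by rw [itc_natDegree]; positivity
  have hfim : (itc f i).Monic := by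
    clear * - hfm hf0
    induction i with
    | zero => unfold itc; simp
    | succ i ih =>
      rw [itc_succ]
      refine hfm.comp ih ?_
      rw [itc_natDegree]
      positivity
  -- the polynomial `H`
  have hsb : ∀ P : K[X][X], evA X₀ Y₀ (sub2 (itc f i) G P) = evA (x 0) (y 0) P := by
    intro P
    rw [(hSB2 K V (itc f i) G P X₀ Y₀).1, hfi, hGY]
  have hsb' : ∀ P : K[X][X], evA Y₀ X₀ (sub2 G (itc f i) P) = evA (y 0) (x 0) P := by
    intro P
    rw [(hSB2 K V G (itc f i) P Y₀ X₀).1, hfi, hGY]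
  have hH0 : evA X₀ Y₀ (sub2 (itc f i) G h) = 0 := by rw [hsb, h00]
  have hHd := (hSB2 K V (itc f i) G h X₀ Y₀).2.1
  have hHI := (hSB2 K V (itc f i) G h X₀ Y₀).2.2
  have hhY : evA (x 0) (y 0) (derivative h) ≠ 0 := by
    intro h0
    have h1 := natDegree_le_of_dvd ((hR1 _).1 h0) hh'
    have h2 := natDegree_derivative_lt hhd.ne'
    omega
  have hhX : evA (x 0) (y 0) (dIn h) ≠ 0 := by
    intro h0
    have h3 : derivative (swp h) ≠ 0 := by
      rw [← R1_swp_dIn]
      exact (map_ne_zero_iff _ (Bivariate.swap (R := K)).injective).2 hdIn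
    rw [← R1_swp, R1_swp_dIn] at h0
    have h1 := natDegree_le_of_dvd ((hR2 _).1 h0) h3
    have h4 : 0 < (swp h).natDegree := by
      rw [Nat.pos_iff_ne_zero]
      intro h5
      apply h3
      rw [natDegree_eq_zero.1 h5 |>.choose_spec.symm]
      simp
    have h2 := natDegree_derivative_lt h4.ne'
    omega
  have hG'Y : aeval Y₀ (derivative G) ≠ 0 := fun h0 => hG' ((transcendental_iff.1 hYt) _ h0)
  have hHne : sub2 (itc f i) G h ≠ 0 := R1_sub2_ne hfid hGpos hirr.ne_zero
  have hYalg : IsAlgebraic (fld1 (K := K) X₀) Y₀ := R1_alg hXt hHne hH0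
  have hH2 : evA Y₀ X₀ (sub2 G (itc f i) (swp h)) = 0 := by
    rw [hsb', R1_swp, h00]
  have hH2ne : sub2 G (itc f i) (swp h) ≠ 0 := R1_sub2_ne hGpos hfid hsirr.ne_zero
  have hXalg : IsAlgebraic (fld1 (K := K) Y₀) X₀ := R1_alg hYt hH2ne hH2
  have hevd : evA X₀ Y₀ (derivative (sub2 (itc f i) G h)) ≠ 0 := by
    rw [hHd, R1_mul, hsb, R1_mapC]
    exact mul_ne_zero hhY hG'Y
  have hsep : IsSeparable (fld1 (K := K) X₀) Y₀ := R1_sep hH0 hevd
  obtain ⟨F, hFi, hFpos, hFR⟩ := hREL K V X₀ Y₀ hXt hYalg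
  obtain ⟨G₂, hG₂i, hG₂pos, hG₂R⟩ := hREL K V Y₀ X₀ hYt hXalg
  have hrat := hRAT K V X₀ Y₀ (x 0) (y 0) (itc f i) G F G₂ h (swp h) hXt hYt hYalg hXalg hfid
    hGpos hfi hGY hFi.ne_zero hG₂i.ne_zero hirr.ne_zero hsirr.ne_zero hFR hG₂R hR1 hR2
  rw [itc_natDegree, hfd, hGd] at hrat
  -- `δ`
  have hδd : (itc f (i - i₀) - C c).natDegree = (p ^ r) ^ (i - i₀) := by
    rw [natDegree_sub_C, itc_natDegree, hfd]
  have hδ0 : itc f (i - i₀) - C c ≠ 0 := by
    intro h0
    rw [h0, natDegree_zero] at hδd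
    have : 0 < (p ^ r) ^ (i - i₀) := by positivity
    omega
  obtain ⟨w, hw⟩ := R1_dvd hfc hGood.1 hi0
  have hw0 : w ≠ 0 := by
    intro h0
    rw [h0, mul_zero] at hw
    exact R1_itder hf0 hf' i hw
  obtain ⟨hcop, a, b, c', habc⟩ := hUNI p K 𝕂 f g G h F c i₀ i (e * i) hi0 hf0 hG hG' hGood
    hFi.ne_zero ((hFR _).1 hH0)
  have hdeg : G₂.natDegree < (itc f (i - i₀) - C c).natDegree * F.natDegree := by
    rw [hδd]
    by_contra hcon
    push Not at hcon
    have e1 : (p ^ r) ^ (i - i₀) * F.natDegree * ((p ^ r) ^ i₀ * (swp h).natDegree) <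
        (p ^ r) ^ (i - i₀) * F.natDegree * (g₁.natDegree ^ i * h.natDegree) :=
      Nat.mul_lt_mul_of_pos_left hi (by positivity)
    have e2 : (p ^ r) ^ (i - i₀) * F.natDegree * (g₁.natDegree ^ i * h.natDegree) ≤
        G₂.natDegree * (g₁.natDegree ^ i * h.natDegree) := Nat.mul_le_mul_right _ hcon
    have e3 : (p ^ r) ^ (i - i₀) * F.natDegree * ((p ^ r) ^ i₀ * (swp h).natDegree) =
        F.natDegree * (p ^ r) ^ i * (swp h).natDegree := by
      have : (p ^ r) ^ i = (p ^ r) ^ (i - i₀) * (p ^ r) ^ i₀ := by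
        rw [← pow_add]; congr 1; omega
      rw [this]; ring
    rw [e3, hrat] at e1
    have e4 : G₂.natDegree * g₁.natDegree ^ i * h.natDegree =
      G₂.natDegree * (g₁.natDegree ^ i * h.natDegree) := by ring
    omega
  have hlc : G₂.leadingCoeff ∣ (swp h).leadingCoeff.comp G := by
    rw [← R1_sub2_lc hGpos hfid hfim (swp h)]
    obtain ⟨q, hq⟩ := (hG₂R _).1 hH2
    rw [hq, leadingCoeff_mul]
    exact dvd_mul_right _ _
  have hd := hHL p K V n s t D 𝒟 X₀ (x' i) Y₀ hspan hind hDK h𝒟 (hxx i) hXt hsep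
  have hfinal := hS1 K V X₀ Y₀ St (sub2 (itc f i) G h) F G₂
    (C w * sub2 (itc f i) G (dIn h))
    (-(sub2 (itc f i) G (derivative h) * (derivative G).map C)) a b c'
    ((swp h).leadingCoeff.comp G) (itc f (i - i₀) - C c) 𝒟 hXt hYt hH0 hFR hFi.ne_zero
    (by rw [hHd, neg_neg]) (by rw [hHI, hw, C_mul, mul_assoc])
    (by
      rw [R1_neg, R1_mul, hsb, R1_mapC]
      exact neg_ne_zero.2 (mul_ne_zero hhY hG'Y))
    (by
      rw [R1_mul, hsb, R1_C]
      exact mul_ne_zero (fun h0 => hw0 ((transcendental_iff.1 hXt) _ h0)) hhX)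
    hδ0 ((hG₂R _).2 dvd_rfl) hG₂i.ne_zero hlc hcop habc hdeg hSt1 (hSt2 _ St.Gr_Z) hd
  exact ⟨i, R1_trans hYalg hfinal⟩

end Pool.Agent.NPC
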