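import Pool.Agent.NPC.StC
import Pool.Agent.Helper11.SP.Gap

/-!
# NPC, module R1B: step 1 for the orbits, the case `g = X^(p^r)`
-/

set_option autoImplicit false

namespace Pool.Agent.NPC

open Polynomial Pool.Agent.Helper11.SP

section R1B

variable {K V : Type} [Field K] [Field V] [Algebra K V]

private noncomputable def R1BE (x y : V) : K[X][X] →+* V :=
  (evalRingHom y).comp (mapRingHom ((aeval x : K[X] →ₐ[K] V) : K[X] →+* V))

private theorem R1BE_eq (x y : V) (P : K[X][X]) : evA x y P = R1BE x y P := by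
  unfold evA R1BE
  rfl

private theorem R1B_mul (x y : V) (P Q : K[X][X]) : evA x y (P * Q) = evA x y P * evA x y Q := by
  simp only [R1BE_eq, map_mul]

private theorem R1B_add (x y : V) (P Q : K[X][X]) : evA x y (P + Q) = evA x y P + evA x y Q := by
  simp only [R1BE_eq, map_add]

private theorem R1B_C (x y : V) (q : K[X]) : evA x y (C q) = aeval x q := by
  unfold evA
  rw [map_C, eval_C]
  rfl

private theorem R1B_X (x y : V) : evA x y (X : K[X][X]) = y := by
  unfold evA
  rw [map_X, eval_X]

private theorem R1B_coeff (P : K[X][X]) (i : ℕ) : (dIn P).coeff i = derivative (P.coeff i) := by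
  unfold dIn mapD
  rw [finsetSum_coeff]
  simp only [coeff_C_mul_X_pow]
  rw [Finset.sum_ite_eq]
  split_ifs with h
  · rfl
  · have h1 : P.natDegree < i := by
      by_contra h2
      exact h (Finset.mem_range.2 (by omega))
    rw [coeff_eq_zero_of_natDegree_lt h1, derivative_zero]

private theorem R1B_swp_dIn (P : K[X][X]) : swp (dIn P) = derivative (swp P) := by
  induction P using Polynomial.induction_on' with
  | add P Q hP hQ =>
    have : dIn (P + Q) = dIn P + dIn Q := by
      ext1 k
      rw [coeff_add, R1B_coeff, R1B_coeff, R1B_coeff, coeff_add, derivative_add]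
    rw [this]
    show Bivariate.swap (dIn P + dIn Q) = derivative (Bivariate.swap (P + Q))
    rw [map_add, map_add, derivative_add]
    exact congrArg₂ _ hP hQ
  | monomial n q =>
    have : dIn (monomial n q) = monomial n (derivative q) := by
      ext1 k
      rw [R1B_coeff, coeff_monomial, coeff_monomial]
      split_ifs <;> simp
    rw [this]
    show Bivariate.swap (monomial n (derivative q)) = derivative (Bivariate.swap (monomial n q))
    rw [Bivariate.swap_monomial, Bivariate.swap_monomial, derivative_mul, derivative_C, mul_zero,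
      add_zero, derivative_map]

/-- chain rule -/
private theorem R1B_chain (d : Derivation K V V) (x y : V) (P : K[X][X]) :
    d (evA x y P) = evA x y (dIn P) * d x + evA x y (derivative P) * d y := by
  induction P using Polynomial.induction_on' with
  | add P Q hP hQ =>
    have h1 : dIn (P + Q) = dIn P + dIn Q := by
      ext i : 1
      rw [coeff_add, R1B_coeff, R1B_coeff, R1B_coeff, coeff_add, derivative_add]
    rw [h1, R1B_add, map_add, hP, hQ, R1B_add, derivative_add, R1B_add]
    ring
  | monomial n q =>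
    have h1 : dIn (monomial n q : K[X][X]) = monomial n (derivative q) := by
      ext i : 1
      rw [R1B_coeff, coeff_monomial, coeff_monomial]
      split_ifs <;> simp
    have hX : ∀ k : ℕ, evA x y (X ^ k : K[X][X]) = y ^ k := by
      intro k
      rw [R1BE_eq, map_pow, ← R1BE_eq, R1B_X]
    have hm : ∀ (k : ℕ) (q : K[X]), evA x y (monomial k q : K[X][X]) = aeval x q * y ^ k := by
      intro k q
      rw [← C_mul_X_pow_eq_monomial, R1B_mul, R1B_C, hX]
    have hd : d (aeval x q) = aeval x (derivative q) * d x := by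
      rw [Derivation.map_aeval, smul_eq_mul]
    rw [h1, derivative_monomial, hm, hm, hm, Derivation.leibniz, hd, Derivation.leibniz_pow,
      map_mul, map_natCast]
    simp only [smul_eq_mul, nsmul_eq_mul]
    ring

/-- coercion from an intermediate field -/
private theorem R1B_coe (E : IntermediateField K V) (x₁ y₁ : E) (P : K[X][X]) :
    ((evA x₁ y₁ P : E) : V) = evA (x₁ : V) (y₁ : V) P := by
  have h := hom_eval₂ P ((aeval x₁ : K[X] →ₐ[K] E) : K[X] →+* E) (algebraMap E V) y₁
  have h2 : (algebraMap E V).comp ((aeval x₁ : K[X] →ₐ[K] E) : K[X] →+* E) =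
      ((aeval (x₁ : V) : K[X] →ₐ[K] V) : K[X] →+* V) := by
    ext k
    · simp
    · simp
  rw [h2] at h
  unfold evA
  rw [eval_map, eval_map]
  exact h

/-- evaluation into the field generated by one element -/
private noncomputable def R1Bev (x : V) : K[X] →+* fld1 (K := K) x :=
  ((aeval (⟨x, IntermediateField.subset_adjoin K {x} rfl⟩ : fld1 (K := K) x) :
    K[X] →ₐ[K] fld1 (K := K) x) : K[X] →+* fld1 (K := K) x)

private theorem R1Bev_coe (x : V) (q : K[X]) :
    ((R1Bev x q : fld1 (K := K) x) : V) = aeval x q := by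
  unfold R1Bev
  show ((aeval (⟨x, IntermediateField.subset_adjoin K {x} rfl⟩ : fld1 (K := K) x) q :
    fld1 (K := K) x) : V) = aeval x q
  have := (aeval_algebraMap_apply V (⟨x, IntermediateField.subset_adjoin K {x} rfl⟩ :
    fld1 (K := K) x) q)
  exact this.symm

private theorem R1Bev_aeval (x y : V) (P : K[X][X]) : aeval y (P.map (R1Bev x)) = evA x y P := by
  unfold evA
  rw [aeval_def, eval₂_map, eval_map]
  congr 1
  refine RingHom.ext fun q => ?_
  exact R1Bev_coe x q

private theorem R1Bev_inj {x : V} (hx : Transcendental K x) :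
    Function.Injective (R1Bev (K := K) x) := by
  rw [injective_iff_map_eq_zero]
  intro q hq
  have h1 := R1Bev_coe (K := K) x q
  rw [hq] at h1
  have h1 : aeval x q = 0 := h1.symm
  exact (transcendental_iff.1 hx) q h1

private theorem R1B_alg {x y : V} (hx : Transcendental K x) {P : K[X][X]} (hP : P ≠ 0)
    (h : evA x y P = 0) : IsAlgebraic (fld1 (K := K) x) y :=
  ⟨P.map (R1Bev x), fun h0 => hP ((Polynomial.map_eq_zero_iff (R1Bev_inj hx)).1 h0),
    by rw [R1Bev_aeval, h]⟩

private theorem R1B_sep {x y : V} {P : K[X][X]} (h : evA x y P = 0)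
    (h' : evA x y (derivative P) ≠ 0) : IsSeparable (fld1 (K := K) x) y := by
  have e1 : aeval y (P.map (R1Bev (K := K) x)) = 0 := by rw [R1Bev_aeval, h]
  have e2 : aeval y (derivative (P.map (R1Bev (K := K) x))) ≠ 0 := by
    rw [derivative_map, R1Bev_aeval]; exact h'
  have hQ : P.map (R1Bev (K := K) x) ≠ 0 := by
    intro h0
    rw [h0] at e2
    simp at e2
  have hal : IsAlgebraic (fld1 (K := K) x) y := ⟨_, hQ, e1⟩
  have hint : IsIntegral (fld1 (K := K) x) y := hal.isIntegral
  obtain ⟨q, hq⟩ := minpoly.dvd (fld1 (K := K) x) y e1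
  unfold IsSeparable
  rw [separable_iff_derivative_ne_zero (minpoly.irreducible hint)]
  intro h0
  apply e2
  rw [hq, derivative_mul, h0, zero_mul, zero_add, map_mul, minpoly.aeval, zero_mul]

private theorem R1B_trans {X Y z : V} (hY : IsAlgebraic (fld1 (K := K) X) Y)
    (hz : IsAlgebraic (fld (K := K) X Y) z) : IsAlgebraic (fld1 (K := K) X) z := by
  let A : IntermediateField (fld1 (K := K) X) V := algebraicClosure (fld1 (K := K) X) V
  have hle : ∀ w : V, w ∈ fld (K := K) X Y → w ∈ A := by
    have : fld (K := K) X Y ≤ A.restrictScalars K := by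
      rw [IntermediateField.adjoin_le_iff]
      intro w hw
      rcases hw with rfl | hw
      · show w ∈ A
        exact A.algebraMap_mem (⟨w, IntermediateField.subset_adjoin K {w} rfl⟩ :
          fld1 (K := K) w)
      · rw [Set.mem_singleton_iff] at hw
        rw [hw]
        exact mem_algebraicClosure_iff.2 hY
    exact fun w hw => this hw
  have hA : IsAlgebraic A z := by
    obtain ⟨P, hP, hPz⟩ := hz
    let ι : fld (K := K) X Y →+* A :=
      { toFun := fun w => ⟨w, hle w w.2⟩
        map_one' := rfl
        map_mul' := fun _ _ => rfl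
        map_zero' := rfl
        map_add' := fun _ _ => rfl }
    refine ⟨P.map ι, ?_, ?_⟩
    · rwa [Ne, Polynomial.map_eq_zero_iff ι.injective]
    · rw [aeval_def, eval₂_map]
      exact hPz
  exact hA.restrictScalars _

/-- an irreducible relation generates all relations -/
private theorem R1B_dvd {x y : V} (hx : Transcendental K x) {h P : K[X][X]}
    (hi : Irreducible h) (h0 : evA x y h = 0) (hP : evA x y P = 0) : h ∣ P := by
  have hd : 0 < h.natDegree := by
    rw [Nat.pos_iff_ne_zero]
    intro h1
    obtain ⟨q, hq⟩ := natDegree_eq_zero.1 h1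
    rw [← hq, R1B_C] at h0
    have : q = 0 := (transcendental_iff.1 hx) q h0
    rw [this, C_0] at hq
    exact hi.ne_zero hq.symm
  by_contra hn
  have hr := resultant_ne h P hi hd hn
  obtain ⟨a, b, -, -, hab⟩ := exists_mul_add_mul_eq_C_resultant h P le_rfl le_rfl
    (Or.inl hd.ne')
  have h1 : evA x y (h * a + P * b) = 0 := by
    rw [R1B_add, R1B_mul, R1B_mul, h0, hP, zero_mul, zero_mul, add_zero]
  rw [hab, R1B_C] at h1
  exact hr ((transcendental_iff.1 hx) _ h1)

end R1B

theorem thm_R1B (hHL : St_HL) : St_R1B := by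
  intro p _ K V _ _ _ _ n s r t D 𝒟 h x x' y hspan hind hDK h𝒟 hr hxx hys hxt h00 hirr hh' hdIn
  have hp : p.Prime := Fact.out
  have hps : 0 < p ^ s := pow_pos hp.pos s
  have : NeZero (p ^ s) := ⟨hps.ne'⟩
  have : CharP V p := charP_of_injective_algebraMap (algebraMap K V).injective p
  -- `h_Y` and `h_X` do not vanish
  have hhY : evA (x 0) (y 0) (derivative h) ≠ 0 := by
    intro h0
    have h1 := natDegree_le_of_dvd (R1B_dvd (hxt 0) hirr h00 h0) hh'
    have hhd : h.natDegree ≠ 0 := by
      intro h0
      apply hh'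
      rw [natDegree_eq_zero.1 h0 |>.choose_spec.symm]
      simp
    have h2 := natDegree_derivative_lt hhd
    omega
  have hhX : evA (x 0) (y 0) (dIn h) ≠ 0 := by
    intro h0
    have h3 : derivative (swp h) ≠ 0 := by
      rw [← R1B_swp_dIn]
      exact (map_ne_zero_iff _ (Bivariate.swap (R := K)).injective).2 hdIn
    have h5 : swp h ∣ derivative (swp h) := by
      obtain ⟨q, hq⟩ := R1B_dvd (hxt 0) hirr h00 h0
      refine ⟨swp q, ?_⟩
      rw [← R1B_swp_dIn]
      have e1 : swp (dIn h) = swp (h * q) := congrArg (fun P : K[X][X] => swp P) hq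
      rw [e1]
      show Bivariate.swap (h * q) = Bivariate.swap h * Bivariate.swap q
      exact map_mul _ _ _
    have h1 := natDegree_le_of_dvd h5 h3
    have h4 : (swp h).natDegree ≠ 0 := by
      intro h5
      apply h3
      rw [natDegree_eq_zero.1 h5 |>.choose_spec.symm]
      simp
    have h2 := natDegree_derivative_lt h4
    omega
  -- `y 0` is a power
  have hy : ∀ j, y j ^ (p ^ (r * j)) = y 0 := by
    intro j
    induction j with
    | zero => simp
    | succ j ih =>
      rw [← ih, ← hys j, ← pow_mul, ← pow_add]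
      congr 2
      ring
  obtain ⟨v, hv⟩ : ∃ v : V, y 0 = (v ^ p) ^ (p ^ s) := by
    refine ⟨y (s + 1) ^ (p ^ (r * (s + 1) - (s + 1))), ?_⟩
    rw [← hy (s + 1), ← pow_mul, ← pow_mul]
    congr 1
    have h1 : s + 1 ≤ r * (s + 1) := Nat.le_mul_of_pos_left _ hr
    obtain ⟨q, hq⟩ : ∃ q, r * (s + 1) = q + (s + 1) := ⟨r * (s + 1) - (s + 1), by omega⟩
    rw [hq, Nat.add_sub_cancel]
    ring
  -- `𝒟 (y 0) = 0`
  have hDy : 𝒟 (y 0) = 0 := by
    classical
    have h1 := h𝒟 (fun a => if a = 0 then v ^ p else 0)
    have h2 : ∑ a : Fin n → Fin (p ^ s), algebraMap K V (tm t a) *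
        (if a = 0 then v ^ p else 0) ^ (p ^ s) = y 0 := by
      rw [Finset.sum_eq_single 0]
      · rw [if_pos rfl, hv]
        have : tm t (0 : Fin n → Fin (p ^ s)) = 1 := by
          unfold tm
          simp
        rw [this, map_one, one_mul]
      · intro a _ ha
        rw [if_neg ha, zero_pow hps.ne', mul_zero]
      · intro h
        exact absurd (Finset.mem_univ _) h
    rw [h2] at h1
    rw [h1]
    refine Finset.sum_eq_zero fun a _ => ?_
    have h3 : D (if a = 0 then v ^ p else 0) = 0 := by
      split_ifs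
      · rw [Derivation.leibniz_pow]
        simp [CharP.cast_eq_zero]
      · exact map_zero D
    rw [h3, zero_pow hps.ne', mul_zero]
  -- the derivation
  have halg : IsAlgebraic (fld1 (K := K) (x 0)) (y 0) := R1B_alg (hxt 0) hirr.ne_zero h00
  obtain ⟨d, hd1, hd2⟩ := hHL p K V n s t D 𝒟 (x 0) (x' 0) (y 0) hspan hind hDK h𝒟 (hxx 0)
    (hxt 0) (R1B_sep h00 hhY)
  let x₁ : fld (K := K) (x 0) (y 0) := ⟨x 0, IntermediateField.subset_adjoin K _ (by simp)⟩
  let y₁ : fld (K := K) (x 0) (y 0) := ⟨y 0, IntermediateField.subset_adjoin K _ (by simp)⟩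
  have e0 : evA x₁ y₁ h = 0 := by
    apply Subtype.ext
    rw [R1B_coe]
    exact h00
  have eX : evA x₁ y₁ (dIn h) ≠ 0 := by
    intro h0
    apply hhX
    have := R1B_coe _ x₁ y₁ (dIn h)
    rw [h0] at this
    exact this.symm
  have hch := R1B_chain d x₁ y₁ h
  rw [e0, map_zero, hd1 x₁ rfl, mul_one] at hch
  have hdy : d y₁ ≠ 0 := by
    intro h0
    rw [h0, mul_zero, add_zero] at hch
    exact eX hch.symm
  obtain ⟨lam, hlam⟩ := hd2 y₁
  have hlam : 𝒟 (y 0) = (d y₁ : V) * 𝒟 (x 0) + lam := hlam
  rw [hDy] at hlam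
  have hdy' : (d y₁ : V) ≠ 0 := fun h0 => hdy (Subtype.ext h0)
  have hfin : 𝒟 (x 0) = ((-lam / d y₁ : fld (K := K) (x 0) (y 0)) : V) := by
    push_cast
    rw [eq_div_iff hdy']
    linear_combination -hlam
  refine R1B_trans halg ?_
  rw [hfin]
  exact isAlgebraic_algebraMap (-lam / d y₁ : fld (K := K) (x 0) (y 0))

end Pool.Agent.NPC
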