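import Pool.Agent.NPC.StA

/-!
# [RAT] Ratio of the degrees
-/

set_option autoImplicit false

namespace Pool.Agent.NPC

open Polynomial IntermediateField

section

variable {K V : Type} [Field K] [Field V] [Algebra K V]

private theorem evA_eq (x y : V) (P : K[X][X]) :
    evA x y P = P.eval₂ ((aeval x : K[X] →ₐ[K] V) : K[X] →+* V) y := by
  rw [evA, eval_map]

/-- The map `K[X] → K(x)`. -/
private noncomputable def fm (x : V) : K[X] →+* (fld1 (K := K) x) :=
  ((aeval (AdjoinSimple.gen K x) : K[X] →ₐ[K] K⟮x⟯) : K[X] →+* K⟮x⟯)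

private theorem fm_comp (x : V) :
    (algebraMap (fld1 (K := K) x) V).comp (fm (K := K) x) =
      ((aeval x : K[X] →ₐ[K] V) : K[X] →+* V) := by
  ext a
  · simp [fm]
  · simp [fm]

private theorem fm_coe (x : V) (u : K[X]) :
    (algebraMap (fld1 (K := K) x) V) (fm (K := K) x u) = aeval x u := by
  have h := congrArg (fun g : K[X] →+* V => g u) (fm_comp (K := K) x)
  simpa using h

private theorem fm_inj (x : V) (hx : Transcendental K x) :
    Function.Injective (fm (K := K) x) := by
  rw [injective_iff_map_eq_zero]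
  intro a ha
  have h := fm_coe (K := K) x a
  rw [ha, map_zero] at h
  by_contra hne
  exact hx ⟨a, hne, h.symm⟩

private theorem aeval_map_fm (x y : V) (P : K[X][X]) :
    aeval y (P.map (fm (K := K) x)) = evA x y P := by
  rw [evA_eq, aeval_def, eval₂_map, fm_comp]

private theorem clear_den (x : V) (m : (fld1 (K := K) x)[X]) :
    ∃ (b : K[X]) (P : K[X][X]), b ≠ 0 ∧
      P.map (fm (K := K) x) = C (fm (K := K) x b) * m := by
  induction m using Polynomial.induction_on' with
  | add p q hp hq =>
    obtain ⟨b₁, P₁, hb₁, h₁⟩ := hp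
    obtain ⟨b₂, P₂, hb₂, h₂⟩ := hq
    refine ⟨b₁ * b₂, C b₂ * P₁ + C b₁ * P₂, mul_ne_zero hb₁ hb₂, ?_⟩
    rw [Polynomial.map_add, Polynomial.map_mul, Polynomial.map_mul, map_C, map_C, h₁, h₂, map_mul,
      C_mul]
    ring
  | monomial n a =>
    obtain ⟨u, v, huv⟩ := (mem_adjoin_simple_iff K (a : V)).1 a.2
    by_cases hv : aeval x v = 0
    · refine ⟨1, 0, one_ne_zero, ?_⟩
      have ha : a = 0 := by
        apply Subtype.ext
        rw [huv, hv, div_zero]
        rfl
      rw [ha]
      simp
    · refine ⟨v, monomial n u, ?_, ?_⟩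
      · rintro rfl
        exact hv (map_zero _)
      · rw [map_monomial, C_mul_monomial]
        congr 1
        apply (algebraMap (fld1 (K := K) x) V).injective
        rw [map_mul, fm_coe, fm_coe]
        have : (algebraMap (fld1 (K := K) x) V) a = aeval x u / aeval x v := huv
        rw [this]
        field_simp

private theorem isAlg (x y : V) (hx : Transcendental K x) (P : K[X][X]) (hP : P ≠ 0)
    (h : evA x y P = 0) : IsAlgebraic (fld1 (K := K) x) y := by
  refine ⟨P.map (fm (K := K) x), ?_, ?_⟩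
  · rwa [Ne, Polynomial.map_eq_zero_iff (fm_inj x hx)]
  · rw [aeval_map_fm, h]

private theorem natDegree_minpoly (x y : V) (hx : Transcendental K x) (F : K[X][X]) (hF : F ≠ 0)
    (hR : Rel x y F) : (minpoly (fld1 (K := K) x) y).natDegree = F.natDegree := by
  have hinj := fm_inj (K := K) x hx
  have hev : evA x y F = 0 := (hR F).2 dvd_rfl
  have hint : IsIntegral (fld1 (K := K) x) y := (isAlg x y hx F hF hev).isIntegral
  apply le_antisymm
  · rw [← natDegree_map_eq_of_injective hinj F]
    apply natDegree_le_of_dvd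
    · apply minpoly.dvd
      rw [aeval_map_fm, hev]
    · rwa [Ne, Polynomial.map_eq_zero_iff hinj]
  · obtain ⟨b, P, hb, hP⟩ := clear_den x (minpoly (fld1 (K := K) x) y)
    have hfb : fm (K := K) x b ≠ 0 := by
      rwa [Ne, map_eq_zero_iff _ hinj]
    have h1 : evA x y P = 0 := by
      rw [← aeval_map_fm, hP, map_mul, minpoly.aeval, mul_zero]
    have hP0 : P ≠ 0 := by
      intro h0
      rw [h0, Polynomial.map_zero] at hP
      have := hP.symm
      rw [mul_eq_zero, C_eq_zero] at this
      rcases this with h | h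
      · exact hfb h
      · exact minpoly.ne_zero hint h
    have h2 : P.natDegree = (minpoly (fld1 (K := K) x) y).natDegree := by
      rw [← natDegree_map_eq_of_injective hinj P, hP, natDegree_C_mul hfb]
    rw [← h2]
    exact natDegree_le_of_dvd ((hR P).1 h1) hP0

private theorem fld1_le (x y : V) : fld1 (K := K) x ≤ fld (K := K) x y :=
  adjoin.mono K _ _ (by simp)

theorem RAT_deg (x y : V) (hx : Transcendental K x) (F : K[X][X]) (hF : F ≠ 0)
    (hR : Rel x y F) :
    relfinrank (fld1 (K := K) x) (fld (K := K) x y) = F.natDegree := by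
  have hev : evA x y F = 0 := (hR F).2 dvd_rfl
  have hint : IsIntegral (fld1 (K := K) x) y := (isAlg x y hx F hF hev).isIntegral
  rw [relfinrank_eq_finrank_of_le (fld1_le x y), ← natDegree_minpoly x y hx F hF hR,
    ← adjoin.finrank hint]
  have h : extendScalars (fld1_le (K := K) x y) = (fld1 (K := K) x)⟮y⟯ := by
    apply restrictScalars_injective K
    rw [extendScalars_restrictScalars]
    exact (adjoin_simple_adjoin_simple K x y).symm
  rw [h]

private theorem irr_H (φ : K[X]) : Irreducible (φ.map C - C X : K[X][X]) := by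
  have h1 : Bivariate.swap (φ.map C - C X : K[X][X]) = - (X - C φ) := by
    rw [map_sub, Bivariate.swap_map_C, Bivariate.swap_X]
    ring
  rw [← MulEquiv.irreducible_iff (Bivariate.swap (R := K)), h1]
  have h2 : Irreducible (X - C φ : K[X][X]) :=
    (monic_X_sub_C φ).irreducible_of_degree_eq_one (degree_X_sub_C φ)
  exact (Associated.irreducible_iff (Associated.neg_left (Associated.refl _))).2 h2

private theorem natDegree_H (φ : K[X]) :
    (φ.map C - C X : K[X][X]).natDegree = φ.natDegree := by
  have h := natDegree_map_eq_of_injective (C_injective (R := K)) φ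
  rw [sub_eq_add_neg, ← C_neg, natDegree_add_C, h]

private theorem trans_aeval (x : V) (φ : K[X]) (hx : Transcendental K x) (hφ : 0 < φ.natDegree) :
    Transcendental K (aeval x φ) := by
  rintro ⟨p, hp, h⟩
  refine hx ⟨p.comp φ, ?_, ?_⟩
  · intro h0
    rcases comp_eq_zero_iff.1 h0 with h1 | h1
    · exact hp h1
    · rw [h1.2] at hφ
      simp at hφ
  · rw [aeval_comp, h]

private theorem deg_phi (hR : St_REL) (x : V) (φ : K[X]) (hx : Transcendental K x)
    (hφ : 0 < φ.natDegree) :
    relfinrank (fld1 (K := K) (aeval x φ)) (fld1 (K := K) x) = φ.natDegree := by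
  have hx₀ := trans_aeval x φ hx hφ
  have hev : evA (aeval x φ) x (φ.map C - C X : K[X][X]) = 0 := by
    rw [evA_eq, eval₂_sub, eval₂_map, eval₂_C]
    have : ((aeval (aeval x φ) : K[X] →ₐ[K] V) : K[X] →+* V).comp C = algebraMap K V := by
      ext a
      simp
    rw [this]
    simp [aeval_def]
  have hH0 : (φ.map C - C X : K[X][X]) ≠ 0 := (irr_H φ).ne_zero
  obtain ⟨F, hF, hFd, hFR⟩ := hR K V (aeval x φ) x hx₀ (isAlg _ _ hx₀ _ hH0 hev)
  have hdvd : F ∣ (φ.map C - C X : K[X][X]) := (hFR _).1 hev
  have hass : Associated F (φ.map C - C X : K[X][X]) :=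
    hF.associated_of_dvd (irr_H φ) hdvd
  have hdeg : F.natDegree = φ.natDegree := by
    rw [← natDegree_H φ]
    exact natDegree_eq_of_degree_eq (degree_eq_degree_of_associated hass)
  rw [← hdeg, ← RAT_deg (aeval x φ) x hx₀ F hF.ne_zero hFR]
  congr 1
  apply le_antisymm
  · exact adjoin.mono K _ _ (by simp)
  · rw [adjoin_le_iff]
    intro z hz
    rcases hz with rfl | hz
    · exact (mem_adjoin_simple_iff K _).2 ⟨φ, 1, by simp⟩
    · rw [Set.mem_singleton_iff] at hz
      subst hz
      exact mem_adjoin_simple_self K _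

private theorem fld_comm (x y : V) : fld (K := K) x y = fld (K := K) y x := by
  rw [fld, fld, Set.pair_comm]

private theorem tower (hR : St_REL) (x y : V) (φ ψ : K[X]) (F h : K[X][X])
    (hx : Transcendental K x) (hφ : 0 < φ.natDegree) (hF : F ≠ 0) (hh : h ≠ 0)
    (hFR : Rel x y F) (hhR : Rel (aeval x φ) (aeval y ψ) h) :
    F.natDegree * φ.natDegree = h.natDegree *
      relfinrank (fld (K := K) (aeval x φ) (aeval y ψ)) (fld (K := K) x y) := by
  have hx₀ := trans_aeval x φ hx hφ
  have hmem : ∀ (z : V) (θ : K[X]) (L : IntermediateField K V), z ∈ L → aeval z θ ∈ L := by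
    intro z θ L hz
    have h1 : aeval z θ ∈ adjoin K {z} := (mem_adjoin_simple_iff K _).2 ⟨θ, 1, by simp⟩
    exact (adjoin_simple_le_iff.2 hz) h1
  have h1 : fld1 (K := K) (aeval x φ) ≤ fld1 (K := K) x := by
    rw [adjoin_simple_le_iff]
    exact hmem x φ _ (mem_adjoin_simple_self K x)
  have h2 : fld (K := K) (aeval x φ) (aeval y ψ) ≤ fld (K := K) x y := by
    rw [adjoin_le_iff]
    intro z hz
    rcases hz with rfl | hz
    · exact hmem x φ _ (subset_adjoin K _ (by simp))
    · rw [Set.mem_singleton_iff] at hz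
      subst hz
      exact hmem y ψ _ (subset_adjoin K _ (by simp))
  rw [← RAT_deg x y hx F hF hFR, ← RAT_deg _ _ hx₀ h hh hhR, ← deg_phi hR x φ hx hφ, mul_comm,
    relfinrank_mul_relfinrank h1 (fld1_le x y), relfinrank_mul_relfinrank (fld1_le _ _) h2]

theorem thm_RAT (hR : St_REL) : St_RAT := by
  intro K V _ _ _ x y x₀ y₀ φ ψ F G h₁ h₂ hx hy _ _ hφ hψ hx₀ hy₀ hF hG hh₁ hh₂ rF rG r₁ r₂
  subst hx₀ hy₀
  have e1 := tower hR x y φ ψ F h₁ hx hφ hF hh₁ rF r₁
  have e2 := tower hR y x ψ φ G h₂ hy hψ hG hh₂ rG r₂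
  rw [fld_comm (aeval y ψ) (aeval x φ), fld_comm y x] at e2
  rw [e1, e2]
  ring

end

end Pool.Agent.NPC
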