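import Pool.Agent.NPC.StC

set_option autoImplicit false

/-! # RD: one round, from `p ^ s`-th powers to `p ^ (s + 1)`-th powers -/

namespace Pool.Agent.NPC

open Polynomial Pool.Agent.Helper11.SP

section Germs

variable {U : Ultrafilter ℕ} {K V : Type} [Field K] [Field V] [Algebra K V] (up : UP U K V)

private theorem RD_eq (u v : ℕ → K) : up.gm u = up.gm v ↔ ∀ᶠ n in (U : Filter ℕ), u n = v n := by
  rw [← sub_eq_zero, ← map_sub, up.zero]
  simp only [Pi.sub_apply, sub_eq_zero]

private theorem RD_sum {ι : Type} (s : Finset ι) (F : ι → ℕ → K) :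
    up.gm (fun n => ∑ a ∈ s, F a n) = ∑ a ∈ s, up.gm (F a) := by
  rw [← map_sum]
  congr 1
  funext n
  rw [Finset.sum_apply]

private theorem RD_mul (u v : ℕ → K) : up.gm (fun n => u n * v n) = up.gm u * up.gm v := by
  rw [← map_mul]; rfl

private theorem RD_pow (u : ℕ → K) (k : ℕ) : up.gm (fun n => u n ^ k) = up.gm u ^ k := by
  rw [← map_pow]; rfl

private theorem RD_aeval (u : ℕ → K) (q : K[X]) :
    aeval (up.gm u) q = up.gm (fun n => q.eval (u n)) := by
  induction q using Polynomial.induction_on' with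
  | add p q hp hq =>
    rw [map_add, hp, hq, ← map_add]
    congr 1
    funext n
    simp
  | monomial k a =>
    rw [aeval_monomial, ← up.const, ← RD_pow, ← RD_mul]
    congr 1
    funext n
    simp

private theorem RD_evA_add {A B : Type} [Field A] [Field B] [Algebra A B] (x y : B) (P Q : A[X][X]) :
    evA x y (P + Q) = evA x y P + evA x y Q := by
  unfold evA
  rw [Polynomial.map_add, eval_add]

private theorem RD_evA_mon {A B : Type} [Field A] [Field B] [Algebra A B] (x y : B) (k : ℕ)
    (q : A[X]) : evA x y (monomial k q) = aeval x q * y ^ k := by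
  unfold evA
  rw [Polynomial.map_monomial, eval_monomial]
  rfl

private theorem RD_evA (u v : ℕ → K) (P : K[X][X]) :
    evA (up.gm u) (up.gm v) P = up.gm (fun n => evA (u n) (v n) P) := by
  induction P using Polynomial.induction_on' with
  | add p q hp hq =>
    rw [RD_evA_add, hp, hq, ← map_add]
    congr 1
    funext n
    rw [RD_evA_add]; rfl
  | monomial k a =>
    rw [RD_evA_mon, RD_aeval, ← RD_pow, ← RD_mul]
    congr 1
    funext n
    rw [RD_evA_mon, coe_aeval_eq_eval]

variable (hU : (U : Filter ℕ) ≤ Filter.cofinite)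
include hU

private theorem RD_ge (N : ℕ) : ∀ᶠ n in (U : Filter ℕ), N ≤ n := by
  refine hU ?_
  rw [Filter.mem_cofinite]
  refine (Set.finite_lt_nat N).subset fun n hn => ?_
  simpa using hn

private theorem RD_step (f : K[X]) (x : ℕ → K) (hx : ∀ l, x (l + 1) = f.eval (x l)) (j : ℕ) :
    aeval (up.gm fun n => x (n - (j + 1))) f = up.gm fun n => x (n - j) := by
  rw [RD_aeval, RD_eq]
  filter_upwards [RD_ge hU (j + 1)] with n hn
  rw [← hx]
  congr 1
  omega

private theorem RD_trans (x : ℕ → K) (hx : Function.Injective x) (j : ℕ) :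
    Transcendental K (up.gm fun n => x (n - j)) := by
  classical
  rw [transcendental_iff]
  intro q hq
  by_contra hq0
  rw [RD_aeval] at hq
  have h1 := (up.zero _).1 hq
  have h2 : ∀ᶠ n in (U : Filter ℕ), ¬ (q.eval (x (n - j)) = 0) := by
    have h3 : {n : ℕ | q.eval (x (n - j)) = 0}.Finite := by
      have h4 : {l : ℕ | q.eval (x l) = 0}.Finite := by
        refine Set.Finite.preimage (s := {z | q.eval z = 0}) hx.injOn ?_
        refine (q.roots.toFinset.finite_toSet).subset fun z hz => ?_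
        simp only [Finset.mem_coe, Multiset.mem_toFinset]
        exact (mem_roots hq0).2 hz
      refine ((h4.image fun l => l + j).union (Set.finite_lt_nat j)).subset fun n hn => ?_
      by_cases hnj : n < j
      · exact Or.inr hnj
      · exact Or.inl ⟨n - j, hn, by show n - j + j = n; omega⟩
    refine hU ?_
    rw [Filter.mem_cofinite]
    refine h3.subset fun n hn => ?_
    simpa using hn
  obtain ⟨n, hn1, hn2⟩ := (h1.and h2).exists
  exact hn2 hn1

end Germs

section Derivation

variable {K : Type} [Field K]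

private theorem RD_coeff (d : Derivation ℤ K K) (P : K[X]) (k : ℕ) :
    (mapD (fun z => d z) P).coeff k = d (P.coeff k) := by
  unfold mapD
  rw [finsetSum_coeff]
  simp only [coeff_C_mul, coeff_X_pow, mul_ite, mul_one, mul_zero]
  rw [Finset.sum_ite_eq]
  split_ifs with h
  · rfl
  · rw [Finset.mem_range, not_lt] at h
    rw [coeff_eq_zero_of_natDegree_lt (by omega), map_zero]

private theorem RD_eval (d : Derivation ℤ K K) (P : K[X]) (z : K) :
    d (P.eval z) = (mapD (fun z => d z) P).eval z + (derivative P).eval z * d z := by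
  induction P using Polynomial.induction_on' with
  | add p q hp hq =>
    have e : mapD (fun z => d z) (p + q) = mapD (fun z => d z) p + mapD (fun z => d z) q := by
      ext k
      rw [coeff_add, RD_coeff, RD_coeff, RD_coeff, coeff_add, map_add]
    rw [eval_add, map_add, hp, hq, e, derivative_add, eval_add, eval_add]
    ring
  | monomial k a =>
    have e : mapD (fun z => d z) (monomial k a) = monomial k (d a) := by
      ext m
      rw [RD_coeff, coeff_monomial, coeff_monomial]
      split_ifs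
      · rfl
      · exact map_zero _
    rw [eval_monomial, e, eval_monomial, derivative_monomial, eval_monomial, Derivation.leibniz,
      Derivation.leibniz_pow]
    simp only [smul_eq_mul, nsmul_eq_mul]
    ring

end Derivation

section Frob

variable {p : ℕ} [Fact p.Prime] {K : Type} [Field K] [CharP K p] (s : ℕ)

private theorem RD_inj {a b : K} (h : a ^ (p ^ s) = b ^ (p ^ s)) : a = b := by
  have h1 := iterateFrobenius_inj K p s
  exact h1 (by rw [iterateFrobenius_def, iterateFrobenius_def]; exact h)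

private theorem RD_frob {E : Type} [Field E] [Algebra K E] [CharP E p] (q : K[X]) (z : E) :
    (aeval z q) ^ (p ^ s) = aeval (z ^ (p ^ s)) (q.map (iterateFrobenius K p s)) := by
  induction q using Polynomial.induction_on' with
  | add p q hp hq => rw [map_add, add_pow_char_pow, hp, hq, Polynomial.map_add, map_add]
  | monomial k a =>
    rw [aeval_monomial, Polynomial.map_monomial, aeval_monomial, iterateFrobenius_def, mul_pow,
      map_pow, ← pow_mul, ← pow_mul, mul_comm k]

private theorem RD_frobK (q : K[X]) (z : K) :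
    (q.eval z) ^ (p ^ s) = (q.map (iterateFrobenius K p s)).eval (z ^ (p ^ s)) := by
  have := RD_frob (p := p) s q z
  rwa [coe_aeval_eq_eval, coe_aeval_eq_eval] at this

private theorem RD_root (f : K[X]) (h : ∀ i, ∃ a, f.coeff i = a ^ (p ^ s)) :
    ∃ φ : K[X], φ.map (iterateFrobenius K p s) = f := by
  choose a ha using h
  have hP : p ^ s ≠ 0 := pow_ne_zero _ (Fact.out : p.Prime).ne_zero
  refine ⟨∑ i ∈ Finset.range (f.natDegree + 1), C (a i) * X ^ i, ?_⟩
  ext k
  rw [coeff_map, finsetSum_coeff]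
  simp only [coeff_C_mul, coeff_X_pow, mul_ite, mul_one, mul_zero]
  rw [Finset.sum_ite_eq]
  split_ifs with hk
  · rw [iterateFrobenius_def, ← ha]
  · rw [Finset.mem_range, not_lt] at hk
    rw [map_zero, coeff_eq_zero_of_natDegree_lt (by omega)]

end Frob

private theorem RD_larger {K V : Type} [Field K] [Field V] [Algebra K V]
    {F F' : IntermediateField K V} (h : F ≤ F') {z : V} (hz : IsAlgebraic F z) :
    IsAlgebraic F' z := by
  obtain ⟨q, hq0, hq⟩ := hz
  refine ⟨q.map (IntermediateField.inclusion h : F →+* F'), ?_, ?_⟩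
  · rwa [Ne, Polynomial.map_eq_zero_iff]
    exact (IntermediateField.inclusion h).injective
  · rw [aeval_def, eval₂_map]
    exact hq

/-- the Hasse operator on an ultrapower -/
private theorem RD_hasse {p : ℕ} [Fact p.Prime] {U : Ultrafilter ℕ} {K V : Type} [Field K]
    [Field V] [Algebra K V] [CharP K p] (up : UP U K V) {n s : ℕ} (t : Fin n → K) (d : K → K)
    (T : K →+ K)
    (hT : ∀ w : (Fin n → Fin (p ^ s)) → K, T (∑ a, tm t a * w a ^ (p ^ s)) =
      ∑ a, tm t a * (d (w a)) ^ (p ^ s)) (D : V → V)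
    (hD : ∀ u : ℕ → K, D (up.gm u) = up.gm (fun n => d (u n))) (T' : V →+ V)
    (hT' : ∀ u : ℕ → K, T' (up.gm u) = up.gm (fun n => T (u n)))
    (w : (Fin n → Fin (p ^ s)) → V) :
    T' (∑ a, algebraMap K V (tm t a) * w a ^ (p ^ s)) =
      ∑ a, algebraMap K V (tm t a) * (D (w a)) ^ (p ^ s) := by
  choose u hu using fun a => up.surj (w a)
  have e1 : ∑ a, algebraMap K V (tm t a) * w a ^ (p ^ s) =
      up.gm (fun m => ∑ a, tm t a * u a m ^ (p ^ s)) := by
    rw [RD_sum]
    refine Finset.sum_congr rfl fun a _ => ?_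
    rw [← hu a, ← up.const, ← RD_pow, ← RD_mul]
  rw [e1, hT']
  have e2 : (fun m => T (∑ a, tm t a * u a m ^ (p ^ s))) =
      fun m => ∑ a, tm t a * (d (u a m)) ^ (p ^ s) := by
    funext m
    exact hT fun a => u a m
  rw [e2, RD_sum]
  refine Finset.sum_congr rfl fun a _ => ?_
  rw [← hu a, hD, ← up.const, ← RD_pow, ← RD_mul]

private theorem RD_indep {p : ℕ} [Fact p.Prime] {U : Ultrafilter ℕ} {K V : Type} [Field K]
    [Field V] [Algebra K V] (up : UP U K V) {n s : ℕ} (t : Fin n → K)
    (h : ∀ w : (Fin n → Fin (p ^ s)) → K, ∑ a, tm t a * w a ^ (p ^ s) = 0 → w = 0)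
    (w : (Fin n → Fin (p ^ s)) → V)
    (hw : ∑ a, algebraMap K V (tm t a) * w a ^ (p ^ s) = 0) : w = 0 := by
  choose u hu using fun a => up.surj (w a)
  have e1 : ∑ a, algebraMap K V (tm t a) * w a ^ (p ^ s) =
      up.gm (fun m => ∑ a, tm t a * u a m ^ (p ^ s)) := by
    rw [RD_sum]
    refine Finset.sum_congr rfl fun a _ => ?_
    rw [← hu a, ← up.const, ← RD_pow, ← RD_mul]
  rw [e1] at hw
  have h1 := (up.zero _).1 hw
  funext a
  rw [← hu a, Pi.zero_apply, up.zero]
  filter_upwards [h1] with m hm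
  exact congrFun (h (fun a => u a m) hm) a

/-- `T (w ^ P) = (d w) ^ P` -/
private theorem RD_hassePow {p : ℕ} [Fact p.Prime] {K : Type} [Field K] [CharP K p] {n s : ℕ}
    (t : Fin n → K) (d : K → K) (hd : d 0 = 0) (T : K →+ K)
    (hT : ∀ w : (Fin n → Fin (p ^ s)) → K, T (∑ a, tm t a * w a ^ (p ^ s)) =
      ∑ a, tm t a * (d (w a)) ^ (p ^ s)) (w : K) : T (w ^ (p ^ s)) = (d w) ^ (p ^ s) := by
  classical
  have hP : 0 < p ^ s := pow_pos (Fact.out : p.Prime).pos _
  set a0 : Fin n → Fin (p ^ s) := fun _ => ⟨0, hP⟩ with ha0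
  have htm : tm t a0 = 1 := by
    unfold tm
    refine Finset.prod_eq_one fun j _ => ?_
    show t j ^ 0 = 1
    exact pow_zero _
  have h := hT (Pi.single a0 w)
  have e1 : ∑ a, tm t a * (Pi.single a0 w : (Fin n → Fin (p ^ s)) → K) a ^ (p ^ s) =
      w ^ (p ^ s) := by
    rw [Finset.sum_eq_single a0]
    · rw [Pi.single_eq_same, htm, one_mul]
    · intro b _ hb
      rw [Pi.single_eq_of_ne hb, zero_pow hP.ne', mul_zero]
    · exact fun h => absurd (Finset.mem_univ a0) h
  have e2 : ∑ a, tm t a * (d ((Pi.single a0 w : (Fin n → Fin (p ^ s)) → K) a)) ^ (p ^ s) =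
      (d w) ^ (p ^ s) := by
    rw [Finset.sum_eq_single a0]
    · rw [Pi.single_eq_same, htm, one_mul]
    · intro b _ hb
      rw [Pi.single_eq_of_ne hb, hd, zero_pow hP.ne', mul_zero]
    · exact fun h => absurd (Finset.mem_univ a0) h
  rw [e1, e2] at h
  exact h

/-- RD. -/
theorem thm_RD (hORB : St_ORB) (hHS : St_HS) (hHB : St_HB) (hUPX : St_UPX) (hR1 : St_R1)
    (hR1B : St_R1B) (hSTO : St_STO) (hS2 : St_S2) (hGOD : St_GOD) : St_RD := by
  intro p hp K L V 𝕂 _ _ _ _ _ _ _ _ _ S U up r s f g g₁ e h x y c i₀ hU hr hf hfd hg hgd hfR hgR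
    hx0 hy0 hx hy hxi hyi hfx hfc hci hge hg1 hg2 hh hh1 hh2 hgood hret hLv
  have hpp := hp.out
  have hP : 0 < p ^ s := pow_pos hpp.pos _
  have hr2 : 2 ≤ p ^ r := by
    calc 2 ≤ p := hpp.two_le
      _ = p ^ 1 := (pow_one p).symm
      _ ≤ p ^ r := Nat.pow_le_pow_right hpp.pos hr
  have hinjF : Function.Injective (iterateFrobenius K p s) := iterateFrobenius_inj K p s
  -- the roots of level `s`
  obtain ⟨φ, hφ⟩ := RD_root (p := p) s f hLv.1
  choose w hw using hLv.2
  have hφm : φ.Monic := by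
    rw [hinjF.monic_map_iff, hφ]; exact hf
  have hφd : φ.natDegree = p ^ r := by
    rw [← hfd, ← hφ, natDegree_map_eq_of_injective hinjF]
  have hwφ : ∀ l, w (l + 1) = φ.eval (w l) := by
    intro l
    apply RD_inj (p := p) s
    rw [RD_frobK, hφ, ← hw, ← hw, hx]
  have hw0 : w 0 = 0 := by
    apply RD_inj (p := p) s
    rw [← hw, hx0, zero_pow hP.ne']
  have hwi : Function.Injective w := by
    intro l l' hl
    apply hxi
    rw [hw, hw l', hl]
  have hdφ : (derivative φ).map (iterateFrobenius K p s) = derivative f := by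
    rw [← hφ, derivative_map]
  have hφx : ∀ l, (derivative φ).eval (w l) ≠ 0 := by
    intro l h0
    apply hfx l
    rw [← hdφ, hw l, ← RD_frobK, h0, zero_pow hP.ne']
  have hdφ0 : derivative φ ≠ 0 := fun h0 => hφx 0 (by rw [h0, eval_zero])
  have hdf0 : derivative f ≠ 0 := fun h0 => hfx 0 (by rw [h0, eval_zero])
  -- places
  obtain ⟨hxR, Ex, hExne, hEx1, hEx2⟩ := hORB p K L S f x hf (by rw [hfd]; exact hr2) hfR
    (by rw [hx0]; exact S.R.zero_mem) hx hxi
  obtain ⟨hyR, Ey, hEyne, hEy1, hEy2⟩ := hORB p K L S g y hg (by rw [hgd]; exact hr2) hgR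
    hy0 hy hyi
  have hwR : ∀ l, w l ∈ S.R := by
    intro l
    refine S.Rint (X ^ (p ^ s) - C (x l)) (w l) (monic_X_pow_sub_C _ hP.ne') ?_ ?_
    · intro i
      rw [coeff_sub, coeff_X_pow, coeff_C]
      refine S.R.sub_mem ?_ ?_
      · split_ifs
        · exact S.R.one_mem
        · exact S.R.zero_mem
      · split_ifs
        · exact hxR l
        · exact S.R.zero_mem
    · rw [eval_sub, eval_pow, eval_X, eval_C, ← hw l, sub_self]
  have hnw : ∀ j l, ‖S.σ j (x l)‖ = ‖S.σ j (w l)‖ ^ (p ^ s) := by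
    intro j l
    rw [hw l, map_pow, norm_pow]
  have hEw1 : ∀ j, j ∉ Ex → ∃ C : ℝ, ∀ l, ‖S.σ j (w l)‖ ≤ C := by
    intro j hj
    obtain ⟨C, hC⟩ := hEx1 j hj
    refine ⟨max 1 C, fun l => ?_⟩
    by_contra hcon
    push Not at hcon
    have h1 : 1 < ‖S.σ j (w l)‖ := lt_of_le_of_lt (le_max_left _ _) hcon
    have h2 : C < ‖S.σ j (w l)‖ := lt_of_le_of_lt (le_max_right _ _) hcon
    have h3 : ‖S.σ j (w l)‖ ≤ ‖S.σ j (x l)‖ := by
      rw [hnw]; exact le_self_pow₀ h1.le hP.ne'
    have := hC l
    linarith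
  have hEw2 : ∀ j ∈ Ex, ∀ M : ℝ, ∃ l₀, ∀ l, l₀ ≤ l → M ≤ ‖S.σ j (w l)‖ := by
    intro j hj M
    obtain ⟨l₀, hl₀⟩ := hEx2 j hj ((max M 0) ^ (p ^ s))
    refine ⟨l₀, fun l hl => ?_⟩
    have h1 := hl₀ l hl
    rw [hnw] at h1
    exact (le_max_left _ _).trans (le_of_pow_le_pow_left₀ hP.ne' (norm_nonneg _) h1)
  -- the germs
  set X' : ℕ → V := fun j => up.gm fun n => x (n - j) with hX'
  set W' : ℕ → V := fun j => up.gm fun n => w (n - j) with hW'
  set Y' : ℕ → V := fun j => up.gm fun n => y (n - j) with hY'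
  have hXW : ∀ j, X' j = W' j ^ (p ^ s) := by
    intro j
    rw [hX', hW']
    beta_reduce
    rw [← RD_pow]
    congr 1
    funext n
    exact hw _
  choose D hD using fun i => hUPX.2.2 U K V up (S.D i)
  have hDalg : ∀ j, ∀ z : K, D j (algebraMap K V z) = algebraMap K V (S.D j z) := by
    intro j z
    rw [← up.const, hD, up.const]
  obtain ⟨hB1, hB2⟩ := hHB p K L S s
  have hκ : ∀ i, (∀ l, S.D i (w l) = 0) ∧ ∀ k, S.D i (φ.coeff k) = 0 := by
    intro i
    obtain ⟨T, hTg, hTf⟩ := hHS p K L S i s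
    obtain ⟨T', hT'⟩ := hUPX.2.1 U K V up T
    have hhasse := RD_hasse (p := p) (s := s) up S.t (S.D i) T hTf (D i) (hD i) T' hT'
    have hindep := RD_indep (p := p) (s := s) up S.t hB2
    have hpowD : ∀ j, T' (X' j) = (D i (W' j)) ^ (p ^ s) := by
      intro j
      rw [hXW, hW']
      beta_reduce
      rw [← RD_pow, hT', hD, ← RD_pow]
      congr 1
      funext n
      exact RD_hassePow (p := p) S.t (S.D i) (map_zero _) T hTf _
    -- Step 1
    have hstep1 : ∃ j, IsAlgebraic (fld1 (K := K) (X' j)) (T' (X' j)) := by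
      rcases hg2 with hg2 | hg2
      · refine hR1 p K V 𝕂 S.n s r S.t (D i) T' f g g₁ e h X' W' Y' c i₀ hB1 hindep
          (fun z => ⟨_, hDalg i z⟩) hhasse hr hf hfd hg hgd hdf0 hfc hge hg1 hg2 hXW
          (fun j => RD_step up hU f x hx j) (fun j => RD_step up hU g y hy j)
          (fun j => RD_trans up hU x hxi j) (fun j => RD_trans up hU y hyi j) ?_ hh hh1 hh2 ?_
          hgood
        · rw [hX', hY']
          beta_reduce
          rw [RD_evA, up.zero]
          exact hret
        · intro i' e'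
          obtain ⟨St, hSt⟩ := hSTO p K L V S U up Ey y (p ^ e') i' hU
            (Nat.one_le_pow _ _ hpp.pos) hEyne hyR hEy1 hEy2
          have e1 : up.gm (fun n => y (n - i') ^ (p ^ e')) = Y' i' ^ (p ^ e') := RD_pow up _ _
          have h1 : ∃ St : Str K V (up.gm (fun n => y (n - i') ^ (p ^ e'))),
              (∀ w ∈ St.Bd, T' w ∈ St.Bd) ∧ ∀ w ∈ St.Gr 1, T' w ∈ St.Gr 1 :=
            ⟨St, (hSt T T' hTg hT').1, (hSt T T' hTg hT').2 1⟩
          rwa [e1] at h1
      · refine ⟨0, hR1B p K V S.n s r S.t (D i) T' h X' W' Y' hB1 hindep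
          (fun z => ⟨_, hDalg i z⟩) hhasse hr hXW (fun j => ?_)
          (fun j => RD_trans up hU x hxi j) ?_ hh hh1 hh2⟩
        · have h1 := RD_step up hU g y hy j
          rw [hg2, map_pow, aeval_X] at h1
          exact h1
        · rw [hX', hY']
          beta_reduce
          rw [RD_evA, up.zero]
          exact hret
    -- Step 2
    have hstep2 : ∃ j, IsAlgebraic (fld1 (K := K) (W' j)) (D i (W' j)) := by
      obtain ⟨j, hj⟩ := hstep1
      refine ⟨j, ?_⟩
      have h1 : fld1 (K := K) (X' j) ≤ fld1 (K := K) (W' j) := by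
        rw [IntermediateField.adjoin_le_iff, Set.singleton_subset_iff, hXW]
        exact pow_mem (IntermediateField.mem_adjoin_simple_self K _) _
      have h2 := RD_larger h1 hj
      rw [hpowD] at h2
      exact h2.of_pow hP
    have hSt : ∀ j, ∃ St : Str K V (W' j), D i (W' j) ∈ St.Bd ∧ D i (W' j) ∈ St.Gr 1 := by
      intro j
      obtain ⟨St, hSt⟩ := hSTO p K L V S U up Ex w 1 j hU le_rfl hExne hwR hEw1 hEw2
      obtain ⟨h1, h2⟩ := hSt _ (D i : V →+ V) ((hGOD p K L S).1 i) (hD i)
      have e1 : up.gm (fun n => w (n - j) ^ 1) = W' j := by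
        rw [hW']
        beta_reduce
        congr 1
        funext n
        exact pow_one _
      have h3 : ∃ St : Str K V (up.gm (fun n => w (n - j) ^ 1)),
          D i (up.gm (fun n => w (n - j) ^ 1)) ∈ St.Bd ∧
          D i (up.gm (fun n => w (n - j) ^ 1)) ∈ St.Gr 1 := ⟨St, h1 _ St.Z_mem, h2 1 _ St.Gr_Z⟩
      rwa [e1] at h3
    choose St hSt1 using hSt
    haveI : CharP 𝕂 p := charP_of_injective_algebraMap (algebraMap K 𝕂).injective p
    obtain ⟨c', hc'⟩ := IsAlgClosed.exists_pow_nat_eq (algebraMap K 𝕂 c) hP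
    have hc0 : aeval c' (derivative φ) = 0 := by
      have h1 := RD_frob (p := p) s (derivative φ) c'
      rw [hdφ, hc', aeval_algebraMap_apply, coe_aeval_eq_eval, hfc, map_zero] at h1
      exact pow_eq_zero_iff hP.ne' |>.1 h1
    have horb : ∀ m, ((fun z : 𝕂 => aeval z φ)^[m] c') ^ (p ^ s) =
        algebraMap K 𝕂 ((itc f m).eval c) := by
      intro m
      induction m with
      | zero => simp [itc, hc']
      | succ m ih =>
        rw [Function.iterate_succ_apply']
        beta_reduce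
        rw [RD_frob (p := p) s φ, ih, hφ, aeval_algebraMap_apply, coe_aeval_eq_eval, itc_succ,
          eval_comp]
    have hcinj : Function.Injective (fun m : ℕ => (fun z : 𝕂 => aeval z φ)^[m] c') := by
      intro m m' hm
      apply hci
      apply (algebraMap K 𝕂).injective
      beta_reduce at hm ⊢
      rw [← horb, ← horb, hm]
    obtain ⟨κ, j₀, hκ1, hκ2⟩ := hS2 p K V 𝕂 S.n D S.D r φ W' St c' i hDalg S.ker hr hφm hφd hdφ0
      (fun j => RD_trans up hU w hwi j) (fun j => RD_step up hU φ w hwφ j)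
      (fun j => hSt1 j) hc0 hcinj hstep2
    -- from the germ to all `l`
    have hinf : ∀ N, ∃ l, N ≤ l ∧ S.D i (w l) = κ := by
      intro N
      have h1 := hκ1 j₀ le_rfl
      rw [hW'] at h1
      beta_reduce at h1
      rw [hD, ← up.const, RD_eq] at h1
      obtain ⟨n, hn1, hn2⟩ := (h1.and (RD_ge hU (N + j₀))).exists
      exact ⟨n - j₀, by omega, hn1⟩
    have hback : ∀ l, S.D i (w (l + 1)) = κ → S.D i (w l) = κ := by
      intro l hl
      rw [hwφ, RD_eval, hκ2] at hl
      simp only [eval_mul, eval_C, eval_sub, eval_one] at hl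
      have h1 : (derivative φ).eval (w l) * (S.D i (w l) - κ) = 0 := by linear_combination hl
      rcases mul_eq_zero.1 h1 with h2 | h2
      · exact absurd h2 (hφx l)
      · exact sub_eq_zero.1 h2
    have hall : ∀ l, S.D i (w l) = κ := by
      intro l
      obtain ⟨m, hm, hmκ⟩ := hinf l
      obtain ⟨d, rfl⟩ := Nat.exists_eq_add_of_le hm
      clear hm
      induction d with
      | zero => exact hmκ
      | succ d ih => exact ih (hback _ hmκ)
    have hκ0 : κ = 0 := by
      rw [← hall 0, hw0, map_zero]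
    refine ⟨fun l => (hall l).trans hκ0, fun k => ?_⟩
    rw [← RD_coeff, hκ2, hκ0, C_0, zero_mul, coeff_zero]
  have hpow : ∀ a b : K, b = a ^ p → ∃ a', b ^ (p ^ s) = a' ^ (p ^ (s + 1)) := by
    intro a b hb
    refine ⟨a, ?_⟩
    rw [hb, ← pow_mul, pow_succ, mul_comm]
  refine ⟨fun k => ?_, fun l => ?_⟩
  · obtain ⟨a, ha⟩ := S.ker (φ.coeff k) fun i => (hκ i).2 k
    obtain ⟨a', ha'⟩ := hpow a _ ha
    refine ⟨a', ?_⟩
    rw [← ha', ← hφ, coeff_map, iterateFrobenius_def]
  · obtain ⟨a, ha⟩ := S.ker (w l) fun i => (hκ i).1 l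
    obtain ⟨a', ha'⟩ := hpow a _ ha
    exact ⟨a', by rw [← ha', ← hw]⟩

end Pool.Agent.NPC
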