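import Pool.Agent.NPC.StA

set_option autoImplicit false

namespace Pool.Agent.NPC

open Polynomial

/-- A nonzero relation, from an algebraic equation over `K(x)`. -/
private theorem REL_exists {K V : Type} [Field K] [Field V] [Algebra K V] (x y : V)
    (hx : Transcendental K x) (hy : IsAlgebraic (fld1 (K := K) x) y) :
    ∃ P : K[X][X], P ≠ 0 ∧ evA x y P = 0 := by
  classical
  obtain ⟨p, hp, hpy⟩ := hy
  have hx' : Function.Injective (aeval x : K[X] →ₐ[K] V) := transcendental_iff_injective.mp hx
  have hc : ∀ i, ∃ r s : K[X], s ≠ 0 ∧ ((p.coeff i : fld1 (K := K) x) : V) * aeval x s =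
      aeval x r := by
    intro i
    obtain ⟨r, s, h⟩ := (IntermediateField.mem_adjoin_simple_iff K _).mp (p.coeff i).2
    by_cases hs : s = 0
    · refine ⟨0, 1, one_ne_zero, ?_⟩
      rw [h, hs]
      simp
    · refine ⟨r, s, hs, ?_⟩
      have : aeval x s ≠ 0 := fun h0 => hs (hx' (by rw [h0, map_zero]))
      rw [h, div_mul_cancel₀ _ this]
  choose r s hs h using hc
  set N := p.natDegree + 1 with hN
  set c : ℕ → K[X] := fun i => r i * ∏ j ∈ (Finset.range N).erase i, s j with hcdef
  have hcx : ∀ i ∈ Finset.range N, aeval x (c i) =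
      ((p.coeff i : fld1 (K := K) x) : V) * aeval x (∏ j ∈ Finset.range N, s j) := by
    intro i hi
    rw [← Finset.mul_prod_erase _ _ hi]
    simp only [hcdef]
    rw [map_mul, map_mul, ← mul_assoc, h i]
  refine ⟨∑ i ∈ Finset.range N, C (c i) * X ^ i, ?_, ?_⟩
  · intro h0
    apply hp
    ext i
    by_cases hi : i ∈ Finset.range N
    · have h1 := congrArg (fun q => q.coeff i) h0
      simp only [finsetSum_coeff, coeff_C_mul, coeff_X_pow, mul_ite, mul_one, mul_zero,
        coeff_zero, Finset.sum_ite_eq, if_pos hi] at h1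
      have h2 := hcx i hi
      rw [h1, map_zero] at h2
      have h3 : aeval x (∏ j ∈ Finset.range N, s j) ≠ 0 := by
        intro h4
        have h5 := hx' (a₁ := ∏ j ∈ Finset.range N, s j) (a₂ := 0) (by rw [h4, map_zero])
        rw [Finset.prod_eq_zero_iff] at h5
        obtain ⟨j, _, hj⟩ := h5
        exact hs j hj
      rcases mul_eq_zero.mp h2.symm with h4 | h4
      · rw [coeff_zero]
        exact h4
      · exact absurd h4 h3
    · rw [coeff_zero]
      have hi' : p.natDegree < i := by
        simp only [Finset.mem_range] at hi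
        omega
      rw [coeff_eq_zero_of_natDegree_lt hi']
  · have h1 : evA x y (∑ i ∈ Finset.range N, C (c i) * X ^ i) =
        ∑ i ∈ Finset.range N, aeval x (c i) * y ^ i := by
      unfold evA
      rw [Polynomial.map_sum, eval_finsetSum]
      refine Finset.sum_congr rfl fun i _ => ?_
      simp
    rw [h1]
    have h2 : ∑ i ∈ Finset.range N, aeval x (c i) * y ^ i =
        aeval x (∏ j ∈ Finset.range N, s j) *
          ∑ i ∈ Finset.range N, ((p.coeff i : fld1 (K := K) x) : V) * y ^ i := by
      rw [Finset.mul_sum]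
      refine Finset.sum_congr rfl fun i hi => ?_
      rw [hcx i hi]
      ring
    rw [h2]
    have h3 : ∑ i ∈ Finset.range N, ((p.coeff i : fld1 (K := K) x) : V) * y ^ i = 0 := by
      rw [← hpy, aeval_eq_sum_range]
      refine Finset.sum_congr rfl fun i _ => ?_
      rw [Algebra.smul_def]
      rfl
    rw [h3, mul_zero]

theorem thm_REL : St_REL := by
  intro K V _ _ _ x y hx hy
  classical
  let al : K[X] →+* V := (aeval x : K[X] →ₐ[K] V)
  have hal : Function.Injective al := transcendental_iff_injective.mp hx
  let ev : K[X][X] →+* V := (evalRingHom y).comp (mapRingHom al)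
  have hev : ∀ P, evA x y P = ev P := fun P => rfl
  obtain ⟨P, hP0, hP⟩ := REL_exists x y hx hy
  -- an irreducible factor
  have h1 : ∃ F : K[X][X], Irreducible F ∧ ev F = 0 := by
    obtain ⟨u, hu⟩ := UniqueFactorizationMonoid.factors_prod hP0
    have h2 : ev (UniqueFactorizationMonoid.factors P).prod = 0 := by
      have h3 : ev (UniqueFactorizationMonoid.factors P).prod * ev (u : K[X][X]) = 0 := by
        rw [← map_mul, hu, ← hev]
        exact hP
      rcases mul_eq_zero.mp h3 with h4 | h4
      · exact h4
      · exact absurd h4 (u.isUnit.map ev).ne_zero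
    rw [map_multiset_prod, Multiset.prod_eq_zero_iff, Multiset.mem_map] at h2
    obtain ⟨F, hF, hF0⟩ := h2
    exact ⟨F, UniqueFactorizationMonoid.irreducible_of_factor F hF, hF0⟩
  obtain ⟨F, hF, hF0⟩ := h1
  have hdeg : 0 < F.natDegree := by
    by_contra h
    have h2 : F.natDegree = 0 := by omega
    rw [Polynomial.eq_C_of_natDegree_eq_zero h2] at hF0
    have h3 : al (F.coeff 0) = 0 := by
      rw [← hF0]
      simp [ev]
    have h4 : F.coeff 0 = 0 := hal (by rw [h3, map_zero])
    apply hF.ne_zero
    rw [Polynomial.eq_C_of_natDegree_eq_zero h2, h4, C_0]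
  refine ⟨F, hF, hdeg, fun Q => ⟨fun hQ => ?_, fun hQ => ?_⟩⟩
  · have hprim : F.IsPrimitive := hF.isPrimitive hdeg.ne'
    let ps : FractionRing K[X] →+* V := IsFractionRing.lift hal
    have hps : ps.comp (algebraMap K[X] (FractionRing K[X])) = al := by
      refine RingHom.ext fun a => ?_
      rw [RingHom.comp_apply]
      exact IsFractionRing.lift_algebraMap hal a
    have hmap : ∀ R : K[X][X], eval₂ ps y (R.map (algebraMap K[X] (FractionRing K[X]))) =
        ev R := by
      intro R
      rw [eval₂_map, hps]
      change _ = eval y (map al R)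
      rw [eval_map]
    have hirr := (hprim.irreducible_iff_irreducible_map_fraction_map
      (K := FractionRing K[X])).mp hF
    apply hprim.dvd_of_fraction_map_dvd_fraction_map (K := FractionRing K[X])
    rcases EuclideanDomain.dvd_or_coprime _ (Q.map (algebraMap K[X] (FractionRing K[X]))) hirr
      with h | h
    · exact h
    · exfalso
      obtain ⟨a, b, hab⟩ := h
      have h2 := congrArg (eval₂ ps y) hab
      rw [eval₂_add, eval₂_mul, eval₂_mul, hmap, hmap, hF0, ← hev, hQ] at h2
      simp at h2
  · obtain ⟨R, rfl⟩ := hQ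
    rw [hev, map_mul, hF0, zero_mul]

end Pool.Agent.NPC
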