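import Pool.Agent.NPC.StA

/-!
# Step 1 assembled: `thm_S1`
-/

set_option autoImplicit false

namespace Pool.Agent.NPC

open Polynomial Pool.Agent.Helper11.SP

section basic

variable {K V : Type} [Field K] [Field V] [Algebra K V]

private lemma S1_evA (x y : V) (P : K[X][X]) :
    evA x y P = eval₂RingHom ((aeval x : K[X] →ₐ[K] V) : K[X] →+* V) y P := by
  unfold evA
  rw [eval_map]
  rfl

private lemma S1_add (x y : V) (P Q : K[X][X]) : evA x y (P + Q) = evA x y P + evA x y Q := by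
  simp only [S1_evA, map_add]

private lemma S1_mul (x y : V) (P Q : K[X][X]) : evA x y (P * Q) = evA x y P * evA x y Q := by
  simp only [S1_evA, map_mul]

private lemma S1_C (x y : V) (q : K[X]) : evA x y (C q) = aeval x q := by
  simp only [S1_evA, coe_eval₂RingHom, eval₂_C]
  rfl

private lemma S1_X (x y : V) : evA x y (X : K[X][X]) = y := by
  simp only [S1_evA, coe_eval₂RingHom, eval₂_X]

private lemma S1_one (x y : V) : evA x y (1 : K[X][X]) = 1 := by
  simp only [S1_evA, map_one]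

private lemma S1_zero (x y : V) : evA x y (0 : K[X][X]) = 0 := by
  simp only [S1_evA, map_zero]

private lemma S1_neg (x y : V) (P : K[X][X]) : evA x y (-P) = -evA x y P := by
  simp only [S1_evA, map_neg]

private lemma S1_mapC (x y : V) (q : K[X]) : evA x y (q.map C) = aeval y q := by
  rw [S1_evA, coe_eval₂RingHom, eval₂_map, aeval_def]
  congr 1
  ext k
  simp

private lemma S1_comp (x y : V) (P R : K[X][X]) : evA x y (R.comp P) = evA x (evA x y P) R := by
  simp only [S1_evA, coe_eval₂RingHom]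
  rw [eval₂_comp]

/-- elements of the form `evA x y P` are in the algebra generated by `x`, `y` -/
private lemma S1_mem (x y : V) (P : K[X][X]) : evA x y P ∈ Algebra.adjoin K ({x, y} : Set V) := by
  induction P using Polynomial.induction_on' with
  | add P Q hP hQ => rw [S1_add]; exact add_mem hP hQ
  | monomial n q =>
    rw [← C_mul_X_pow_eq_monomial, S1_mul, S1_C]
    have h1 : evA x y (X ^ n : K[X][X]) = y ^ n := by
      rw [S1_evA, map_pow, ← S1_evA, S1_X]
    rw [h1]
    refine mul_mem ?_ (pow_mem (Algebra.subset_adjoin (by simp)) n)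
    exact Algebra.adjoin_mono (by simp) (aeval_mem_adjoin_singleton K x)

/-- an element of `K[y][xt]` which is not zero divides a nonzero element of `K[y]` -/
private lemma S1_dvd (y xt : V) (G₁ P : K[X][X]) (hG₁ : G₁.Monic)
    (hGe : evA y xt G₁ = 0) (hP : evA y xt P ≠ 0) :
    ∃ (c : K[X]) (Q : K[X][X]), c ≠ 0 ∧ evA y xt P * evA y xt Q = aeval y c := by
  let alg : Algebra K[X] V := ((aeval y : K[X] →ₐ[K] V) : K[X] →+* V).toAlgebra
  have hmap : ∀ q : K[X], algebraMap K[X] V q = aeval y q := fun q => rfl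
  have hev : ∀ (v : V) (R : K[X][X]), evA y v R = aeval v R := by
    intro v R
    rw [S1_evA]
    rfl
  have hint : IsIntegral K[X] xt := ⟨G₁, hG₁, by rw [← aeval_def, ← hev]; exact hGe⟩
  have hint2 : IsIntegral K[X] (evA y xt P) := by
    rw [hev]
    have hmem : xt ∈ integralClosure K[X] V := hint
    have h1 := Polynomial.aeval_subalgebra_coe P (integralClosure K[X] V) ⟨xt, hmem⟩
    rw [← h1]
    exact (aeval (⟨xt, hmem⟩ : integralClosure K[X] V) P).2
  have halg : IsAlgebraic K[X] (evA y xt P) := hint2.isAlgebraic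
  obtain ⟨q, hq0, hq⟩ := halg.exists_nonzero_coeff_and_aeval_eq_zero
    (mem_nonZeroDivisors_of_ne_zero hP)
  refine ⟨q.coeff 0, -((divX q).comp P), hq0, ?_⟩
  rw [S1_neg, S1_comp]
  have h1 : q = divX q * X + C (q.coeff 0) := (divX_mul_X_add q).symm
  rw [h1, map_add, map_mul, aeval_X, aeval_C, hmap, ← hev] at hq
  linear_combination -hq

/-- the elements of `K(x, y)` as combinations of powers of `xt` -/
private lemma S1_hL (x y xt : V) (s : K[X]) (G₁ : K[X][X]) (hy : Transcendental K y) (hs : s ≠ 0)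
    (hxt : xt = aeval y s * x) (hG₁ : G₁.Monic) (hGe : evA y xt G₁ = 0) (z : V)
    (hz : z ∈ fld (K := K) x y) :
    ∃ (b : K[X]) (a : Fin G₁.natDegree → K[X]), b ≠ 0 ∧
      aeval y b * z = ∑ j, aeval y (a j) * xt ^ (j : ℕ) := by
  have hy' : ∀ b : K[X], b ≠ 0 → aeval y b ≠ 0 := fun b hb h =>
    hb ((transcendental_iff.1 hy) b h)
  have key : ∃ (b : K[X]) (P : K[X][X]), b ≠ 0 ∧ aeval y b * z = evA y xt P := by
    induction hz using IntermediateField.adjoin_induction with
    | mem z hz =>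
      rcases hz with h | h
      · refine ⟨s, X, hs, ?_⟩
        rw [S1_X, h, hxt]
      · refine ⟨1, C X, one_ne_zero, ?_⟩
        rw [S1_C, aeval_X, map_one, one_mul]
        exact h
    | algebraMap k =>
      refine ⟨1, C (C k), one_ne_zero, ?_⟩
      rw [S1_C, aeval_C, map_one, one_mul]
    | add z₁ z₂ _ _ h₁ h₂ =>
      obtain ⟨b₁, P₁, hb₁, e₁⟩ := h₁
      obtain ⟨b₂, P₂, hb₂, e₂⟩ := h₂
      refine ⟨b₁ * b₂, C b₂ * P₁ + C b₁ * P₂, mul_ne_zero hb₁ hb₂, ?_⟩
      rw [S1_add, S1_mul, S1_mul, S1_C, S1_C, ← e₁, ← e₂, map_mul]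
      ring
    | inv z₁ _ h₁ =>
      obtain ⟨b, P, hb, e⟩ := h₁
      by_cases hz : z₁ = 0
      · refine ⟨1, 0, one_ne_zero, ?_⟩
        rw [hz, S1_zero]
        simp
      · have hP : evA y xt P ≠ 0 := by
          rw [← e]
          exact mul_ne_zero (hy' b hb) hz
        obtain ⟨c, Q, hc, hQ⟩ := S1_dvd y xt G₁ P hG₁ hGe hP
        refine ⟨c, C b * Q, hc, ?_⟩
        rw [S1_mul, S1_C, ← hQ, ← e]
        field_simp
    | mul z₁ z₂ _ _ h₁ h₂ =>
      obtain ⟨b₁, P₁, hb₁, e₁⟩ := h₁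
      obtain ⟨b₂, P₂, hb₂, e₂⟩ := h₂
      refine ⟨b₁ * b₂, P₁ * P₂, mul_ne_zero hb₁ hb₂, ?_⟩
      rw [S1_mul, ← e₁, ← e₂, map_mul]
      ring
  obtain ⟨b, P, hb, e⟩ := key
  have hr : evA y xt P = evA y xt (P %ₘ G₁) := by
    conv_lhs => rw [← modByMonic_add_div P G₁]
    rw [S1_add, S1_mul, hGe, zero_mul, add_zero]
  refine ⟨b, fun j => (P %ₘ G₁).coeff j, hb, ?_⟩
  rw [e, hr]
  by_cases h1 : G₁ = 1
  · have : P %ₘ G₁ = 0 := by rw [h1, modByMonic_one]
    rw [this, S1_zero]
    simp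
  · have hlt : (P %ₘ G₁).natDegree < G₁.natDegree := natDegree_modByMonic_lt P hG₁ h1
    rw [S1_evA, coe_eval₂RingHom, eval₂_eq_sum_range' _ hlt, Finset.sum_range]
    rfl

/-- the monic relation of `s(y) x` -/
private lemma S1_G (x y : V) (G : K[X][X]) (s : K[X]) (hy : Transcendental K y)
    (hG : evA y x G = 0) (hG0 : G ≠ 0) (hGs : G.leadingCoeff ∣ s) :
    ∃ G₁ : K[X][X], G₁.Monic ∧ G₁.natDegree = G.natDegree ∧ evA y (aeval y s * x) G₁ = 0 := by
  obtain ⟨r, rfl⟩ := hGs
  have hpos : 1 ≤ G.natDegree := by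
    by_contra h
    have h0 : G.natDegree = 0 := by omega
    have h1 := eq_C_of_natDegree_eq_zero h0
    have h2 : G.coeff 0 ≠ 0 := by
      intro h2
      rw [h2, C_0] at h1
      exact hG0 h1
    rw [h1, S1_C] at hG
    exact h2 ((transcendental_iff.1 hy) _ hG)
  refine ⟨scaleRoots (integralNormalization G) r, ?_, ?_, ?_⟩
  · exact (monic_scaleRoots_iff r).2 (monic_integralNormalization hG0)
  · rw [natDegree_scaleRoots, natDegree_integralNormalization]
  · have h1 : eval₂ ((aeval y : K[X] →ₐ[K] V) : K[X] →+* V)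
        (((aeval y : K[X] →ₐ[K] V) : K[X] →+* V) G.leadingCoeff * x) (integralNormalization G) = 0 := by
      rw [integralNormalization_eval₂_leadingCoeff_mul hpos]
      have h2 : eval₂ ((aeval y : K[X] →ₐ[K] V) : K[X] →+* V) x G = 0 := by
        have := hG
        rw [S1_evA] at this
        exact this
      rw [h2, mul_zero]
    have h3 := scaleRoots_eval₂_eq_zero ((aeval y : K[X] →ₐ[K] V) : K[X] →+* V) (s := r) h1
    rw [S1_evA, coe_eval₂RingHom]
    rw [← h3, map_mul]
    congr 1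
    simp only [RingHom.coe_coe]
    ring

/-- coefficients of `dIn` -/
private lemma S1_coeff (P : K[X][X]) (i : ℕ) : (dIn P).coeff i = derivative (P.coeff i) := by
  unfold dIn mapD
  rw [finsetSum_coeff]
  simp only [coeff_C_mul_X_pow]
  rw [Finset.sum_ite_eq]
  split_ifs with h
  · rfl
  · have h1 : P.natDegree < i := by
      by_contra h2
      exact h (Finset.mem_range.2 (by omega))
    rw [coeff_eq_zero_of_natDegree_lt h1, derivative_zero]

/-- chain rule -/
private lemma S1_chain (d : Derivation K V V) (x y : V) (P : K[X][X]) :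
    d (evA x y P) = evA x y (dIn P) * d x + evA x y (derivative P) * d y := by
  induction P using Polynomial.induction_on' with
  | add P Q hP hQ =>
    have h1 : dIn (P + Q) = dIn P + dIn Q := by
      ext i : 1
      rw [coeff_add, S1_coeff, S1_coeff, S1_coeff, coeff_add, derivative_add]
    rw [h1, S1_add, map_add, hP, hQ, S1_add, derivative_add, S1_add]
    ring
  | monomial n q =>
    have h1 : dIn (monomial n q : K[X][X]) = monomial n (derivative q) := by
      ext i : 1
      rw [S1_coeff, coeff_monomial, coeff_monomial]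
      split_ifs <;> simp
    have hX : ∀ k : ℕ, evA x y (X ^ k : K[X][X]) = y ^ k := by
      intro k
      rw [S1_evA, map_pow, ← S1_evA, S1_X]
    have hm : ∀ (k : ℕ) (q : K[X]), evA x y (monomial k q : K[X][X]) = aeval x q * y ^ k := by
      intro k q
      rw [← C_mul_X_pow_eq_monomial, S1_mul, S1_C, hX]
    have hd : d (aeval x q) = aeval x (derivative q) * d x := by
      rw [Derivation.map_aeval, smul_eq_mul]
    rw [h1, derivative_monomial, hm, hm, hm, Derivation.leibniz, hd, Derivation.leibniz_pow,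
      map_mul, map_natCast]
    simp only [smul_eq_mul, nsmul_eq_mul]
    ring

/-- coercion from an intermediate field -/
private lemma S1_coe (E : IntermediateField K V) (x₁ y₁ : E) (P : K[X][X]) :
    ((evA x₁ y₁ P : E) : V) = evA (x₁ : V) (y₁ : V) P := by
  rw [S1_evA, S1_evA, coe_eval₂RingHom, coe_eval₂RingHom]
  have h := hom_eval₂ P ((aeval x₁ : K[X] →ₐ[K] E) : K[X] →+* E) (algebraMap E V) y₁
  have h2 : (algebraMap E V).comp ((aeval x₁ : K[X] →ₐ[K] E) : K[X] →+* E) =
      ((aeval (x₁ : V) : K[X] →ₐ[K] V) : K[X] →+* V) := by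
    ext k
    · simp
    · simp
  rw [h2] at h
  exact h

end basic

theorem thm_S1 (hS : St_S1C) (hB : St_BAS) (hO : St_OM) : St_S1 := by
  intro K V _ _ _ x y St H F G δ' ν a b c s δ 𝒟 hx hy hH hF hF0 hHd hHi hν hδ' hδ hG hG0 hGs hcop
    hone hdeg hBd hGr hHL
  obtain ⟨d, hd1, hdu⟩ := hHL
  set Λ : Subalgebra K V := Algebra.adjoin K ({x, y} : Set V) with hΛ
  have hxΛ : x ∈ Λ := Algebra.subset_adjoin (by simp)
  have hyΛ : y ∈ Λ := Algebra.subset_adjoin (by simp)
  have hxf : x ∈ fld (K := K) x y := IntermediateField.subset_adjoin _ _ (by simp)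
  have hyf : y ∈ fld (K := K) x y := IntermediateField.subset_adjoin _ _ (by simp)
  have hΛf : ∀ z ∈ Λ, z ∈ fld (K := K) x y := by
    intro z hz
    exact IntermediateField.algebra_adjoin_le_adjoin K _ hz
  have hpol : ∀ (w : V) (q : K[X]), w ∈ Λ → aeval w q ∈ Λ := by
    intro w q hw
    have h1 := aeval_mem_adjoin_singleton (R := K) w (p := q)
    exact (Algebra.adjoin_le (Set.singleton_subset_iff.2 hw)) h1
  have hδx : aeval x δ ≠ 0 := fun h => hδ ((transcendental_iff.1 hx) δ h)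
  set x₁ : fld (K := K) x y := ⟨x, hxf⟩ with hx₁
  set y₁ : fld (K := K) x y := ⟨y, hyf⟩ with hy₁
  have hdx : d x₁ = 1 := hd1 x₁ rfl
  -- the equation for `d y`
  have hdy : evA x y ν * (d y₁ : V) = aeval x δ * evA x y δ' := by
    have h1 := S1_chain d x₁ y₁ H
    have h2 : (evA x₁ y₁ H : fld (K := K) x y) = 0 := by
      apply Subtype.ext
      rw [S1_coe]
      exact hH
    rw [h2, map_zero, hdx, mul_one] at h1
    have h3 := congrArg (fun w : fld (K := K) x y => (w : V)) h1
    simp only [ZeroMemClass.coe_zero, AddMemClass.coe_add, MulMemClass.coe_mul, S1_coe] at h3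
    rw [hHd, hHi, S1_neg, S1_mul, S1_C] at h3
    have h4 : (x₁ : V) = x := rfl
    have h5 : (y₁ : V) = y := rfl
    rw [h4, h5] at h3
    linear_combination h3
  -- relations
  obtain ⟨G₁, hG₁, hG₁d, hG₁e⟩ := S1_G x y G s hy hG hG0 hGs
  obtain ⟨m, n₁, lam, z, hn₁, hz, hlam, hn₁e, hbd⟩ := hO K V x y St s δ δ' ν 𝒟 d x₁ y₁ rfl rfl hdx
    hdy hδx hδ' hν hdu ⟨G₁, hG₁, hG₁e⟩ hBd
  obtain ⟨u, hu, huspan, huind⟩ := hB K V x y F δ hx hF hF0 hδ hcop
  have hF1 : evA x y F = 0 := (hF F).2 dvd_rfl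
  have hone' : evA x y b * aeval x δ + evA x y c * (aeval y s * evA x y ν) = 1 := by
    have h1 := congrArg (evA x y) hone
    rw [S1_add, S1_add, S1_mul, S1_mul, S1_mul, S1_mul, hF1, mul_zero, zero_add, S1_C, S1_mapC,
      S1_one] at h1
    exact h1
  have hs : s ≠ 0 := by
    intro hs
    rw [hs, map_zero, zero_mul, mul_zero, add_zero] at hone'
    have hpos : 0 < δ.natDegree * F.natDegree := by omega
    have h1 := huind (fun _ => 1) ⟨evA x y b * ∑ i, (1 : K) • u i,
      mul_mem (S1_mem x y b) (sum_mem fun i _ => Subalgebra.smul_mem _ (hu i) _), by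
        rw [← mul_assoc, mul_comm (aeval x δ), hone', one_mul]⟩
    have h2 := congrFun h1 ⟨0, hpos⟩
    exact one_ne_zero h2
  -- application of the core
  have hcore := hS K V y St Λ (fld (K := K) x y).toSubfield s (aeval y s * x) (aeval x δ) n₁ lam
    (𝒟 y) G.natDegree (δ.natDegree * F.natDegree) u hy hyΛ (mul_mem (hpol y s hyΛ) hxΛ) hΛf
    ⟨G₁, hG₁, hG₁d, hG₁e⟩
    (by
      intro z hz
      have h1 := S1_hL x y (aeval y s * x) s G₁ hy hs rfl hG₁ hG₁e z hz
      rw [hG₁d] at h1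
      exact h1)
    hlam (hpol x δ hxΛ) hδx hn₁
    (by
      intro z hz
      have hsm : aeval y s ∈ Algebra.adjoin K ({y, aeval y s * x} : Set V) :=
        (Algebra.adjoin_mono (by simp)) (aeval_mem_adjoin_singleton (R := K) y (p := s))
      induction hz using Algebra.adjoin_induction with
      | mem z hz =>
        rcases hz with h | h
        · refine ⟨1, ?_⟩
          rw [h, pow_one]
          exact Algebra.subset_adjoin (by simp)
        · refine ⟨0, ?_⟩
          rw [Set.mem_singleton_iff.1 h, pow_zero, one_mul]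
          exact Algebra.subset_adjoin (by simp)
      | algebraMap k => exact ⟨0, by rw [pow_zero, one_mul]; exact Subalgebra.algebraMap_mem _ k⟩
      | add z₁ z₂ _ _ h₁ h₂ =>
        obtain ⟨m₁, h₁⟩ := h₁
        obtain ⟨m₂, h₂⟩ := h₂
        refine ⟨m₁ + m₂, ?_⟩
        have e : aeval y s ^ (m₁ + m₂) * (z₁ + z₂) = aeval y s ^ m₂ * (aeval y s ^ m₁ * z₁) +
          aeval y s ^ m₁ * (aeval y s ^ m₂ * z₂) := by ring
        rw [e]
        exact add_mem (mul_mem (pow_mem hsm _) h₁) (mul_mem (pow_mem hsm _) h₂)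
      | mul z₁ z₂ _ _ h₁ h₂ =>
        obtain ⟨m₁, h₁⟩ := h₁
        obtain ⟨m₂, h₂⟩ := h₂
        refine ⟨m₁ + m₂, ?_⟩
        have e : aeval y s ^ (m₁ + m₂) * (z₁ * z₂) = (aeval y s ^ m₁ * z₁) *
          (aeval y s ^ m₂ * z₂) := by ring
        rw [e]
        exact mul_mem h₁ h₂)
    ⟨evA x y c * evA x y ν, mul_mem (S1_mem x y c) (S1_mem x y ν), evA x y b, S1_mem x y b, by
      rw [← hone']; ring⟩
    (by
      -- `n₁` is a unit modulo `δ`
      set sΛ : Λ := ⟨aeval y s, hpol y s hyΛ⟩ with hsΛ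
      set δΛ : Λ := ⟨aeval x δ, hpol x δ hxΛ⟩ with hδΛ
      set νΛ : Λ := ⟨evA x y ν, S1_mem x y ν⟩ with hνΛ
      set zΛ : Λ := ⟨z, hz⟩ with hzΛ
      have c1 : IsCoprime (sΛ * νΛ) δΛ := ⟨⟨evA x y c, S1_mem x y c⟩, ⟨evA x y b, S1_mem x y b⟩, by
        apply Subtype.ext
        change evA x y c * (aeval y s * evA x y ν) + evA x y b * aeval x δ = 1
        rw [← hone']; ring⟩
      have c2 : IsCoprime (sΛ ^ (m + 1) * νΛ) δΛ :=
        (c1.of_mul_left_left.pow_left).mul_left c1.of_mul_left_right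
      have c3 : IsCoprime (sΛ ^ (m + 1) * νΛ + δΛ * zΛ) δΛ := by
        rw [IsCoprime.add_mul_left_left_iff]
        exact c2
      obtain ⟨α, β, hαβ⟩ := c3
      refine ⟨α, α.2, β, β.2, ?_⟩
      have h1 := congrArg (fun w : Λ => (w : V)) hαβ
      rw [hn₁e]
      exact h1)
    hu huspan huind (hBd y St.Z_mem) hGr hbd hdeg
  -- conclusion
  have halg : IsAlgebraic (fld (K := K) x y) (𝒟 y) := by
    have h1 : IsAlgebraic (fld (K := K) x y).toSubfield (𝒟 y) := by
      by_contra h
      exact hcore h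
    exact h1
  obtain ⟨lam₁, hl₁⟩ := hdu y₁
  have hdy0 : (d y₁ : V) ≠ 0 := by
    intro h
    rw [h, mul_zero] at hdy
    exact mul_ne_zero hδx hδ' hdy.symm
  have hfin : 𝒟 x = (𝒟 y - lam₁) * (((d y₁)⁻¹ : fld (K := K) x y) : V) := by
    have h5 : (y₁ : V) = y := rfl
    rw [h5] at hl₁
    have h6 : (((d y₁)⁻¹ : fld (K := K) x y) : V) = (d y₁ : V)⁻¹ := rfl
    rw [h6, hl₁]
    field_simp
    ring
  rw [hfin]
  exact (halg.sub (isAlgebraic_algebraMap lam₁)).mul (isAlgebraic_algebraMap ((d y₁)⁻¹))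

end Pool.Agent.NPC
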