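import Pool.Agent.NPC.LB

/-!
# NPC [S1C]: the core of Step 1
-/

set_option autoImplicit false

namespace Pool.Agent.NPC

open Polynomial

section

variable {K V : Type} [Field K] [Field V] [Algebra K V] {Y : V} (St : Str K V Y)

/-- the bounded elements as a subalgebra -/
def S1C_B : Subalgebra K V := { St.Bd with algebraMap_mem' := St.alg_mem }

lemma S1C_mem {z : V} : z ∈ S1C_B St ↔ z ∈ St.Bd := Iff.rfl

lemma S1C_aeval_Bd (q : K[X]) : aeval Y q ∈ St.Bd :=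
  (S1C_mem St).1 (Algebra.adjoin_le (Set.singleton_subset_iff.2 ((S1C_mem St).2 St.Z_mem))
    (aeval_mem_adjoin_singleton K Y))

lemma S1C_one_Gr : (1 : V) ∈ St.Gr 0 := by
  have h := St.Gr_alg 1
  rw [map_one] at h
  exact h

lemma S1C_pow_Gr {z : V} {d : ℕ} (hz : z ∈ St.Gr d) (k : ℕ) : z ^ k ∈ St.Gr ((d * k : ℕ) : ℤ) := by
  induction k with
  | zero =>
    rw [pow_zero, mul_zero]
    exact S1C_one_Gr St
  | succ k ih =>
    rw [pow_succ]
    have h := St.Gr_mul ih hz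
    have e : ((d * k : ℕ) : ℤ) + d = ((d * (k + 1) : ℕ) : ℤ) := by push_cast; ring
    rw [e] at h
    exact h

lemma S1C_aeval_Gr (q : K[X]) {g : ℕ} (h : q.natDegree ≤ g) : aeval Y q ∈ St.Gr g := by
  rw [aeval_eq_sum_range]
  refine AddSubgroup.sum_mem _ fun i hi => ?_
  rw [Finset.mem_range] at hi
  rw [Algebra.smul_def]
  have h1 : Y ∈ St.Gr ((1 : ℕ) : ℤ) := St.Gr_Z
  have h2 := St.Gr_mul (St.Gr_alg (q.coeff i)) (S1C_pow_Gr St h1 i)
  refine St.Gr_mono ?_ h2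
  rw [zero_add, one_mul]
  exact_mod_cast (by omega : i ≤ g)

lemma S1C_x_Bd {x : V} {G : K[X][X]} (hG : G.Monic) (h : evA Y x G = 0) : x ∈ St.Bd := by
  refine St.int_Bd _ x (hG.map ((aeval Y : K[X] →ₐ[K] V) : K[X] →+* V)) (fun i => ?_) h
  rw [coeff_map]
  exact S1C_aeval_Bd St _

lemma S1C_x_Gr {x : V} {G : K[X][X]} (hG : G.Monic) (h : evA Y x G = 0) :
    ∃ g : ℕ, x ∈ St.Gr g := by
  refine ⟨(Finset.range (G.natDegree + 1)).sup fun i => (G.coeff i).natDegree, ?_⟩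
  refine St.int_Gr _ x _ (hG.map ((aeval Y : K[X] →ₐ[K] V) : K[X] →+* V)) (fun i => ?_) h
  rw [coeff_map]
  by_cases hi : i < G.natDegree + 1
  · exact S1C_aeval_Gr St _ (Finset.le_sup (f := fun i => (G.coeff i).natDegree)
      (Finset.mem_range.2 hi))
  · rw [coeff_eq_zero_of_natDegree_lt (by omega), map_zero]
    exact AddSubgroup.zero_mem _

/-- common denominators -/
lemma S1C_den {L : Subfield V} {T x : V} {β : ℕ}
    (hL : ∀ z ∈ L, ∃ (b : K[X]) (a : Fin β → K[X]), b ≠ 0 ∧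
      aeval Y b * z = ∑ j, aeval Y (a j) * x ^ (j : ℕ)) {N : ℕ} {z : V} (hz : LB_P L T N z) :
    ∃ (b : K[X]) (a : Fin β × Fin (N + 1) → K[X]), b ≠ 0 ∧
      aeval Y b * z = ∑ i, aeval Y (a i) * (x ^ (i.1 : ℕ) * T ^ (i.2 : ℕ)) := by
  classical
  obtain ⟨P, hP, rfl⟩ := hz
  choose b a hb ha using fun l : Fin (N + 1) => hL (P.coeff l : V) (P.coeff l).2
  refine ⟨∏ l, b l, fun i => (∏ l ∈ Finset.univ.erase i.2, b l) * a i.2 i.1,
    Finset.prod_ne_zero_iff.2 fun l _ => hb l, ?_⟩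
  rw [aeval_eq_sum_range' (Nat.lt_succ_of_le hP), ← Fin.sum_univ_eq_sum_range
    (fun i => P.coeff i • T ^ i) (N + 1), Finset.mul_sum, Fintype.sum_prod_type_right]
  refine Finset.sum_congr rfl fun l _ => ?_
  have h1 : ∏ l, b l = (∏ l ∈ Finset.univ.erase l, b l) * b l :=
    (Finset.prod_erase_mul _ _ (Finset.mem_univ l)).symm
  have h2 : P.coeff (l : ℕ) • T ^ (l : ℕ) = (P.coeff (l : ℕ) : V) * T ^ (l : ℕ) := rfl
  rw [h1, map_mul, h2]
  calc aeval Y (∏ l ∈ Finset.univ.erase l, b l) * aeval Y (b l) *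
        ((P.coeff (l : ℕ) : V) * T ^ (l : ℕ))
      = aeval Y (∏ l ∈ Finset.univ.erase l, b l) *
        (aeval Y (b l) * (P.coeff (l : ℕ) : V)) * T ^ (l : ℕ) := by ring
    _ = _ := by
      rw [ha l, Finset.mul_sum, Finset.sum_mul]
      refine Finset.sum_congr rfl fun j _ => ?_
      rw [map_mul]
      ring

end

theorem thm_S1C (hU : St_UB) (hB : St_LB) : St_S1C := by
  intro K V _ _ _ Y St Λ L s x δ n₁ lam T β d u hY hYΛ hx hΛL hG hL hlam hδ hδ0 hn hpow hSu hnu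
    hu hspan hind hTB hTG hω hβ hT
  obtain ⟨G, hGm, -, hG0⟩ := hG
  have hxB := S1C_x_Bd St hGm hG0
  obtain ⟨g, hxG⟩ := S1C_x_Gr St hGm hG0
  set Λ₀ := Algebra.adjoin K {Y, x} with hΛ₀
  set N := 2 * (g * β ^ 2) + 1 with hN
  set ω := n₁ / δ * T + lam with hωdef
  have hYΛ₀ : Y ∈ Λ₀ := Algebra.subset_adjoin (by simp)
  have hxΛ₀ : x ∈ Λ₀ := Algebra.subset_adjoin (by simp)
  have h0 : Λ₀ ≤ Λ := by
    refine Algebra.adjoin_le ?_
    rintro z (rfl | rfl)
    · exact hYΛ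
    · exact hx
  have hBd : Λ₀ ≤ S1C_B St := by
    refine Algebra.adjoin_le ?_
    rintro z (rfl | rfl)
    · exact St.Z_mem
    · exact hxB
  have hpol : ∀ q : K[X], aeval Y q ∈ Λ₀ := fun q =>
    Algebra.adjoin_le (Set.singleton_subset_iff.2 hYΛ₀) (aeval_mem_adjoin_singleton K Y)
  obtain ⟨w, hw1, hw2⟩ := hB K V Λ₀ Λ L (aeval Y s) δ n₁ lam T d u h0 hΛL hlam (hpol s) hδ hδ0 hn
    hpow hSu hnu hu hspan hind hT N
  have hn' : n₁ / δ ∈ L := L.div_mem (hΛL _ hn) (hΛL _ hδ)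
  let W : Submodule K V := Submodule.span K
    {z | ∃ v ∈ Λ₀, ∃ k l : ℕ, k + l ≤ N ∧ z = v * ω ^ k * T ^ l}
  have key := hU K V Y St (Fin β × Fin (N + 1)) (fun i => x ^ (i.1 : ℕ) * T ^ (i.2 : ℕ))
    (fun i => g * i.1 + i.2) hY ?_ W ?_ ?_ (d * (N * (N + 1) / 2)) w ?_ ?_ ?_
  · -- the count
    have h1 : ∑ i : Fin β × Fin (N + 1), (g * (i.1 : ℕ) + i.2) ≤
        ∑ i : Fin β × Fin (N + 1), (g * β + i.2) := by
      refine Finset.sum_le_sum fun i _ => ?_
      have := i.1.2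
      exact Nat.add_le_add_right (Nat.mul_le_mul_left _ this.le) _
    have h1' : ∑ i : Fin β × Fin (N + 1), (g * β + (i.2 : ℕ)) =
        β * ((N + 1) * (g * β)) + β * (N * (N + 1) / 2) := by
      rw [Fintype.sum_prod_type (f := fun i : Fin β × Fin (N + 1) => g * β + (i.2 : ℕ))]
      simp only [Finset.sum_add_distrib, Finset.sum_const, Finset.card_univ, Fintype.card_fin,
        smul_eq_mul]
      rw [Fin.sum_univ_eq_sum_range (fun i => i) (N + 1), Finset.sum_range_id,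
        Nat.add_sub_cancel, mul_comm (N + 1) N]
    rw [h1'] at h1
    have h2 : 2 * (N * (N + 1) / 2) = N * (N + 1) :=
      Nat.mul_div_cancel' (Nat.even_mul_succ_self N).two_dvd
    set M := N * (N + 1) / 2
    have h3 : (β + 1) * M ≤ d * M := Nat.mul_le_mul_right _ hβ
    have h4 : M ≤ (N + 1) * (g * β ^ 2) := by
      have h5 := h3.trans (key.trans h1)
      have h6 : β * ((N + 1) * (g * β)) + β * M = β * M + (N + 1) * (g * β ^ 2) := by ring
      have h7 : (β + 1) * M = β * M + M := by ring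
      rw [h6, h7] at h5
      exact Nat.le_of_add_le_add_left h5
    have h5 : N * (N + 1) ≤ 2 * (g * β ^ 2) * (N + 1) := by
      calc N * (N + 1) = 2 * M := h2.symm
        _ ≤ 2 * ((N + 1) * (g * β ^ 2)) := Nat.mul_le_mul_left _ h4
        _ = _ := by ring
    have h6 := Nat.le_of_mul_le_mul_right h5 (Nat.succ_pos N)
    omega
  · -- growth
    intro i
    have h1 := S1C_pow_Gr St hxG (i.1 : ℕ)
    have h2 : T ^ (i.2 : ℕ) ∈ St.Gr ((1 * (i.2 : ℕ) : ℕ) : ℤ) :=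
      S1C_pow_Gr St (d := 1) hTG (i.2 : ℕ)
    have h3 := St.Gr_mul h1 h2
    have e : ((g * (i.1 : ℕ) : ℕ) : ℤ) + ((1 * (i.2 : ℕ) : ℕ) : ℤ) =
        ((g * (i.1 : ℕ) + (i.2 : ℕ) : ℕ) : ℤ) := by push_cast; ring
    rw [e] at h3
    exact h3
  · -- bounded
    intro z hz
    rw [← S1C_mem St]
    induction hz using Submodule.span_induction with
    | mem z h =>
      obtain ⟨v, hv, k, l, -, rfl⟩ := h
      exact (S1C_B St).mul_mem ((S1C_B St).mul_mem (hBd hv) ((S1C_B St).pow_mem hω k))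
        ((S1C_B St).pow_mem hTB l)
    | zero => exact (S1C_B St).zero_mem
    | add a b _ _ ha hb => exact (S1C_B St).add_mem ha hb
    | smul c a _ ha => exact (S1C_B St).smul_mem ha c
  · -- contains `M0`
    intro a
    refine W.sum_mem fun i _ => Submodule.subset_span ?_
    refine ⟨aeval Y (a i) * x ^ (i.1 : ℕ), Λ₀.mul_mem (hpol _) (Λ₀.pow_mem hxΛ₀ _), 0, i.2, ?_, ?_⟩
    · have := i.2.2
      omega
    · rw [pow_zero, mul_one, mul_assoc]
  · intro k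
    obtain ⟨v, hv, j, hj, e⟩ := hw1 k
    exact Submodule.subset_span ⟨v, hv, j, 0, by omega, by rw [e, pow_zero, mul_one]⟩
  · intro k
    obtain ⟨v, hv, j, hj, e⟩ := hw1 k
    refine S1C_den hL ?_
    rw [e]
    exact (LB_P.lin hn' hlam hj).mul (hΛL _ (h0 hv))
  · intro c ⟨a, ha⟩
    refine hw2 c ⟨fun l => ∑ j : Fin β, aeval Y (a (j, l)) * x ^ (j : ℕ), fun l => ?_, ?_⟩
    · exact Λ.sum_mem fun j _ => Λ.mul_mem (h0 (hpol _)) (Λ.pow_mem hx _)
    · rw [ha, Fintype.sum_prod_type_right]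
      refine Finset.sum_congr rfl fun l _ => ?_
      rw [Finset.sum_mul]
      exact Finset.sum_congr rfl fun j _ => by ring

end Pool.Agent.NPC
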