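import Pool.Agent.NPC.StA

/-!
# NPC/S2 (helper67): Step 2 assembled
-/

set_option autoImplicit false

namespace Pool.Agent.NPC

open Polynomial Pool.Agent.Helper11.SP

private theorem S2_mapD_coeff {A : Type} [CommRing A] (d : Derivation ℤ A A) (P : A[X]) (n : ℕ) :
    (mapD d P).coeff n = d (P.coeff n) := by
  unfold mapD
  rw [finsetSum_coeff]
  have h1 : ∀ i ∈ Finset.range (P.natDegree + 1), (C (d (P.coeff i)) * X ^ i : A[X]).coeff n =
      if n = i then d (P.coeff i) else 0 := by
    intro i _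
    rw [coeff_C_mul, coeff_X_pow]
    split_ifs <;> simp
  rw [Finset.sum_congr rfl h1, Finset.sum_ite_eq]
  split_ifs with h
  · rfl
  · have h2 : P.coeff n = 0 := by
      refine coeff_eq_zero_of_natDegree_lt ?_
      rw [Finset.mem_range] at h
      omega
    rw [h2, map_zero]

private theorem S2_mapD_add {A : Type} [CommRing A] (d : Derivation ℤ A A) (P Q : A[X]) :
    mapD d (P + Q) = mapD d P + mapD d Q := by
  ext n
  rw [coeff_add, S2_mapD_coeff, S2_mapD_coeff, S2_mapD_coeff, coeff_add, map_add]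

private theorem S2_mapD_monomial {A : Type} [CommRing A] (d : Derivation ℤ A A) (n : ℕ) (a : A) :
    mapD d (monomial n a) = monomial n (d a) := by
  ext m
  rw [S2_mapD_coeff, coeff_monomial, coeff_monomial]
  split_ifs
  · rfl
  · exact map_zero d

private theorem S2_D {K V : Type} [Field K] [Field V] [Algebra K V] (D : Derivation ℤ V V)
    (d : Derivation ℤ K K) (hD : ∀ z : K, D (algebraMap K V z) = algebraMap K V (d z)) (x : V)
    (φ : K[X]) :
    D (aeval x φ) = aeval x (derivative φ) * D x + aeval x (mapD d φ) := by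
  induction φ using Polynomial.induction_on' with
  | add p q hp hq =>
    rw [map_add, map_add, hp, hq, S2_mapD_add, derivative_add, map_add, map_add]
    ring
  | monomial n a =>
    rw [S2_mapD_monomial, aeval_monomial, aeval_monomial, derivative_monomial, aeval_monomial,
      Derivation.leibniz, Derivation.leibniz_pow, hD, map_mul, map_natCast]
    simp only [smul_eq_mul, nsmul_eq_mul]
    ring

private theorem S2_inc {K V : Type} [Field K] [Field V] [Algebra K V]
    {F F' : IntermediateField K V} (h : F ≤ F') {y : V} (hy : IsAlgebraic F y) :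
    IsAlgebraic F' y := by
  obtain ⟨p, hp, h0⟩ := hy
  refine ⟨p.map (IntermediateField.inclusion h).toRingHom, ?_, ?_⟩
  · rw [Ne, Polynomial.map_eq_zero_iff]
    · exact hp
    · exact (IntermediateField.inclusion h).toRingHom.injective
  · rw [aeval_def, eval₂_map]
    rw [aeval_def] at h0
    exact h0

private theorem S2_mem {K V : Type} [Field K] [Field V] [Algebra K V] (x : V) (φ : K[X]) :
    aeval x φ ∈ fld1 (K := K) x :=
  IntermediateField.algebra_adjoin_le_adjoin K _ (aeval_mem_adjoin_singleton K x)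

private theorem S2_Calg {K V : Type} [Field K] [Field V] [Algebra K V]
    {F : IntermediateField K V} {z : V} (hz : z ∈ F) : IsAlgebraic F z :=
  isAlgebraic_algebraMap (⟨z, hz⟩ : F)

private theorem S2_evA_lin {K V : Type} [Field K] [Field V] [Algebra K V] (x y : V) (q : K[X]) :
    evA x y (X + C q) = y + aeval x q := by
  unfold evA
  rw [Polynomial.map_add, map_X, map_C, eval_add, eval_X, eval_C]
  rfl

private theorem S2_evA_one {K V : Type} [Field K] [Field V] [Algebra K V] (x y : V) :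
    evA x y (1 : K[X][X]) = 1 := by
  unfold evA
  rw [Polynomial.map_one, eval_one]

/-- growth -/
private theorem S2_deg {K V : Type} [Field K] [Field V] [Algebra K V] {Z : V} (S : Str K V Z)
    (hZ : Transcendental K Z) (η : K[X]) (ht : aeval Z η ∈ S.Gr 1) : η.natDegree ≤ 1 := by
  by_contra hcon
  obtain ⟨D, hD⟩ : ∃ D : ℕ, D = η.natDegree := ⟨_, rfl⟩
  have hD2 : 2 ≤ D := by omega
  have hZ0 : Z ≠ 0 := by
    intro h
    refine hZ ?_
    rw [h]
    exact isAlgebraic_zero
  have hw : Z⁻¹ ∈ S.Gr (-1) := by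
    have := S.Gr_inv X X_ne_zero
    rwa [aeval_X, natDegree_X] at this
  have hwn : ∀ n : ℕ, Z⁻¹ ^ n ∈ S.Gr (-(n : ℤ)) := by
    intro n
    induction n with
    | zero =>
      rw [pow_zero, ← map_one (algebraMap K V)]
      exact S.Gr_alg 1
    | succ n ih =>
      rw [pow_succ]
      have := S.Gr_mul ih hw
      have h1 : (-(n : ℤ)) + (-1) = -((n + 1 : ℕ) : ℤ) := by push_cast; ring
      rwa [h1] at this
  have hsum : aeval Z η = ∑ l ∈ Finset.range D, algebraMap K V (η.coeff l) * Z ^ l +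
      algebraMap K V (η.coeff D) * Z ^ D := by
    rw [aeval_eq_sum_range, ← hD, Finset.sum_range_succ]
    simp only [Algebra.smul_def]
  have he : algebraMap K V (η.coeff D) = Z⁻¹ ^ D * aeval Z η -
      ∑ l ∈ Finset.range D, algebraMap K V (η.coeff l) * Z⁻¹ ^ (D - l) := by
    rw [hsum, mul_add, Finset.mul_sum]
    have h1 : Z⁻¹ ^ D * (algebraMap K V (η.coeff D) * Z ^ D) = algebraMap K V (η.coeff D) := by
      rw [inv_pow]
      field_simp
    have h2 : ∑ l ∈ Finset.range D, Z⁻¹ ^ D * (algebraMap K V (η.coeff l) * Z ^ l) =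
        ∑ l ∈ Finset.range D, algebraMap K V (η.coeff l) * Z⁻¹ ^ (D - l) := by
      refine Finset.sum_congr rfl fun l hl => ?_
      have h3 : D = (D - l) + l := by
        have := Finset.mem_range.1 hl
        omega
      have h4 : Z⁻¹ ^ D * Z ^ l = Z⁻¹ ^ (D - l) := by
        conv_lhs => rw [h3]
        rw [pow_add, mul_assoc, ← mul_pow, inv_mul_cancel₀ hZ0, one_pow, mul_one]
      rw [← h4]
      ring
    rw [h1, h2]
    ring
  have hGr : algebraMap K V (η.coeff D) ∈ S.Gr (-1) := by
    rw [he]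
    refine AddSubgroup.sub_mem _ ?_ (AddSubgroup.sum_mem _ fun l hl => ?_)
    · exact S.Gr_mono (by omega) (S.Gr_mul (hwn D) ht)
    · have h5 := Finset.mem_range.1 hl
      refine S.Gr_mono ?_ (S.Gr_mul (S.Gr_alg (η.coeff l)) (hwn (D - l)))
      have : ((D - l : ℕ) : ℤ) = (D : ℤ) - l := by omega
      rw [this]
      omega
  have h0 := S.small _ (S.alg_mem _) hGr
  rw [map_eq_zero, hD] at h0
  have h1 : η.leadingCoeff = 0 := h0
  rw [leadingCoeff_eq_zero] at h1
  rw [h1, natDegree_zero] at hcon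
  omega

private theorem S2_itc {K E : Type} [Field K] [Field E] [Algebra K E] (f : K[X])
    (c : E) : ∀ m : ℕ, aeval c (itc f m) = (fun z : E => aeval z f)^[m] c := by
  intro m
  induction m with
  | zero =>
    rw [Function.iterate_zero_apply]
    unfold itc
    rw [Function.iterate_zero_apply, aeval_X]
  | succ m ih =>
    rw [Function.iterate_succ_apply', ← ih, itc_succ, aeval_comp]

private theorem S2_itc_der {K E : Type} [Field K] [Field E] [Algebra K E] {f : K[X]}
    (hf : derivative f ≠ 0) {c : E} (hc : aeval c (derivative f) = 0) (m : ℕ) :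
    derivative (itc f (m + 1)) ≠ 0 ∧ aeval c (derivative (itc f (m + 1))) = 0 := by
  have hfd : f.natDegree ≠ 0 := by
    intro h
    obtain ⟨a, ha⟩ := natDegree_eq_zero.1 h
    refine hf ?_
    rw [← ha, derivative_C]
  have hcomp : ∀ n : ℕ, (derivative f).comp (itc f n) ≠ 0 := by
    intro n h
    rw [comp_eq_zero_iff] at h
    rcases h with h | ⟨-, h⟩
    · exact hf h
    · have h1 : (itc f n).natDegree = 0 := by
        rw [h]
        exact natDegree_C _
      rw [itc_natDegree] at h1
      exact pow_ne_zero n hfd h1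
  induction m with
  | zero =>
    rw [itc_succ, derivative_comp]
    have h1 : itc f 0 = X := by
      unfold itc
      rw [Function.iterate_zero_apply]
    rw [h1, derivative_X, one_mul, comp_X]
    exact ⟨hf, hc⟩
  | succ m ih =>
    rw [itc_succ, derivative_comp]
    refine ⟨mul_ne_zero ih.1 (hcomp _), ?_⟩
    rw [map_mul, ih.2, zero_mul]

/-- the case where all the derivatives are algebraic -/
private theorem S2_main (hC1 : St_C1) (hC2 : St_C2) (hT : St_TR) (hS : St_SEP) (hCR : St_CR)
    (hCV : St_CV) (hE : St_ETA)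
    (p : ℕ) [Fact p.Prime] (K V E : Type) [Field K] [Field V] [Field E]
    [Algebra K V] [Algebra K E] [CharP K p] (n : ℕ) (D : Fin n → Derivation ℤ V V)
    (d : Fin n → Derivation ℤ K K) (r : ℕ) (f : K[X]) (x : ℕ → V) (St : ∀ j, Str K V (x j)) (c : E)
    (i : Fin n)
    (hDd : ∀ j, ∀ z : K, D j (algebraMap K V z) = algebraMap K V (d j z))
    (hker : ∀ z : K, (∀ j, d j z = 0) → ∃ w, z = w ^ p)
    (hr : 1 ≤ r) (hfm : f.Monic) (hfd : f.natDegree = p ^ r) (hf' : derivative f ≠ 0)
    (htr : ∀ j, Transcendental K (x j)) (hfx : ∀ j, aeval (x (j + 1)) f = x j)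
    (hbd : ∀ j, D i (x j) ∈ (St j).Bd ∧ D i (x j) ∈ (St j).Gr 1)
    (hc : aeval c (derivative f) = 0)
    (hinj : Function.Injective (fun m : ℕ => (fun z : E => aeval z f)^[m] c))
    (halg : ∀ j, IsAlgebraic (fld1 (K := K) (x j)) (D i (x j))) :
    ∃ (κ : K) (j₀ : ℕ), (∀ j, j₀ ≤ j → D i (x j) = algebraMap K V κ) ∧
      mapD (d i) f = C κ * (1 - derivative f) := by
  classical
  have hQex : ∀ j, ∃ Q : K[X][X], Q.Monic ∧ Irreducible Q ∧ Rel (x j) (D i (x j)) Q := by
    intro j
    exact hC2 K V (x j) (D i (x j)) (htr j) (hC1 K V (x j) (D i (x j)) (St j) (htr j) (hbd j).1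
      (halg j))
  choose Q hQm hQi hQr using hQex
  have hanti : ∀ j, (Q (j + 1)).natDegree ≤ (Q j).natDegree := by
    intro j
    exact (hT K V (x j) (x (j + 1)) f (D i) (d i) (Q j) (Q (j + 1)) (hDd i) (htr j) (htr (j + 1))
      (hfx j) (hQm j) (hQm (j + 1)) (hQr j) (hQr (j + 1))).1 hf'
  obtain ⟨j₀, hj₀⟩ : ∃ j₀, ∀ j, (Q j₀).natDegree ≤ (Q j).natDegree := by
    have hex : ∃ m, ∃ j, (Q j).natDegree = m := ⟨_, 0, rfl⟩
    obtain ⟨j₀, h1⟩ := Nat.find_spec hex
    refine ⟨j₀, fun j => ?_⟩
    rw [h1]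
    exact Nat.find_min' hex ⟨j, rfl⟩
  have hconst : ∀ m, (Q (j₀ + m)).natDegree = (Q j₀).natDegree := by
    intro m
    refine le_antisymm ?_ (hj₀ _)
    induction m with
    | zero => exact le_rfl
    | succ m ih => exact le_trans (hanti (j₀ + m)) ih
  have hitx : ∀ m j, aeval (x (j + m)) (itc f m) = x j := by
    intro m
    induction m with
    | zero =>
      intro j
      unfold itc
      rw [Function.iterate_zero_apply, aeval_X, add_zero]
    | succ m ih =>
      intro j
      have h1 := ih (j + 1)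
      rw [itc_succ, aeval_comp, show j + (m + 1) = j + 1 + m by ring, h1, hfx]
  -- degree at most one
  have hm1 : (Q j₀).natDegree ≤ 1 := by
    refine hCR K E (Q j₀) (hQi j₀) (hQm j₀)
      (hS p K V n D d (x j₀) i (Q j₀) hDd hker (htr j₀) (hQm j₀) (hQr j₀)) ?_
    have hsub : (Set.range fun m : ℕ => (fun z : E => aeval z f)^[m + 1] c) ⊆
        {v : E | ∃ a : E, (Q j₀).map ((aeval v : K[X] →ₐ[K] E) : K[X] →+* E) =
          (X - C a) ^ (Q j₀).natDegree} := by
      rintro v ⟨m, rfl⟩
      have h1 := S2_itc_der hf' hc m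
      have h2 := (hT K V (x j₀) (x (j₀ + (m + 1))) (itc f (m + 1)) (D i) (d i) (Q j₀)
        (Q (j₀ + (m + 1))) (hDd i) (htr j₀) (htr _) (hitx (m + 1) j₀) (hQm j₀) (hQm _) (hQr j₀)
        (hQr _)).2 (hconst (m + 1))
      have h3 := hCV K E (itc f (m + 1)) (mapD (d i) (itc f (m + 1))) (Q j₀) (Q (j₀ + (m + 1))) c
        (hQm j₀) (hQm _) (hconst (m + 1)) h1.1 h2 h1.2
      refine ⟨aeval c (mapD (d i) (itc f (m + 1))), ?_⟩
      rw [S2_itc f c (m + 1)] at h3
      exact h3
    refine Set.Infinite.mono hsub (Set.infinite_range_of_injective ?_)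
    intro a b hab
    have := hinj hab
    omega
  have hm0 : ∀ j, 1 ≤ (Q j).natDegree := by
    intro j
    by_contra hcon
    have h1 : (Q j).natDegree = 0 := by omega
    have h2 : Q j = 1 := Polynomial.eq_one_of_monic_natDegree_zero (hQm j) h1
    have h3 := (hQr j 1).2 (by rw [h2])
    rw [S2_evA_one] at h3
    exact one_ne_zero h3
  have hηex : ∀ m, ∃ η : K[X], aeval (x (j₀ + m)) η = D i (x (j₀ + m)) := by
    intro m
    have h1 : (Q (j₀ + m)).natDegree = 1 := le_antisymm (by rw [hconst]; exact hm1) (hm0 _)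
    have h2 : Q (j₀ + m) = X + C ((Q (j₀ + m)).coeff 0) := by
      have h3 := (hQm (j₀ + m)).as_sum
      rw [h1] at h3
      rw [Finset.sum_range_one, pow_one, pow_zero, mul_one] at h3
      exact h3
    have h3 := (hQr (j₀ + m) (Q (j₀ + m))).2 dvd_rfl
    rw [h2, S2_evA_lin] at h3
    refine ⟨-((Q (j₀ + m)).coeff 0), ?_⟩
    rw [map_neg]
    exact (eq_neg_of_add_eq_zero_left h3).symm
  choose η hη using hηex
  have hηd : ∀ m, (η m).natDegree ≤ 1 := by
    intro m
    refine S2_deg (St (j₀ + m)) (htr _) (η m) ?_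
    rw [hη]
    exact (hbd _).2
  have hfun : ∀ m, (η m).comp f = derivative f * η (m + 1) + mapD (d i) f := by
    intro m
    have h1 := S2_D (D i) (d i) (hDd i) (x (j₀ + m + 1)) f
    rw [hfx] at h1
    have hη1 : aeval (x (j₀ + m + 1)) (η (m + 1)) = D i (x (j₀ + m + 1)) := hη (m + 1)
    have h2 : aeval (x (j₀ + m + 1)) ((η m).comp f) =
        aeval (x (j₀ + m + 1)) (derivative f * η (m + 1) + mapD (d i) f) := by
      rw [aeval_comp, hfx, hη, h1, map_add, map_mul, hη1]
    exact (transcendental_iff_injective.1 (htr (j₀ + m + 1))) h2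
  have hf'd : 0 < (derivative f).natDegree := by
    by_contra hcon
    obtain ⟨a, ha⟩ := natDegree_eq_zero.1 (by omega : (derivative f).natDegree = 0)
    rw [← ha, aeval_C, map_eq_zero] at hc
    refine hf' ?_
    rw [← ha, hc, C_0]
  obtain ⟨κ, hκ1, hκ2⟩ := hE p K r f (d i) η hr hfm hfd hf'd hηd hfun
  refine ⟨κ, j₀, fun j hj => ?_, hκ2⟩
  obtain ⟨m, rfl⟩ := Nat.exists_eq_add_of_le hj
  rw [← hη, hκ1, aeval_C]

theorem thm_S2 (hC1 : St_C1) (hC2 : St_C2) (hT : St_TR) (hS : St_SEP) (hCR : St_CR)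
    (hCV : St_CV) (hE : St_ETA) : St_S2 := by
  intro p _ K V E _ _ _ _ _ _ n D d r f x St c i hDd hker hr hfm hfd hf' htr hfx hbd hc hinj hex
  obtain ⟨j₁, hj₁⟩ := hex
  have hstep : ∀ j, IsAlgebraic (fld1 (K := K) (x j)) (D i (x j)) →
      IsAlgebraic (fld1 (K := K) (x (j + 1))) (D i (x (j + 1))) := by
    intro j hj
    have hle : fld1 (K := K) (x j) ≤ fld1 (K := K) (x (j + 1)) := by
      rw [fld1, IntermediateField.adjoin_simple_le_iff, ← hfx j]
      exact S2_mem _ _
    have h1 := S2_inc hle hj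
    have h2 := S2_D (D i) (d i) (hDd i) (x (j + 1)) f
    rw [hfx] at h2
    have hne : aeval (x (j + 1)) (derivative f) ≠ 0 := by
      intro h
      exact hf' ((transcendental_iff.1 (htr (j + 1))) _ h)
    have h3 : D i (x (j + 1)) = (D i (x j) - aeval (x (j + 1)) (mapD (d i) f)) *
        (aeval (x (j + 1)) (derivative f))⁻¹ := by
      rw [h2]
      field_simp
      ring
    rw [h3]
    exact (h1.sub (S2_Calg (S2_mem _ _))).mul (S2_Calg (inv_mem (S2_mem _ _)))
  have hall : ∀ m, IsAlgebraic (fld1 (K := K) (x (j₁ + m))) (D i (x (j₁ + m))) := by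
    intro m
    induction m with
    | zero => exact hj₁
    | succ m ih => exact hstep _ ih
  obtain ⟨κ, j₀, h1, h2⟩ := S2_main hC1 hC2 hT hS hCR hCV hE p K V E n D d r f
    (fun m => x (j₁ + m)) (fun m => St (j₁ + m)) c i hDd hker hr hfm hfd hf' (fun m => htr _)
    (fun m => hfx (j₁ + m)) (fun m => hbd _) hc hinj hall
  refine ⟨κ, j₁ + j₀, fun j hj => ?_, h2⟩
  obtain ⟨m, rfl⟩ := Nat.exists_eq_add_of_le (le_trans (Nat.le_add_right j₁ j₀) hj)
  exact h1 m (by omega)

end Pool.Agent.NPC
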