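import Pool.Agent.NPC.StC

/-!
# NPC, module SB2: rules for `sub2`
-/

set_option autoImplicit false

namespace Pool.Agent.NPC

open Polynomial Pool.Agent.Helper11.SP

section SB2

variable {K V : Type} [Field K] [Field V] [Algebra K V]

private theorem SB2_coeff_mapD {A : Type} [CommRing A] (d : A → A) (hd : d 0 = 0) (P : A[X])
    (k : ℕ) : (mapD d P).coeff k = d (P.coeff k) := by
  unfold mapD
  rw [finsetSum_coeff]
  simp only [coeff_C_mul_X_pow]
  rw [Finset.sum_ite_eq]
  split_ifs with h
  · rfl
  · rw [coeff_eq_zero_of_natDegree_lt, hd]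
    rw [Finset.mem_range] at h
    omega

private theorem SB2_dIn_coeff (P : K[X][X]) (k : ℕ) : (dIn P).coeff k = derivative (P.coeff k) :=
  SB2_coeff_mapD _ (by simp) P k

private theorem SB2_dIn_add (P Q : K[X][X]) : dIn (P + Q) = dIn P + dIn Q := by
  ext1 k
  rw [coeff_add, SB2_dIn_coeff, SB2_dIn_coeff, SB2_dIn_coeff, coeff_add, derivative_add]

private theorem SB2_dIn_Cmap (r S : K[X]) :
    dIn (C r * S.map C) = C (derivative r) * S.map C := by
  ext1 k
  rw [SB2_dIn_coeff, coeff_C_mul, coeff_C_mul, coeff_map, derivative_mul, derivative_C, mul_zero,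
    add_zero]

private theorem SB2_sub2_add (φ ψ : K[X]) (P Q : K[X][X]) :
    sub2 φ ψ (P + Q) = sub2 φ ψ P + sub2 φ ψ Q := by
  unfold sub2
  rw [Polynomial.map_add, add_comp]

private theorem SB2_sub2_mon (φ ψ : K[X]) (n : ℕ) (q : K[X]) :
    sub2 φ ψ (monomial n q) = C (q.comp φ) * (ψ ^ n).map C := by
  unfold sub2
  rw [← C_mul_X_pow_eq_monomial, Polynomial.map_mul, map_C, Polynomial.map_pow, map_X, mul_comp,
    C_comp, X_pow_comp, Polynomial.map_pow]
  rfl

end SB2

theorem thm_SB2 : St_SB2 := by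
  intro K V _ _ _ φ ψ P x y
  refine ⟨?_, ?_, ?_⟩
  · unfold evA sub2
    rw [Polynomial.map_comp, Polynomial.map_map, Polynomial.map_map, eval_comp]
    have h1 : (((aeval x : K[X] →ₐ[K] V) : K[X] →+* V)).comp (compRingHom φ) =
        ((aeval (aeval x φ) : K[X] →ₐ[K] V) : K[X] →+* V) := by
      refine RingHom.ext fun q => ?_
      show aeval x (q.comp φ) = aeval (aeval x φ) q
      rw [aeval_comp]
    have h2 : (((aeval x : K[X] →ₐ[K] V) : K[X] →+* V)).comp (C : K →+* K[X]) =
        algebraMap K V := by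
      refine RingHom.ext fun q => ?_
      show aeval x (C q) = _
      rw [aeval_C]
    rw [h1, h2, eval_map_algebraMap]
  · unfold sub2
    rw [derivative_comp, derivative_map, derivative_map, mul_comm]
  · induction P using Polynomial.induction_on' with
    | add P Q hP hQ =>
      rw [SB2_sub2_add, SB2_dIn_add, SB2_dIn_add, SB2_sub2_add, mul_add, hP, hQ]
    | monomial n q =>
      have h1 : dIn (monomial n q) = monomial n (derivative q) := by
        ext1 k
        rw [SB2_dIn_coeff, coeff_monomial, coeff_monomial]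
        split_ifs <;> simp
      rw [SB2_sub2_mon, SB2_dIn_Cmap, h1, SB2_sub2_mon, derivative_comp, C_mul, mul_assoc]

end Pool.Agent.NPC
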