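import Pool.Agent.NPC.StA

/-!
# Separability of the relation with the derivative
-/

set_option autoImplicit false

namespace Pool.Agent.NPC

open Polynomial

private lemma SEP_coeff {A : Type} [CommRing A] (f : A → A) (hf : f 0 = 0) (P : A[X]) (k : ℕ) :
    (mapD f P).coeff k = f (P.coeff k) := by
  unfold mapD
  rw [finsetSum_coeff]
  simp only [coeff_C_mul_X_pow]
  rw [Finset.sum_ite_eq]
  split_ifs with h
  · rfl
  · rw [Finset.mem_range, not_lt] at h
    rw [coeff_eq_zero_of_natDegree_lt (by omega), hf]

/-- evaluation of `mapD` -/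
private lemma SEP_eval {A W : Type} [CommRing A] [CommRing W] (g : A →+* W) (f : A → A)
    (P : A[X]) (y : W) :
    ((mapD f P).map g).eval y = ∑ k ∈ Finset.range (P.natDegree + 1), g (f (P.coeff k)) * y ^ k := by
  unfold mapD
  rw [Polynomial.map_sum, eval_finsetSum]
  refine Finset.sum_congr rfl fun k _ => ?_
  simp

/-- the derivative of the value of a polynomial -/
private lemma SEP_leib {A W : Type} [CommRing A] [CommRing W] (g : A →+* W)
    (D : Derivation ℤ W W) (P : A[X]) (y : W) :
    D ((P.map g).eval y) =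
      ∑ k ∈ Finset.range (P.natDegree + 1), D (g (P.coeff k)) * y ^ k +
        (P.derivative.map g).eval y * D y := by
  have h1 : (P.map g).eval y = ∑ k ∈ Finset.range (P.natDegree + 1), g (P.coeff k) * y ^ k := by
    rw [eval_map, eval₂_eq_sum_range]
  have h2 : (P.derivative.map g).eval y =
      ∑ k ∈ Finset.range (P.natDegree + 1), g (P.coeff k) * (k * y ^ (k - 1)) := by
    conv_lhs => rw [P.as_sum_range_C_mul_X_pow]
    rw [derivative_sum, Polynomial.map_sum, eval_finsetSum]
    refine Finset.sum_congr rfl fun k _ => ?_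
    rw [derivative_C_mul_X_pow]
    simp only [Polynomial.map_mul, Polynomial.map_pow, map_C, map_X, eval_mul, eval_C, eval_pow,
      eval_X, map_mul, map_natCast, Polynomial.map_natCast, eval_natCast]
    ring
  rw [h1, h2, map_sum, Finset.sum_mul, ← Finset.sum_add_distrib]
  refine Finset.sum_congr rfl fun k _ => ?_
  rw [Derivation.leibniz, Derivation.leibniz_pow]
  simp only [smul_eq_mul, nsmul_eq_mul]
  ring

private lemma SEP_inner {K V : Type} [Field K] [Field V] [Algebra K V] (D : Derivation ℤ V V)
    (d : Derivation ℤ K K) (h : ∀ z : K, D (algebraMap K V z) = algebraMap K V (d z)) (x : V)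
    (a : K[X]) :
    D (aeval x a) = aeval x (mapD d a) + aeval x (derivative a) * D x := by
  have h1 := SEP_leib (algebraMap K V) D a x
  have h2 := SEP_eval (algebraMap K V) d a x
  rw [aeval_def, aeval_def, aeval_def, ← eval_map, ← eval_map, ← eval_map, h1, h2]
  simp only [h]

private lemma SEP_main {K V : Type} [Field K] [Field V] [Algebra K V] (D : Derivation ℤ V V)
    (d : Derivation ℤ K K) (h : ∀ z : K, D (algebraMap K V z) = algebraMap K V (d z)) (x t : V)
    (Q : K[X][X]) :
    D (evA x t Q) = evA x t (mapD (fun q => mapD d q) Q) + evA x t (dIn Q) * D x +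
      evA x t (derivative Q) * D t := by
  unfold evA dIn
  rw [SEP_leib, SEP_eval, SEP_eval, Finset.sum_mul, ← Finset.sum_add_distrib]
  congr 1
  refine Finset.sum_congr rfl fun k _ => ?_
  have := SEP_inner D d h x (Q.coeff k)
  change D (aeval x (Q.coeff k)) * t ^ k =
    aeval x (mapD d (Q.coeff k)) * t ^ k + aeval x (derivative (Q.coeff k)) * t ^ k * D x
  rw [this]
  ring

/-- a polynomial with derivative zero all of whose coefficients are `p`-th powers is a `p`-th
power -/
private lemma SEP_root {R : Type} [CommRing R] [IsDomain R] (p : ℕ) [Fact p.Prime] [CharP R p]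
    (f : R[X]) (hf : derivative f = 0) (hc : ∀ k, ∃ w, f.coeff k = w ^ p) : ∃ g, f = g ^ p := by
  have hp : p ≠ 0 := (Fact.out : p.Prime).ne_zero
  have h1 := expand_contract p hf hp
  have h2 : contract p f ∈ lifts (frobenius R p) := by
    rw [lifts_iff_coeff_lifts]
    intro k
    rw [coeff_contract hp]
    obtain ⟨w, hw⟩ := hc (k * p)
    exact ⟨w, by rw [hw]; rfl⟩
  obtain ⟨g, hg⟩ := h2
  refine ⟨g, ?_⟩
  rw [← h1]
  have h3 : (mapRingHom (frobenius R p)) g = map (frobenius R p) g := rfl
  rw [h3] at hg
  rw [← hg, ← map_expand, map_frobenius_expand]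

private lemma SEP_coeff_zero {R : Type} [CommRing R] [IsDomain R] (p : ℕ) [Fact p.Prime]
    [CharP R p] (f : R[X]) (hf : derivative f = 0) (k : ℕ) (hk : ¬ p ∣ k) : f.coeff k = 0 := by
  obtain _ | k := k
  · exact absurd (dvd_zero p) hk
  · have h1 := congrArg (fun g => coeff g k) hf
    simp only [coeff_derivative, coeff_zero] at h1
    rcases mul_eq_zero.mp h1 with h2 | h2
    · exact h2
    · exfalso
      apply hk
      rw [← CharP.cast_eq_zero_iff R p]
      push_cast
      exact h2

theorem thm_SEP : St_SEP := by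
  intro p hp K V _ _ _ _ n D d x i Q hDd hker hx hQm hRel hd0
  have hpp : p.Prime := Fact.out
  set t := D i x with ht
  have hQ0 : evA x t Q = 0 := (hRel Q).mpr dvd_rfl
  have hf0 : ∀ j, mapD (d j) (0 : K[X]) = 0 := by
    intro j
    ext k
    change (mapD (d j) 0).coeff k = _
    rw [SEP_coeff _ (map_zero _)]
    simp
  have hd1 : ∀ j, mapD (d j) (1 : K[X]) = 0 := by
    intro j
    ext k
    rw [SEP_coeff _ (map_zero _)]
    rcases Nat.eq_zero_or_pos k with rfl | hk
    · simp
    · rw [coeff_one, if_neg (by omega)]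
      simp
  have hc0 : ∀ k, ¬ p ∣ k → Q.coeff k = 0 := fun k hk => SEP_coeff_zero p Q hd0 k hk
  have hpm : p ∣ Q.natDegree := by
    by_contra h
    have h1 := hc0 _ h
    rw [hQm.coeff_natDegree] at h1
    exact one_ne_zero h1
  have hz : ∀ G : K[X][X], evA x t G = 0 → (∀ k, Q.natDegree ≤ k → G.coeff k = 0) → G = 0 := by
    intro G h1 h2
    have h3 := (hRel G).mp h1
    by_contra h4
    have h5 : G.natDegree < Q.natDegree := by
      by_contra h6
      have h7 := h2 _ (not_lt.mp h6)
      exact h4 (leadingCoeff_eq_zero.mp h7)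
    exact absurd (natDegree_le_of_dvd h3 h4) (not_le.mpr h5)
  have hmain : ∀ j, evA x t (mapD (fun q => mapD (d j) q) Q) + evA x t (dIn Q) * D j x = 0 := by
    intro j
    have h1 := SEP_main (D j) (d j) (hDd j) x t Q
    rw [hQ0, map_zero, hd0] at h1
    have h2 : evA x t (0 : K[X][X]) = 0 := by simp [evA]
    rw [h2, zero_mul, add_zero] at h1
    exact h1.symm
  have hdIn : ∀ k, (dIn Q).coeff k = derivative (Q.coeff k) := by
    intro k
    unfold dIn
    rw [SEP_coeff _ (by simp)]
  have hG : mapD (fun q => mapD (d i) q) Q + X * dIn Q = 0 := by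
    apply hz
    · have h1 := hmain i
      have h2 : evA x t (mapD (fun q => mapD (d i) q) Q + X * dIn Q) =
          evA x t (mapD (fun q => mapD (d i) q) Q) + evA x t (dIn Q) * t := by
        simp only [evA, Polynomial.map_add, Polynomial.map_mul, map_X, eval_add, eval_mul, eval_X]
        ring
      rw [h2]
      exact h1
    · intro k hk
      rw [coeff_add, SEP_coeff _ (hf0 i)]
      obtain _ | k := k
      · rw [mul_coeff_zero, coeff_X_zero, zero_mul, add_zero]
        have h1 : Q.natDegree = 0 := by omega
        have h2 : Q.coeff 0 = 1 := by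
          rw [← h1]; exact hQm.coeff_natDegree
        rw [h2]
        exact hd1 i
      · rw [coeff_X_mul, hdIn]
        rcases lt_or_ge Q.natDegree (k + 1) with h1 | h1
        · rw [coeff_eq_zero_of_natDegree_lt h1]
          have h0 := hf0 i
          rw [h0, zero_add]
          rcases lt_or_ge Q.natDegree k with h2 | h2
          · rw [coeff_eq_zero_of_natDegree_lt h2, derivative_zero]
          · have h3 : k = Q.natDegree := by omega
            rw [h3, hQm.coeff_natDegree, derivative_one]
        · have h3 : k + 1 = Q.natDegree := by omega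
          rw [h3, hQm.coeff_natDegree]
          have h4 : Q.coeff k = 0 := by
            apply hc0
            intro h5
            rw [← h3] at hpm
            have h6 := (Nat.dvd_add_right h5).mp hpm
            exact hpp.one_lt.ne' (Nat.dvd_one.mp h6)
          rw [h4, derivative_zero, add_zero]
          exact hd1 i
  have hder : ∀ k, derivative (Q.coeff k) = 0 := by
    intro k
    by_cases hk : p ∣ k
    · have h1 := congrArg (fun g => coeff g (k + 1)) hG
      simp only [coeff_add, coeff_zero] at h1
      rw [SEP_coeff _ (hf0 i), coeff_X_mul, hdIn] at h1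
      have h2 : Q.coeff (k + 1) = 0 := by
        apply hc0
        intro h5
        have h6 := (Nat.dvd_add_right hk).mp h5
        exact hpp.one_lt.ne' (Nat.dvd_one.mp h6)
      rw [h2, hf0 i, zero_add] at h1
      exact h1
    · rw [hc0 k hk, derivative_zero]
  have hdIn0 : dIn Q = 0 := by
    ext1 k
    rw [hdIn, hder, coeff_zero]
  have hGj : ∀ j, mapD (fun q => mapD (d j) q) Q = 0 := by
    intro j
    apply hz
    · have h1 := hmain j
      rw [hdIn0] at h1
      have h2 : evA x t (0 : K[X][X]) = 0 := by simp [evA]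
      rw [h2, zero_mul, add_zero] at h1
      exact h1
    · intro k hk
      rw [SEP_coeff _ (hf0 j)]
      rcases hk.lt_or_eq with h1 | h1
      · rw [coeff_eq_zero_of_natDegree_lt h1]
        exact hf0 j
      · rw [← h1, hQm.coeff_natDegree]
        exact hd1 j
  have hK : ∀ k l, ∃ w, (Q.coeff k).coeff l = w ^ p := by
    intro k l
    apply hker
    intro j
    have h1 := congrArg (fun g => (coeff g k).coeff l) (hGj j)
    simp only [coeff_zero] at h1
    rw [SEP_coeff _ (hf0 j), SEP_coeff _ (map_zero _)] at h1
    exact h1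
  have hb : ∀ k, ∃ b, Q.coeff k = b ^ p := fun k => SEP_root p (Q.coeff k) (hder k) (hK k)
  obtain ⟨Q0, hQ0'⟩ := SEP_root p Q hd0 hb
  have h1 : evA x t Q0 = 0 := by
    have h2 : evA x t Q = evA x t Q0 ^ p := by
      rw [hQ0']
      simp only [evA, Polynomial.map_pow, eval_pow]
    rw [hQ0] at h2
    exact pow_eq_zero_iff hpp.ne_zero |>.mp h2.symm
  have h2 := (hRel Q0).mp h1
  have h3 : Q0 ≠ 0 := by
    rintro rfl
    rw [zero_pow hpp.ne_zero] at hQ0'
    exact hQm.ne_zero hQ0'
  have h4 := natDegree_le_of_dvd h2 h3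
  have h5 : Q.natDegree = p * Q0.natDegree := by
    rw [hQ0', natDegree_pow]
  have h6 : Q.natDegree = 0 := by
    have := hpp.two_le
    rw [h5] at h4 ⊢
    have : Q0.natDegree = 0 := by nlinarith
    rw [this, mul_zero]
  have h7 : Q = 1 := hQm.natDegree_eq_zero.mp h6
  rw [h7] at hQ0
  simp [evA] at hQ0

end Pool.Agent.NPC
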