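import Pool.Agent.NPC.StB

/-!
# [SPN] A `p`-basis of `k` spans `K` over `K^p` when `K / k` is separable algebraic
-/

set_option autoImplicit false

namespace Pool.Agent.NPC

open Polynomial

/-- The additive monoid of all `∑ t^a w_a^p`. -/
def spnM {K : Type} [Field K] (p : ℕ) [Fact p.Prime] [CharP K p] {n : ℕ} (τ : Fin n → K) :
    AddSubmonoid K where
  carrier := {z | ∃ w : (Fin n → Fin p) → K, z = ∑ a, tm τ a * w a ^ p}
  zero_mem' := by
    refine ⟨fun _ => 0, ?_⟩
    have hp0 : p ≠ 0 := (Fact.out : p.Prime).ne_zero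
    simp [hp0]
  add_mem' := by
    rintro x y ⟨w, rfl⟩ ⟨v, rfl⟩
    refine ⟨w + v, ?_⟩
    rw [← Finset.sum_add_distrib]
    refine Finset.sum_congr rfl ?_
    intro a _
    rw [Pi.add_apply, add_pow_char, mul_add]

theorem spn_mono {K : Type} [Field K] (p : ℕ) [hp : Fact p.Prime] [CharP K p] {n : ℕ}
    (τ : Fin n → K) (a : Fin n → ℕ) (u : K) : (∏ i, τ i ^ a i) * u ^ p ∈ spnM p τ := by
  classical
  have hp0 : 0 < p := hp.out.pos
  refine ⟨Pi.single (fun i => ⟨a i % p, Nat.mod_lt _ hp0⟩) ((∏ i, τ i ^ (a i / p)) * u), ?_⟩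
  rw [Finset.sum_eq_single (fun i => (⟨a i % p, Nat.mod_lt _ hp0⟩ : Fin p))]
  · rw [Pi.single_eq_same, mul_pow, ← Finset.prod_pow, ← mul_assoc]
    congr 1
    unfold tm
    rw [← Finset.prod_mul_distrib]
    refine Finset.prod_congr rfl ?_
    intro i _
    rw [← pow_mul, ← pow_add]
    congr 1
    have := Nat.mod_add_div (a i) p
    rw [mul_comm (a i / p) p]
    exact this.symm
  · intro b _ hb
    rw [Pi.single_eq_of_ne hb, zero_pow hp.out.ne_zero, mul_zero]
  · intro h
    exact absurd (Finset.mem_univ _) h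

theorem thm_SPN : St_SPN := by
  intro p hp k K _ _ _ _ _ n t hspan z
  classical
  have hch : CharP K p := charP_of_injective_algebraMap (algebraMap k K).injective p
  have hex : ExpChar k p := ExpChar.prime hp.out
  set τ : Fin n → K := fun i => algebraMap k K (t i) with hτ
  have hmul : ∀ x y : K, x ∈ spnM p τ → y ∈ spnM p τ → x * y ∈ spnM p τ := by
    rintro x y ⟨w, rfl⟩ ⟨v, rfl⟩
    rw [Finset.sum_mul_sum]
    refine AddSubmonoid.sum_mem _ ?_
    intro a _
    refine AddSubmonoid.sum_mem _ ?_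
    intro b _
    have h1 : tm τ a * w a ^ p * (tm τ b * v b ^ p) =
        (∏ i, τ i ^ ((a i : ℕ) + (b i : ℕ))) * (w a * v b) ^ p := by
      have h2 : (∏ i, τ i ^ ((a i : ℕ) + (b i : ℕ))) = tm τ a * tm τ b := by
        unfold tm
        rw [← Finset.prod_mul_distrib]
        exact Finset.prod_congr rfl (fun i _ => pow_add _ _ _)
      rw [h2, mul_pow]
      ring
    rw [h1]
    exact spn_mono p τ _ _
  have halg : ∀ c : k, algebraMap k K c ∈ spnM p τ := by
    intro c
    obtain ⟨w, hw⟩ := hspan c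
    refine ⟨fun a => algebraMap k K (w a), ?_⟩
    rw [hw, map_sum]
    refine Finset.sum_congr rfl ?_
    intro a _
    simp only [tm, map_mul, map_pow, map_prod, hτ]
  let M : Subalgebra k K :=
    { carrier := spnM p τ
      mul_mem' := fun {x y} hx hy => hmul x y hx hy
      add_mem' := fun hx hy => (spnM p τ).add_mem hx hy
      algebraMap_mem' := halg }
  have hzp : z ^ p ∈ spnM p τ := by
    have h1 := spn_mono p τ (fun _ => 0) z
    simpa using h1
  have h1 : Algebra.adjoin k {z ^ p} ≤ M := by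
    rw [Algebra.adjoin_le_iff, Set.singleton_subset_iff]
    exact hzp
  have h2 := IntermediateField.adjoin_simple_eq_adjoin_pow_expChar_of_isSeparable' k K z p
  have h3 : z ∈ IntermediateField.adjoin k {z ^ p} := by
    rw [← h2]
    exact IntermediateField.mem_adjoin_simple_self k z
  have h4 : z ∈ (IntermediateField.adjoin k {z ^ p}).toSubalgebra := h3
  rw [IntermediateField.adjoin_simple_toSubalgebra_of_isAlgebraic
    (Algebra.IsAlgebraic.isAlgebraic (z ^ p))] at h4
  exact h1 h4

end Pool.Agent.NPC
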