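import Pool.Agent.NPC.GST

/-!
# [STO] The structure for an orbit and its powers
-/

set_option autoImplicit false

namespace Pool.Agent.NPC

open Polynomial

theorem thm_STO : St_STO := by
  intro p K L V _ _ _ _ _ S U up E x e i hU he hE hxR hxb hx
  classical
  have := S.fin
  have hl : ∃ l₁, ∀ j ∈ E, ∀ l, l₁ ≤ l → 1 ≤ ‖S.σ j (x l)‖ := by
    have h1 : ∀ j, ∃ l₀, j ∈ E → ∀ l, l₀ ≤ l → 1 ≤ ‖S.σ j (x l)‖ := by
      intro j
      by_cases hj : j ∈ E
      · obtain ⟨l₀, h⟩ := hx j hj 1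
        exact ⟨l₀, fun _ => h⟩
      · exact ⟨0, fun h => absurd h hj⟩
    choose l₀ hl₀ using h1
    obtain ⟨B, hB⟩ := (Set.finite_range l₀).bddAbove
    exact ⟨B, fun j hj l h => hl₀ j hj l ((hB ⟨j, rfl⟩).trans h)⟩
  obtain ⟨l₁, hl₁⟩ := hl
  set z : ℕ → K := fun n => x (max (n - i) l₁) ^ e with hz
  have hev : ∀ m : ℕ, ∀ᶠ n in (U : Filter ℕ), m ≤ n := by
    intro m
    apply hU
    rw [Nat.cofinite_eq_atTop]
    exact Filter.eventually_ge_atTop m
  have hzeq : up.gm z = up.gm (fun n => x (n - i) ^ e) := by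
    apply up.eq_of
    filter_upwards [hev (i + l₁)] with n hn
    have h1 : max (n - i) l₁ = n - i := max_eq_left (by omega)
    rw [hz]
    simp only [h1]
  have hG : ∃ St : Str K V (up.gm z),
    (∀ w, w ∈ St.Bd ↔ ∃ u, up.gm u = w ∧ S.bdd E u) ∧
    (∀ d w, w ∈ St.Gr d ↔ ∃ u, up.gm u = w ∧ S.gr E z d u) := by
    apply thm_GST p K L V S U up E z hE
    · intro n
      exact S.R.pow_mem (hxR _) e
    · intro j hj
      obtain ⟨C, hC⟩ := hxb j hj
      refine ⟨C ^ e, fun n => ?_⟩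
      rw [hz]
      simp only [map_pow, norm_pow]
      exact pow_le_pow_left₀ (norm_nonneg _) (hC _) e
    · intro j hj
      refine ⟨?_, ?_⟩
      · intro n
        rw [hz]
        simp only [map_pow, norm_pow]
        exact one_le_pow₀ (hl₁ j hj _ (le_max_right _ _))
      · intro M
        obtain ⟨l₀, hl₀⟩ := hx j hj M
        filter_upwards [hev (i + l₀)] with n hn
        rw [hz]
        simp only [map_pow, norm_pow]
        have h1 : 1 ≤ ‖S.σ j (x (max (n - i) l₁))‖ := hl₁ j hj _ (le_max_right _ _)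
        have h2 : M ≤ ‖S.σ j (x (max (n - i) l₁))‖ := hl₀ _ (le_trans (by omega) (le_max_left _ _))
        refine h2.trans ?_
        exact le_self_pow₀ h1 (by omega)
  rw [hzeq] at hG
  obtain ⟨St, hBd, hGr⟩ := hG
  refine ⟨St, ?_⟩
  intro T T' hT hTT'
  obtain ⟨⟨C, hC⟩, hden⟩ := hT
  have hC' : ∀ j y, ‖S.σ j (T y)‖ ≤ |C| * ‖S.σ j y‖ := by
    intro j y
    exact (hC j y).trans (mul_le_mul_of_nonneg_right (le_abs_self C) (norm_nonneg _))
  refine ⟨?_, ?_⟩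
  · intro w hw
    rw [hBd] at hw ⊢
    obtain ⟨u, rfl, ⟨s, hs, hs0, hsu⟩, hub⟩ := hw
    refine ⟨fun n => T (u n), (hTT' u).symm, ?_, ?_⟩
    · obtain ⟨b, hb, hb0, hbT⟩ := hden s hs hs0
      exact ⟨b, hb, hb0, fun n => hbT _ (hsu n)⟩
    · intro j hj
      obtain ⟨C₁, hC₁⟩ := hub j hj
      exact ⟨|C| * C₁, fun n => (hC' j (u n)).trans
        (mul_le_mul_of_nonneg_left (hC₁ n) (abs_nonneg C))⟩
  · intro d w hw
    rw [hGr] at hw ⊢
    obtain ⟨u, rfl, hu⟩ := hw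
    refine ⟨fun n => T (u n), (hTT' u).symm, ?_⟩
    intro j hj
    obtain ⟨C₁, hC₁⟩ := hu j hj
    refine ⟨|C| * C₁, fun n => (hC' j (u n)).trans ?_⟩
    rw [mul_assoc]
    exact mul_le_mul_of_nonneg_left (hC₁ n) (abs_nonneg C)

end Pool.Agent.NPC
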