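import Pool.Agent.NPC.StA

/-!
# NPC/TR: transformation of the minimal polynomial of the derivative
-/

set_option autoImplicit false

namespace Pool.Agent.NPC

open Polynomial Pool.Agent.Helper11.SP

private theorem TR_mapD_coeff {A : Type} [CommRing A] (d : Derivation ℤ A A) (P : A[X]) (n : ℕ) :
    (mapD d P).coeff n = d (P.coeff n) := by
  unfold mapD
  rw [finsetSum_coeff]
  have h1 : ∀ i ∈ Finset.range (P.natDegree + 1), (C (d (P.coeff i)) * X ^ i : A[X]).coeff n =
      if n = i then d (P.coeff i) else 0 := by
    intro i _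
    rw [coeff_C_mul, coeff_X_pow]
    split_ifs <;> simp
  rw [Finset.sum_congr rfl h1, Finset.sum_ite_eq]
  split_ifs with h
  · rfl
  · have h2 : P.coeff n = 0 := by
      refine coeff_eq_zero_of_natDegree_lt ?_
      rw [Finset.mem_range] at h
      omega
    rw [h2, map_zero]

private theorem TR_mapD_add {A : Type} [CommRing A] (d : Derivation ℤ A A) (P Q : A[X]) :
    mapD d (P + Q) = mapD d P + mapD d Q := by
  ext n
  rw [coeff_add, TR_mapD_coeff, TR_mapD_coeff, TR_mapD_coeff, coeff_add, map_add]

private theorem TR_mapD_monomial {A : Type} [CommRing A] (d : Derivation ℤ A A) (n : ℕ) (a : A) :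
    mapD d (monomial n a) = monomial n (d a) := by
  ext m
  rw [TR_mapD_coeff, coeff_monomial, coeff_monomial]
  split_ifs
  · rfl
  · exact map_zero d

private theorem TR_D {K V : Type} [Field K] [Field V] [Algebra K V] (D : Derivation ℤ V V)
    (d : Derivation ℤ K K) (hD : ∀ z : K, D (algebraMap K V z) = algebraMap K V (d z)) (x : V)
    (φ : K[X]) :
    D (aeval x φ) = aeval x (derivative φ) * D x + aeval x (mapD d φ) := by
  induction φ using Polynomial.induction_on' with
  | add p q hp hq =>
    rw [map_add, map_add, hp, hq, TR_mapD_add, derivative_add, map_add, map_add]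
    ring
  | monomial n a =>
    rw [TR_mapD_monomial, aeval_monomial, aeval_monomial, derivative_monomial, aeval_monomial,
      Derivation.leibniz, Derivation.leibniz_pow, hD, map_mul, map_natCast]
    simp only [smul_eq_mul, nsmul_eq_mul]
    ring

private theorem TR_ev {K V : Type} [Field K] [Field V] [Algebra K V] (x' y' : V) (φ a b : K[X])
    (Q : K[X][X]) :
    evA x' y' ((Q.map (compRingHom φ)).comp (C a * X + C b)) =
      evA (aeval x' φ) (aeval x' a * y' + aeval x' b) Q := by
  unfold evA
  rw [Polynomial.map_comp, Polynomial.map_map, eval_comp]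
  have h1 : (((aeval x' : K[X] →ₐ[K] V) : K[X] →+* V)).comp (compRingHom φ) =
      ((aeval (aeval x' φ) : K[X] →ₐ[K] V) : K[X] →+* V) := by
    refine RingHom.ext fun q => ?_
    show aeval x' (q.comp φ) = aeval (aeval x' φ) q
    rw [aeval_comp]
  rw [h1]
  congr 1
  simp

theorem thm_TR : St_TR := by
  intro K V _ _ _ x x' φ D d Q Q' hD hx hx' hφ hQ hQ' hR hR'
  -- `Q` and `Q'` have positive degree
  have hpos : 1 ≤ Q.natDegree := by
    rcases Nat.eq_zero_or_pos Q.natDegree with h | h
    · exfalso
      have h1 : Q = 1 := hQ.natDegree_eq_zero.1 h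
      have h2 := (hR Q).2 dvd_rfl
      rw [h1] at h2
      unfold evA at h2
      simp at h2
    · exact h
  obtain ⟨P, hP⟩ : ∃ P : K[X][X], P = (Q.map (compRingHom φ)).comp
    (C (derivative φ) * X + C (mapD d φ)) := ⟨_, rfl⟩
  have hdvd : Q' ∣ P := by
    rw [← hR' P, hP, TR_ev, hφ, ← TR_D D d hD x' φ, hφ]
    exact (hR Q).2 dvd_rfl
  rw [← hP]
  have hQm : (Q.map (compRingHom φ)).Monic := hQ.map _
  have hQmd : (Q.map (compRingHom φ)).natDegree = Q.natDegree := hQ.natDegree_map _
  have key : derivative φ ≠ 0 → P.natDegree = Q.natDegree ∧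
      P.leadingCoeff = derivative φ ^ Q.natDegree := by
    intro h0
    have hL : (C (derivative φ) * X + C (mapD d φ) : K[X][X]).natDegree = 1 :=
      natDegree_linear h0
    have hLc : (C (derivative φ) * X + C (mapD d φ) : K[X][X]).leadingCoeff = derivative φ :=
      leadingCoeff_linear h0
    constructor
    · rw [hP, natDegree_comp, hL, hQmd, mul_one]
    · rw [hP, leadingCoeff_comp (by rw [hL]; norm_num), hLc, hQm.leadingCoeff, hQmd, one_mul]
  constructor
  · intro h0
    obtain ⟨h1, h2⟩ := key h0
    have hP0 : P ≠ 0 := by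
      rintro rfl
      rw [natDegree_zero] at h1
      omega
    rw [← h1]
    exact natDegree_le_of_dvd hdvd hP0
  · intro hdeg
    by_cases h0 : derivative φ = 0
    · -- the polynomial `P` is constant
      have h1 : P.natDegree = 0 := by
        rw [hP, natDegree_comp, h0]
        simp
      have h2 : P = 0 := by
        by_contra h3
        have h4 := natDegree_le_of_dvd hdvd h3
        omega
      rw [h2, h0, zero_pow (by omega), C_0, zero_mul]
    · obtain ⟨h1, h2⟩ := key h0
      obtain ⟨R, hR1⟩ := hdvd
      have hP0 : P ≠ 0 := by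
        rintro rfl
        rw [natDegree_zero] at h1
        omega
      have hR0 : R ≠ 0 := by
        rintro rfl
        rw [mul_zero] at hR1
        exact hP0 hR1
      have h3 : R.natDegree = 0 := by
        have h4 := natDegree_mul hQ'.ne_zero hR0
        rw [← hR1, h1, hdeg] at h4
        omega
      obtain ⟨r, hr⟩ := natDegree_eq_zero.1 h3
      have h5 : P.leadingCoeff = r := by
        rw [hR1, leadingCoeff_mul, hQ'.leadingCoeff, one_mul, ← hr, leadingCoeff_C]
      rw [hR1, ← hr, ← h5, h2, mul_comm]

end Pool.Agent.NPC
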