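import Pool.Agent.NPC.StC

/-!
# NPC, module TWS: Frobenius twist of a curve
-/

set_option autoImplicit false

namespace Pool.Agent.NPC

open Polynomial Pool.Agent.Helper11.SP

section TWS

variable {K V : Type} [Field K] [Field V] [Algebra K V]

private noncomputable def TWSE (x y : V) : K[X][X] →+* V :=
  (evalRingHom y).comp (mapRingHom ((aeval x : K[X] →ₐ[K] V) : K[X] →+* V))

private theorem TWSE_eq (x y : V) (P : K[X][X]) : evA x y P = TWSE x y P := by
  unfold evA TWSE
  rfl

private theorem TWS_C (x y : V) (q : K[X]) : evA x y (C q) = aeval x q := by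
  unfold evA
  rw [map_C, eval_C]
  rfl

private theorem TWS_X (x y : V) : evA x y (X : K[X][X]) = y := by
  unfold evA
  rw [map_X, eval_X]

private theorem TWS_swp (x y : V) (P : K[X][X]) : evA x y (swp P) = evA y x P := by
  rw [TWSE_eq, TWSE_eq]
  have : (TWSE x y).comp ((Bivariate.swap (R := K) : K[X][X] ≃ₐ[K] K[X][X]) : K[X][X] →+* K[X][X])
      = TWSE y x := by
    refine Polynomial.ringHom_ext' ?_ ?_
    · refine Polynomial.ringHom_ext' ?_ ?_
      · refine RingHom.ext fun a => ?_
        show TWSE x y (Bivariate.swap (C (C a))) = TWSE y x (C (C a))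
        rw [Bivariate.swap_C_C, ← TWSE_eq, ← TWSE_eq, TWS_C, TWS_C]
        simp
      · show TWSE x y (Bivariate.swap (C X)) = TWSE y x (C X)
        rw [Bivariate.swap_X, ← TWSE_eq, ← TWSE_eq, TWS_C, TWS_X, aeval_X]
    · show TWSE x y (Bivariate.swap X) = TWSE y x X
      rw [Bivariate.swap_Y, ← TWSE_eq, ← TWSE_eq, TWS_C, TWS_X, aeval_X]
  exact RingHom.congr_fun this P

private theorem TWS_coeff_mapD {A : Type} [CommRing A] (d : A → A) (hd : d 0 = 0) (P : A[X])
    (k : ℕ) : (mapD d P).coeff k = d (P.coeff k) := by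
  unfold mapD
  rw [finsetSum_coeff]
  simp only [coeff_C_mul_X_pow]
  rw [Finset.sum_ite_eq]
  split_ifs with h
  · rfl
  · rw [coeff_eq_zero_of_natDegree_lt, hd]
    rw [Finset.mem_range] at h
    omega

private theorem TWS_dIn_coeff (P : K[X][X]) (k : ℕ) : (dIn P).coeff k = derivative (P.coeff k) :=
  TWS_coeff_mapD _ (by simp) P k

private theorem TWS_swp_dIn (P : K[X][X]) : swp (dIn P) = derivative (swp P) := by
  induction P using Polynomial.induction_on' with
  | add P Q hP hQ =>
    have : dIn (P + Q) = dIn P + dIn Q := by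
      ext1 k
      rw [coeff_add, TWS_dIn_coeff, TWS_dIn_coeff, TWS_dIn_coeff, coeff_add, derivative_add]
    rw [this]
    show Bivariate.swap (dIn P + dIn Q) = derivative (Bivariate.swap (P + Q))
    rw [map_add, map_add, derivative_add]
    exact congrArg₂ _ hP hQ
  | monomial n q =>
    have : dIn (monomial n q) = monomial n (derivative q) := by
      ext1 k
      rw [TWS_dIn_coeff, coeff_monomial, coeff_monomial]
      split_ifs <;> simp
    rw [this]
    show Bivariate.swap (monomial n (derivative q)) = derivative (Bivariate.swap (monomial n q))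
    rw [Bivariate.swap_monomial, Bivariate.swap_monomial, derivative_mul, derivative_C, mul_zero,
      add_zero, derivative_map]

private theorem TWS_swp_swp (P : K[X][X]) : swp (swp P) = P := Bivariate.swap_swap_apply P

private theorem TWS_swp_irr {P : K[X][X]} (h : Irreducible P) : Irreducible (swp P) :=
  (MulEquiv.irreducible_iff (Bivariate.swap (R := K))).2 h

private theorem TWS_swp_expand (p : ℕ) (P : K[X][X]) :
    swp (expand K[X] p P) = (swp P).map ((expand K p : K[X] →ₐ[K] K[X]) : K[X] →+* K[X]) := by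
  have : ((Bivariate.swap (R := K) : K[X][X] ≃ₐ[K] K[X][X]) : K[X][X] →+* K[X][X]).comp
      ((expand K[X] p : K[X][X] →ₐ[K[X]] K[X][X]) : K[X][X] →+* K[X][X]) =
      (mapRingHom ((expand K p : K[X] →ₐ[K] K[X]) : K[X] →+* K[X])).comp
      ((Bivariate.swap (R := K) : K[X][X] ≃ₐ[K] K[X][X]) : K[X][X] →+* K[X][X]) := by
    refine Polynomial.ringHom_ext' ?_ ?_
    · refine Polynomial.ringHom_ext' ?_ ?_
      · refine RingHom.ext fun a => ?_
        show Bivariate.swap (expand K[X] p (C (C a))) =
          (Bivariate.swap (C (C a))).map ((expand K p : K[X] →ₐ[K] K[X]) : K[X] →+* K[X])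
        rw [expand_C, Bivariate.swap_C_C, map_C]
        simp
      · show Bivariate.swap (expand K[X] p (C X)) =
          (Bivariate.swap (C X)).map ((expand K p : K[X] →ₐ[K] K[X]) : K[X] →+* K[X])
        rw [expand_C, Bivariate.swap_X, map_X]
    · show Bivariate.swap (expand K[X] p X) =
          (Bivariate.swap X).map ((expand K p : K[X] →ₐ[K] K[X]) : K[X] →+* K[X])
      rw [expand_X, map_pow, Bivariate.swap_Y, map_C, ← C_pow]
      simp
  exact RingHom.congr_fun this P

private theorem TWS_ev_expand (x y : V) (p : ℕ) (P : K[X][X]) :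
    evA x y (expand K[X] p P) = evA x (y ^ p) P := by
  unfold evA
  rw [map_expand, expand_eval]

private theorem TWS_step (p : ℕ) [Fact p.Prime] [CharP K p] {h : K[X][X]} (hirr : Irreducible h)
    (hd : 0 < h.natDegree) (h0 : derivative h = 0) :
    ∃ h₁ : K[X][X], Irreducible h₁ ∧ 0 < h₁.natDegree ∧ h₁.natDegree < h.natDegree ∧
      (swp h₁).natDegree = (swp h).natDegree ∧
      ∀ x y : K, evA x y h = evA x (y ^ p) h₁ := by
  have hp : p.Prime := Fact.out
  have e := expand_contract p h0 hp.ne_zero
  have hdeg : h.natDegree = (contract p h).natDegree * p := by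
    conv_lhs => rw [← e]
    rw [natDegree_expand]
  refine ⟨contract p h, ?_, ?_, ?_, ?_, ?_⟩
  · apply of_irreducible_expand hp.ne_zero
    rw [e]
    exact hirr
  · rw [Nat.pos_iff_ne_zero]
    intro h1
    rw [h1, zero_mul] at hdeg
    omega
  · have h1 : 0 < (contract p h).natDegree := by
      rw [Nat.pos_iff_ne_zero]
      intro h1
      rw [h1, zero_mul] at hdeg
      omega
    rw [hdeg]
    have := hp.two_le
    nlinarith
  · conv_rhs => rw [← e]
    rw [TWS_swp_expand, natDegree_map_eq_of_injective]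
    exact expand_injective hp.pos
  · intro x y
    conv_lhs => rw [← e]
    rw [TWS_ev_expand]

end TWS

theorem thm_TWS : St_TWS := by
  intro p _ 𝕂 _ _ _
  have main : ∀ (N : ℕ) (h : 𝕂[X][X]), h.natDegree + (swp h).natDegree = N → Irreducible h →
      0 < h.natDegree → 0 < (swp h).natDegree →
      ∃ (m m' : ℕ) (h' : 𝕂[X][X]), Irreducible h' ∧ 0 < h'.natDegree ∧ 0 < (swp h').natDegree ∧
        derivative h' ≠ 0 ∧ dIn h' ≠ 0 ∧
        ∀ x y : 𝕂, evA x y h = 0 ↔ evA (x ^ (p ^ m)) (y ^ (p ^ m')) h' = 0 := by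
    intro N
    induction N using Nat.strong_induction_on with
    | _ N ih =>
      intro h hN hirr hd1 hd2
      by_cases hY : derivative h = 0
      · obtain ⟨h₁, a1, a2, a3, a4, a5⟩ := TWS_step p hirr hd1 hY
        obtain ⟨m, m', h', b1, b2, b3, b4, b5, b6⟩ := ih (h₁.natDegree + (swp h₁).natDegree)
          (by omega) h₁ rfl a1 a2 (by omega)
        refine ⟨m, m' + 1, h', b1, b2, b3, b4, b5, fun x y => ?_⟩
        rw [a5, b6, ← pow_mul, pow_succ' p m']
      by_cases hX : dIn h = 0
      · have h0 : derivative (swp h) = 0 := by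
          rw [← TWS_swp_dIn, hX]
          exact map_zero (Bivariate.swap (R := 𝕂))
        obtain ⟨g₁, a1, a2, a3, a4, a5⟩ := TWS_step p (TWS_swp_irr hirr) hd2 h0
        rw [TWS_swp_swp] at a4
        obtain ⟨m, m', h', b1, b2, b3, b4, b5, b6⟩ := ih
          ((swp g₁).natDegree + (swp (swp g₁)).natDegree)
          (by rw [TWS_swp_swp]; omega) (swp g₁) rfl (TWS_swp_irr a1) (by omega)
          (by rw [TWS_swp_swp]; omega)
        refine ⟨m + 1, m', h', b1, b2, b3, b4, b5, fun x y => ?_⟩
        rw [← TWS_swp, a5, ← TWS_swp, b6, ← pow_mul, pow_succ' p m]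
      · refine ⟨0, 0, h, hirr, hd1, hd2, hY, hX, fun x y => ?_⟩
        rw [pow_zero, pow_one, pow_one]
  intro h hirr hd1 hd2
  exact main _ h rfl hirr hd1 hd2

end Pool.Agent.NPC
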