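import Pool.Agent.NPC.StB

set_option autoImplicit false

/-! # UPX: ultrapowers exist, additive maps and derivations extend to them -/

namespace Pool.Agent.NPC

open Filter

private theorem UPX_eq {U : Ultrafilter ℕ} {K V : Type} [Field K] [Field V] [Algebra K V]
    (up : UP U K V) (u v : ℕ → K) : up.gm u = up.gm v ↔ ∀ᶠ n in (U : Filter ℕ), u n = v n := by
  rw [← sub_eq_zero, ← map_sub, up.zero]
  simp only [Pi.sub_apply, sub_eq_zero]

private theorem UPX_congr {U : Ultrafilter ℕ} {K V : Type} [Field K] [Field V] [Algebra K V]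
    (up : UP U K V) (T : K → K) {u v : ℕ → K} (h : up.gm u = up.gm v) :
    up.gm (fun n => T (u n)) = up.gm (fun n => T (v n)) := by
  rw [UPX_eq] at h ⊢
  filter_upwards [h] with n hn
  rw [hn]

private theorem UPX_add {U : Ultrafilter ℕ} {K V : Type} [Field K] [Field V] [Algebra K V]
    (up : UP U K V) (T : K →+ K) :
    ∃ T' : V →+ V, ∀ u : ℕ → K, T' (up.gm u) = up.gm (fun n => T (u n)) := by
  have key : ∀ u : ℕ → K, up.gm (fun n => T (Function.surjInv up.surj (up.gm u) n)) =
      up.gm (fun n => T (u n)) := fun u =>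
    UPX_congr up T (Function.surjInv_eq up.surj (up.gm u))
  refine ⟨{ toFun := fun v => up.gm (fun n => T (Function.surjInv up.surj v n)),
            map_zero' := ?_, map_add' := ?_ }, key⟩
  · have h := key 0
    rw [map_zero] at h
    rw [h]
    have : (fun n => T ((0 : ℕ → K) n)) = 0 := by
      ext n
      simp
    rw [this, map_zero]
  · intro v w
    obtain ⟨a, rfl⟩ := up.surj v
    obtain ⟨b, rfl⟩ := up.surj w
    have h := key (a + b)
    rw [map_add] at h
    rw [h, key, key, ← map_add]
    congr 1
    ext n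
    simp

/-- UPX. -/
theorem thm_UPX : St_UPX := by
  refine ⟨?_, ?_, ?_⟩
  · intro U K _
    letI : Algebra K (Germ (U : Filter ℕ) K) :=
      ((Germ.coeRingHom (U : Filter ℕ)).comp (Pi.constRingHom ℕ K)).toAlgebra
    refine ⟨Germ (U : Filter ℕ) K, inferInstance, this, ⟨?_⟩⟩
    exact {
      gm := Germ.coeRingHom (U : Filter ℕ)
      surj := fun v => by
        induction v using Germ.inductionOn with
        | _ f => exact ⟨f, rfl⟩
      zero := fun u => by
        change ((u : Germ (U : Filter ℕ) K) = ((0 : ℕ → K) : Germ (U : Filter ℕ) K)) ↔ _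
        rw [Germ.coe_eq]
        rfl
      const := fun z => rfl }
  · intro U K V _ _ _ up T
    exact UPX_add up T
  · intro U K V _ _ _ up d
    obtain ⟨T', hT'⟩ := UPX_add up (d : K →+ K)
    refine ⟨Derivation.mk' T'.toIntLinearMap ?_, ?_⟩
    · intro a b
      obtain ⟨u, rfl⟩ := up.surj a
      obtain ⟨v, rfl⟩ := up.surj b
      change T' (up.gm u * up.gm v) = up.gm u * T' (up.gm v) + up.gm v * T' (up.gm u)
      rw [← map_mul, hT', hT', hT', ← map_mul, ← map_mul, ← map_add]
      congr 1
      ext n
      simp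
    · intro u
      exact hT' u

end Pool.Agent.NPC
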