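import Pool.Agent.NPC.UB
import Pool.Agent.NPC.LB
import Pool.Agent.NPC.S1C
import Pool.Agent.NPC.BAS
import Pool.Agent.NPC.REL
import Pool.Agent.NPC.RAT
import Pool.Agent.NPC.HL
import Pool.Agent.NPC.OM
import Pool.Agent.NPC.S1
import Pool.Agent.NPC.C1
import Pool.Agent.NPC.C2
import Pool.Agent.NPC.TR
import Pool.Agent.NPC.SEP
import Pool.Agent.NPC.CR
import Pool.Agent.NPC.CV
import Pool.Agent.NPC.ETA
import Pool.Agent.NPC.S2
import Pool.Agent.NPC.BSE
import Pool.Agent.NPC.DX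
import Pool.Agent.NPC.SPN
import Pool.Agent.NPC.KER
import Pool.Agent.NPC.BDA
import Pool.Agent.NPC.BDV
import Pool.Agent.NPC.INT
import Pool.Agent.NPC.NOR
import Pool.Agent.NPC.EMB
import Pool.Agent.NPC.PL
import Pool.Agent.NPC.GOD
import Pool.Agent.NPC.HB
import Pool.Agent.NPC.HS
import Pool.Agent.NPC.UPX
import Pool.Agent.NPC.GST
import Pool.Agent.NPC.ORB
import Pool.Agent.NPC.STO
import Pool.Agent.NPC.SB2
import Pool.Agent.NPC.ITG
import Pool.Agent.NPC.PST
import Pool.Agent.NPC.UNI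
import Pool.Agent.NPC.R1
import Pool.Agent.NPC.R1B
import Pool.Agent.NPC.RD
import Pool.Agent.NPC.END
import Pool.Agent.NPC.KC
import Pool.Agent.NPC.FB
import Pool.Agent.NPC.HT
import Pool.Agent.NPC.COV
import Pool.Agent.NPC.HG
import Pool.Agent.NPC.CORE
import Pool.Agent.NPC.TWS
import Pool.Agent.NPC.AFF
import Pool.Agent.NPC.NRM
import Pool.Agent.NPC.IRR
import Pool.Agent.NPC.MAIN

/-!
# Return sets when one map is not postcritically finite: assembly
-/

set_option autoImplicit false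

namespace Pool.Agent.NPC

open Polynomial Pool.Agent.Helper79.DM

theorem all_S1 : St_S1 := thm_S1 (thm_S1C thm_UB thm_LB) thm_BAS thm_OM

theorem all_S2 : St_S2 :=
  thm_S2 (thm_C1 thm_UB) (thm_C2 thm_REL) thm_TR thm_SEP thm_CR thm_CV thm_ETA

theorem all_PL : St_PL :=
  thm_PL thm_BSE thm_DX thm_SPN thm_KER (thm_BDV thm_BDA) thm_INT thm_NOR thm_EMB

theorem all_HS : St_HS := thm_HS thm_GOD thm_HB

theorem all_RD : St_RD :=
  thm_RD thm_ORB all_HS thm_HB thm_UPX
    (thm_R1 thm_ITG thm_REL (thm_RAT thm_REL) thm_UNI thm_SB2 all_S1 thm_HL)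
    (thm_R1B thm_HL) thm_STO all_S2 thm_GOD

theorem all_KC : St_KC := thm_KC thm_UPX all_RD thm_ORB thm_END

theorem all_HG : St_HG := thm_HG thm_FB thm_PST thm_HT (thm_COV thm_SB2)

theorem all_CORE : St_CORE := thm_CORE all_HG all_PL all_KC

theorem all_MAIN : St_MAIN :=
  thm_MAIN (thm_IRR thm_TWS (thm_NRM (thm_AFF thm_SB2) all_CORE thm_SB2))

/-- Either of the two maps is not postcritically finite. -/
theorem main (p : ℕ) [Fact p.Prime] (K : Type) [Field K] [CharP K p] (f g : K[X]) (a b : K)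
    (h : MvPolynomial (Fin 2) K) (h0 : h ≠ 0)
    (H : (derivative f ≠ 0 ∧ ∃ c : AlgebraicClosure K, aeval c (derivative f) = 0 ∧
        (Set.range fun n : ℕ => (fun z : AlgebraicClosure K => aeval z f)^[n] c).Infinite) ∨
      (derivative g ≠ 0 ∧ ∃ c : AlgebraicClosure K, aeval c (derivative g) = 0 ∧
        (Set.range fun n : ℕ => (fun z : AlgebraicClosure K => aeval z g)^[n] c).Infinite)) :
    EP (ret f g a b h) := by
  rcases H with ⟨h1, c, h2, h3⟩ | ⟨h1, c, h2, h3⟩
  · exact all_MAIN p K f g a b h c h0 h1 h2 h3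
  · rw [ret_swap]
    refine all_MAIN p K g f b a _ c ?_ h1 h2 h3
    intro hz
    apply h0
    have := MvPolynomial.rename_injective (R := K) _ (Equiv.swap (0 : Fin 2) 1).injective
    exact this (by rw [hz, map_zero])

end Pool.Agent.NPC
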