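import Pool.Agent.NPC.StB
import Pool.Agent.ZPT.AxDer

/-!
# Derivations extend to finite separable extensions
-/

set_option autoImplicit false

namespace Pool.Agent.NPC

/-- Derivations extend to finite separable extensions. -/
theorem thm_DX : St_DX := by
  intro k K _ _ _ _ _ d
  have hfe : Algebra.FormallyEtale k K := Algebra.FormallyEtale.of_isSeparable k K
  obtain ⟨D, hD⟩ := Pool.Agent.ZPT.der_ext ℤ k K ((Algebra.linearMap k K).compDer d)
  exact ⟨D, hD⟩

end Pool.Agent.NPC
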