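import Mathlib
import Pool.Agent.Helper11.SP.Tw

/-!
# Return sets and maps which are not postcritically finite: definitions
-/

set_option autoImplicit false

namespace Pool.Agent.NPC

open Polynomial

/-- The value at a point `(x, y)` of an extension of a polynomial in two variables over `K`:
the inner variable is evaluated at `x`, the outer one at `y`. -/
noncomputable def evA {K V : Type} [Field K] [Field V] [Algebra K V] (x y : V) (P : K[X][X]) : V :=
  (P.map ((aeval x : K[X] →ₐ[K] V) : K[X] →+* V)).eval y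

/-- Apply an additive map to the coefficients of a polynomial. -/
noncomputable def mapD {A : Type} [CommRing A] (d : A → A) (P : A[X]) : A[X] :=
  ∑ i ∈ Finset.range (P.natDegree + 1), C (d (P.coeff i)) * X ^ i

/-- The partial derivative with respect to the inner variable. -/
noncomputable def dIn {A : Type} [CommRing A] (P : A[X][X]) : A[X][X] :=
  mapD (fun q : A[X] => derivative q) P

/-- The intermediate field generated by two elements. -/
abbrev fld {K V : Type} [Field K] [Field V] [Algebra K V] (x y : V) : IntermediateField K V :=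
  IntermediateField.adjoin K {x, y}

/-- The intermediate field generated by one element. -/
abbrev fld1 {K V : Type} [Field K] [Field V] [Algebra K V] (x : V) : IntermediateField K V :=
  IntermediateField.adjoin K {x}

/-- `F` generates the ideal of relations over `K` between `x` and `y`. -/
def Rel {K V : Type} [Field K] [Field V] [Algebra K V] (x y : V) (F : K[X][X]) : Prop :=
  ∀ P : K[X][X], evA x y P = 0 ↔ F ∣ P

/-- The monomial `∏ t_j ^ a_j`. -/
noncomputable def tm {K : Type} [Field K] {n m : ℕ} (t : Fin n → K) (a : Fin n → Fin m) : K :=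
  ∏ j, t j ^ (a j : ℕ)

/-- A place system with derivations: a field `K` of characteristic `p`, an integrally closed
subring `R`, finitely many embeddings `σ j` of `K` into an ultrametric field `L` (places), a
`p`-basis `t` and the derivations `D i = ∂ / ∂ t_i`, which are bounded at all places. -/
structure PS (p : ℕ) (K L : Type) [Field K] [NormedField L] where
  /-- the number of variables -/
  n : ℕ
  /-- the `p`-basis -/
  t : Fin n → K
  /-- the derivations -/
  D : Fin n → Derivation ℤ K K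
  /-- the ring -/
  R : Subring K
  /-- the places -/
  I : Type
  fin : Finite I
  /-- the embeddings -/
  σ : I → K →+* L
  tR : ∀ i, t i ∈ R
  Dt : ∀ i j, D i (t j) = if i = j then 1 else 0
  ker : ∀ z, (∀ i, D i z = 0) → ∃ w, z = w ^ p
  span : ∀ z, ∃ w : (Fin n → Fin p) → K, z = ∑ a, tm t a * w a ^ p
  frac : ∀ z, ∃ s ∈ R, s ≠ 0 ∧ s * z ∈ R
  Rint : ∀ (P : K[X]) (z : K), P.Monic → (∀ i, P.coeff i ∈ R) → P.eval z = 0 → z ∈ R
  RD : ∃ s ∈ R, s ≠ 0 ∧ ∀ i, ∀ z ∈ R, s * D i z ∈ R
  bD : ∃ C : ℝ, ∀ i j z, ‖σ j (D i z)‖ ≤ C * ‖σ j z‖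
  north : ∀ M : ℝ, {u : K | u ∈ R ∧ ∀ j, ‖σ j u‖ ≤ M}.Finite
  liou : ∃ N : ℕ, ∀ u ∈ R, u ≠ 0 → ∀ j, ∀ M : ℝ, 1 ≤ M → (∀ j', ‖σ j' u‖ ≤ M) →
    1 ≤ ‖σ j u‖ * M ^ N

/-- An ultrapower of `K`. -/
structure UP (U : Ultrafilter ℕ) (K V : Type) [Field K] [Field V] [Algebra K V] where
  /-- the germ of a sequence -/
  gm : (ℕ → K) →+* V
  surj : Function.Surjective gm
  zero : ∀ u, gm u = 0 ↔ ∀ᶠ n in (U : Filter ℕ), u n = 0
  const : ∀ z, gm (fun _ => z) = algebraMap K V z

/-- Bounded elements and the growth filtration with respect to the element `Z`. -/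
structure Str (K V : Type) [Field K] [Field V] [Algebra K V] (Z : V) where
  /-- the bounded elements -/
  Bd : Subring V
  /-- the elements which grow at most like `Z ^ d` -/
  Gr : ℤ → AddSubgroup V
  alg_mem : ∀ z : K, algebraMap K V z ∈ Bd
  Z_mem : Z ∈ Bd
  Gr_mono : Monotone Gr
  Gr_mul : ∀ {d e : ℤ} {z w : V}, z ∈ Gr d → w ∈ Gr e → z * w ∈ Gr (d + e)
  Gr_alg : ∀ z : K, algebraMap K V z ∈ Gr 0
  Gr_Z : Z ∈ Gr 1
  Gr_inv : ∀ b : K[X], b ≠ 0 → (aeval Z b)⁻¹ ∈ Gr (-(b.natDegree : ℤ))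
  int_Bd : ∀ (P : V[X]) (z : V), P.Monic → (∀ i, P.coeff i ∈ Bd) → P.eval z = 0 → z ∈ Bd
  int_Gr : ∀ (P : V[X]) (z : V) (d : ℕ), P.Monic → (∀ i, P.coeff i ∈ Gr d) → P.eval z = 0 →
    z ∈ Gr d
  small : ∀ z ∈ Bd, z ∈ Gr (-1) → z = 0

/-- The germ `w` is bounded outside the set `E` of places, with bounded denominators. -/
def PS.bdd {p : ℕ} {K L : Type} [Field K] [NormedField L] (S : PS p K L) (E : Set S.I)
    (u : ℕ → K) : Prop :=
  (∃ s ∈ S.R, s ≠ 0 ∧ ∀ n, s * u n ∈ S.R) ∧ ∀ j, j ∉ E → ∃ C : ℝ, ∀ n, ‖S.σ j (u n)‖ ≤ C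

/-- The sequence `u` grows at most like the `d`-th power of `z` at the places of `E`. -/
def PS.gr {p : ℕ} {K L : Type} [Field K] [NormedField L] (S : PS p K L) (E : Set S.I)
    (z : ℕ → K) (d : ℤ) (u : ℕ → K) : Prop :=
  ∀ j ∈ E, ∃ C : ℝ, ∀ n, ‖S.σ j (u n)‖ ≤ C * ‖S.σ j (z n)‖ ^ d

end Pool.Agent.NPC
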