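import Pool.Agent.NPC.Defs

/-!
# Statements, part A: algebra in an extension field with a bounded structure

Everything here is about fields `K` and `V` (an ultrapower of `K` later), a structure
`Str K V Z` (bounded elements `Bd`, growth filtration `Gr`, `Bd ∩ Gr (-1) = 0`), polynomials in
two variables `P : K[X][X]` evaluated by `evA x y P` (inner variable at `x`, outer at `y`).
-/

set_option autoImplicit false

namespace Pool.Agent.NPC

open Polynomial Pool.Agent.Helper11.SP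

/-- [UB] Upper bound. Let `e i ∈ Gr (m i)`, let `W` be a `K`-subspace of `V` which consists of
bounded elements and contains all `∑ a_i(Z) e_i`, `a_i ∈ K[X]`. If `w_1, ..., w_N ∈ W` have the form
`∑ (a_i(Z) / b(Z)) e_i` and are linearly independent modulo `M0 = {∑ a_i(Z) e_i}` then
`N ≤ ∑ m_i`.

Proof. Common denominator `b` for all `w_k`: `b(Z) w_k = ∑_i a_ki(Z) e_i`. Division with remainder:
`a_ki = b q_ki + r_ki`, `deg r_ki < deg b` (if `b` is constant all `w_k` are in `M0` and `N = 0`).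
For `c ∈ K^N` let `r_i(c) = ∑_k c_k r_ki`, `q_i(c) = ∑_k c_k q_ki`. The condition
`deg r_i(c) < deg b - m_i` (or `r_i(c) = 0`) is the vanishing of the coefficients of `X^l` with
`deg b - m_i ≤ l < deg b`, at most `m_i` linear conditions. If `N > ∑ m_i` there is `c ≠ 0` with all
these conditions. Then `z = ∑_k c_k w_k - ∑_i q_i(c)(Z) e_i = ∑_i (r_i(c)(Z) / b(Z)) e_i`. It is in
`W`, so in `Bd`; and `r(Z) ∈ Gr (deg r)` (powers of `Z ∈ Gr 1`, constants in `Gr 0`, monotone),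
`b(Z)⁻¹ ∈ Gr (- deg b)` (`Gr_inv`), so the `i`-th term is in
`Gr (deg b - m_i - 1 - deg b + m_i) = Gr (-1)`. So `z ∈ Bd ∩ Gr (-1)` is zero (`small`), so
`∑ c_k w_k ∈ M0` and `c = 0`. Contradiction. -/
def St_UB : Prop := ∀ (K V : Type) [Field K] [Field V] [Algebra K V] (Z : V) (S : Str K V Z)
  (ι : Type) [Fintype ι] (e : ι → V) (m : ι → ℕ), Transcendental K Z →
  (∀ i, e i ∈ S.Gr (m i)) →
  ∀ W : Submodule K V, (∀ w ∈ W, w ∈ S.Bd) →
  (∀ a : ι → K[X], ∑ i, aeval Z (a i) * e i ∈ W) →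
  ∀ (N : ℕ) (w : Fin N → V), (∀ k, w k ∈ W) →
  (∀ k, ∃ (b : K[X]) (a : ι → K[X]), b ≠ 0 ∧ aeval Z b * w k = ∑ i, aeval Z (a i) * e i) →
  (∀ c : Fin N → K, (∃ a : ι → K[X], ∑ k, c k • w k = ∑ i, aeval Z (a i) * e i) → c = 0) →
  N ≤ ∑ i, m i

/-- [LB] Lower bound. `Λ₀ ≤ Λ` subalgebras of `V`, `L` a subfield containing `Λ`, `S ∈ Λ₀` a unit
modulo `δ` (in `Λ`) such that every element of `Λ` is multiplied into `Λ₀` by a power of `S`; `n₁ ∈ Λ`
is a unit modulo `δ`; `u_1, ..., u_d` is a `K`-basis of `Λ / δ Λ`; `T` is transcendental over `L`,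
`lam ∈ L`, `ω = (n₁ / δ) T + lam`. For every `N` there are `d N (N + 1) / 2` elements of the form
`v ω ^ j`, `v ∈ Λ₀`, `j ≤ N`, which are linearly independent over `K` modulo
`⨁_{l ≤ N} Λ T ^ l`.

Proof. For `k ≥ 1` the elements `δ^a u_i` (`a < k`, `i < d`) form a `K`-basis of `Λ / δ^k Λ`
(`δ ≠ 0` in a field; induction on `k`). The map `Λ₀ → Λ / δ^k Λ` is onto: `S` is a unit in the
finite dimensional algebra `Λ / δ^k Λ` (from `a S + b δ = 1`: `(a S)` is `1` minus a nilpotent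
element), so its inverse there is a polynomial in `S` (over `K`, e.g. Cayley-Hamilton / minimal
polynomial with nonzero constant term), and for `z ∈ Λ`, `S^m z ∈ Λ₀`, so `z ≡ q(S)^m (S^m z)`. So
there are `v_{k,1}, ..., v_{k,dk} ∈ Λ₀` which form a `K`-basis of `Λ / δ^k Λ`. Take all
`w = v_{k,i} ω^k`, `1 ≤ k ≤ N`, `i ≤ d k`: their number is `d (1 + ... + N)`. Independence: let
`∑ c_{k,i} v_{k,i} ω^k = ∑_{l ≤ N} b_l T^l`, `b_l ∈ Λ`; both sides are polynomials in `T` over `L`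
and `T` is transcendental over `L`. Let `k` be the largest index with some `c_{k,i} ≠ 0`.
Comparing the coefficients of `T^k`: `(∑_i c_{k,i} v_{k,i}) n₁^k / δ^k = b_k ∈ Λ`, so
`(∑_i c_{k,i} v_{k,i}) n₁^k ∈ δ^k Λ`, and as `n₁` is a unit modulo `δ^k` in `Λ`
(`(a n₁ + b δ)^(2k)` expands), `∑_i c_{k,i} v_{k,i} ∈ δ^k Λ`, so all `c_{k,i} = 0`. Contradiction. -/
def St_LB : Prop := ∀ (K V : Type) [Field K] [Field V] [Algebra K V] (Λ₀ Λ : Subalgebra K V)
  (L : Subfield V) (S δ n₁ lam T : V) (d : ℕ) (u : Fin d → V), Λ₀ ≤ Λ → (∀ z ∈ Λ, z ∈ L) →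
  lam ∈ L → S ∈ Λ₀ → δ ∈ Λ → δ ≠ 0 → n₁ ∈ Λ →
  (∀ z ∈ Λ, ∃ m : ℕ, S ^ m * z ∈ Λ₀) →
  (∃ a ∈ Λ, ∃ b ∈ Λ, a * S + b * δ = 1) → (∃ a ∈ Λ, ∃ b ∈ Λ, a * n₁ + b * δ = 1) →
  (∀ i, u i ∈ Λ) →
  (∀ z ∈ Λ, ∃ c : Fin d → K, ∃ z' ∈ Λ, z = ∑ i, c i • u i + δ * z') →
  (∀ c : Fin d → K, (∃ z' ∈ Λ, ∑ i, c i • u i = δ * z') → c = 0) →
  Transcendental L T →
  ∀ N : ℕ, ∃ w : Fin (d * (N * (N + 1) / 2)) → V,
    (∀ k, ∃ v ∈ Λ₀, ∃ j ≤ N, w k = v * (n₁ / δ * T + lam) ^ j) ∧
    (∀ c : Fin (d * (N * (N + 1) / 2)) → K,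
      (∃ b : Fin (N + 1) → V, (∀ l, b l ∈ Λ) ∧ ∑ k, c k • w k = ∑ l, b l * T ^ (l : ℕ)) → c = 0)

/-- [S1C] The core of Step 1. `Y` transcendental over `K`, `S : Str K V Y`. `x ∈ V` is a root of a
monic polynomial of degree `β` over `K[Y]`, `Λ₀ = K[Y, x]`, `Λ ⊇ Λ₀` a subalgebra, `L ⊇ Λ` a subfield
with `L = ⊕ K(Y) x^j` (`hL`). The rest as in [LB], with `S = s(Y)`. If `T` and `ω = (n₁/δ) T + lam`
are bounded, `T ∈ Gr 1` and `β < d`, then `T` is algebraic over `L`.

Proof. Suppose `T` is transcendental over `L`. `x` is bounded (`int_Bd`) and `x ∈ Gr g` for some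
`g : ℕ` (`int_Gr`, the finitely many coefficients are polynomials in `Y`, all in `Gr g` for a large
`g`). Let `N` be large. Apply [UB] with `Z = Y`, `ι = Fin β × Fin (N + 1)`,
`e (j, l) = x^j T^l`, `m (j, l) = g j + l`, and `W` = the `K`-span of all `v ω^k T^l` with
`v ∈ Λ₀` and `k + l ≤ N`. `W ⊆ Bd`: `Λ₀ ⊆ Bd` (generated by `Y, x`), `ω, T ∈ Bd`. `W` contains
`∑ a_{jl}(Y) x^j T^l` (`k = 0`). Every element of `W` is a polynomial in `T` of degree `≤ N` over
`L`, so by `hL` it is `(1/b(Y)) ∑ a_{jl}(Y) x^j T^l`. For the family take the one of [LB]: its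
elements are in `W` (`l = 0`), and `∑ a_{jl}(Y) x^j T^l = ∑_l b_l T^l` with `b_l ∈ Λ₀ ⊆ Λ`, so the
independence is given by [LB]. So `d N(N+1)/2 ≤ ∑_{j<β, l≤N} (g j + l)
= β N(N+1)/2 + (N+1) g β(β-1)/2`. As `d ≥ β + 1`: `N ≤ g β (β - 1)`. Contradiction for
`N = g β² + 1`. -/
def St_S1C : Prop := ∀ (K V : Type) [Field K] [Field V] [Algebra K V] (Y : V) (St : Str K V Y)
  (Λ : Subalgebra K V) (L : Subfield V) (s : K[X]) (x δ n₁ lam T : V) (β d : ℕ) (u : Fin d → V),
  Transcendental K Y → Y ∈ Λ → x ∈ Λ → (∀ z ∈ Λ, z ∈ L) →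
  (∃ G : K[X][X], G.Monic ∧ G.natDegree = β ∧ evA Y x G = 0) →
  (∀ z ∈ L, ∃ (b : K[X]) (a : Fin β → K[X]), b ≠ 0 ∧
    aeval Y b * z = ∑ j, aeval Y (a j) * x ^ (j : ℕ)) →
  lam ∈ L → δ ∈ Λ → δ ≠ 0 → n₁ ∈ Λ →
  (∀ z ∈ Λ, ∃ m : ℕ, (aeval Y s) ^ m * z ∈ Algebra.adjoin K {Y, x}) →
  (∃ a ∈ Λ, ∃ b ∈ Λ, a * aeval Y s + b * δ = 1) → (∃ a ∈ Λ, ∃ b ∈ Λ, a * n₁ + b * δ = 1) →
  (∀ i, u i ∈ Λ) →
  (∀ z ∈ Λ, ∃ c : Fin d → K, ∃ z' ∈ Λ, z = ∑ i, c i • u i + δ * z') →
  (∀ c : Fin d → K, (∃ z' ∈ Λ, ∑ i, c i • u i = δ * z') → c = 0) →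
  T ∈ St.Bd → T ∈ St.Gr 1 → n₁ / δ * T + lam ∈ St.Bd → β < d →
  ¬ Transcendental L T

/-- [BAS] Let `F` generate the relations between `x` (transcendental) and `y`, and let
`δ ∈ K[X]`, `δ ≠ 0`, be prime to the leading coefficient of `F` (in `K[x]`). Then `K[x, y] / (δ(x))`
has a `K`-basis with `deg δ · deg F` elements.

Proof. `Λ = K[x, y]` is the image of `K[X][X]` under `P ↦ evA x y P`, with kernel `(F)`. Take
`u_{ab} = x^a y^b`, `a < deg δ`, `b < deg F` (numbered by `Fin (deg δ * deg F)`, e.g. with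
`finProdFinEquiv`). In `(K[X]/δ)[Y]` the leading coefficient of `F` is a unit, so `F` is a unit times a
monic polynomial of degree `deg F` (`F ≠ 0`). Span: divide the outer polynomial by it, then reduce the
coefficients modulo `δ`: i.e. for every `P : K[X][X]` there are `A, B` and `P₁` with
`P = A F + B (C δ) + P₁`, `P₁ = ∑_{a,b} c_ab X^a Y^b`. Independence: if
`∑ c_ab x^a y^b = δ(x) z'`, `z' = evA x y P`, then `∑ c_ab X^a Y^b - (C δ) P ∈ (F)`; modulo `δ` the
polynomial `∑ c_ab X^a Y^b` of outer degree `< deg F` is divisible by `F`, so it is zero modulo `δ`,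
and its coefficients have degree `< deg δ`, so it is zero. (If `deg δ = 0` both sides are trivial.) -/
def St_BAS : Prop := ∀ (K V : Type) [Field K] [Field V] [Algebra K V] (x y : V) (F : K[X][X])
  (δ : K[X]), Transcendental K x → Rel x y F → F ≠ 0 → δ ≠ 0 → IsCoprime δ F.leadingCoeff →
  ∃ u : Fin (δ.natDegree * F.natDegree) → V, (∀ i, u i ∈ Algebra.adjoin K {x, y}) ∧
    (∀ z ∈ Algebra.adjoin K {x, y}, ∃ c : Fin (δ.natDegree * F.natDegree) → K,
      ∃ z' ∈ Algebra.adjoin K {x, y}, z = ∑ i, c i • u i + aeval x δ * z') ∧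
    (∀ c : Fin (δ.natDegree * F.natDegree) → K,
      (∃ z' ∈ Algebra.adjoin K {x, y}, ∑ i, c i • u i = aeval x δ * z') → c = 0)

/-- [REL] Relations. If `x` is transcendental and `y` is algebraic over `K(x)` the ideal of
relations is generated by an irreducible polynomial `F` of positive outer degree; the outer degree
of `F` is `[K(x, y) : K(x)]`.

Proof. Let `m` be the minimal polynomial of `y` over `K(x)`; `K[X] → K[x]` is an isomorphism and
`K(x)` is the fraction field of `K[x]`. Clear denominators and divide by the content: a primitive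
`F : K[X][X]` whose image over `K(x)` is a multiple of `m`. `evA x y P = 0` iff `m` divides the image
of `P` over `K(x)` iff `F ∣ P` (Gauss, `F` primitive:
`Polynomial.IsPrimitive.dvd_of_fraction_map_dvd_fraction_map`). `F` is irreducible as `m` is
irreducible and `F` is primitive. The degree of `F` is that of `m`, which is
`[K(x)(y) : K(x)]`, and `K(x)(y) = K(x, y)`. -/
def St_REL : Prop := ∀ (K V : Type) [Field K] [Field V] [Algebra K V] (x y : V),
  Transcendental K x → IsAlgebraic (fld1 (K := K) x) y →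
  ∃ F : K[X][X], Irreducible F ∧ 0 < F.natDegree ∧ Rel x y F

/-- [RAT] Ratio of the degrees. Let `φ(x) = x₀`, `ψ(y) = y₀` with nonconstant polynomials, `x, y`
algebraically dependent, and let `F`, `G`, `h₁`, `h₂` generate the relations of `(x, y)`, `(y, x)`,
`(x₀, y₀)`, `(y₀, x₀)`. Then `deg F · deg φ · deg h₂ = deg G · deg ψ · deg h₁` (outer degrees).

Proof. Outer degrees are degrees of field extensions: `deg F = [K(x,y) : K(x)]`,
`deg G = [K(x,y) : K(y)]`, `deg h₁ = [K(x₀,y₀) : K(x₀)]`, `deg h₂ = [K(x₀,y₀) : K(y₀)]` (as in [REL]: the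
minimal polynomial over `K(x)` is `F` up to a unit; use `Rel`). `[K(x) : K(x₀)] = deg φ`
(`φ(X) - x₀` is the minimal polynomial of `x` over `K(x₀)` up to a unit, it is irreducible because it
is linear in `x₀`), `[K(y) : K(y₀)] = deg ψ`. Let `D = [K(x,y) : K(x₀,y₀)]` (finite). Then
`deg F · deg φ = [K(x,y) : K(x₀)] = D · deg h₁` and `deg G · deg ψ = D · deg h₂`. Multiply the first
by `deg h₂`, the second by `deg h₁`. -/
def St_RAT : Prop := ∀ (K V : Type) [Field K] [Field V] [Algebra K V] (x y x₀ y₀ : V)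
  (φ ψ : K[X]) (F G h₁ h₂ : K[X][X]), Transcendental K x → Transcendental K y →
  IsAlgebraic (fld1 (K := K) x) y → IsAlgebraic (fld1 (K := K) y) x →
  0 < φ.natDegree → 0 < ψ.natDegree → aeval x φ = x₀ → aeval y ψ = y₀ →
  F ≠ 0 → G ≠ 0 → h₁ ≠ 0 → h₂ ≠ 0 → Rel x y F → Rel y x G → Rel x₀ y₀ h₁ → Rel y₀ x₀ h₂ →
  F.natDegree * φ.natDegree * h₂.natDegree = G.natDegree * ψ.natDegree * h₁.natDegree

/-- [HL] The Hasse operator is a derivation modulo lower terms. Let `P = p ^ s`, let every element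
of `K` be `∑_a t^a w_a^P` with `w_a ∈ K` (`a ∈ [0, P)^n`), let the `t^a` be linearly independent over
`V^P`, let `D` be a derivation of `V` which maps `K` to `K`, and let `𝒟 : V → V` be additive with
`𝒟 (∑ t^a w_a^P) = ∑ t^a (D w_a)^P`. Let `x = x'^P` be transcendental over `K`, `y` separable algebraic
over `K(x)`, `L = K(x, y)`. Then there is a `K`-derivation `∂` of `L` with `∂ x = 1` such that
`𝒟 u - (∂ u) 𝒟 x ∈ L` for all `u ∈ L`.

Proof. `∂` exists: `d/dx` on `K(x)`, extended to the separable extension `L`. Let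
`N = {u ∈ L : u is a P-th power in V}`, a subfield of `L` containing `x` and the `P`-th powers of
elements of `L` (in particular `K^P`). (1) Every element of `L` is `∑ t^a u_a` with `u_a ∈ N`: the set
`M` of these sums is a subring of `L` (`t_j^P ∈ K^P ⊆ N`), contains `K` (hypothesis), `x` and
`L^P`; it is a field, as it is a ring which is finite dimensional over the field `N` (or: for
`0 ≠ z ∈ M`, `z⁻¹ = z^(P-1) / z^P` and `z^P ∈ N`). `L = K(x)(y)`, `y` separable over `K(x)`, so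
`K(x)(y) = K(x)(y^P) ⊆ M`. (2) For `u ∈ N` the monic minimal polynomial `m` of `u` over `K(x)` has its
coefficients in `K(x) ∩ N`: write the coefficients `m_k = ∑_a t^a m_{k,a}`, `m_{k,a} ∈ K(x) ∩ N` (as in
(1), for `K(x)` in place of `L`); from `m(u) = 0`, `u^k ∈ V^P` and the independence of the `t^a` over
`V^P`, `∑_k m_{k,0} u^k = 0`, a polynomial over `K(x)` of the same degree with leading coefficient
`1`, so it is `m`. (3) `K(x) ∩ N`: let `Δ = 𝒟 - (𝒟 x) ∂` on `N`. On `P`-th powers `𝒟 (w^P) = (D w)^P`,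
so `𝒟` is a derivation on `N` (additive, and `D` is a derivation, Frobenius is a ring map), hence `Δ`
is a derivation `N → V`; `Δ x = 0`; for `z = w^P ∈ K^P`, `w ∈ K`: `∂ z = 0`, `𝒟 z = (D w)^P ∈ K`. For
`z ∈ K(x) ∩ N`: `z = A(x)/B(x) = A B^(P-1)(x) / B(x)^P`, and writing the coefficients of `A B^(P-1)` as
`∑ t^a (..)` and comparing (independence), `z = C(x) / B(x)^P` with `C` having coefficients in `K^P`, and
`B(x)^P` is a polynomial in `x^P` with coefficients in `K^P`; so `Δ z ∈ K(x) ⊆ L`. (4) For `u ∈ N`,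
`m(u) = 0` gives `m^Δ(u) + m'(u) Δ u = 0`, `m'(u) ≠ 0` (`u` is separable over `K(x)`), so `Δ u ∈ L`. (5) For
`u = ∑ t^a u_a ∈ L`: `𝒟 u = ∑ t^a 𝒟 u_a = ∑ t^a ((∂ u_a) 𝒟 x + Δ u_a) = (∂ u) 𝒟 x + ∑ t^a Δ u_a`. -/
def St_HL : Prop := ∀ (p : ℕ) [Fact p.Prime] (K V : Type) [Field K] [Field V] [Algebra K V]
  [CharP K p] (n s : ℕ) (t : Fin n → K) (D : Derivation ℤ V V) (𝒟 : V →+ V) (x x' y : V),
  (∀ z : K, ∃ w : (Fin n → Fin (p ^ s)) → K, z = ∑ a, tm t a * w a ^ (p ^ s)) →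
  (∀ w : (Fin n → Fin (p ^ s)) → V, ∑ a, algebraMap K V (tm t a) * w a ^ (p ^ s) = 0 → w = 0) →
  (∀ z : K, ∃ z' : K, D (algebraMap K V z) = algebraMap K V z') →
  (∀ w : (Fin n → Fin (p ^ s)) → V, 𝒟 (∑ a, algebraMap K V (tm t a) * w a ^ (p ^ s)) =
    ∑ a, algebraMap K V (tm t a) * (D (w a)) ^ (p ^ s)) →
  x = x' ^ (p ^ s) → Transcendental K x → IsSeparable (fld1 (K := K) x) y →
  ∃ d : Derivation K (fld (K := K) x y) (fld (K := K) x y),
    (∀ x₁ : fld (K := K) x y, (x₁ : V) = x → d x₁ = 1) ∧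
    ∀ u : fld (K := K) x y, ∃ lam : fld (K := K) x y, 𝒟 (u : V) = (d u : V) * 𝒟 x + lam

/-- [OM] The form `ω`. Let `d` be a `K`-derivation of `L = K(x, y)` with `d x = 1` and
`ν · d y = δ(x) δ'`, `ν, δ' , δ(x) ≠ 0`, `𝒟` additive with `𝒟 u - (d u) 𝒟 x ∈ L` for `u ∈ L`, `s ∈ K[Y]`
such that `s(y) x` is integral over `K[y]`, `𝒟` preserves `Bd` (structure with respect to `y`).
Put `T = 𝒟 y`. There are `n₁ ∈ K[x, y]`, `lam ∈ L` and `m` such that `(n₁ / δ) T + lam` is bounded and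
`n₁ - s(y)^(m+1) ν ∈ δ K[x, y]`.

Proof. Let `S = s(y)`, `S' = s'(y)`, `x̃ = S x`. `x̃ ∈ Bd` (`int_Bd`, coefficients in `K[y] ⊆ Bd`), so
`𝒟 x̃ ∈ Bd`. `δ'(x, y)` is a polynomial in `x, y`; for large `m`, `S^m δ'(x, y)` is a polynomial in
`x̃, y` (and `S`), so it is bounded. `ω := S^m δ' 𝒟 x̃ ∈ Bd`. `𝒟 y = (d y) 𝒟 x + lam₁` and
`d y = δ δ' / ν ≠ 0`, so `𝒟 x = (ν / (δ δ')) (T - lam₁)`. `d x̃ = S + x S' d y = S + x S' δ δ' / ν`.
`𝒟 x̃ = (d x̃) 𝒟 x + lam₂ = ((S ν + x S' δ δ') / (δ δ')) (T - lam₁) + lam₂`. So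
`ω = (n₁ / δ) (T - lam₁) + S^m δ' lam₂` with `n₁ = S^(m+1) ν + δ δ' x S' S^m ∈ K[x, y]`. -/
def St_OM : Prop := ∀ (K V : Type) [Field K] [Field V] [Algebra K V] (x y : V) (St : Str K V y)
  (s δ : K[X]) (δ' ν : K[X][X]) (𝒟 : V →+ V)
  (d : Derivation K (fld (K := K) x y) (fld (K := K) x y)) (x₁ y₁ : fld (K := K) x y),
  (x₁ : V) = x → (y₁ : V) = y → d x₁ = 1 →
  evA x y ν * (d y₁ : V) = aeval x δ * evA x y δ' →
  aeval x δ ≠ 0 → evA x y δ' ≠ 0 → evA x y ν ≠ 0 →
  (∀ u : fld (K := K) x y, ∃ lam : fld (K := K) x y, 𝒟 (u : V) = (d u : V) * 𝒟 x + lam) →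
  (∃ G : K[X][X], G.Monic ∧ evA y (aeval y s * x) G = 0) →
  (∀ z ∈ St.Bd, 𝒟 z ∈ St.Bd) →
  ∃ (m : ℕ) (n₁ lam z : V), n₁ ∈ Algebra.adjoin K {x, y} ∧ z ∈ Algebra.adjoin K {x, y} ∧
    lam ∈ fld (K := K) x y ∧ n₁ = (aeval y s) ^ (m + 1) * evA x y ν + aeval x δ * z ∧
    n₁ / aeval x δ * 𝒟 y + lam ∈ St.Bd

/-- [S1] Step 1. `H(x, y) = 0`, `F` generates the relations of `(x, y)`, `∂H/∂y = - ν` and
`∂H/∂x = δ δ'` as polynomials, `G` a nonzero relation between `y` (inner) and `x` (outer), its leading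
coefficient divides `s`; `δ` is prime to the leading coefficient of `F`; `F, δ, s ν` generate the unit
ideal; `deg G < deg δ · deg F`. `𝒟` is additive, preserves the bounded elements of the structure with
respect to `y`, `𝒟 y ∈ Gr 1`, and satisfies the conclusion of [HL]. Then `𝒟 x` is algebraic over
`K(x, y)`.

Proof. `d y` for the derivation `d` of [HL]: applying `d` to `H(x, y) = 0`:
`H_X + H_Y d y = 0`, so `ν d y = δ δ'` at `(x, y)`. `s(y) x` is integral over `K[y]`: `G(y, x) = 0` has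
leading coefficient dividing `s(y)`; so there is a monic `G₁` of the same degree `β = deg G` with
`evA y (s(y) x) G₁ = 0`. By [OM] get `n₁, lam, m, z`. Apply [S1C] with `Y = y`, `Λ = K[x, y]`,
`L = K(x, y)` (`.toSubfield`), `x = x̃ = s(y) x`, `δ = δ(x)`, `T = 𝒟 y`, `β = deg G`,
`d = deg δ · deg F` and the basis of [BAS]. The hypotheses: `(y)` is transcendental: `y` is algebraic
over `K(x)` and conversely `x` over `K(y)` (`G ≠ 0`), `x` transcendental. `hL`: `K(y)[x̃] = ⊕_{j<β} K(y) x̃^j` is a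
field containing `x, y`. Powers of `s(y)` multiply `K[x, y]` into `K[y, x̃]`. `s(y)` and `n₁` are units
modulo `δ(x)` in `K[x, y]`: evaluate `a F + b (C δ) + c s ν = 1` at `(x, y)`:
`b δ + c s ν = 1`; so `s` and `ν` are units modulo `δ`, and `n₁ ≡ s^(m+1) ν`. `T ∈ Bd`: `y ∈ Bd`.
Conclusion: `T = 𝒟 y` is algebraic over `L`; `𝒟 y = (d y) 𝒟 x + lam₁` with `d y ≠ 0`, so `𝒟 x` is
algebraic over `L`. -/
def St_S1 : Prop := ∀ (K V : Type) [Field K] [Field V] [Algebra K V] (x y : V) (St : Str K V y)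
  (H F G δ' ν a b c : K[X][X]) (s δ : K[X]) (𝒟 : V →+ V),
  Transcendental K x → Transcendental K y →
  evA x y H = 0 → Rel x y F → F ≠ 0 → derivative H = -ν → dIn H = C δ * δ' →
  evA x y ν ≠ 0 → evA x y δ' ≠ 0 → δ ≠ 0 →
  evA y x G = 0 → G ≠ 0 → G.leadingCoeff ∣ s → IsCoprime δ F.leadingCoeff →
  a * F + b * C δ + c * (s.map C * ν) = 1 → G.natDegree < δ.natDegree * F.natDegree →
  (∀ z ∈ St.Bd, 𝒟 z ∈ St.Bd) → 𝒟 y ∈ St.Gr 1 →
  (∃ d : Derivation K (fld (K := K) x y) (fld (K := K) x y),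
    (∀ x₁ : fld (K := K) x y, (x₁ : V) = x → d x₁ = 1) ∧
    ∀ u : fld (K := K) x y, ∃ lam : fld (K := K) x y, 𝒟 (u : V) = (d u : V) * 𝒟 x + lam) →
  IsAlgebraic (fld (K := K) x y) (𝒟 x)

/-- [C1] A bounded element which is algebraic over `K(Z)` is integral over `K[Z]`.

Proof. Let `n = [K(Z, t) : K(Z)]` and `t~ = s(Z) t` integral over `K[Z]` (`s ≠ 0`), root of a monic
polynomial of degree `n` over `K[Z]` (`K[Z]` is integrally closed; or: clear denominators in the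
minimal polynomial). `t~ ∈ Bd`, `t~ ∈ Gr g` for some `g`. Suppose `t` is not integral over `K[Z]`. Then for
every `N` the elements `t, t^2, ..., t^N` are linearly independent over `K` modulo
`M0 = ⊕_{j<n} K[Z] t~^j`: otherwise a combination `∑_{k ≤ m} c_k t^k` with `c_m ≠ 0` (`m ≥ 1`) is in `M0`, whose
elements are integral over `K[Z]` (as `t~` is), so `t` is integral over `K[Z]` (monic equation with
integral coefficients). Apply [UB] with `e_j = t~^j`, `m_j = g j`, `W` = the `K`-span of all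
`v t^k`, `v ∈ K[Z, t~]`, `k : ℕ`; it is contained in `Bd`; each `t^k` is in `K(Z, t) = ⊕ K(Z) t~^j`. So
`N ≤ ∑_{j<n} g j` for all `N`. Contradiction. -/
def St_C1 : Prop := ∀ (K V : Type) [Field K] [Field V] [Algebra K V] (Z t : V)
  (S : Str K V Z), Transcendental K Z → t ∈ S.Bd → IsAlgebraic (fld1 (K := K) Z) t →
  ∃ Q : K[X][X], Q.Monic ∧ evA Z t Q = 0

/-- [C2] If `Z` is transcendental and `t` is integral over `K[Z]` there is a monic generator of the
relations.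

Proof. `K[X]` is integrally closed, so the minimal polynomial of `t` over `K(Z)` has coefficients in
`K[Z]` (`minpoly.isIntegrallyClosed_eq_field_fractions`); or: take the irreducible `F` of [REL]
(content one); it divides the monic `Q`, so its leading coefficient is a unit; normalise. -/
def St_C2 : Prop := ∀ (K V : Type) [Field K] [Field V] [Algebra K V] (Z t : V),
  Transcendental K Z → (∃ Q : K[X][X], Q.Monic ∧ evA Z t Q = 0) →
  ∃ Q : K[X][X], Q.Monic ∧ Irreducible Q ∧ Rel Z t Q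

/-- [TR] Transformation of the minimal polynomial of the derivative. Let `φ(x') = x`, `D` a derivation
of `V` which restricts to `d` on `K`, `Q`, `Q'` monic generators of the relations of `(x, D x)` and
`(x', D x')`. Then `deg Q' ≤ deg Q` if `φ' ≠ 0`, and if the degrees are equal,
`Q(φ(X), φ'(X) T + φ^d(X)) = φ'(X)^m Q'(X, T)`.

Proof. `D x = D (φ(x')) = φ'(x') D x' + φ^d(x')`, `φ^d = mapD d φ`. So
`P := Q(φ(X), φ' T + φ^d)` vanishes at `(x', D x')`, hence `Q' ∣ P`. If `φ' ≠ 0`, `P` has outer degree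
`m = deg Q` and leading coefficient `φ'^m` (`Q` is monic), in particular `P ≠ 0`, so
`deg Q' ≤ m`; if `deg Q' = m` then `P = C r Q'` and comparing leading coefficients `r = φ'^m`. If
`φ' = 0` and the degrees are equal: `P` has outer degree `0` and is divisible by `Q'`, of positive
degree (`m ≥ 1` as `x` is transcendental, `Q` monic, `Q ∣ Q`), so `P = 0 = φ'^m Q'`. -/
def St_TR : Prop := ∀ (K V : Type) [Field K] [Field V] [Algebra K V] (x x' : V) (φ : K[X])
  (D : Derivation ℤ V V) (d : Derivation ℤ K K) (Q Q' : K[X][X]),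
  (∀ z : K, D (algebraMap K V z) = algebraMap K V (d z)) →
  Transcendental K x → Transcendental K x' → aeval x' φ = x →
  Q.Monic → Q'.Monic → Rel x (D x) Q → Rel x' (D x') Q' →
  (derivative φ ≠ 0 → Q'.natDegree ≤ Q.natDegree) ∧
  (Q'.natDegree = Q.natDegree →
    (Q.map (compRingHom φ)).comp (C (derivative φ) * X + C (mapD d φ)) =
      C (derivative φ ^ Q.natDegree) * Q')

/-- [SEP] Separability. `Q` a monic generator of the relations between `x` and `D_i x`; the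
elements of `K` killed by all `d_j` are `p`-th powers. Then `∂Q/∂T ≠ 0`.

Proof. Suppose `derivative Q = 0`. Let `t = D_i x`, `j` any index. Apply `D_j` to `Q(x, t) = 0`:
`Q^{d_j}(x, t) + Q_X(x, t) D_j x + Q_T(x, t) D_j t = 0`, and the last term is zero; here `Q^{d_j}` is
obtained by applying `d_j` to the coefficients in `K`, `Q_X = dIn Q`. For `j = i`:
the polynomial `Q^{d_i} + T Q_X` vanishes at `(x, t)`; the exponents of `T` in `Q` are multiples of
`p` (`derivative Q = 0`, characteristic `p`), so those in `Q^{d_i}`, `Q_X` are also, and as `Q` is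
monic they are `< deg Q`, so `≤ deg Q - p`; so `Q^{d_i} + T Q_X` has outer degree `< deg Q` and it is
divisible by `Q` (Rel), so it is zero. Comparing exponents modulo `p`: `Q^{d_i} = 0` and `Q_X = 0`.
For all `j`: `Q^{d_j}(x, t) = 0`, degree `< deg Q`, so `Q^{d_j} = 0`. So all coefficients of `Q` (in `K`) are killed by
all `d_j`, hence are `p`-th powers, and `Q` is a polynomial in `X^p` and `T^p`. So `Q = Q₀^p` with
`Q₀ ∈ K[X][T]`, and `Q₀` has positive degree (as `deg Q > 0`: `x` is transcendental). `evA x t Q₀ = 0`, so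
`Q ∣ Q₀`, impossible by degrees. -/
def St_SEP : Prop := ∀ (p : ℕ) [Fact p.Prime] (K V : Type) [Field K] [Field V] [Algebra K V]
  [CharP K p] (n : ℕ) (D : Fin n → Derivation ℤ V V) (d : Fin n → Derivation ℤ K K) (x : V)
  (i : Fin n) (Q : K[X][X]),
  (∀ j, ∀ z : K, D j (algebraMap K V z) = algebraMap K V (d j z)) →
  (∀ z : K, (∀ j, d j z = 0) → ∃ w, z = w ^ p) →
  Transcendental K x → Q.Monic → Rel x (D i x) Q → derivative Q ≠ 0

/-- [CR] Let `Q : K[X][T]` be irreducible with `∂Q/∂T ≠ 0`, and monic of degree `m`. If for infinitely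
many `v` in a field extension `Q(v, T)` is the `m`-th power of a monic linear polynomial then `m ≤ 1`.

Proof. Over `K(X)` the polynomial `Q` is irreducible (monic, Gauss) and does not divide
`derivative Q ≠ 0`, so they are coprime: there are `A, B ∈ K[X][T]` and `0 ≠ r ∈ K[X]` with
`A Q + B Q_T = C r` (or use the resultant, `resultant_ne` in Helper11.SP.Gap). If `m ≥ 2` then for such
`v` the element `a` is a common root of `Q(v, T) = (T - a)^m` and of its derivative, so `r(v) = 0` for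
infinitely many `v`. Contradiction. -/
def St_CR : Prop := ∀ (K E : Type) [Field K] [Field E] [Algebra K E] (Q : K[X][X]),
  Irreducible Q → Q.Monic → derivative Q ≠ 0 →
  {v : E | ∃ a : E, Q.map ((aeval v : K[X] →ₐ[K] E) : K[X] →+* E) = (X - C a) ^ Q.natDegree}.Infinite
  → Q.natDegree ≤ 1

/-- [CV] Critical orbit. `Q`, `Q'` monic of the same degree `m`,
`Q(φ(X), φ'(X) T + A(X)) = φ'(X)^m Q'(X, T)`, `φ' ≠ 0`, and `c` a zero of `φ'` in an extension. Then
`Q(φ(c), U) = (U - A(c))^m`.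

Proof. Write `Q' = ∑_{l ≤ m} C q_l T^(m-l)`, `q_0 = 1`. The polynomial identity, with
`φ' T + A = U`, gives `Q(φ(X), U) = ∑_l C (q_l φ'^l) (U - A)^(m-l)`: both sides become equal after the
substitution `U = φ' T + A`, and this substitution is injective on `K[X][U]` (`φ' ≠ 0`). Evaluate the
coefficients at `X = c`: only `l = 0` survives. -/
def St_CV : Prop := ∀ (K E : Type) [Field K] [Field E] [Algebra K E] (φ A : K[X])
  (Q Q' : K[X][X]) (c : E), Q.Monic → Q'.Monic → Q'.natDegree = Q.natDegree → derivative φ ≠ 0 →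
  (Q.map (compRingHom φ)).comp (C (derivative φ) * X + C A) =
    C (derivative φ ^ Q.natDegree) * Q' →
  aeval c (derivative φ) = 0 →
  Q.map ((aeval (aeval c φ) : K[X] →ₐ[K] E) : K[X] →+* E) =
    (X - C (aeval c A)) ^ Q.natDegree

/-- [ETA] The functional equation. `f` monic of degree `p ^ r`, `r ≥ 1`, `f'` not constant,
`d` a derivation of `K`, `η_j ∈ K[X]` of degree `≤ 1` with
`η_j(f) = f' η_{j+1} + f^d` for all `j`. Then there is `κ` with `η_j = κ` for all `j` and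
`f^d = κ (1 - f')`.

Proof. `η_j = e_j + κ_j X`. The left side is `e_j + κ_j f`, the coefficient of `X^q` (`q = p^r`) is
`κ_j`. `deg f' ≤ q - 2` (the coefficient of `X^(q-1)` in `f'` is `q = 0`), so
`deg (f' η_{j+1}) ≤ q - 1`; `deg f^d ≤ q - 1` as `f` is monic and `d 1 = 0`. So `κ_j = 0`:
`e_j = e_{j+1} f' + f^d` for all `j`. Subtract the equations for `j` and `j + 1`:
`e_j - e_{j+1} = (e_{j+1} - e_{j+2}) f'`; `f'` is not constant, so `e_{j+1} = e_{j+2}` and then
`e_j = e_{j+1}`. -/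
def St_ETA : Prop := ∀ (p : ℕ) [Fact p.Prime] (K : Type) [Field K] [CharP K p] (r : ℕ) (f : K[X])
  (d : Derivation ℤ K K) (η : ℕ → K[X]), 1 ≤ r → f.Monic → f.natDegree = p ^ r →
  0 < (derivative f).natDegree → (∀ j, (η j).natDegree ≤ 1) →
  (∀ j, (η j).comp f = derivative f * η (j + 1) + mapD d f) →
  ∃ κ : K, (∀ j, η j = C κ) ∧ mapD d f = C κ * (1 - derivative f)

/-- [S2] Step 2. `f` monic of degree `p^r`, `f(x_{j+1}) = x_j`, all `x_j` transcendental, with bounded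
structures for all `x_j`, `D_i x_j` bounded and in `Gr 1`; `c` a zero of `f'` in an extension with
infinite orbit. If `D_i x_j` is algebraic over `K(x_j)` for one `j`, then there are `κ ∈ K`, `j₀` with
`D_i x_j = κ` for `j ≥ j₀` and `f^{d_i} = κ (1 - f')`.

Proof. Let `t_j = D_i x_j`. `t_j = f'(x_{j+1}) t_{j+1} + f^d(x_{j+1})`, `f' ≠ 0`. So `t_{j+1}` is algebraic
over `K(x_{j+1})` if `t_j` is algebraic over `K(x_j)`: all `t_j`, `j ≥ j₁`, are algebraic. By [C1], [C2]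
there are monic irreducible generators `Q_j` of the relations of `(x_j, t_j)`, `j ≥ j₁`. By [TR] with
`φ = f` the degrees are nonincreasing, so constant `= m` for `j ≥ j₀ ≥ j₁`. For `i ≥ 1` let
`φ = itc f i` (`φ(x_{j₀+i}) = x_{j₀}`, `φ' = ∏_{l<i} f'(f^l) ≠ 0` and `φ'(c) = 0`): by [TR] and [CV],
`Q_{j₀}(f^i(c), U)` is the `m`-th power of a linear polynomial. The `f^i(c)` are pairwise distinct, so by
[SEP] and [CR] `m ≤ 1`, `m = 1` (`m ≥ 1` as `x_{j₀}` is transcendental). So for `j ≥ j₀`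
`Q_j = T - η_j(X)`, `t_j = η_j(x_j)`. `deg η_j ≤ 1`: otherwise, with `e X^D` the leading term, `D ≥ 2`:
`e = x_j^(-D) t_j - ∑_{l<D} e_l x_j^(l-D) ∈ Gr (1 - D) + Gr (-1) ⊆ Gr (-1)` (`x_j^(-1) ∈ Gr (-1)` is `Gr_inv`
for `b = X`), and `e ∈ Bd`, so `e = 0`. `η_j(f(X)) = f' η_{j+1} + f^d`: both sides agree at the
transcendental `x_{j+1}`. [ETA] applied to `η_{j₀ + j}` (`f'` is not constant: it is not zero and has a
zero `c`). -/
def St_S2 : Prop := ∀ (p : ℕ) [Fact p.Prime] (K V E : Type) [Field K] [Field V] [Field E]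
  [Algebra K V] [Algebra K E] [CharP K p] (n : ℕ) (D : Fin n → Derivation ℤ V V)
  (d : Fin n → Derivation ℤ K K) (r : ℕ) (f : K[X]) (x : ℕ → V) (St : ∀ j, Str K V (x j)) (c : E)
  (i : Fin n),
  (∀ j, ∀ z : K, D j (algebraMap K V z) = algebraMap K V (d j z)) →
  (∀ z : K, (∀ j, d j z = 0) → ∃ w, z = w ^ p) →
  1 ≤ r → f.Monic → f.natDegree = p ^ r → derivative f ≠ 0 →
  (∀ j, Transcendental K (x j)) → (∀ j, aeval (x (j + 1)) f = x j) →
  (∀ j, D i (x j) ∈ (St j).Bd ∧ D i (x j) ∈ (St j).Gr 1) →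
  aeval c (derivative f) = 0 → Function.Injective (fun m : ℕ => (fun z : E => aeval z f)^[m] c) →
  (∃ j, IsAlgebraic (fld1 (K := K) (x j)) (D i (x j))) →
  ∃ (κ : K) (j₀ : ℕ), (∀ j, j₀ ≤ j → D i (x j) = algebraMap K V κ) ∧
    mapD (d i) f = C κ * (1 - derivative f)

end Pool.Agent.NPC
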