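import Pool.Agent.NPC.Defs

/-!
# Statements, part B: place systems with derivations, Hasse operators, ultrapowers
-/

set_option autoImplicit false

namespace Pool.Agent.NPC

open Polynomial

/-- The base field `k = F_p(t_1, ..., t_n)` with the place `‖a‖ = 2 ^ (total degree)` and the
derivations `∂ / ∂ t_i`. -/
structure Base (p n : ℕ) (k L : Type) [Field k] [NormedField L] where
  /-- the variables -/
  t : Fin n → k
  /-- the polynomial ring -/
  A : Subring k
  /-- the place -/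
  φ : k →+* L
  /-- the derivations -/
  d : Fin n → Derivation ℤ k k
  tA : ∀ i, t i ∈ A
  frac : ∀ z : k, ∃ b ∈ A, b ≠ 0 ∧ b * z ∈ A
  icl : IsIntegrallyClosed A
  noe : IsNoetherianRing A
  one_le : ∀ a ∈ A, a ≠ 0 → 1 ≤ ‖φ a‖
  fin : ∀ M : ℝ, {a : k | a ∈ A ∧ ‖φ a‖ ≤ M}.Finite
  dt : ∀ i j, d i (t j) = if i = j then 1 else 0
  dA : ∀ i, ∀ a ∈ A, d i a ∈ A
  bd : ∀ i z, ‖φ (d i z)‖ ≤ ‖φ z‖
  span : ∀ z, ∃ w : (Fin n → Fin p) → k, z = ∑ a, tm t a * w a ^ p
  norm_t : ∀ i, ‖φ (t i)‖ = 2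

/-- [BSE] The base exists, and it is generic: `t` can be mapped to any algebraically independent
elements, `A` then goes to the ring generated by them.

Proof. `k = FractionRing (MvPolynomial (Fin n) (ZMod p))`, `A` = the image of
`MvPolynomial (Fin n) (ZMod p)`, a unique factorization domain, noetherian. `L` and `φ` on `A`:
`exists_degField` in `Pool.Agent.Helper55.DM.A` (`‖φ f‖ = 2 ^ totalDegree f` for `f ≠ 0`), `φ` is
injective on `A`, extend it to `k` (`IsFractionRing.lift`). `one_le` is clear, `fin` is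
`finite_totalDegree_le` in the same file. `d i` extends `MvPolynomial.pderiv i` (quotient rule,
e.g. `Derivation.liftOfSurjective`-free: define `D (a / b) = (b D a - a D b) / b ^ 2`, or use that the
localization is formally etale, or embed in another way). `bd`: for a polynomial `a` the total degree
of `pderiv i a` is smaller than that of `a` (or it is zero), so `‖φ (d a)‖ ≤ ‖φ a‖`; for
`z = a / b`: `‖b da - a db‖ ≤ ‖a‖ ‖b‖` (ultrametric). `span`: a monomial is `t^a (t^b)^p` times a constant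
`c = c^p`, `a ∈ [0, p)^n`; a polynomial is a sum of monomials, collect those with the same `a`
(`F_p`: `c^p = c`, Frobenius additive); `a / b = a b^(p-1) / b^p`. The last part: the ring map
`MvPolynomial → 𝕂` is injective for algebraically independent elements, extend it to `k`. -/
def St_BSE : Prop := ∀ (p : ℕ) [Fact p.Prime] (n : ℕ), ∃ (k L : Type) (_ : Field k)
  (_ : NormedField L) (_ : IsUltrametricDist L) (_ : IsAlgClosed L) (_ : CharP L p)
  (_ : CharP k p) (B : Base p n k L), ∀ (𝕂 : Type) [Field 𝕂] [Algebra (ZMod p) 𝕂]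
    (τ : Fin n → 𝕂), AlgebraicIndependent (ZMod p) τ →
    ∃ ψ : k →+* 𝕂, (∀ i, ψ (B.t i) = τ i) ∧
      (∀ a ∈ B.A, ψ a ∈ Algebra.adjoin (ZMod p) (Set.range τ)) ∧
      (∀ z ∈ Algebra.adjoin (ZMod p) (Set.range τ), ∃ a ∈ B.A, ψ a = z)

/-- [DX] Extension of derivations to separable algebraic extensions.

Proof. For a finite separable `K = k(θ)` with minimal polynomial `m`: `K = k[X]/(m)`, put
`D (P(θ)) = P^d(θ) - P'(θ) m^d(θ) / m'(θ)` (`P^d`: `d` applied to the coefficients). Well defined and a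
derivation. (Mathlib: separable algebraic extensions are formally etale,
`Algebra.FormallyEtale.of_isSeparable`; a derivation `d` gives the ring map `k → K[ε]`,
`z ↦ z + ε d z`, which lifts uniquely.) Only the finite dimensional case is needed. -/
def St_DX : Prop := ∀ (k K : Type) [Field k] [Field K] [Algebra k K] [FiniteDimensional k K]
  [Algebra.IsSeparable k K] (d : Derivation ℤ k k),
  ∃ D : Derivation ℤ K K, ∀ z : k, D (algebraMap k K z) = algebraMap k K (d z)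

/-- [SPN] A `p`-basis of `k` spans `K` over `K^p` when `K / k` is separable algebraic.

Proof. Let `M` be the set of all `∑_a t^a w_a^p`, `w_a ∈ K`. It is a subring of `K` (`t_j^p` is a `p`-th
power; Frobenius is additive) which contains `k` and `K^p`, and a field: `z⁻¹ = z^(p-1) (z⁻¹)^p`. For
`z ∈ K`, separable over `k`: `k(z) = k(z^p) ⊆ M`. -/
def St_SPN : Prop := ∀ (p : ℕ) [Fact p.Prime] (k K : Type) [Field k] [Field K] [Algebra k K]
  [CharP k p] [Algebra.IsSeparable k K] (n : ℕ) (t : Fin n → k),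
  (∀ z : k, ∃ w : (Fin n → Fin p) → k, z = ∑ a, tm t a * w a ^ p) →
  ∀ z : K, ∃ w : (Fin n → Fin p) → K, z = ∑ a, tm (fun i => algebraMap k K (t i)) a * w a ^ p

/-- [KER] Elements killed by all derivations are `p`-th powers.

Proof. For one index `i` let `E_i z = ∑_{k<p} (-1)^k / k! · t_i^k D_i^k z`. For `z = t^a w^p`:
`D_i^k z = a_i (a_i - 1) ... (a_i - k + 1) t_i^(-k) z`, so
`E_i z = (∑_{k < p} (-1)^k binom(a_i, k)) z`, which is `0` if `a_i ≥ 1` and `z` if `a_i = 0`. If all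
`D_i z = 0` then `E_i z = z` for all `i`; on the other hand applying `E_1, ..., E_n` one after the other to
`z = ∑ t^a w_a^p` leaves only `w_0^p`. -/
def St_KER : Prop := ∀ (p : ℕ) [Fact p.Prime] (K : Type) [Field K] [CharP K p] (n : ℕ)
  (t : Fin n → K) (D : Fin n → Derivation ℤ K K), (∀ i j, D i (t j) = if i = j then 1 else 0) →
  (∀ z, ∃ w : (Fin n → Fin p) → K, z = ∑ a, tm t a * w a ^ p) →
  ∀ z, (∀ i, D i z = 0) → ∃ w, z = w ^ p

/-- [BDA] A derivation which is bounded on `k` is bounded on the elements of a finite separable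
extension which are `≤ 1` at all places.

Proof. `K = k(θ)`, `N = [K : k]`, the `N` embeddings `τ : K →ₐ[k] L` send `θ` to distinct elements.
`u = ∑_{a<N} u_a θ^a`, `u_a ∈ k`, `τ u = ∑ u_a (τ θ)^a`; solving this Vandermonde system the `u_a` (in `L`) are
fixed `L`-linear combinations of the `τ u`, so `‖u_a‖ ≤ C₁`. `D u = ∑ (d u_a) θ^a + u_a D(θ^a)`, so
`‖τ (D u)‖ ≤ max ( ‖d u_a‖ ‖τ θ‖^a, ‖u_a‖ ‖τ (D θ^a)‖ ) ≤ C`. -/
def St_BDA : Prop := ∀ (k K L : Type) [Field k] [Field K] [NormedField L] [IsUltrametricDist L]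
  [IsAlgClosed L] [Algebra k K] [Algebra k L] [FiniteDimensional k K] [Algebra.IsSeparable k K]
  (d : Derivation ℤ k k) (D : Derivation ℤ K K),
  (∀ z : k, D (algebraMap k K z) = algebraMap k K (d z)) →
  (∀ z : k, ‖algebraMap k L (d z)‖ ≤ ‖algebraMap k L z‖) →
  ∃ C : ℝ, ∀ u : K, (∀ τ : K →ₐ[k] L, ‖τ u‖ ≤ 1) → ∀ τ : K →ₐ[k] L, ‖τ (D u)‖ ≤ C

/-- [BDV] A derivation which is bounded on `k` is bounded at every place of a finite separable
extension.

Proof. Let `C` be as in [BDA], `C ≥ 1`. First let `z ∈ K`, `0 < ‖τ z‖ ≤ 1` for the given `τ`. There is a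
nonzero polynomial `∑_k c_k z^k = 0` over `k`; dividing by a coefficient of largest norm we may assume
`max ‖c_k‖ = 1`. Let `k` be the LARGEST index with `‖c_k‖ = 1`, and `b_j = c_j / c_k`: `‖b_j‖ ≤ 1`, and `< 1` for
`j > k`. Put `Y = 1 + ∑_{j>k} b_j z^(j-k)`, `X = ∑_{j<k} b_j z^(j-k+1)` (exponents `≤ 0`); then
`Y + X z⁻¹ = 0`, so `X = - Y z`. `‖τ Y‖ = 1` as `‖τ z‖ ≤ 1`. For every embedding `τ'`: if `‖τ' z‖ ≤ 1` then
`‖τ' Y‖ ≤ 1` and `‖τ' X‖ = ‖τ' Y‖ ‖τ' z‖ ≤ 1`; if `‖τ' z‖ > 1` then `‖τ' X‖ ≤ 1` and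
`‖τ' Y‖ = ‖τ' X‖ / ‖τ' z‖ ≤ 1`. So [BDA] applies to `X` and `Y`: `‖τ (D X)‖, ‖τ (D Y)‖ ≤ C`. `z = - X / Y`,
`D z = - (Y D X - X D Y) / Y^2`, so `‖τ (D z)‖ ≤ C`. In general choose an integer `m` with
`2^(m-1) < ‖τ z‖ ≤ 2^m`, `z = t^m z'` with `‖t‖ = 2`: `1/2 < ‖τ z'‖ ≤ 1`,
`D z = t^m D z' + z' d(t^m)`, `‖d (t^m)‖ ≤ ‖t^m‖ = 2^m`, so `‖τ (D z)‖ ≤ C 2^m ≤ 2 C ‖τ z‖`. -/
def St_BDV : Prop := ∀ (k K L : Type) [Field k] [Field K] [NormedField L] [IsUltrametricDist L]
  [IsAlgClosed L] [Algebra k K] [Algebra k L] [FiniteDimensional k K] [Algebra.IsSeparable k K]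
  (d : Derivation ℤ k k) (D : Derivation ℤ K K) (t : k),
  (∀ z : k, D (algebraMap k K z) = algebraMap k K (d z)) →
  (∀ z : k, ‖algebraMap k L (d z)‖ ≤ ‖algebraMap k L z‖) → ‖algebraMap k L t‖ = 2 →
  ∃ C : ℝ, ∀ (u : K) (τ : K →ₐ[k] L), ‖τ (D u)‖ ≤ C * ‖τ u‖

/-- [INT] The integral closure `R` of `A` in a finite separable extension `K` of `k = Frac A`: fractions, integrally
closed, and derivations have bounded denominators.

Proof. `R` is a finite `A`-module (`IsIntegralClosure.finite`: `A` integrally closed noetherian, `K / k`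
finite separable), generated by `e_1, ..., e_m`. Every `z ∈ K` is algebraic over `k`, so `b z ∈ R` for some
`0 ≠ b ∈ A`. Let `0 ≠ s ∈ A` with `s D(e_j) ∈ R` for all `j`. For `z = ∑ a_j e_j`, `a_j ∈ A`:
`s D z = ∑ (s d(a_j) e_j + a_j s D e_j) ∈ R`. A root in `K` of a monic polynomial with coefficients in
`R` is integral over `A`. -/
def St_INT : Prop := ∀ (k K : Type) [Field k] [Field K] [Algebra k K] [FiniteDimensional k K]
  [Algebra.IsSeparable k K] (A : Subring k), IsIntegrallyClosed A → IsNoetherianRing A →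
  (∀ z : k, ∃ b ∈ A, b ≠ 0 ∧ b * z ∈ A) →
  ∃ R : Subring K, (∀ z : K, z ∈ R ↔ ∃ P : k[X], P.Monic ∧ (∀ i, P.coeff i ∈ A) ∧ aeval z P = 0) ∧
    (∀ a ∈ A, algebraMap k K a ∈ R) ∧ (∀ z : K, ∃ s ∈ R, s ≠ 0 ∧ s * z ∈ R) ∧
    (∀ (P : K[X]) (z : K), P.Monic → (∀ i, P.coeff i ∈ R) → P.eval z = 0 → z ∈ R) ∧
    (∀ (n : ℕ) (d : Fin n → Derivation ℤ k k) (D : Fin n → Derivation ℤ K K),
      (∀ i, ∀ a ∈ A, d i a ∈ A) →
      (∀ i, ∀ z : k, D i (algebraMap k K z) = algebraMap k K (d i z)) →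
      ∃ s ∈ R, s ≠ 0 ∧ ∀ i, ∀ z ∈ R, s * D i z ∈ R)

/-- [NOR] Northcott and Liouville for the integral closure.

Proof. Let `N = [K : k]`, `u ∈ R` (integral over `A`). The characteristic polynomial
`χ = ∏_τ (X - τ u)` (over all `τ : K →ₐ[k] L`) has its coefficients in `A` (mapped to `L`): it is
the image of the characteristic polynomial of `u` over `k`, whose coefficients are in `k` and integral over the
integrally closed `A` (a power of the minimal polynomial). If all `‖τ u‖ ≤ M` (`M ≥ 1`) the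
coefficients have norm `≤ M^N`, so there are finitely many possibilities for `χ` (`hfin`), and `u` is a root of
its preimage over `k` (embeddings are injective), so finitely many `u`. If `u ≠ 0`, `∏_τ ‖τ u‖` is the norm of the constant coefficient, which
is a nonzero element of `A`, so `≥ 1`: `1 ≤ ‖τ u‖ ∏_{τ' ≠ τ} ‖τ' u‖ ≤ ‖τ u‖ M^N`. (Compare with the proof of
`exists_places_aux` in `Pool.Agent.Helper55.DM.A`.) -/
def St_NOR : Prop := ∀ (k K L : Type) [Field k] [Field K] [NormedField L] [IsUltrametricDist L]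
  [IsAlgClosed L] [Algebra k K] [Algebra k L] [FiniteDimensional k K] [Algebra.IsSeparable k K]
  (A : Subring k), IsIntegrallyClosed A → (∀ z : k, ∃ b ∈ A, b ≠ 0 ∧ b * z ∈ A) →
  (∀ a ∈ A, a ≠ 0 → 1 ≤ ‖algebraMap k L a‖) →
  (∀ M : ℝ, {a : k | a ∈ A ∧ ‖algebraMap k L a‖ ≤ M}.Finite) →
  (∀ M : ℝ, {u : K | (∃ P : k[X], P.Monic ∧ (∀ i, P.coeff i ∈ A) ∧ aeval u P = 0) ∧
    ∀ τ : K →ₐ[k] L, ‖τ u‖ ≤ M}.Finite) ∧
  ∃ N : ℕ, ∀ u : K, (∃ P : k[X], P.Monic ∧ (∀ i, P.coeff i ∈ A) ∧ aeval u P = 0) → u ≠ 0 →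
    ∀ (τ : K →ₐ[k] L) (M : ℝ), 1 ≤ M → (∀ τ' : K →ₐ[k] L, ‖τ' u‖ ≤ M) → 1 ≤ ‖τ u‖ * M ^ N

/-- [EMB] Finitely many elements of an algebraically closed field of characteristic `p` are integral over
`F_p[τ]` and separable over `F_p(τ)` for suitable algebraically independent `τ_1, ..., τ_n`.

Proof. The ring `F_p[B]` generated by the finite set `B` is finite over a polynomial ring
`F_p[ρ_1, ..., ρ_n]` (Noether normalization, `exists_finite_inj_algHom_of_fg`), `ρ_i ∈ F_p[B]`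
algebraically independent. For `z ∈ B` algebraic over `F = F_p(ρ)` there is `m` with `z^(p^m)` separable over
`F`; take one `m` for all `z ∈ B`. Let `τ_i` be the `p^m`-th root of `ρ_i` in `𝕂`. They are algebraically
independent. `z` is integral over `F_p[ρ] ⊆ F_p[τ]`. The minimal polynomial of `z^(p^m)` over
`F_p(ρ) = (F_p(τ))^(p^m)` is separable; taking `p^m`-th roots of its coefficients we get a separable
polynomial over `F_p(τ)` with root `z` (the inverse of Frobenius is an isomorphism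
`F_p(ρ) → F_p(τ)` which maps `z^(p^m)` to `z`). -/
def St_EMB : Prop := ∀ (p : ℕ) [Fact p.Prime] (𝕂 : Type) [Field 𝕂] [IsAlgClosed 𝕂]
  [Algebra (ZMod p) 𝕂] (B : Set 𝕂), B.Finite → ∃ (n : ℕ) (τ : Fin n → 𝕂),
  AlgebraicIndependent (ZMod p) τ ∧
  ∀ z ∈ B, IsIntegral (Algebra.adjoin (ZMod p) (Set.range τ)) z ∧
    IsSeparable (IntermediateField.adjoin (ZMod p) (Set.range τ)) z

/-- [PL] Place systems exist.

Proof. [EMB] gives `τ`; [BSE] gives `k`, `L`, `Base` and `ψ : k → 𝕂`. Let `K = k(B) ⊆ 𝕂` (an intermediate field of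
`𝕂 / k` generated by finitely many separable elements), finite separable over `k`.
`I = (K →ₐ[k] L)`, `L` a `k`-algebra by `φ`. `D_i` from [DX], `R` from [INT], `span` from [SPN], `ker` from
[KER], `bD` from [BDV] (for `n = 0` there is nothing to do), `north`, `liou` from [NOR]. -/
def St_PL : Prop := ∀ (p : ℕ) [Fact p.Prime] (𝕂 : Type) [Field 𝕂] [IsAlgClosed 𝕂] [CharP 𝕂 p]
  (B : Set 𝕂), B.Finite → ∃ (K L : Type) (_ : Field K) (_ : NormedField L)
  (_ : IsUltrametricDist L) (_ : CharP K p) (_ : Algebra K 𝕂) (S : PS p K L),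
  ∀ z ∈ B, ∃ u ∈ S.R, algebraMap K 𝕂 u = z

/-- An additive operator which is bounded at all places and has bounded denominators. -/
def PS.good {p : ℕ} {K L : Type} [Field K] [NormedField L] (S : PS p K L) (T : K →+ K) : Prop :=
  (∃ C : ℝ, ∀ j z, ‖S.σ j (T z)‖ ≤ C * ‖S.σ j z‖) ∧
  ∀ c ∈ S.R, c ≠ 0 → ∃ b ∈ S.R, b ≠ 0 ∧ ∀ z, c * z ∈ S.R → b * T z ∈ S.R

/-- [GOD] Good operators: derivations, sums, compositions, multiplications by constants.

Proof. `D_i`: the bound is `bD`. If `c z ∈ R` then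
`D z = (c D(c z) - (c z) D c) / c^2`, and `s D(c z) ∈ R`, `s D c ∈ R` (`RD`), so `b = s c^2` works. Sums: the larger
constant, product of the denominators (ultrametric or triangle inequality). Composition `T' ∘ T`: if `c z ∈ R` then
`b (T z) ∈ R` and then `b' T'(T z) ∈ R`. Multiplication by `a ∈ K`: `a' a ∈ R` by `frac`. -/
def St_GOD : Prop := ∀ (p : ℕ) (K L : Type) [Field K] [NormedField L] [IsUltrametricDist L]
  (S : PS p K L), (∀ i, S.good (S.D i : K →+ K)) ∧
  (∀ T T' : K →+ K, S.good T → S.good T' → S.good (T + T')) ∧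
  (∀ T T' : K →+ K, S.good T → S.good T' → S.good (T'.comp T)) ∧
  (∀ a : K, S.good (AddMonoidHom.mulLeft a))

/-- [HB] The powers `t^a`, `a ∈ [0, p^s)^n`, are a basis of `K` over `K^(p^s)`.

Proof. `s = 0` is trivial. Independence for `s = 1`: if `∑_a t^a w_a^p = 0` let `a` be an index with
`w_a ≠ 0` with maximal `|a|`; apply `D^a = ∏ D_i^(a_i)` (derivations kill `p`-th powers): only the terms
`b ≥ a` survive, i.e. `b = a`, and give `a! w_a^p = 0`. From `s` to `s + 1`: every exponent in `[0, p^(s+1))` is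
`a + p^s a'` with `a < p^s`, `a' < p`; `∑_{a, a'} t^a t^(p^s a') w_{a,a'}^(p^(s+1)) =
∑_a t^a (∑_{a'} t^(a') w_{a,a'}^p)^(p^s)`. -/
def St_HB : Prop := ∀ (p : ℕ) [Fact p.Prime] (K L : Type) [Field K] [NormedField L] [CharP K p]
  (S : PS p K L) (s : ℕ),
  (∀ z : K, ∃ w : (Fin S.n → Fin (p ^ s)) → K, z = ∑ a, tm S.t a * w a ^ (p ^ s)) ∧
  (∀ w : (Fin S.n → Fin (p ^ s)) → K, ∑ a, tm S.t a * w a ^ (p ^ s) = 0 → w = 0)

/-- [HS] Hasse operators: for every `i` and `s` the additive map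
`𝒟 (∑_a t^a w_a^P) = ∑_a t^a (D_i w_a)^P`, `P = p^s`, is good.

Proof. By [HB] `𝒟` is well defined and additive (Frobenius). Claim(s): for every `a` there are a real `C` with
`‖σ w_a‖^P ≤ C ‖σ z‖` for all `z = ∑ t^a w_a^P` and all places, and for every `0 ≠ c ∈ R` there is `0 ≠ b ∈ R` with
`c z ∈ R → b w_a ∈ R`. Case `s = 1`: `w_a^p` is obtained from `z` by a good operator: for one index `i`
the operator `E_i = ∑_{k<p} ((-t_i)^k / k!) D_i^k` is the projection to the part without `t_i` (see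
[KER]), and `E_i ∘ (1/b!) D_i^b` gives the coefficient of `t_i^b`; compose over all `i`; these operators are
good by [GOD]. If `b w^p ∈ R` then `(b w)^p = b^(p-1) (b w^p) ∈ R`, so `b w ∈ R` (`Rint`). From `s` to `s + 1`: expand
`w_a = ∑ t^(a') w_{a,a'}^p`: `‖σ w_{a,a'}‖^(pP) ≤ (C ‖σ w_a‖)^P ≤ C' ‖σ z‖`, and denominators in the same way.
Now `‖σ (𝒟 z)‖ ≤ max_a ‖σ t^a‖ ‖σ (D_i w_a)‖^P ≤ C'' max_a ‖σ w_a‖^P`, and if `b w_a ∈ R` then
`b' D_i w_a ∈ R` by [GOD], so `b'^P (D_i w_a)^P ∈ R`. -/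
def St_HS : Prop := ∀ (p : ℕ) [Fact p.Prime] (K L : Type) [Field K] [NormedField L]
  [IsUltrametricDist L] [CharP K p] (S : PS p K L) (i : Fin S.n) (s : ℕ),
  ∃ T : K →+ K, S.good T ∧ ∀ w : (Fin S.n → Fin (p ^ s)) → K,
    T (∑ a, tm S.t a * w a ^ (p ^ s)) = ∑ a, tm S.t a * (S.D i (w a)) ^ (p ^ s)

/-- [UPX] Ultrapowers exist, additive maps and derivations extend to them.

Proof. `V = Filter.Germ (U : Filter ℕ) K` (`Filter.Germ.instField` in `Mathlib.Order.Filter.FilterProduct`),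
`gm u = ↑u`; the algebra structure by the constant germs. Additive maps act by `Filter.Germ.map`. Only the
interface `UP` is used later: given any `UP U K V`, define `T' (gm u) = gm (T ∘ u)`, well defined by `zero` and additivity. -/
def St_UPX : Prop :=
  (∀ (U : Ultrafilter ℕ) (K : Type) [Field K], ∃ (V : Type) (_ : Field V) (_ : Algebra K V),
    Nonempty (UP U K V)) ∧
  (∀ (U : Ultrafilter ℕ) (K V : Type) [Field K] [Field V] [Algebra K V] (up : UP U K V)
    (T : K →+ K), ∃ T' : V →+ V, ∀ u : ℕ → K, T' (up.gm u) = up.gm (fun n => T (u n))) ∧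
  (∀ (U : Ultrafilter ℕ) (K V : Type) [Field K] [Field V] [Algebra K V] (up : UP U K V)
    (d : Derivation ℤ K K), ∃ D : Derivation ℤ V V,
    ∀ u : ℕ → K, D (up.gm u) = up.gm (fun n => d (u n)))

/-- [GST] The bounded structure on an ultrapower. `z : ℕ → R` is bounded at the places outside `E`,
`≥ 1` everywhere and tends to infinity (along `U`) at the places of `E ≠ ∅`.

Proof. `Bd` and `Gr d` are defined by the right hand sides. Subring: product of the `s`, sums and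
products of bounds. `Gr_mono`: `1 ≤ ‖z‖`. `Gr_mul`: `zpow_add₀`. `Gr_inv`: let `b` have degree `m` and leading
coefficient `e ≠ 0`; `‖σ b(z_n)‖ = ‖σ e‖ ‖σ z_n‖^m` when `‖σ z_n‖` is large, for all `σ ∈ E`; represent
`(b(Z))⁻¹` by the sequence which is `b(z_n)⁻¹` for these `n` and `0` for the others. `int_Bd`: choose bounded
representatives `α_k` of the coefficients, `u` a representative of the root; for `U`-many `n`
`u_n` is a root of the monic polynomial with coefficients `α_k(n)`, for the other `n` put `u_n = 0`. If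
`s α_k(n) ∈ R` for all `k, n` then `s u_n` is a root of a monic polynomial with coefficients in `R`, so
`s u_n ∈ R` (`Rint`); `‖σ u_n‖ ≤ max (1, ‖σ α_k(n)‖)`. `int_Gr`: the same bound. `small`: let
`gm u = gm u'` with `u` bounded (`s u_n ∈ R`, `‖σ u_n‖ ≤ C` outside `E`) and `‖σ u'_n‖ ≤ C ‖σ z_n‖⁻¹` on `E`, not the
zero germ. For `U`-many `n`: `u_n = u'_n ≠ 0`, so `0 ≠ s u_n ∈ R` with all `‖σ (s u_n)‖ ≤ M` (`M ≥ 1` fixed),
and for `σ₀ ∈ E`, `1 ≤ ‖σ₀ (s u_n)‖ M^N ≤ C' M^N ‖σ₀ z_n‖⁻¹` (`liou`), impossible when `‖σ₀ z_n‖` is large. -/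
def St_GST : Prop := ∀ (p : ℕ) (K L V : Type) [Field K] [NormedField L] [IsUltrametricDist L]
  [Field V] [Algebra K V] (S : PS p K L) (U : Ultrafilter ℕ) (up : UP U K V) (E : Set S.I)
  (z : ℕ → K), E.Nonempty → (∀ n, z n ∈ S.R) →
  (∀ j, j ∉ E → ∃ C : ℝ, ∀ n, ‖S.σ j (z n)‖ ≤ C) →
  (∀ j ∈ E, (∀ n, 1 ≤ ‖S.σ j (z n)‖) ∧ ∀ M : ℝ, ∀ᶠ n in (U : Filter ℕ), M ≤ ‖S.σ j (z n)‖) →
  ∃ St : Str K V (up.gm z),
    (∀ w, w ∈ St.Bd ↔ ∃ u, up.gm u = w ∧ S.bdd E u) ∧
    (∀ d w, w ∈ St.Gr d ↔ ∃ u, up.gm u = w ∧ S.gr E z d u)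

/-- [ORB] Orbits at the places. `f` monic of degree `≥ 2` with coefficients in `R`, `x₀ ∈ R`, infinite
orbit. Then all `x_l ∈ R`, and there is a nonempty set `E` of places such that `x_l` is bounded at the
places outside `E` and tends to infinity at the places of `E`.

Proof. Let `M ≥ 1` be larger than all `‖σ c‖` for the coefficients `c` of `f` and all places. If `‖σ x_l‖ > M` then
`‖σ x_{l+1}‖ = ‖σ x_l‖^q ≥ ‖σ x_l‖^2` (the leading term dominates strictly), so it tends to infinity. `E` = the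
places where this happens for some `l`. `E` is not empty by `north`: otherwise all `x_l` are in a
finite set. -/
def St_ORB : Prop := ∀ (p : ℕ) (K L : Type) [Field K] [NormedField L] [IsUltrametricDist L]
  (S : PS p K L) (f : K[X]) (x : ℕ → K), f.Monic → 2 ≤ f.natDegree → (∀ i, f.coeff i ∈ S.R) →
  x 0 ∈ S.R → (∀ l, x (l + 1) = f.eval (x l)) → Function.Injective x →
  (∀ l, x l ∈ S.R) ∧ ∃ E : Set S.I, E.Nonempty ∧
    (∀ j, j ∉ E → ∃ C : ℝ, ∀ l, ‖S.σ j (x l)‖ ≤ C) ∧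
    (∀ j ∈ E, ∀ M : ℝ, ∃ l₀, ∀ l, l₀ ≤ l → M ≤ ‖S.σ j (x l)‖)

/-- [STO] The structure for an orbit and its powers. `x` as in the conclusion of [ORB], `U` a nonprincipal
ultrafilter, `e`, `i` natural numbers. There is a structure for the germ of
`x_{n-i}^e`, `e ≥ 1`, for which all extensions of good operators preserve `Bd` and all `Gr d`.

Proof. [GST] with `z_n = x_{max(n-i, l₁)}^e`, `l₁` such that `‖σ x_l‖ ≥ 1` for `l ≥ l₁`, `σ ∈ E` (finitely many
places, `S.fin`); the germ is that of `x_{n-i}^e`. If `T` is good and `u` satisfies `S.bdd E` or `S.gr E z d` then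
so does `T ∘ u`. -/
def St_STO : Prop := ∀ (p : ℕ) (K L V : Type) [Field K] [NormedField L] [IsUltrametricDist L]
  [Field V] [Algebra K V] (S : PS p K L) (U : Ultrafilter ℕ) (up : UP U K V) (E : Set S.I)
  (x : ℕ → K) (e i : ℕ), (U : Filter ℕ) ≤ Filter.cofinite → 1 ≤ e → E.Nonempty →
  (∀ l, x l ∈ S.R) →
  (∀ j, j ∉ E → ∃ C : ℝ, ∀ l, ‖S.σ j (x l)‖ ≤ C) →
  (∀ j ∈ E, ∀ M : ℝ, ∃ l₀, ∀ l, l₀ ≤ l → M ≤ ‖S.σ j (x l)‖) →
  ∃ St : Str K V (up.gm (fun n => x (n - i) ^ e)),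
    ∀ (T : K →+ K) (T' : V →+ V), S.good T →
      (∀ u : ℕ → K, T' (up.gm u) = up.gm (fun n => T (u n))) →
      (∀ w ∈ St.Bd, T' w ∈ St.Bd) ∧ ∀ d, ∀ w ∈ St.Gr d, T' w ∈ St.Gr d

end Pool.Agent.NPC
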