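import Pool.Agent.NPC.StA
import Pool.Agent.NPC.StB
import Pool.Agent.Helper79.DM.Defs

/-!
# Statements, part C: rounds, the good critical value, reductions
-/

set_option autoImplicit false

namespace Pool.Agent.NPC

open Polynomial Pool.Agent.Helper11.SP

/-- The polynomial `P(φ(X), ψ(Y))` (`X` is the inner variable). -/
noncomputable def sub2 {K : Type} [Field K] (φ ψ : K[X]) (P : K[X][X]) : K[X][X] :=
  (P.map (compRingHom φ)).comp (ψ.map C)

/-- The polynomial with the two variables exchanged. -/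
noncomputable abbrev swp {K : Type} [Field K] (P : K[X][X]) : K[X][X] := Bivariate.swap P

/-- `s` is a (separable) postcritical value of `g`: `g^i(X) = G(X^(p^e))`, `G' ≠ 0` and
`s = G(y)` with `G'(y) = 0`. -/
def Post {K : Type} [Field K] (p : ℕ) (E : Type) [Field E] [Algebra K E] (g : K[X]) (s : E) :
    Prop :=
  ∃ (i e : ℕ) (G : K[X]) (y : E), itc g i = expand K (p ^ e) G ∧ derivative G ≠ 0 ∧
    aeval y (derivative G) = 0 ∧ aeval y G = s

/-- The critical value `f^(i₀)(c)` is good for the curve `h = 0`. -/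
def Good {K : Type} [Field K] (p : ℕ) (E : Type) [Field E] [Algebra K E] (f g : K[X])
    (h : K[X][X]) (c : K) (i₀ : ℕ) : Prop :=
  1 ≤ i₀ ∧ (h.leadingCoeff).eval ((itc f i₀).eval c) ≠ 0 ∧
  ∀ s : E, evA (algebraMap K E ((itc f i₀).eval c)) s h = 0 →
    evA (algebraMap K E ((itc f i₀).eval c)) s (derivative h) ≠ 0 ∧
    aeval s (swp h).leadingCoeff ≠ 0 ∧ ¬ Post p E g s

/-- The polynomial `f` and the sequence `x` consist of `p^s`-th powers. -/
def Lv {K : Type} [Field K] (p : ℕ) (f : K[X]) (x : ℕ → K) (s : ℕ) : Prop :=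
  (∀ i, ∃ a, f.coeff i = a ^ (p ^ s)) ∧ ∀ l, ∃ a, x l = a ^ (p ^ s)

/-- [SB2] Rules for `sub2`.

Proof. Each of the three claims is additive in `P`; check it for `P = C q * X ^ k` (e.g. with
`Polynomial.induction_on'`), or use the chain rule `Polynomial.derivative_comp` and that
`derivative (C-coefficients)`: `dIn` is the derivation of `K[X][X]` which is `derivative` on `K[X]` and
kills the outer `X`. -/
def St_SB2 : Prop := ∀ (K V : Type) [Field K] [Field V] [Algebra K V] (φ ψ : K[X]) (P : K[X][X])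
  (x y : V), evA x y (sub2 φ ψ P) = evA (aeval x φ) (aeval y ψ) P ∧
  derivative (sub2 φ ψ P) = sub2 φ ψ (derivative P) * (derivative ψ).map C ∧
  dIn (sub2 φ ψ P) = C (derivative φ) * sub2 φ ψ (dIn P)

/-- [ITG] Iterates of `g = g₁(X^(p^e))`.

Proof. Induction on `i`: `itc g (i+1) = g.comp (itc g i) = g₁((G(X^(p^(e i))))^(p^e)) =
g₁(G^♯(X^(p^(e (i+1)))))` where `G^♯` has the coefficients of `G` to the power `p^e`
(characteristic `p`: `G(Z)^(p^e) = G^♯(Z^(p^e))`). So `G_{i+1} = g₁.comp G_i^♯`, its derivative is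
`(g₁'.comp G_i^♯) (G_i^♯)' ≠ 0` (`G_i^♯` is not constant: its degree is `(deg g₁)^i`; `deg g₁ ≥ 1` because
`g₁' ≠ 0`). -/
def St_ITG : Prop := ∀ (p : ℕ) [Fact p.Prime] (K : Type) [Field K] [CharP K p] (g g₁ : K[X])
  (e : ℕ), g = expand K (p ^ e) g₁ → derivative g₁ ≠ 0 → ∀ i, ∃ G : K[X],
  itc g i = expand K (p ^ (e * i)) G ∧ derivative G ≠ 0 ∧ G.natDegree = g₁.natDegree ^ i ∧
  (g.Monic → G.Monic)

/-- [PST] Postcritical values over an algebraically closed field are on finitely many orbits.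

Proof. Let `itc g i = expand (p^e') G`, `G' ≠ 0`. The representation of a polynomial as `G(X^(p^e'))` with
`G' ≠ 0` is unique, so `G = G_i` as constructed in the proof of [ITG]: `G_0 = X`, `G_{i+1} = g₁.comp G_i^♯`.
Induction on `i`: let `G_i'(y) = 0`; `i = 0` is impossible. `G_{i+1}'(y) = g₁'(G_i^♯(y)) (G_i^♯)'(y)`. If
`κ = G_i^♯(y)` is a zero of `g₁'` then `s = g₁(κ)`, `l = 0`. Otherwise `(G_i^♯)'(y) = 0`; `y = z^(p^e)`
(perfect field), `(G_i^♯)'(z^(p^e)) = (G_i'(z))^(p^e)`, so `G_i'(z) = 0` and by induction `G_i(z) = g^l(g₁(κ))`; then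
`s = g₁(G_i^♯(z^(p^e))) = g₁(G_i(z)^(p^e)) = g(G_i(z)) = g^(l+1)(g₁(κ))`. -/
def St_PST : Prop := ∀ (p : ℕ) [Fact p.Prime] (𝕂 : Type) [Field 𝕂] [IsAlgClosed 𝕂] [CharP 𝕂 p]
  (g g₁ : 𝕂[X]) (e : ℕ) (s : 𝕂), g = expand 𝕂 (p ^ e) g₁ → derivative g₁ ≠ 0 →
  Post p 𝕂 g s → ∃ (κ : 𝕂) (l : ℕ), (derivative g₁).eval κ = 0 ∧
    s = (itc g l).eval (g₁.eval κ)

/-- [UNI] Coprimality at a good critical value. `δ = f^(i-i₀) - c`, `F` divides
`h(f^i(X), G(Y))`, `g^i(X) = G(X^(p^e'))`.

Proof. Let `v = f^(i₀)(c)`. The leading coefficient of `H = sub2 (itc f i) G h` is a nonzero constant times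
`h.leadingCoeff.comp (itc f i)` (`G` is not constant, `h.leadingCoeff.comp (itc f i) ≠ 0`), and
`F.leadingCoeff` divides it. If `x ∈ 𝕂` is a common zero of `δ` and `F.leadingCoeff`,
`f^i(x) = f^(i₀)(f^(i-i₀)(x)) = v`, so `h.leadingCoeff` vanishes at `v`, excluded by `Good`. No common zero in the
algebraically closed `𝕂`: coprime over `𝕂`, hence over `K`. Second claim: suppose
`F`, `C δ` and `S ν` (`S = (swp h).leadingCoeff (G(Y))`, `ν = - h_Y(f^i(X), G(Y)) G'(Y)`) have a common zero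
`(x, y) ∈ 𝕂²` . Then `h(v, s) = 0` with `s = G(y)`, so by `Good` `h_Y(v, s) ≠ 0`,
`(swp h).leadingCoeff(s) ≠ 0` and `s` is not postcritical, so `G'(y) ≠ 0`; so `S ν ≠ 0` at `(x, y)`. So there is
no common zero, and by the Nullstellensatz (`𝕂[X][Y]` is a finitely generated algebra, maximal ideals have residue
field `𝕂`) there are `a, b, c` over `𝕂` with `a F + b (C δ) + c S ν = 1`. Apply to all coefficients a `K`-linear map
`π : 𝕂 → K` with `π 1 = 1` to get `a, b, c` over `K`. -/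
def St_UNI : Prop := ∀ (p : ℕ) [Fact p.Prime] (K 𝕂 : Type) [Field K] [Field 𝕂] [Algebra K 𝕂]
  [IsAlgClosed 𝕂] (f g G : K[X]) (h F : K[X][X]) (c : K) (i₀ i e' : ℕ), i₀ < i →
  0 < f.natDegree → itc g i = expand K (p ^ e') G → derivative G ≠ 0 → Good p 𝕂 f g h c i₀ →
  F ≠ 0 → F ∣ sub2 (itc f i) G h →
  IsCoprime (itc f (i - i₀) - C c) F.leadingCoeff ∧
  ∃ a b c' : K[X][X], a * F + b * C (itc f (i - i₀) - C c) +
    c' * (((swp h).leadingCoeff.comp G).map C *
      (-(sub2 (itc f i) G (derivative h) * (derivative G).map C))) = 1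

/-- [R1] Step 1 for the orbits, the case `deg g₁ ≥ 2`.

Proof. All `j` etc. as in the statement. `y 0` is separable algebraic over `K(x 0)`: `h` is irreducible with
`derivative h ≠ 0`. By [ITG] for every `i` there is a monic `G_i` of degree `(deg g₁)^i` with
`itc g i = G_i(X^(p^(e i)))`, `G_i' ≠ 0`. Choose `i > i₀` with `(p^r)^(i₀) deg (swp h) < (deg g₁)^i deg h`. Let
`X = x i`, `Y = y i ^ (p^(e i))`, `G = G_i`, `f_i = itc f i`: `f_i(X) = x 0`, `G(Y) = y 0`. `X`, `Y` are
transcendental; `Y` is separable over `K(y 0)` (`G(T) - y 0` is irreducible over `K(y 0)` with nonzero derivative), so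
`Y` is separable over `K(X)`. Let `F`, `G₂` generate the relations of `(X, Y)` and `(Y, X)` ([REL]); `h` and
`swp h` generate those of `(x 0, y 0)` and `(y 0, x 0)` (irreducible and vanishing there). By [RAT]
`deg F (p^r)^i deg (swp h) = deg G₂ (deg g₁)^i deg h`, so `deg G₂ < (p^r)^(i - i₀) deg F`. Let
`δ = itc f (i - i₀) - C c`, of degree `(p^r)^(i-i₀)`; it divides `derivative f_i` because
`derivative f_i = ∏_{l<i} f'(f^l(X))`, the factor for `l = i - i₀` is `f'(f^(i-i₀)(X))` and `X - c ∣ f'`. Put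
`H = sub2 f_i G h`, `ν = -(sub2 f_i G (derivative h) * (derivative G).map C)`,
`δ' = C (derivative f_i / δ) * sub2 f_i G (dIn h)`, `s = (swp h).leadingCoeff.comp G`. By [SB2] the hypotheses of
[S1] on `H, ν, δ'` hold; `evA ν ≠ 0` and `evA δ' ≠ 0` because `h` does not divide `derivative h ≠ 0` (smaller outer degree)
nor `dIn h ≠ 0` (smaller inner degree) and `G', f_i' ≠ 0`, `X, Y` transcendental. `G₂` divides
`sub2 G f_i (swp h)`, whose leading coefficient is `s` (`f` is monic). [UNI] gives the two coprimality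
conditions (`F ∣ H`). The structure for `Y` is given (`e' = e i`), `𝒟 Y ∈ Gr 1` because `Y ∈ Gr 1`. [HL]
gives the derivation. So [S1] says that `𝒟 X` is algebraic over `K(X, Y)`, which is algebraic over `K(X)`. -/
def St_R1 : Prop := ∀ (p : ℕ) [Fact p.Prime] (K V 𝕂 : Type) [Field K] [Field V] [Field 𝕂]
  [Algebra K V] [Algebra K 𝕂] [IsAlgClosed 𝕂] [CharP K p] (n s r : ℕ) (t : Fin n → K)
  (D : Derivation ℤ V V) (𝒟 : V →+ V) (f g g₁ : K[X]) (e : ℕ) (h : K[X][X]) (x x' y : ℕ → V)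
  (c : K) (i₀ : ℕ),
  (∀ z : K, ∃ w : (Fin n → Fin (p ^ s)) → K, z = ∑ a, tm t a * w a ^ (p ^ s)) →
  (∀ w : (Fin n → Fin (p ^ s)) → V, ∑ a, algebraMap K V (tm t a) * w a ^ (p ^ s) = 0 → w = 0) →
  (∀ z : K, ∃ z' : K, D (algebraMap K V z) = algebraMap K V z') →
  (∀ w : (Fin n → Fin (p ^ s)) → V, 𝒟 (∑ a, algebraMap K V (tm t a) * w a ^ (p ^ s)) =
    ∑ a, algebraMap K V (tm t a) * (D (w a)) ^ (p ^ s)) →
  1 ≤ r → f.Monic → f.natDegree = p ^ r → g.Monic → g.natDegree = p ^ r → derivative f ≠ 0 →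
  (derivative f).eval c = 0 → g = expand K (p ^ e) g₁ → derivative g₁ ≠ 0 →
  2 ≤ g₁.natDegree →
  (∀ j, x j = x' j ^ (p ^ s)) → (∀ j, aeval (x (j + 1)) f = x j) →
  (∀ j, aeval (y (j + 1)) g = y j) → (∀ j, Transcendental K (x j)) →
  (∀ j, Transcendental K (y j)) → evA (x 0) (y 0) h = 0 → Irreducible h → derivative h ≠ 0 →
  dIn h ≠ 0 →
  (∀ i e', ∃ St : Str K V (y i ^ (p ^ e')), (∀ w ∈ St.Bd, 𝒟 w ∈ St.Bd) ∧
    ∀ w ∈ St.Gr 1, 𝒟 w ∈ St.Gr 1) →
  Good p 𝕂 f g h c i₀ →
  ∃ j, IsAlgebraic (fld1 (K := K) (x j)) (𝒟 (x j))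

/-- [R1B] Step 1 for the orbits, the case `g = X^(p^r)`.

Proof. `y 0 = (y j)^(p^(r j))` for all `j`; take `j ≥ s + 1`: `y 0 = (v^p)^(p^s)` for some `v ∈ V`, so
`𝒟 (y 0) = (D (v^p))^(p^s) = 0` (the formula for `𝒟` with only `w_0 ≠ 0`). `y 0` is separable algebraic over
`K(x 0)` (`h` irreducible, `derivative h ≠ 0`). [HL] for `x = x 0`, `y = y 0`: `0 = 𝒟 (y 0) =
(d y₀) 𝒟 (x 0) + lam`. Applying `d` to `h(x 0, y 0) = 0`: `h_X + h_Y d y₀ = 0`, and `h_X(x 0, y 0) ≠ 0` as `h` does not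
divide `dIn h ≠ 0` (smaller inner degree). So `d y₀ ≠ 0` and `𝒟 (x 0) = - lam / d y₀ ∈ K(x 0, y 0)` is
algebraic over `K(x 0)`. -/
def St_R1B : Prop := ∀ (p : ℕ) [Fact p.Prime] (K V : Type) [Field K] [Field V]
  [Algebra K V] [CharP K p] (n s r : ℕ) (t : Fin n → K)
  (D : Derivation ℤ V V) (𝒟 : V →+ V) (h : K[X][X]) (x x' y : ℕ → V),
  (∀ z : K, ∃ w : (Fin n → Fin (p ^ s)) → K, z = ∑ a, tm t a * w a ^ (p ^ s)) →
  (∀ w : (Fin n → Fin (p ^ s)) → V, ∑ a, algebraMap K V (tm t a) * w a ^ (p ^ s) = 0 → w = 0) →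
  (∀ z : K, ∃ z' : K, D (algebraMap K V z) = algebraMap K V z') →
  (∀ w : (Fin n → Fin (p ^ s)) → V, 𝒟 (∑ a, algebraMap K V (tm t a) * w a ^ (p ^ s)) =
    ∑ a, algebraMap K V (tm t a) * (D (w a)) ^ (p ^ s)) →
  1 ≤ r → (∀ j, x j = x' j ^ (p ^ s)) → (∀ j, y (j + 1) ^ (p ^ r) = y j) →
  (∀ j, Transcendental K (x j)) → evA (x 0) (y 0) h = 0 → Irreducible h → derivative h ≠ 0 →
  dIn h ≠ 0 →
  IsAlgebraic (fld1 (K := K) (x 0)) (𝒟 (x 0))

/-- [RD] One round.

Proof. `V`, `up` given. Put `P = p^s`. `x_l = w_l^P`, `f` has the coefficients `φ_i^P`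
(`φ ∈ K[X]`, monic of the same degree), and then `w_{l+1} = φ(w_l)` (Frobenius is injective), `w_l ∈ R` (`Rint`),
`φ'(w_l) ≠ 0` (its `P`-th power is `f'(x_l)`), `w_0 = 0`. By [ORB] for `x` and for `y` (`E_x`, `E_y`); the same `E_x`
works for `w` (`‖σ w_l‖^P = ‖σ x_l‖`). In `V`: `X_j = gm (n ↦ x_{n-j})`, `W_j = gm (n ↦ w_{n-j})`,
`Y_j = gm (n ↦ y_{n-j})` (for `n ≥ j`, `U` nonprincipal, `f(X_{j+1}) = X_j` etc.); transcendental over `K` because a nonzero
polynomial has finitely many zeros and the sequences are injective. Fix an index `i`. `T` = the Hasse operator of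
[HS] for `i`, `s`, good; `𝒟` its extension to `V` and `D` the extension of `S.D i` ([UPX]). The hypotheses on `K`
and `V` in [R1] (`V`: independence and formula) follow from [HB], [HS] applied to representatives (the index set is finite).
[R1] or [R1B] (with [STO] for `y`, exponent `p^e'`, and `T` good, gives the structures): there is `j` with `𝒟 X_j`
algebraic over `K(X_j)`. `𝒟 X_j = (D W_j)^P` and `X_j = W_j^P`, so `D W_j` is algebraic over `K(W_j)`. Now [S2]
for `φ`, `W_j`, the derivations `S.D` (extended to `V`), the structures of [STO] for `w` (exponent `1`; `D_i` is good by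
[GOD], `W_j ∈ Gr 1`, `W_j ∈ Bd`), and `E = 𝕂`: the zero `c^(1/P)` of `φ'` in `𝕂` with infinite orbit (its `P`-th power is
the orbit of `c`). We get `κ_i ∈ K`, `φ^{d_i} = κ_i (1 - φ')` and `D_i W_j = κ_i` for `j ≥ j₀`: so
`D_i w_l = κ_i` for infinitely many `l`. `D_i w_{l+1} = φ'(w_l) D_i w_l + φ^{d_i}(w_l)` gives
`D_i w_{l+1} - κ_i = φ'(w_l) (D_i w_l - κ_i)` and `φ'(w_l) ≠ 0`, so `D_i w_l = κ_i` for all `l`; `l = 0`:
`κ_i = 0`. So `D_i` kills all coefficients of `φ` and all `w_l`, for every `i`; by `ker` they are `p`-th powers. -/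
def St_RD : Prop := ∀ (p : ℕ) [Fact p.Prime] (K L V 𝕂 : Type) [Field K] [NormedField L]
  [IsUltrametricDist L] [Field V] [Field 𝕂] [Algebra K V] [Algebra K 𝕂] [IsAlgClosed 𝕂]
  [CharP K p] (S : PS p K L) (U : Ultrafilter ℕ) (up : UP U K V) (r s : ℕ) (f g g₁ : K[X])
  (e : ℕ) (h : K[X][X]) (x y : ℕ → K) (c : K) (i₀ : ℕ),
  (U : Filter ℕ) ≤ Filter.cofinite → 1 ≤ r → f.Monic → f.natDegree = p ^ r → g.Monic →
  g.natDegree = p ^ r → (∀ i, f.coeff i ∈ S.R) → (∀ i, g.coeff i ∈ S.R) → x 0 = 0 →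
  y 0 ∈ S.R → (∀ l, x (l + 1) = f.eval (x l)) → (∀ l, y (l + 1) = g.eval (y l)) →
  Function.Injective x → Function.Injective y → (∀ l, (derivative f).eval (x l) ≠ 0) →
  (derivative f).eval c = 0 → Function.Injective (fun l : ℕ => (itc f l).eval c) →
  g = expand K (p ^ e) g₁ → derivative g₁ ≠ 0 → (2 ≤ g₁.natDegree ∨ g = X ^ (p ^ r)) →
  Irreducible h → derivative h ≠ 0 → dIn h ≠ 0 → Good p 𝕂 f g h c i₀ →
  (∀ᶠ n in (U : Filter ℕ), evA (x n) (y n) h = 0) → Lv p f x s → Lv p f x (s + 1)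

/-- [END] The orbit can not consist of `p^s`-th powers for all `s`.

Proof. Let `x l = w_s^(p^s)`. `w_s ∈ R` (`Rint` for `X^(p^s) - x l`), `‖σ w_s‖ ≤ max 1 ‖σ (x l)‖`. By `north` the
`w_s` are in a finite set, so `w_s = w_s' =: w` for some `s < s'`: `w^(p^s) = w^(p^s')`, so `w = 0` or `w` is a
root of unity, and `‖σ (x l)‖ ≤ 1` for all places. So all `x l` are in a finite set by `north`. -/
def St_END : Prop := ∀ (p : ℕ) [Fact p.Prime] (K L : Type) [Field K] [NormedField L]
  [IsUltrametricDist L] (S : PS p K L) (x : ℕ → K), (∀ l, x l ∈ S.R) →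
  (∀ s l, ∃ a, x l = a ^ (p ^ s)) → ¬ Function.Injective x

/-- [KC] The core over a place system: finitely many returns.

Proof. Suppose the set is infinite. There is an ultrafilter `U` containing it with `U ≤ cofinite`. [UPX] gives `V`.
`Lv 0` is trivial. By [RD] and induction `Lv s` for all `s`. [ORB]: `x l ∈ R`. [END]. -/
def St_KC : Prop := ∀ (p : ℕ) [Fact p.Prime] (K L 𝕂 : Type) [Field K] [NormedField L]
  [IsUltrametricDist L] [Field 𝕂] [Algebra K 𝕂] [IsAlgClosed 𝕂]
  [CharP K p] (S : PS p K L) (r : ℕ) (f g g₁ : K[X])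
  (e : ℕ) (h : K[X][X]) (x y : ℕ → K) (c : K) (i₀ : ℕ), 1 ≤ r → f.Monic →
  f.natDegree = p ^ r → g.Monic →
  g.natDegree = p ^ r → (∀ i, f.coeff i ∈ S.R) → (∀ i, g.coeff i ∈ S.R) → x 0 = 0 →
  y 0 ∈ S.R → (∀ l, x (l + 1) = f.eval (x l)) → (∀ l, y (l + 1) = g.eval (y l)) →
  Function.Injective x → Function.Injective y → (∀ l, (derivative f).eval (x l) ≠ 0) →
  (derivative f).eval c = 0 → Function.Injective (fun l : ℕ => (itc f l).eval c) →
  g = expand K (p ^ e) g₁ → derivative g₁ ≠ 0 → (2 ≤ g₁.natDegree ∨ g = X ^ (p ^ r)) →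
  Irreducible h → derivative h ≠ 0 → dIn h ≠ 0 → Good p 𝕂 f g h c i₀ →
  {n : ℕ | evA (x n) (y n) h = 0}.Finite

/-- [FB] Finitely many bad first coordinates.

Proof. `h.leadingCoeff ≠ 0` has finitely many zeros. `h` does not divide `derivative h ≠ 0` (smaller degree), so the
resultant `r(X)` of `h` and `derivative h` is not zero (`resultant_ne` in `Pool.Agent.Helper11.SP.Gap`), or use
coprimality over the fraction field, and it vanishes at `v` if `h(v, ·)` and its derivative have a common zero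
`s` (`r = A h + B h_Y`). For each of the finitely many zeros `s` of `(swp h).leadingCoeff` the polynomial
`h(X, s) = (swp h)(s, ·)` is not zero: otherwise `Y - s` divides `h`, `h` is a constant times `Y - s`, against
`0 < (swp h).natDegree`; so finitely many `v`. -/
def St_FB : Prop := ∀ (K : Type) [Field K] (h : K[X][X]), Irreducible h →
  0 < h.natDegree → 0 < (swp h).natDegree → derivative h ≠ 0 →
  {v : K | h.leadingCoeff.eval v = 0 ∨ ∃ s : K, evA v s h = 0 ∧
    (evA v s (derivative h) = 0 ∨ (swp h).leadingCoeff.eval s = 0)}.Finite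

/-- [HT] Comparison of heights on the curve.

Proof. Use the places `exists_places` (`Pool.Agent.Helper55.DM.A`) for the finite set of all coefficients of
`f, g, h` and `c, k`: a ring `A`, finitely many embeddings `σ_j : A → L`, `N`, `hbd`, `hliou`. Let `q` be the common
degree. By `growth` (`Pool.Agent.Helper11.SP.Gap`) there are a place `j₀`, `μ > 1`, `n₀` with
`‖σ_{j₀} (f^(n₀+m)(c))‖ ≥ μ^(1 + q + ... + q^(m-1))` (`c` has infinite orbit, `hbd`). Everywhere
`‖σ_j (g^l(k))‖ ≤ H^(q^l)` and `‖σ_j (f^i(c))‖ ≤ H^(q^i)` for a suitable `H ≥ 1`. Let `h(v, s) = 0`,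
`v = f^i(c)`, `s = g^l(k)`, and `h(X, s) = ∑ a_m(s) X^m`, with top coefficient `a(s)`, `a = (swp h).leadingCoeff`. The
zeros `s` of `a` give finitely many `v` (as in [FB]), hence finitely many `i`. Otherwise `0 ≠ a(s) ∈ A`, all
`‖σ_j a_m(s)‖ ≤ M = C H^(C q^l)`, so by Liouville `‖σ_{j₀} a(s)‖ ≥ M^(-N)` and
`‖σ_{j₀} v‖ ≤ max (1, max_m ‖a_m(s)‖ / ‖a(s)‖) ≤ M^(N+1)` (root bound, ultrametric). Comparing with the lower bound:
`i ≤ l + M₁`. For the other inequality: if `k` has a finite `g`-orbit, `s` takes finitely many values, each with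
finitely many `v` (`h(X, s) ≠ 0` as in [FB]), so finitely many `i`: choose `M₀` larger than these `i`. If `k` has an
infinite orbit exchange the roles of `(f, c)` and `(g, k)`, `h` and `swp h`: `l ≤ i + M₂`, except that the
zeros `v` of `h.leadingCoeff` have to be excluded: finitely many `i`. (See `common_le`, `root_le`, `exp_compare` in
`Pool.Agent.Helper11.SP` for similar estimates.) -/
def St_HT : Prop := ∀ (p : ℕ) [Fact p.Prime] (𝕂 : Type) [Field 𝕂] [CharP 𝕂 p]
  (f g : 𝕂[X]) (h : 𝕂[X][X]) (c k : 𝕂), 2 ≤ f.natDegree → g.natDegree = f.natDegree →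
  Irreducible h → 0 < h.natDegree → 0 < (swp h).natDegree →
  Function.Injective (fun l : ℕ => (itc f l).eval c) →
  ∃ M : ℕ, ∀ i l : ℕ, M ≤ i → evA ((itc f i).eval c) ((itc g l).eval k) h = 0 →
    i ≤ l + M ∧ l ≤ i + M

/-- [COV] If all large `i` are covered the curve is periodic.

Proof. For `k ∈ T` and `d ≤ M` consider the sets `A_{k,d} = {i : h(f^i(c), g^(i+d)(k)) = 0}` and
`B_{k,d} = {i : h(f^(i+d)(c), g^i(k)) = 0}`. By hypothesis every `i ≥ M` is in some `A_{k,d}` (`l = i + d`) or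
`i - d` is in some `B_{k,d}` (`l = i - d`). Each of these sets is the return set of an orbit pair (`(c, g^d(k))`,
resp. `(f^d(c), k)`) to `h = 0`; by `dich` in `Pool.Agent.Helper11.SP.Dich` (`ev = evA` over the field itself) it is eventually
periodic or two elements `n < n + j` satisfy `n ≤ j + C`. If all of them were finite or had the gap property, then
their (finite) union with shifts would have at most `O(log N)` elements below `N` (gap: `n + j ≥ 2 n - C`); impossible.
So one of them is eventually periodic and infinite: it contains `n₁ + P m` for all `m : ℕ`, for some `P ≥ 1`. Then for all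
these `n`, the point `z_n = (f^n(c'), g^n(k'))` is a zero of `h` and of `sub2 (itc f P) (itc g P) h`; the first
coordinates are pairwise distinct (infinite orbit of `c`). If `h` did not divide `sub2 (itc f P) (itc g P) h`, the
resultant would be a nonzero polynomial (`resultant_ne` in Helper11.SP.Gap) vanishing at infinitely many points. -/
def St_COV : Prop := ∀ (p : ℕ) [Fact p.Prime] (𝕂 : Type) [Field 𝕂] [CharP 𝕂 p]
  (f g : 𝕂[X]) (h : 𝕂[X][X]) (c : 𝕂) (T : Finset 𝕂) (M : ℕ), 2 ≤ f.natDegree →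
  g.natDegree = f.natDegree → Irreducible h → 0 < h.natDegree → 0 < (swp h).natDegree →
  Function.Injective (fun l : ℕ => (itc f l).eval c) →
  (∀ i, M ≤ i → ∃ k ∈ T, ∃ l, evA ((itc f i).eval c) ((itc g l).eval k) h = 0 ∧
    i ≤ l + M ∧ l ≤ i + M) →
  ∃ N, 1 ≤ N ∧ h ∣ sub2 (itc f N) (itc g N) h

/-- [HG] A good critical value exists.

Proof. Suppose there is no good `i₀ ≥ 1`. By [FB] and the injectivity of the orbit of `c` only finitely many `i` are bad
because of the leading coefficient, `h_Y` or `(swp h).leadingCoeff`; so for all `i ≥ i₁` there is `s` with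
`h(f^i(c), s) = 0` and `Post p 𝕂 g s`, so by [PST] `s = g^l(g₁(κ))`, `g₁'(κ) = 0`. Let `T` be the finite set of all
`g₁(κ)`. [HT] for each `k ∈ T`, take the maximum `M` of the constants and of `i₁`. [COV] contradicts the
hypothesis. -/
def St_HG : Prop := ∀ (p : ℕ) [Fact p.Prime] (𝕂 : Type) [Field 𝕂] [IsAlgClosed 𝕂] [CharP 𝕂 p]
  (f g g₁ : 𝕂[X]) (e : ℕ) (h : 𝕂[X][X]) (c : 𝕂), 2 ≤ f.natDegree →
  g.natDegree = f.natDegree → g = expand 𝕂 (p ^ e) g₁ → derivative g₁ ≠ 0 →
  Irreducible h → 0 < h.natDegree → 0 < (swp h).natDegree → derivative h ≠ 0 →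
  Function.Injective (fun l : ℕ => (itc f l).eval c) →
  (∀ N, 1 ≤ N → ¬ h ∣ sub2 (itc f N) (itc g N) h) →
  ∃ i₀, Good p 𝕂 f g h c i₀

/-- [CORE] The core theorem over an algebraically closed field.

Proof. [HG] gives `i₀` (`2 ≤ p^r`). [PL] for `B` = all coefficients of `f, g, g₁, h` and `b`, `c`: `K → 𝕂`, `S`. Let
`f_K` etc. be the polynomials over `K` which map to `f` etc. (coefficients in `R`). All hypotheses of [KC] descend: monic,
degrees, injectivity, `h_K` irreducible (a factorization over `K` gives one over `𝕂`; degrees are preserved),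
`derivative`, `dIn`, `expand` commute with the map, which is injective on polynomials. `Good` over `K` follows from `Good` over
`𝕂`: the points are the same and `Post` for `g_K` implies `Post` for `g`. The set is the same. -/
def St_CORE : Prop := ∀ (p : ℕ) [Fact p.Prime] (𝕂 : Type) [Field 𝕂] [IsAlgClosed 𝕂]
  [CharP 𝕂 p] (r : ℕ) (f g g₁ : 𝕂[X]) (e : ℕ) (h : 𝕂[X][X]) (b c : 𝕂), 1 ≤ r → f.Monic →
  f.natDegree = p ^ r → g.Monic → g.natDegree = p ^ r → (derivative f).eval c = 0 →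
  Function.Injective (fun l : ℕ => (itc f l).eval c) →
  Function.Injective (fun l : ℕ => (itc f l).eval 0) →
  Function.Injective (fun l : ℕ => (itc g l).eval b) →
  (∀ l : ℕ, (derivative f).eval ((itc f l).eval 0) ≠ 0) →
  g = expand 𝕂 (p ^ e) g₁ → derivative g₁ ≠ 0 → (2 ≤ g₁.natDegree ∨ g = X ^ (p ^ r)) →
  Irreducible h → 0 < h.natDegree → 0 < (swp h).natDegree → derivative h ≠ 0 → dIn h ≠ 0 →
  (∀ N, 1 ≤ N → ¬ h ∣ sub2 (itc f N) (itc g N) h) →
  {n : ℕ | evA ((itc f n).eval 0) ((itc g n).eval b) h = 0}.Finite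

/-- [TWS] Frobenius twist of a curve.

Proof. Induction on `h.natDegree + (swp h).natDegree`. If `derivative h = 0` then `h = h₁(X, Y^p)` (all outer exponents
divisible by `p`), `h₁` is irreducible (a factorization of `h₁` gives one of `h`), positive degrees, smaller outer
degree, and `h(x, y) = h₁(x, y^p)`. If `dIn h = 0` then all coefficients of `h` are polynomials in `X^p`, similarly.
If none of them vanishes take `m = m' = 0`. The process stops as the degrees are positive and decrease. -/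
def St_TWS : Prop := ∀ (p : ℕ) [Fact p.Prime] (𝕂 : Type) [Field 𝕂] [IsAlgClosed 𝕂] [CharP 𝕂 p]
  (h : 𝕂[X][X]), Irreducible h → 0 < h.natDegree → 0 < (swp h).natDegree →
  ∃ (m m' : ℕ) (h' : 𝕂[X][X]), Irreducible h' ∧ 0 < h'.natDegree ∧ 0 < (swp h').natDegree ∧
    derivative h' ≠ 0 ∧ dIn h' ≠ 0 ∧
    ∀ x y : 𝕂, evA x y h = 0 ↔ evA (x ^ (p ^ m)) (y ^ (p ^ m')) h' = 0

/-- [AFF] Affine changes of the variables.

Proof. `P ↦ sub2 (C u X + C v) (C u' X + C v') P` is a ring automorphism of `𝕂[X][X]` (its inverse is of the same form), so it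
preserves irreducible elements; it preserves the degrees in both variables; the derivatives by [SB2] (they are multiplied by
the nonzero constants `u`, `u'`). -/
def St_AFF : Prop := ∀ (K : Type) [Field K] (u v u' v' : K) (h : K[X][X]), u ≠ 0 → u' ≠ 0 →
  Irreducible h → 0 < h.natDegree → 0 < (swp h).natDegree → derivative h ≠ 0 → dIn h ≠ 0 →
  Irreducible (sub2 (C u * X + C v) (C u' * X + C v') h) ∧
  0 < (sub2 (C u * X + C v) (C u' * X + C v') h).natDegree ∧
  0 < (swp (sub2 (C u * X + C v) (C u' * X + C v') h)).natDegree ∧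
  derivative (sub2 (C u * X + C v) (C u' * X + C v') h) ≠ 0 ∧
  dIn (sub2 (C u * X + C v) (C u' * X + C v') h) ≠ 0

/-- [NRM] Normalisation: from [CORE] to a general pair of polynomials of degree `p^r`, curve separable in both
variables.

Proof. If the orbit of `a` or of `b` is finite the set is eventually periodic (`ret_ep_of_finite`, `ret_swap` in
`Pool.Agent.Helper78.DM.E`; translate between `MvPolynomial` and `K[X][X]` with `toP`, `ev_toP` of Helper11.SP.Dich; or prove it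
directly). So both are infinite, i.e. injective. There is `l₀` such that `f'(f^l(a)) ≠ 0` for `l ≥ l₀` (`f'` has finitely many
zeros). It is enough to treat the shifted set `{n : n + l₀ ∈ R}` (`EP.of_tail`), i.e. the points
`ξ = f^(l₀)(a)` and `f^(l₀)`-shift `b' = g^(l₀)(b)`. Choose `λ ≠ 0` with `λ^(q-1) =` leading coefficient of `f`
(`q = p^r`), `μ` for `g`. If `g = g₁(X^(p^e))` with `deg g₁ = 1` choose `ζ` with `g(ζ) = ζ`, else `ζ = 0`. Put
`F(X) = λ (f(λ⁻¹ X + ξ) - ξ)`, `G(Y) = μ (g(μ⁻¹ Y + ζ) - ζ)`, monic of degree `q`,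
`h~ = sub2 (λ⁻¹ X + ξ) (μ⁻¹ Y + ζ) h`. Then `F^l(0) = λ (f^l(ξ) - ξ)`, etc. `F'` does not vanish on the
orbit of `0`; the critical point `λ (c - ξ)` of `F` has an infinite orbit; `G = G₁(Y^(p^e))` with `G₁' ≠ 0`, and if
`deg G₁ = 1` then `G = X^q` (monic, `G(0) = 0`, `q = p^e`). (`e` and `g₁`: `g` is not constant, so
`g = expand (p^e) g₁` with `g₁' ≠ 0`.) By [AFF] `h~` satisfies the conditions. If `h~` divides
`sub2 (F^N) (G^N) h~` for some `N ≥ 1` the return set is closed under `n ↦ n + N`, so it is eventually periodic (`ep_of_add` in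
Helper11.SP.Dich). Otherwise it is finite by [CORE], so eventually periodic. -/
def St_NRM : Prop := ∀ (p : ℕ) [Fact p.Prime] (𝕂 : Type) [Field 𝕂] [IsAlgClosed 𝕂]
  [CharP 𝕂 p] (r : ℕ) (f g : 𝕂[X]) (h : 𝕂[X][X]) (a b c : 𝕂), 1 ≤ r →
  f.natDegree = p ^ r → g.natDegree = p ^ r → derivative f ≠ 0 → (derivative f).eval c = 0 →
  Function.Injective (fun l : ℕ => (itc f l).eval c) →
  Irreducible h → 0 < h.natDegree → 0 < (swp h).natDegree → derivative h ≠ 0 → dIn h ≠ 0 →
  Pool.Agent.Helper79.DM.EP {n : ℕ | evA ((itc f n).eval a) ((itc g n).eval b) h = 0}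

/-- [IRR] An irreducible curve over an algebraically closed field, polynomials of degree `p^r`.

Proof. If `h.natDegree = 0`, `h = C q`, `q ≠ 0`: the condition is `q(f^n(a)) = 0`: if the orbit of `a` is infinite
finitely many `n`, otherwise the sequence `f^n(a)` is eventually periodic. Same if `(swp h).natDegree = 0`. Otherwise [TWS]:
`h(x, y) = 0` iff `h'(x^(p^m), y^(p^m')) = 0`. `(f^n(a))^(p^m) = (f^♯)^n(a^(p^m))` where `f^♯` has the coefficients of `f` to the
power `p^m`, and similarly for `g`, `m'`. `f^♯` has the same degree, `(f^♯)' ≠ 0` vanishes at `c^(p^m)`, whose orbit is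
infinite. Apply [NRM] to `f^♯, g^♯, h'`, `a^(p^m)`, `b^(p^m')`. -/
def St_IRR : Prop := ∀ (p : ℕ) [Fact p.Prime] (𝕂 : Type) [Field 𝕂] [IsAlgClosed 𝕂]
  [CharP 𝕂 p] (r : ℕ) (f g : 𝕂[X]) (h : 𝕂[X][X]) (a b c : 𝕂), 1 ≤ r →
  f.natDegree = p ^ r → g.natDegree = p ^ r → derivative f ≠ 0 → (derivative f).eval c = 0 →
  Function.Injective (fun l : ℕ => (itc f l).eval c) → Irreducible h →
  Pool.Agent.Helper79.DM.EP {n : ℕ | evA ((itc f n).eval a) ((itc g n).eval b) h = 0}

/-- [MAIN] The theorem for the first map.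

Proof. If `deg f ≠ deg g` or `deg f` is not a power of `p` use `Pool.Agent.Helper79.DN.final0` (see
`Pool/Agent/Results/MP_6ac234_nt/DegreesNotPrimePower.lean`; a finite union of sets `{q.1 k + q.2}` is eventually periodic).
`deg f = 1` is impossible: `f'` is a nonzero constant. So `deg f = deg g = p^r`, `r ≥ 1`. Pass to `𝕂 = AlgebraicClosure K`
(`orb_map`; the return set of the images is the same), factor `h` (nonzero) into irreducible factors over `𝕂`
(`ret_of_factors` in Helper78.DM.E), for each factor use `toP`, `ev_toP` and [IRR]. The orbit of `c` is infinite, so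
`l ↦ f^l(c)` is injective (`orb_injective`). -/
def St_MAIN : Prop := ∀ (p : ℕ) [Fact p.Prime] (K : Type) [Field K] [CharP K p] (f g : K[X])
  (a b : K) (h : MvPolynomial (Fin 2) K) (c : AlgebraicClosure K), h ≠ 0 → derivative f ≠ 0 →
  aeval c (derivative f) = 0 →
  (Set.range fun n : ℕ => (fun z : AlgebraicClosure K => aeval z f)^[n] c).Infinite →
  Pool.Agent.Helper79.DM.EP (Pool.Agent.Helper79.DM.ret f g a b h)

end Pool.Agent.NPC
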