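import Pool.Agent.NPC.StA

/-!
# [UB] Upper bound
-/

set_option autoImplicit false

namespace Pool.Agent.NPC

open Polynomial

theorem Str.one_Gr {K V : Type} [Field K] [Field V] [Algebra K V] {Z : V} (S : Str K V Z) :
    (1 : V) ∈ S.Gr 0 := by
  have h := S.Gr_alg 1
  simpa using h

theorem Str.pow_Gr {K V : Type} [Field K] [Field V] [Algebra K V] {Z : V} (S : Str K V Z) (k : ℕ) :
    Z ^ k ∈ S.Gr (k : ℤ) := by
  induction k with
  | zero => simpa using S.one_Gr
  | succ k ih =>
    have h := S.Gr_mul ih S.Gr_Z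
    rw [pow_succ]
    push_cast
    exact h

/-- A polynomial in `Z` whose nonzero coefficients have index at most `m`. -/
theorem Str.poly_Gr {K V : Type} [Field K] [Field V] [Algebra K V] {Z : V} (S : Str K V Z)
    (r : K[X]) (m : ℤ) (h : ∀ j : ℕ, r.coeff j ≠ 0 → (j : ℤ) ≤ m) :
    aeval Z r ∈ S.Gr m := by
  rw [aeval_eq_sum_range]
  refine AddSubgroup.sum_mem _ ?_
  intro j _
  by_cases hj : r.coeff j = 0
  · rw [hj, zero_smul]
    exact AddSubgroup.zero_mem _
  · rw [Algebra.smul_def]
    have h1 := S.Gr_mul (S.Gr_alg (r.coeff j)) (S.pow_Gr j)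
    rw [zero_add] at h1
    exact S.Gr_mono (h j hj) h1

theorem thm_UB : St_UB := by
  intro K V _ _ _ Z S ι _ e m hZ he W hWB hWM N w hw hrat hind
  classical
  by_contra hcon
  rw [not_le] at hcon
  choose b a hb hba using hrat
  -- common denominator
  set B : K[X] := ∏ k, b k with hB
  have hB0 : B ≠ 0 := Finset.prod_ne_zero_iff.mpr (fun k _ => hb k)
  have hBZ : aeval Z B ≠ 0 := by
    intro h0
    exact hB0 ((transcendental_iff.mp hZ) B h0)
  have hcom : ∀ k, ∃ a' : ι → K[X], aeval Z B * w k = ∑ i, aeval Z (a' i) * e i := by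
    intro k
    refine ⟨fun i => (∏ j ∈ Finset.univ.erase k, b j) * a k i, ?_⟩
    have h1 : B = (∏ j ∈ Finset.univ.erase k, b j) * b k := by
      rw [hB, Finset.prod_erase_mul _ _ (Finset.mem_univ k)]
    rw [h1, map_mul, mul_assoc, hba k, Finset.mul_sum]
    refine Finset.sum_congr rfl ?_
    intro i _
    rw [map_mul, mul_assoc]
  choose a' ha' using hcom
  -- linear conditions
  let Φ : (Fin N → K) →ₗ[K] ((Σ i, Fin (m i)) → K) :=
    { toFun := fun c x => ∑ k, c k * (a' k x.1 % B).coeff (B.natDegree - 1 - (x.2 : ℕ))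
      map_add' := by
        intro c c'
        funext x
        simp only [Pi.add_apply, add_mul, Finset.sum_add_distrib]
      map_smul' := by
        intro r c
        funext x
        simp only [Pi.smul_apply, smul_eq_mul, RingHom.id_apply, Finset.mul_sum, mul_assoc] }
  have hker : LinearMap.ker Φ ≠ ⊥ := by
    apply LinearMap.ker_ne_bot_of_finrank_lt
    rw [Module.finrank_fintype_fun_eq_card, Module.finrank_fintype_fun_eq_card,
      Fintype.card_sigma, Fintype.card_fin]
    simpa using hcon
  obtain ⟨c, hc, hc0⟩ := Submodule.exists_mem_ne_zero_of_ne_bot hker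
  rw [LinearMap.mem_ker] at hc
  apply hc0
  apply hind
  refine ⟨fun i => ∑ k, C (c k) * (a' k i / B), ?_⟩
  -- the difference
  rw [← sub_eq_zero]
  set q : ι → K[X] := fun i => ∑ k, C (c k) * (a' k i / B) with hq
  set r : ι → K[X] := fun i => ∑ k, C (c k) * (a' k i % B) with hr
  have hrc : ∀ i j, (r i).coeff j = ∑ k, c k * (a' k i % B).coeff j := by
    intro i j
    simp only [hr, finsetSum_coeff, coeff_C_mul]
  have hmain : aeval Z B * (∑ k, c k • w k - ∑ i, aeval Z (q i) * e i) =
      ∑ i, aeval Z (r i) * e i := by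
    rw [mul_sub, sub_eq_iff_eq_add, Finset.mul_sum, Finset.mul_sum, ← Finset.sum_add_distrib]
    have h1 : ∀ k, aeval Z B * (c k • w k) = ∑ i, algebraMap K V (c k) * (aeval Z (a' k i) * e i) := by
      intro k
      rw [mul_smul_comm, ha' k, Algebra.smul_def, Finset.mul_sum]
    rw [Finset.sum_congr rfl (fun k _ => h1 k), Finset.sum_comm]
    refine Finset.sum_congr rfl ?_
    intro i _
    have h2 : ∀ k, aeval Z (a' k i) = aeval Z B * aeval Z (a' k i / B) + aeval Z (a' k i % B) := by
      intro k
      rw [← map_mul, ← map_add, EuclideanDomain.div_add_mod]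
    simp only [hq, hr, map_sum, map_mul, aeval_C]
    rw [Finset.sum_mul, ← mul_assoc, Finset.mul_sum, Finset.sum_mul, ← Finset.sum_add_distrib]
    refine Finset.sum_congr rfl ?_
    intro k _
    rw [h2 k]
    ring
  apply S.small
  · apply hWB
    refine Submodule.sub_mem _ (Submodule.sum_mem _ ?_) (hWM q)
    intro k _
    exact Submodule.smul_mem _ _ (hw k)
  · have h3 : (∑ k, c k • w k - ∑ i, aeval Z (q i) * e i) =
        ∑ i, aeval Z (r i) * (aeval Z B)⁻¹ * e i := by
      rw [← mul_right_inj' hBZ, hmain, Finset.mul_sum]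
      refine Finset.sum_congr rfl ?_
      intro i _
      field_simp
    rw [h3]
    refine AddSubgroup.sum_mem _ ?_
    intro i _
    have h4 : aeval Z (r i) ∈ S.Gr ((B.natDegree : ℤ) - (m i : ℤ) - 1) := by
      apply S.poly_Gr
      intro j hj
      by_contra hlt
      apply hj
      by_cases hjB : j < B.natDegree
      · have hl : B.natDegree - 1 - j < m i := by omega
        have h5 := congrFun hc ⟨i, ⟨B.natDegree - 1 - j, hl⟩⟩
        have h6 : B.natDegree - 1 - (B.natDegree - 1 - j) = j := by omega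
        simp only [Φ, LinearMap.coe_mk, AddHom.coe_mk, Pi.zero_apply, h6] at h5
        rw [hrc]
        exact h5
      · rw [hrc]
        apply Finset.sum_eq_zero
        intro k _
        rw [coeff_eq_zero_of_degree_lt, mul_zero]
        refine lt_of_lt_of_le (EuclideanDomain.mod_lt _ hB0) ?_
        rw [degree_eq_natDegree hB0]
        exact_mod_cast not_lt.mp hjB
    have h7 := S.Gr_mul (S.Gr_mul h4 (S.Gr_inv B hB0)) (he i)
    have h8 : (B.natDegree : ℤ) - (m i : ℤ) - 1 + -(B.natDegree : ℤ) + (m i : ℤ) = -1 := by ring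
    rw [h8] at h7
    exact h7

end Pool.Agent.NPC
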