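import Pool.Agent.NPC.StC

/-!
# NPC, module UNI (helper36): coprimality and the unit ideal at a good critical value
-/

set_option autoImplicit false

namespace Pool.Agent.NPC

open Polynomial Pool.Agent.Helper11.SP

private theorem UNI_evA {K V : Type} [Field K] [Field V] [Algebra K V] (x y : V) (P : K[X][X]) :
    evA x y P = P.eval₂ ((aeval x : K[X] →ₐ[K] V) : K[X] →+* V) y := by
  unfold evA
  rw [eval_map]

private theorem UNI_mul {K V : Type} [Field K] [Field V] [Algebra K V] (x y : V)
    (P Q : K[X][X]) : evA x y (P * Q) = evA x y P * evA x y Q := by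
  unfold evA
  rw [Polynomial.map_mul, eval_mul]

private theorem UNI_neg {K V : Type} [Field K] [Field V] [Algebra K V] (x y : V)
    (P : K[X][X]) : evA x y (-P) = -evA x y P := by
  unfold evA
  rw [Polynomial.map_neg, eval_neg]

private theorem UNI_C {K V : Type} [Field K] [Field V] [Algebra K V] (x y : V) (q : K[X]) :
    evA x y (C q) = aeval x q := by
  unfold evA
  rw [map_C, eval_C]
  rfl

private theorem UNI_mapC {K V : Type} [Field K] [Field V] [Algebra K V] (x y : V) (q : K[X]) :
    evA x y (q.map C) = aeval y q := by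
  unfold evA
  rw [Polynomial.map_map, eval_map, aeval_def]
  congr 1
  ext a
  simp

private theorem UNI_sub2 {K V : Type} [Field K] [Field V] [Algebra K V] (φ ψ : K[X])
    (P : K[X][X]) (x y : V) :
    evA x y (sub2 φ ψ P) = evA (aeval x φ) (aeval y ψ) P := by
  have h1 : ∀ Q : K[X][X], evA x y (Q.comp (ψ.map C)) =
      (Q.map ((aeval x : K[X] →ₐ[K] V) : K[X] →+* V)).eval (evA x y (ψ.map C)) := by
    intro Q
    unfold evA
    rw [Polynomial.map_comp, eval_comp]
  unfold sub2
  rw [h1, UNI_mapC, Polynomial.map_map]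
  unfold evA
  congr 2
  ext a
  · simp
  · simp [compRingHom]

private theorem UNI_itc {K : Type} [Field K] (f : K[X]) (m n : ℕ) :
    itc f (m + n) = (itc f m).comp (itc f n) := by
  induction m with
  | zero =>
    rw [Nat.zero_add]
    show itc f n = (X : K[X]).comp (itc f n)
    rw [X_comp]
  | succ m ih => rw [Nat.succ_add, itc_succ, itc_succ, ih, comp_assoc]

theorem thm_UNI : St_UNI := by
  intro p _ K 𝕂 _ _ _ _ f g G h F c i₀ i e' hi hf hg hG' hgood hF hdvd
  obtain ⟨_, hlc, hpt⟩ := hgood
  have hGd : G.natDegree ≠ 0 := by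
    intro h0
    apply hG'
    rw [eq_C_of_natDegree_eq_zero h0, derivative_C]
  -- evaluation of `f^i` at a zero of `δ`
  have hfi : ∀ x : 𝕂, aeval x (itc f (i - i₀) - C c) = 0 →
      aeval x (itc f i) = algebraMap K 𝕂 ((itc f i₀).eval c) := by
    intro x hx
    rw [map_sub, aeval_C, sub_eq_zero] at hx
    have e : itc f i = (itc f i₀).comp (itc f (i - i₀)) := by
      rw [← UNI_itc]
      congr 1
      omega
    rw [e, aeval_comp, hx, aeval_algebraMap_apply]
    rfl
  constructor
  · have hδ : itc f (i - i₀) - C c ≠ 0 := by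
      intro h0
      rw [sub_eq_zero] at h0
      have h1 := congrArg natDegree h0
      rw [itc_natDegree, natDegree_C] at h1
      exact absurd h1 (pow_pos hf _).ne'
    apply isCoprime_of_irreducible_dvd
    · exact fun h0 => hδ h0.1
    intro z hz hz1 hz2
    obtain ⟨x, hx⟩ := IsAlgClosed.exists_aeval_eq_zero 𝕂 z
      (degree_pos_of_irreducible hz).ne'
    have hx1 : aeval x (itc f (i - i₀) - C c) = 0 := by
      obtain ⟨w, hw⟩ := hz1
      rw [hw, map_mul, hx, zero_mul]
    have hx2 : aeval x F.leadingCoeff = 0 := by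
      obtain ⟨w, hw⟩ := hz2
      rw [hw, map_mul, hx, zero_mul]
    have hfid : (itc f i).natDegree ≠ 0 := by
      rw [itc_natDegree]
      exact (pow_pos hf _).ne'
    have hinj : Function.Injective (compRingHom (itc f i) : K[X] →+* K[X]) := by
      rw [injective_iff_map_eq_zero]
      intro q hq
      have hq' : q.comp (itc f i) = 0 := hq
      rcases comp_eq_zero_iff.1 hq' with h0 | ⟨_, h0⟩
      · exact h0
      · exact absurd (by rw [h0, natDegree_C]) hfid
    have hlH : (sub2 (itc f i) G h).leadingCoeff =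
        h.leadingCoeff.comp (itc f i) * C G.leadingCoeff ^ h.natDegree := by
      unfold sub2
      rw [leadingCoeff_comp, leadingCoeff_map_of_injective hinj,
        leadingCoeff_map_of_injective C_injective, natDegree_map_eq_of_injective hinj]
      · rfl
      · rw [natDegree_map_eq_of_injective C_injective]
        exact hGd
    have h2 : aeval x (sub2 (itc f i) G h).leadingCoeff = 0 := by
      obtain ⟨w, hw⟩ := hdvd
      rw [hw, leadingCoeff_mul, map_mul, hx2, zero_mul]
    rw [hlH, map_mul, map_pow, aeval_C, mul_eq_zero] at h2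
    rcases h2 with h2 | h2
    · rw [aeval_comp, hfi x hx1, aeval_algebraMap_apply] at h2
      apply hlc
      have h3 := (map_eq_zero (algebraMap K 𝕂)).1 h2
      exact h3
    · have h4 := eq_zero_of_pow_eq_zero h2
      rw [map_eq_zero, leadingCoeff_eq_zero] at h4
      rw [h4] at hGd
      exact hGd natDegree_zero
  · by_contra hno
    let I : Ideal K[X][X] := Ideal.span {F, C (itc f (i - i₀) - C c),
      ((swp h).leadingCoeff.comp G).map C *
        (-(sub2 (itc f i) G (derivative h) * (derivative G).map C))}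
    have hI : I ≠ ⊤ := by
      intro htop
      apply hno
      have h1 : (1 : K[X][X]) ∈ I := by rw [htop]; exact Submodule.mem_top
      obtain ⟨a, z, hz, h2⟩ := Ideal.mem_span_insert.1 h1
      obtain ⟨b, z', hz', h3⟩ := Ideal.mem_span_insert.1 hz
      obtain ⟨c', h4⟩ := Ideal.mem_span_singleton'.1 hz'
      exact ⟨a, b, c', by rw [h4, add_assoc, ← h3, ← h2]⟩
    obtain ⟨M, hM, hIM⟩ := Ideal.exists_le_maximal I hI
    letI : Field (K[X][X] ⧸ M) := Ideal.Quotient.field M
    have hft1 : Algebra.FiniteType K K[X][X] :=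
      Algebra.FiniteType.trans (S := K[X]) inferInstance inferInstance
    have hft : Algebra.FiniteType K (K[X][X] ⧸ M) :=
      Algebra.FiniteType.of_surjective (Ideal.Quotient.mkₐ K M) (Ideal.Quotient.mkₐ_surjective K M)
    have hfin : Module.Finite K (K[X][X] ⧸ M) :=
      finite_of_finite_type_of_isJacobsonRing K (K[X][X] ⧸ M)
    have halg : Algebra.IsAlgebraic K (K[X][X] ⧸ M) := Algebra.IsAlgebraic.of_finite K _
    let θ : (K[X][X] ⧸ M) →ₐ[K] 𝕂 := IsAlgClosed.lift
    let ψ : K[X][X] →ₐ[K] 𝕂 := θ.comp (Ideal.Quotient.mkₐ K M)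
    have hψ : ∀ P ∈ I, ψ P = 0 := by
      intro P hP
      show θ (Ideal.Quotient.mk M P) = 0
      rw [Ideal.Quotient.eq_zero_iff_mem.2 (hIM hP), map_zero]
    obtain ⟨x, hx⟩ : ∃ x, x = ψ (C X) := ⟨_, rfl⟩
    obtain ⟨y, hy⟩ : ∃ y, y = ψ X := ⟨_, rfl⟩
    have hev : ∀ P, ψ P = evA x y P := by
      intro P
      rw [UNI_evA]
      have h1 : (ψ : K[X][X] →+* 𝕂) =
          eval₂RingHom ((aeval x : K[X] →ₐ[K] 𝕂) : K[X] →+* 𝕂) y := by
        apply Polynomial.ringHom_ext'
        · apply Polynomial.ringHom_ext'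
          · ext a
            have e1 : ψ (C (C a)) = algebraMap K 𝕂 a := by
              have : (C (C a) : K[X][X]) = algebraMap K K[X][X] a := rfl
              rw [this, AlgHom.commutes]
            simp [e1]
          · simp [hx]
        · simp [hy]
      exact congrArg (fun φ : K[X][X] →+* 𝕂 => φ P) h1
    have e1 : evA x y F = 0 := by
      rw [← hev]
      exact hψ F (Ideal.subset_span (by simp))
    have e2 : aeval x (itc f (i - i₀) - C c) = 0 := by
      rw [← UNI_C x y, ← hev]
      exact hψ _ (Ideal.subset_span (by simp))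
    have e3 := hψ _ (Ideal.subset_span (s := {F, C (itc f (i - i₀) - C c),
      ((swp h).leadingCoeff.comp G).map C *
        (-(sub2 (itc f i) G (derivative h) * (derivative G).map C))})
        (Set.mem_insert_of_mem _ (Set.mem_insert_of_mem _ (Set.mem_singleton _))))
    rw [hev, UNI_mul, UNI_neg, UNI_mul, UNI_mapC, UNI_mapC, UNI_sub2, aeval_comp, hfi x e2] at e3
    have e4 : evA (algebraMap K 𝕂 ((itc f i₀).eval c)) (aeval y G) h = 0 := by
      rw [← hfi x e2, ← UNI_sub2]
      obtain ⟨w, hw⟩ := hdvd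
      rw [hw, UNI_mul, e1, zero_mul]
    obtain ⟨h5, h6, h7⟩ := hpt _ e4
    have h8 : aeval y (derivative G) ≠ 0 := fun h0 => h7 ⟨i, e', G, y, hg, hG', h0, rfl⟩
    exact (mul_ne_zero h6 (neg_ne_zero.2 (mul_ne_zero h5 h8))) e3

end Pool.Agent.NPC
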